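import Pool.Agent.Helper28.BE.Defs

/-!
Basic facts on the weights `wt` and the types `ty`.
-/

set_option autoImplicit false

namespace Pool.Agent.Helper28.BE

open Pool.Agent.Helper68.Moeller Pool.Agent.Helper52.Tao

theorem lam_pos {d : ℕ} (hd : 1 ≤ d) {x : ℝ} (hx : 0 ≤ x) : 0 < 1 + ((d : ℝ) - 1) * x := by
  have : (1 : ℝ) ≤ d := by exact_mod_cast hd
  nlinarith [mul_nonneg (by linarith : (0 : ℝ) ≤ (d : ℝ) - 1) hx]

theorem wt_pos {d : ℕ} (hd : 1 ≤ d) {x : ℝ} (hx : 0 < x) (w : List ℕ) : 0 < wt d x w := by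
  unfold wt
  have := lam_pos hd hx.le
  positivity

theorem wt_nonneg {d : ℕ} (hd : 1 ≤ d) {x : ℝ} (hx : 0 ≤ x) (w : List ℕ) : 0 ≤ wt d x w := by
  unfold wt
  have := lam_pos hd hx
  positivity

theorem wt_append (d : ℕ) (x : ℝ) (u v : List ℕ) : wt d x (u ++ v) = wt d x u * wt d x v := by
  unfold wt
  rw [sg_append, List.length_append, pow_add, pow_add]
  exact mul_div_mul_comm _ _ _ _

theorem wt_of_mem {d t : ℕ} {x : ℝ} {w : List ℕ} (hw : w ∈ W d t) :
    wt d x w = x ^ sg w / (1 + ((d : ℝ) - 1) * x) ^ t := by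
  unfold wt
  rw [length_of_mem_W hw]

theorem sum_wt {d : ℕ} (hd : 1 ≤ d) {x : ℝ} (hx : 0 ≤ x) (t : ℕ) : ∑ w ∈ W d t, wt d x w = 1 := by
  have h := lam_pos hd hx
  rw [Finset.sum_congr rfl fun w hw => wt_of_mem (x := x) hw, ← Finset.sum_div, sum_pow_sg d t x hd]
  exact div_self (by positivity)

theorem sum_wt_le {d : ℕ} (hd : 1 ≤ d) {x : ℝ} (hx : 0 ≤ x) {t : ℕ} {s : Finset (List ℕ)}
    (hs : s ⊆ W d t) : ∑ w ∈ s, wt d x w ≤ 1 := by
  rw [← sum_wt hd hx t]
  exact Finset.sum_le_sum_of_subset_of_nonneg hs fun w _ _ => wt_nonneg hd hx w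

theorem ty_length (b n : ℕ) (w : List ℕ) : (ty b n w).length = n := by
  induction n generalizing w with
  | zero => rfl
  | succ n ih => rw [ty, List.length_cons, ih]

theorem ty_append {d b : ℕ} {u : List ℕ} (hu : u ∈ W d b) (n : ℕ) (v : List ℕ) :
    ty b (n + 1) (u ++ v) = sg u :: ty b n v := by
  have h1 := length_of_mem_W hu
  rw [ty]
  congr 1
  · rw [List.take_append_of_le_length h1.ge, List.take_of_length_le h1.le]
  · rw [List.drop_append_of_le_length h1.ge, List.drop_of_length_le h1.le, List.nil_append]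

theorem ty_sum {d b : ℕ} : ∀ (n : ℕ) {w : List ℕ}, w ∈ W d (b * n) → (ty b n w).sum = sg w := by
  intro n
  induction n with
  | zero =>
    intro w hw
    rw [Nat.mul_zero, W, Finset.mem_singleton] at hw
    subst hw
    rfl
  | succ n ih =>
    intro w hw
    have h1 := mem_W.1 hw
    have hlen : (w.take b) ++ (w.drop b) = w := List.take_append_drop b w
    have hu : w.take b ∈ W d b := mem_W.2 ⟨by
      rw [List.length_take, h1.1]; exact Nat.min_eq_left (Nat.le_mul_of_pos_right b (Nat.succ_pos n)),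
      fun a ha => h1.2 a (List.mem_of_mem_take ha)⟩
    have hv : w.drop b ∈ W d (b * n) := mem_W.2 ⟨by rw [List.length_drop, h1.1, Nat.mul_succ]; omega,
      fun a ha => h1.2 a (List.mem_of_mem_drop ha)⟩
    rw [ty, List.sum_cons, ih hv]
    conv_rhs => rw [← hlen, sg_append]

theorem mem_WT {d b : ℕ} {G w : List ℕ} :
    w ∈ WT d b G ↔ w ∈ W d (b * G.length) ∧ ty b G.length w = G := by
  unfold WT
  rw [Finset.mem_filter]

theorem ty_le {d b : ℕ} : ∀ (n : ℕ) {w : List ℕ}, w ∈ W d (b * n) → ∀ g ∈ ty b n w, g ≤ b := by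
  intro n
  induction n with
  | zero => intro w _ g hg; simp [ty] at hg
  | succ n ih =>
    intro w hw g hg
    have h1 := mem_W.1 hw
    have hu : w.take b ∈ W d b := mem_W.2 ⟨by
      rw [List.length_take, h1.1]; exact Nat.min_eq_left (Nat.le_mul_of_pos_right b (Nat.succ_pos n)),
      fun a ha => h1.2 a (List.mem_of_mem_take ha)⟩
    have hv : w.drop b ∈ W d (b * n) := mem_W.2 ⟨by rw [List.length_drop, h1.1, Nat.mul_succ]; omega,
      fun a ha => h1.2 a (List.mem_of_mem_drop ha)⟩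
    rw [ty, List.mem_cons] at hg
    rcases hg with rfl | hg
    · exact (sg_le_length _).trans (length_of_mem_W hu).le
    · exact ih hv g hg

end Pool.Agent.Helper28.BE
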