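import Pool.Agent.Helper28.BE.Basic

/-!
Block BE-C (helper80) of MP_fd8838_nt: the mean square of the first block.
-/

set_option autoImplicit false

namespace Pool.Agent.Helper28.BE

open Pool.Agent.Helper68.Moeller Pool.Agent.Helper52.Tao ComplexConjugate

namespace BlockOne

/-- `|e(t) - 1| ≤ 7 |t|`. -/
theorem norm_ex_sub_one_le (t : ℝ) : ‖ex t - 1‖ ≤ 7 * |t| := by
  have h1 : ex t = Complex.exp (Complex.I * ((2 * Real.pi * t : ℝ) : ℂ)) := by
    unfold ex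
    congr 1
    push_cast
    ring
  rw [h1]
  refine Real.norm_exp_I_mul_ofReal_sub_one_le.trans ?_
  rw [Real.norm_eq_abs, abs_mul, abs_mul, abs_of_pos (by norm_num : (0 : ℝ) < 2),
    abs_of_pos Real.pi_pos]
  have := Real.pi_lt_d2
  have h0 := abs_nonneg t
  nlinarith

/-- Parseval on `ℤ / M` with repeated frequencies, as an inequality. -/
theorem parseval_le {ι : Type*} (M : ℕ) (hM : 0 < M) (s : Finset ι) (φ : ι → ℤ) (a : ι → ℂ)
    {A K : ℝ} (hA : ∀ i ∈ s, ‖a i‖ ≤ A)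
    (hK : ∀ i ∈ s, ((s.filter (fun j => (M : ℤ) ∣ φ i - φ j)).card : ℝ) ≤ K) :
    ∑ ξ ∈ Finset.range M, ‖∑ i ∈ s, a i * ex ((ξ : ℝ) * φ i / M)‖ ^ 2 ≤
      M * A * K * ∑ i ∈ s, ‖a i‖ := by
  classical
  have key : ((∑ ξ ∈ Finset.range M, ‖∑ i ∈ s, a i * ex ((ξ : ℝ) * φ i / M)‖ ^ 2 : ℝ) : ℂ) =
      ∑ i ∈ s, ∑ j ∈ s, a i * conj (a j) * if (M : ℤ) ∣ φ i - φ j then (M : ℂ) else 0 := by
    push_cast
    have h1 : ∀ z : ℂ, ((‖z‖ : ℂ)) ^ 2 = z * conj z := by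
      intro z
      rw [Complex.mul_conj, Complex.normSq_eq_norm_sq]
      push_cast; rfl
    simp only [h1, map_sum, map_mul]
    have h2 : ∀ ξ : ℕ, (∑ i ∈ s, a i * ex ((ξ : ℝ) * φ i / M)) *
        (∑ j ∈ s, conj (a j) * conj (ex ((ξ : ℝ) * φ j / M))) =
        ∑ i ∈ s, ∑ j ∈ s, a i * conj (a j) * ex ((ξ : ℝ) * ((φ i - φ j : ℤ) : ℝ) / M) := by
      intro ξ
      rw [Finset.sum_mul_sum]
      refine Finset.sum_congr rfl fun i _ => Finset.sum_congr rfl fun j _ => ?_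
      have h3 : ex ((ξ : ℝ) * ((φ i - φ j : ℤ) : ℝ) / M) =
          ex ((ξ : ℝ) * φ i / M) * conj (ex ((ξ : ℝ) * φ j / M)) := by
        rw [← ex_neg, ← ex_add]
        congr 1
        push_cast
        ring
      rw [h3]
      ring
    simp only [h2]
    rw [Finset.sum_comm]
    refine Finset.sum_congr rfl fun i _ => ?_
    rw [Finset.sum_comm]
    refine Finset.sum_congr rfl fun j _ => ?_
    rw [← Finset.mul_sum, sum_ex M hM]
  have h0 : 0 ≤ ∑ ξ ∈ Finset.range M, ‖∑ i ∈ s, a i * ex ((ξ : ℝ) * φ i / M)‖ ^ 2 :=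
    Finset.sum_nonneg fun _ _ => by positivity
  have hn : (∑ ξ ∈ Finset.range M, ‖∑ i ∈ s, a i * ex ((ξ : ℝ) * φ i / M)‖ ^ 2) =
      ‖((∑ ξ ∈ Finset.range M, ‖∑ i ∈ s, a i * ex ((ξ : ℝ) * φ i / M)‖ ^ 2 : ℝ) : ℂ)‖ := by
    rw [Complex.norm_real, Real.norm_eq_abs, abs_of_nonneg h0]
  rw [hn, key]
  refine (norm_sum_le _ _).trans ?_
  rw [Finset.mul_sum]
  refine Finset.sum_le_sum fun i hi => ?_
  refine (norm_sum_le _ _).trans ?_
  have h4 : ∀ j ∈ s, ‖a i * conj (a j) * if (M : ℤ) ∣ φ i - φ j then (M : ℂ) else 0‖ ≤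
      if (M : ℤ) ∣ φ i - φ j then M * A * ‖a i‖ else 0 := by
    intro j hj
    rw [norm_mul, norm_mul, RCLike.norm_conj]
    split_ifs with h
    · rw [Complex.norm_natCast]
      have h5 := hA j hj
      have h6 : ‖a i‖ * ‖a j‖ ≤ ‖a i‖ * A := mul_le_mul_of_nonneg_left h5 (norm_nonneg _)
      have h7 : (0 : ℝ) ≤ M := by positivity
      nlinarith
    · simp
  refine (Finset.sum_le_sum h4).trans ?_
  rw [← Finset.sum_filter, Finset.sum_const, nsmul_eq_mul]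
  have hA0 : 0 ≤ A := (norm_nonneg _).trans (hA i hi)
  have h8 : 0 ≤ M * A * ‖a i‖ := by positivity
  calc _ ≤ K * (M * A * ‖a i‖) := mul_le_mul_of_nonneg_right (hK i hi) h8
    _ = _ := by ring

/-- The number of integers in a residue class in an interval. -/
theorem card_class_le {ι : Type*} (M : ℕ) (hM : 0 < M) (s : Finset ι) (φ : ι → ℤ) {U : ℝ}
    (hinj : ∀ i ∈ s, ∀ j ∈ s, φ i = φ j → i = j) (hU : ∀ i ∈ s, |(φ i : ℝ)| ≤ U * M) (i : ι)
    (hU0 : 0 ≤ U) [DecidablePred fun j => (M : ℤ) ∣ φ i - φ j] :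
    ((s.filter (fun j => (M : ℤ) ∣ φ i - φ j)).card : ℝ) ≤ 2 * U + 1 := by
  classical
  have hM' : (0 : ℝ) < M := by exact_mod_cast hM
  set f : ι → ℤ := fun j => (φ i - φ j) / M with hf
  have hfs : ∀ j ∈ s.filter (fun j => (M : ℤ) ∣ φ i - φ j), (M : ℤ) * f j = φ i - φ j := by
    intro j hj
    rw [Finset.mem_filter] at hj
    exact Int.mul_ediv_cancel' hj.2
  have h1 : (s.filter (fun j => (M : ℤ) ∣ φ i - φ j)).card ≤
      (Finset.Icc ⌈(φ i : ℝ) / M - U⌉ ⌊(φ i : ℝ) / M + U⌋).card := by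
    refine Finset.card_le_card_of_injOn f ?_ ?_
    · intro j hj
      rw [Finset.mem_coe] at hj
      have h2 := hfs j hj
      have h3 : (M : ℝ) * f j = φ i - φ j := by exact_mod_cast h2
      have h4 := abs_le.1 (hU j (Finset.mem_filter.1 hj).1)
      rw [Finset.mem_coe, Finset.mem_Icc]
      constructor
      · rw [Int.ceil_le, sub_le_iff_le_add, div_le_iff₀ hM']
        nlinarith
      · rw [Int.le_floor, ← sub_le_iff_le_add, le_div_iff₀ hM']
        nlinarith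
    · intro j hj j' hj' hjj
      rw [Finset.mem_coe] at hj hj'
      have h2 := hfs j hj
      have h3 := hfs j' hj'
      have h5 : f j = f j' := hjj
      rw [h5] at h2
      exact hinj j (Finset.mem_filter.1 hj).1 j' (Finset.mem_filter.1 hj').1 (by linarith)
  have h2 : ((s.filter (fun j => (M : ℤ) ∣ φ i - φ j)).card : ℝ) ≤
      ((Finset.Icc ⌈(φ i : ℝ) / M - U⌉ ⌊(φ i : ℝ) / M + U⌋).card : ℝ) := by exact_mod_cast h1
  refine h2.trans ?_
  rw [Int.card_Icc]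
  have h3 : (((⌊(φ i : ℝ) / M + U⌋ + 1 - ⌈(φ i : ℝ) / M - U⌉).toNat : ℤ) : ℝ) ≤ 2 * U + 1 := by
    rw [Int.toNat_eq_max]
    push_cast
    refine max_le ?_ (by linarith)
    have h4 := Int.floor_le ((φ i : ℝ) / M + U)
    have h5 := Int.le_ceil ((φ i : ℝ) / M - U)
    linarith
  exact_mod_cast h3

end BlockOne

open BlockOne in
/-- BE-C -/
theorem block_one {d m : ℕ} (hd : 2 ≤ d) (hm : 2 ≤ m) (hco : Nat.Coprime m d) {r : ℤ → ℤ}
    (hr : Admissible d m r) {x : ℝ} (hx : 0 < x) {t k M Q : ℕ} {μ : ℤ} (hM : 0 < M)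
    (hμ : (M : ℤ) ∣ m * μ - 1) (hQ : Q ≤ m ^ k) {U : ℝ} (hU : 1 ≤ U) (s : Finset (List ℕ))
    (hs : ∀ v ∈ s, v ∈ W d t ∧ sg v = k ∧ |(Off d m r v : ℝ)| ≤ U * (m : ℝ) ^ k) (l : ℕ)
    (hl : l < Q) :
    ∑ j ∈ Finset.range Q,
      ‖∑ v ∈ s, (wt d x v : ℂ) *
        ex (((((j : ℤ) - l) * (μ ^ k * Off d m r v) : ℤ) : ℝ) / M)‖ ^ 2 ≤
      6 * U * ((m : ℝ) * x) ^ k / (1 + ((d : ℝ) - 1) * x) ^ t +
        2 * Q * (7 * Q * U / M) ^ 2 := by
  classical
  have hM' : (0 : ℝ) < M := by exact_mod_cast hM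
  have hm0 : 0 < m := by omega
  have hm' : (0 : ℝ) < (m : ℝ) ^ k := by
    have : (0 : ℝ) < m := by exact_mod_cast hm0
    positivity
  have hL := lam_pos (d := d) (by omega) hx.le
  set Λ : ℝ := (1 + ((d : ℝ) - 1) * x) ^ t with hΛ
  have hΛ0 : 0 < Λ := by positivity
  -- the reciprocity
  obtain ⟨c, hc⟩ : (M : ℤ) ∣ (m * μ) ^ k - 1 := hμ.trans (by simpa using sub_dvd_pow_sub_pow (m * μ) 1 k)
  have hcR : (μ : ℝ) ^ k * (m : ℝ) ^ k = 1 + M * c := by
    have h1 : ((m : ℝ) * μ) ^ k - 1 = M * c := by exact_mod_cast hc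
    rw [mul_pow] at h1
    linarith
  have hphase : ∀ (j : ℕ) (v : List ℕ),
      ((((j : ℤ) - l) * (μ ^ k * Off d m r v) : ℤ) : ℝ) / M =
        ((j : ℝ) * ((c * Off d m r v : ℤ) : ℝ) / ((m ^ k : ℕ) : ℝ) +
          -((l : ℝ) * ((c * Off d m r v : ℤ) : ℝ) / ((m ^ k : ℕ) : ℝ))) +
          ((j : ℝ) - l) * (Off d m r v : ℝ) / (M * (m : ℝ) ^ k) := by
    intro j v
    push_cast
    have h1 : (μ : ℝ) ^ k = (1 + M * c) / (m : ℝ) ^ k := by
      rw [eq_div_iff hm'.ne', hcR]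
    rw [h1]
    field_simp
    ring
  set a : List ℕ → ℂ := fun v => (wt d x v : ℂ) *
    ex (-((l : ℝ) * ((c * Off d m r v : ℤ) : ℝ) / ((m ^ k : ℕ) : ℝ))) with ha
  set P : ℕ → ℂ := fun j => ∑ v ∈ s, a v *
    ex ((j : ℝ) * ((c * Off d m r v : ℤ) : ℝ) / ((m ^ k : ℕ) : ℝ)) with hP
  have hsub : s ⊆ W d t := fun v hv => (hs v hv).1
  have hsum := sum_wt_le (d := d) (by omega) hx.le hsub
  have hna : ∀ v, ‖a v‖ = wt d x v := by
    intro v
    rw [ha]
    simp only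
    rw [norm_mul, norm_ex, mul_one, Complex.norm_real, Real.norm_eq_abs,
      abs_of_nonneg (wt_nonneg (by omega) hx.le v)]
  -- the error
  have herr : ∀ j < Q, ‖(∑ v ∈ s, (wt d x v : ℂ) *
        ex (((((j : ℤ) - l) * (μ ^ k * Off d m r v) : ℤ) : ℝ) / M)) - P j‖ ≤ 7 * Q * U / M := by
    intro j hj
    rw [hP]
    simp only
    rw [← Finset.sum_sub_distrib]
    refine (norm_sum_le _ _).trans ?_
    have h1 : ∀ v ∈ s, ‖(wt d x v : ℂ) *
        ex (((((j : ℤ) - l) * (μ ^ k * Off d m r v) : ℤ) : ℝ) / M) - a v *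
          ex ((j : ℝ) * ((c * Off d m r v : ℤ) : ℝ) / ((m ^ k : ℕ) : ℝ))‖ ≤
        wt d x v * (7 * Q * U / M) := by
      intro v hv
      obtain ⟨h1, h2, h3⟩ := hs v hv
      rw [hphase j v, ex_add, ex_add, ha]
      simp only
      set e1 := ex ((j : ℝ) * ((c * Off d m r v : ℤ) : ℝ) / ((m ^ k : ℕ) : ℝ))
      set e2 := ex (-((l : ℝ) * ((c * Off d m r v : ℤ) : ℝ) / ((m ^ k : ℕ) : ℝ)))
      set y := ((j : ℝ) - l) * (Off d m r v : ℝ) / (M * (m : ℝ) ^ k) with hy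
      have h4 : (wt d x v : ℂ) * (e1 * e2 * ex y) - (wt d x v : ℂ) * e2 * e1 =
          (wt d x v : ℂ) * (e1 * e2 * (ex y - 1)) := by ring
      rw [h4, norm_mul, norm_mul, norm_mul, norm_ex, norm_ex, one_mul, one_mul, Complex.norm_real,
        Real.norm_eq_abs, abs_of_nonneg (wt_nonneg (by omega) hx.le v)]
      refine mul_le_mul_of_nonneg_left ?_ (wt_nonneg (by omega) hx.le v)
      refine (norm_ex_sub_one_le y).trans ?_
      have h5 : |y| ≤ Q * U / M := by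
        rw [hy, abs_div, abs_mul, abs_of_pos (by positivity : (0 : ℝ) < M * (m : ℝ) ^ k),
          div_le_div_iff₀ (by positivity) hM']
        have h6 : |(j : ℝ) - l| ≤ Q := by
          have hj' : (j : ℝ) ≤ Q := by exact_mod_cast hj.le
          have hl' : (l : ℝ) ≤ Q := by exact_mod_cast hl.le
          have hj0 : (0 : ℝ) ≤ j := by positivity
          have hl0 : (0 : ℝ) ≤ l := by positivity
          rw [abs_le]
          constructor <;> linarith
        have h7 : |(j : ℝ) - l| * |(Off d m r v : ℝ)| ≤ Q * (U * (m : ℝ) ^ k) :=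
          mul_le_mul h6 h3 (abs_nonneg _) (by positivity)
        calc |(j : ℝ) - l| * |(Off d m r v : ℝ)| * M ≤ Q * (U * (m : ℝ) ^ k) * M :=
              mul_le_mul_of_nonneg_right h7 hM'.le
          _ = _ := by ring
      calc 7 * |y| ≤ 7 * (Q * U / M) := by linarith
        _ = _ := by ring
    refine (Finset.sum_le_sum h1).trans ?_
    rw [← Finset.sum_mul]
    have h2 : 0 ≤ 7 * Q * U / M := by positivity
    calc _ ≤ 1 * (7 * Q * U / M) := mul_le_mul_of_nonneg_right hsum h2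
      _ = _ := one_mul _
  -- squares
  have hsq : ∀ j ∈ Finset.range Q, ‖∑ v ∈ s, (wt d x v : ℂ) *
        ex (((((j : ℤ) - l) * (μ ^ k * Off d m r v) : ℤ) : ℝ) / M)‖ ^ 2 ≤
        2 * ‖P j‖ ^ 2 + 2 * (7 * Q * U / M) ^ 2 := by
    intro j hj
    have h1 := herr j (Finset.mem_range.1 hj)
    set z := ∑ v ∈ s, (wt d x v : ℂ) *
        ex (((((j : ℤ) - l) * (μ ^ k * Off d m r v) : ℤ) : ℝ) / M)
    have h2 : ‖z‖ ≤ ‖P j‖ + 7 * Q * U / M := by
      calc ‖z‖ = ‖P j + (z - P j)‖ := by rw [add_sub_cancel]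
        _ ≤ ‖P j‖ + ‖z - P j‖ := norm_add_le _ _
        _ ≤ _ := by linarith
    have h3 : ‖z‖ ^ 2 ≤ (‖P j‖ + 7 * Q * U / M) ^ 2 := pow_le_pow_left₀ (norm_nonneg _) h2 2
    nlinarith [sq_nonneg (‖P j‖ - 7 * Q * U / M)]
  refine (Finset.sum_le_sum hsq).trans ?_
  rw [Finset.sum_add_distrib, ← Finset.mul_sum, Finset.sum_const, Finset.card_range, nsmul_eq_mul]
  have hmain : ∑ j ∈ Finset.range Q, ‖P j‖ ^ 2 ≤ 3 * U * ((m : ℝ) * x) ^ k / Λ := by
    have h1 : ∑ j ∈ Finset.range Q, ‖P j‖ ^ 2 ≤ ∑ j ∈ Finset.range (m ^ k), ‖P j‖ ^ 2 :=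
      Finset.sum_le_sum_of_subset_of_nonneg (Finset.range_mono hQ) fun _ _ _ => by positivity
    refine h1.trans ?_
    have hcop : IsCoprime ((m ^ k : ℕ) : ℤ) c := by
      refine ⟨μ ^ k, -M, ?_⟩
      have : (m * μ) ^ k - 1 = M * c := hc
      rw [mul_pow] at this
      push_cast
      linarith
    have hinj : ∀ v ∈ s, ∀ v' ∈ s, Off d m r v = Off d m r v' → v = v' := by
      intro v hv v' hv' h
      obtain ⟨h2, h3, -⟩ := hs v hv
      obtain ⟨h4, h5, -⟩ := hs v' hv'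
      exact Off_inj hd hco hr h2 h4 (h3.trans h5.symm) h
    have h2 := parseval_le (m ^ k) (pow_pos hm0 k) s (fun v => c * Off d m r v) a
      (A := x ^ k / Λ) (K := 2 * U + 1) (by
        intro v hv
        obtain ⟨h3, h4, -⟩ := hs v hv
        rw [hna, wt_of_mem h3, h4]) (by
        intro v hv
        have h3 := card_class_le (m ^ k) (pow_pos hm0 k) s (fun v => Off d m r v) (U := U) hinj
          (fun v hv => by
            obtain ⟨-, -, h5⟩ := hs v hv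
            push_cast
            exact h5) v (by linarith)
        refine le_trans ?_ h3
        have h4 : s.filter (fun j => ((m ^ k : ℕ) : ℤ) ∣ c * Off d m r v - c * Off d m r j) ⊆
            s.filter (fun j => ((m ^ k : ℕ) : ℤ) ∣ Off d m r v - Off d m r j) := by
          intro j hj
          rw [Finset.mem_filter] at hj ⊢
          refine ⟨hj.1, ?_⟩
          have h6 := hj.2
          rw [← mul_sub] at h6
          exact hcop.dvd_of_dvd_mul_left h6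
        exact_mod_cast Finset.card_le_card h4)
    refine h2.trans ?_
    simp only [hna]
    push_cast
    have h3 : 0 ≤ (m : ℝ) ^ k * (x ^ k / Λ) := by positivity
    have h4 : (2 * U + 1) * ∑ v ∈ s, wt d x v ≤ 3 * U * 1 := by
      refine mul_le_mul (by linarith) hsum ?_ (by linarith)
      exact Finset.sum_nonneg fun v _ => wt_nonneg (by omega) hx.le v
    calc (m : ℝ) ^ k * (x ^ k / Λ) * (2 * U + 1) * ∑ v ∈ s, wt d x v =
          (m : ℝ) ^ k * (x ^ k / Λ) * ((2 * U + 1) * ∑ v ∈ s, wt d x v) := by ring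
      _ ≤ (m : ℝ) ^ k * (x ^ k / Λ) * (3 * U * 1) := mul_le_mul_of_nonneg_left h4 h3
      _ = _ := by rw [mul_pow]; ring
  have h5 : 2 * ∑ j ∈ Finset.range Q, ‖P j‖ ^ 2 ≤ 6 * U * ((m : ℝ) * x) ^ k / Λ := by
    calc 2 * ∑ j ∈ Finset.range Q, ‖P j‖ ^ 2 ≤ 2 * (3 * U * ((m : ℝ) * x) ^ k / Λ) := by linarith
      _ = _ := by ring
  have h6 : (Q : ℝ) * (2 * (7 * Q * U / M) ^ 2) = 2 * Q * (7 * Q * U / M) ^ 2 := by ring
  rw [h6]
  linarith

end Pool.Agent.Helper28.BE
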