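import Pool.Agent.Helper28.BE.Basic

/-!
BE-D1 (helper46): the gain of one chunk at a white point.
-/

set_option autoImplicit false

namespace Pool.Agent.Helper28.BE

open Pool.Agent.Helper68.Moeller Pool.Agent.Helper52.Tao

/-- The cosine is bounded away from `1` in absolute value away from the integers. -/
theorem abs_cos_le_of_far {ε θ : ℝ} (hε : 0 ≤ ε)
    (h : ∀ z : ℤ, ε ≤ |θ - z|) : |Real.cos (Real.pi * θ)| ≤ Real.cos (Real.pi * ε) := by
  set z : ℤ := round θ with hz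
  set ψ : ℝ := θ - z with hψ
  have h1 : |ψ| ≤ 1 / 2 := abs_sub_round θ
  have h2 : ε ≤ |ψ| := h z
  have h3 : |Real.cos (Real.pi * θ)| = |Real.cos (Real.pi * |ψ|)| := by
    have e1 : Real.pi * θ = Real.pi * ψ + z * Real.pi := by rw [hψ]; ring
    rw [e1, Real.cos_add_int_mul_pi, abs_mul, abs_zpow, abs_neg, abs_one, one_zpow, one_mul]
    congr 1
    rw [← Real.cos_abs (Real.pi * ψ), abs_mul, abs_of_pos Real.pi_pos]
  have hpi := Real.pi_pos
  have h4 : 0 ≤ Real.cos (Real.pi * |ψ|) := by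
    apply Real.cos_nonneg_of_neg_pi_div_two_le_of_le
    · have : 0 ≤ Real.pi * |ψ| := by positivity
      linarith
    · nlinarith
  rw [h3, abs_of_nonneg h4]
  apply Real.cos_le_cos_of_nonneg_of_le_pi
  · positivity
  · nlinarith
  · exact mul_le_mul_of_nonneg_left h2 hpi.le

/-- BE-D1 -/
theorem chunk_gain {d : ℕ} (hd : 2 ≤ d) {x ε : ℝ} (hx : 0 < x) (hε : 0 < ε) (b : ℕ) :
    ∃ κ : ℝ, 0 < κ ∧ κ < 1 ∧ ∀ (m : ℕ) (r : ℤ → ℤ) (g : ℕ), Proper b g → ∀ α : ℝ,
      (∀ z : ℤ, ε ≤ |α * ((m : ℝ) ^ (g - 1) * ((d : ℝ) - 1) * (r 1 : ℝ)) - z|) →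
      ‖∑ u ∈ (W d b).filter (fun u => sg u = g), (wt d x u : ℂ) * ex (α * (Off d m r u : ℝ))‖ ≤
        (1 - κ) * ∑ u ∈ (W d b).filter (fun u => sg u = g), wt d x u := by
  have hd1 : 1 ≤ d := by omega
  set Λ : ℝ := 1 + ((d : ℝ) - 1) * x with hΛ
  have hΛ0 : 0 < Λ := lam_pos hd1 hx.le
  set ε' : ℝ := min ε (1 / 2) with hε'
  have hε'0 : 0 < ε' := lt_min hε (by norm_num)
  have hε'1 : ε' ≤ 1 / 2 := min_le_right _ _
  set y : ℝ := min x 1 with hy
  have hy0 : 0 < y := lt_min hx one_pos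
  have hpi := Real.pi_pos
  have hcos : Real.cos (Real.pi * ε') < 1 := by
    have h1 : Real.cos (Real.pi * ε') < Real.cos 0 := by
      apply Real.cos_lt_cos_of_nonneg_of_le_pi le_rfl
      · nlinarith
      · positivity
    rwa [Real.cos_zero] at h1
  set κ : ℝ := min (1 / 2) (2 * (y ^ b / Λ ^ b) * (1 - Real.cos (Real.pi * ε'))) with hκ
  have hκ0 : 0 < κ := by
    apply lt_min (by norm_num)
    have : 0 < 1 - Real.cos (Real.pi * ε') := by linarith
    positivity
  have hκ1 : κ < 1 := lt_of_le_of_lt (min_le_left _ _) (by norm_num)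
  refine ⟨κ, hκ0, hκ1, ?_⟩
  intro m r g hg α hα
  obtain ⟨hg1, hg2⟩ := hg
  -- the two special words
  set u0 : List ℕ := List.replicate (g - 1) 1 ++ List.replicate (b - 1 - g) 0 with hu0
  have hsg0 : sg u0 = g - 1 := by
    rw [hu0, sg_append]
    have e1 : ∀ n, sg (List.replicate n 1) = n := by
      intro n
      induction n with
      | zero => rfl
      | succ n ih => rw [List.replicate_succ, sg_cons, ih, nz_of_ne one_ne_zero]; omega
    have e2 : ∀ n, sg (List.replicate n 0) = 0 := by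
      intro n
      induction n with
      | zero => rfl
      | succ n ih => rw [List.replicate_succ, sg_cons, ih, nz_zero]
    rw [e1, e2]
    rfl
  have hlen0 : u0.length = b - 2 := by
    rw [hu0, List.length_append, List.length_replicate, List.length_replicate]
    omega
  have hmem0 : ∀ a ∈ u0, a < d := by
    intro a ha
    rw [hu0, List.mem_append] at ha
    rcases ha with ha | ha
    · rw [List.eq_of_mem_replicate ha]; omega
    · rw [List.eq_of_mem_replicate ha]; omega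
  set w1 : List ℕ := u0 ++ [1, 0] with hw1
  set w2 : List ℕ := u0 ++ [0, 1] with hw2
  have hsg1 : sg w1 = g := by
    rw [hw1, sg_append, hsg0]
    simp [sg_cons, nz_of_ne one_ne_zero]
    omega
  have hsg2 : sg w2 = g := by
    rw [hw2, sg_append, hsg0]
    simp [sg_cons, nz_of_ne one_ne_zero]
    omega
  have hW1 : w1 ∈ W d b := by
    rw [mem_W]
    refine ⟨by rw [hw1, List.length_append, hlen0]; simp; omega, ?_⟩
    intro a ha
    rw [hw1, List.mem_append] at ha
    rcases ha with ha | ha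
    · exact hmem0 a ha
    · simp at ha; omega
  have hW2 : w2 ∈ W d b := by
    rw [mem_W]
    refine ⟨by rw [hw2, List.length_append, hlen0]; simp; omega, ?_⟩
    intro a ha
    rw [hw2, List.mem_append] at ha
    rcases ha with ha | ha
    · exact hmem0 a ha
    · simp at ha; omega
  set S := (W d b).filter (fun u => sg u = g) with hS
  have hS1 : w1 ∈ S := Finset.mem_filter.mpr ⟨hW1, hsg1⟩
  have hS2 : w2 ∈ S := Finset.mem_filter.mpr ⟨hW2, hsg2⟩
  have hne : w1 ≠ w2 := by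
    intro h
    rw [hw1, hw2] at h
    have := List.append_cancel_left h
    simp at this
  have hS2' : w2 ∈ S.erase w1 := Finset.mem_erase.mpr ⟨hne.symm, hS2⟩
  -- the difference of the offsets
  have hoff : (Off d m r w1 : ℝ) - Off d m r w2 =
      (m : ℝ) ^ (g - 1) * ((d : ℝ) - 1) * (r 1 : ℝ) := by
    have : Off d m r w1 - Off d m r w2 = (m : ℤ) ^ (g - 1) * ((d : ℤ) - 1) * r 1 := by
      rw [hw1, hw2, Off_append d m r u0 [1, 0], Off_append d m r u0 [0, 1], hsg0]
      simp only [Off, nz_zero, nz_of_ne one_ne_zero, rr_zero, List.length_cons, List.length_nil]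
      rw [rr_of_ne (r := r) one_ne_zero]
      push_cast
      ring
    exact_mod_cast this
  have hwt1 : wt d x w1 = x ^ g / Λ ^ b := by rw [wt_of_mem hW1, hsg1]
  have hwt2 : wt d x w2 = x ^ g / Λ ^ b := by rw [wt_of_mem hW2, hsg2]
  have hwtpos : 0 < x ^ g / Λ ^ b := by positivity
  have hwtlow : y ^ b / Λ ^ b ≤ x ^ g / Λ ^ b := by
    apply div_le_div_of_nonneg_right _ (by positivity)
    calc y ^ b ≤ y ^ g := pow_le_pow_of_le_one hy0.le (min_le_right _ _) (by omega)
      _ ≤ x ^ g := pow_le_pow_left₀ hy0.le (min_le_left _ _) g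
  -- the pair
  have hpair : ‖(wt d x w1 : ℂ) * ex (α * (Off d m r w1 : ℝ)) +
      (wt d x w2 : ℂ) * ex (α * (Off d m r w2 : ℝ))‖ ≤
      x ^ g / Λ ^ b * (2 * Real.cos (Real.pi * ε')) := by
    rw [hwt1, hwt2, ← mul_add, norm_mul, Complex.norm_real, Real.norm_eq_abs,
      abs_of_pos hwtpos]
    apply mul_le_mul_of_nonneg_left _ hwtpos.le
    have e1 : α * (Off d m r w1 : ℝ) = α * (Off d m r w2 : ℝ) +
        α * ((m : ℝ) ^ (g - 1) * ((d : ℝ) - 1) * (r 1 : ℝ)) := by
      rw [← hoff]; ring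
    rw [e1, ex_add]
    have e2 : ∀ A B : ℂ, A * B + A = A * (1 + B) := fun A B => by ring
    rw [e2, norm_mul, norm_ex, one_mul, norm_one_add_ex]
    have e3 := abs_cos_le_of_far hε'0.le (fun z => (min_le_left ε (1 / 2)).trans (hα z))
    linarith
  -- assembly
  have hsum1 : ∑ u ∈ S, (wt d x u : ℂ) * ex (α * (Off d m r u : ℝ)) =
      ((wt d x w1 : ℂ) * ex (α * (Off d m r w1 : ℝ)) +
        (wt d x w2 : ℂ) * ex (α * (Off d m r w2 : ℝ))) +
        ∑ u ∈ (S.erase w1).erase w2, (wt d x u : ℂ) * ex (α * (Off d m r u : ℝ)) := by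
    rw [← Finset.add_sum_erase S _ hS1, ← Finset.add_sum_erase (S.erase w1) _ hS2', add_assoc]
  have hsum2 : ∑ u ∈ S, wt d x u = (wt d x w1 + wt d x w2) +
        ∑ u ∈ (S.erase w1).erase w2, wt d x u := by
    rw [← Finset.add_sum_erase S _ hS1, ← Finset.add_sum_erase (S.erase w1) _ hS2', add_assoc]
  have hrest : ‖∑ u ∈ (S.erase w1).erase w2, (wt d x u : ℂ) * ex (α * (Off d m r u : ℝ))‖ ≤
      ∑ u ∈ (S.erase w1).erase w2, wt d x u := by
    refine (norm_sum_le _ _).trans (Finset.sum_le_sum fun u _ => ?_)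
    rw [norm_mul, norm_ex, mul_one, Complex.norm_real, Real.norm_eq_abs,
      abs_of_nonneg (wt_nonneg hd1 hx.le u)]
  have hle1 : ∑ u ∈ S, wt d x u ≤ 1 := sum_wt_le hd1 hx.le (Finset.filter_subset _ _)
  have hκS : κ * ∑ u ∈ S, wt d x u ≤ 2 * (x ^ g / Λ ^ b) * (1 - Real.cos (Real.pi * ε')) := by
    calc κ * ∑ u ∈ S, wt d x u ≤ κ * 1 := mul_le_mul_of_nonneg_left hle1 hκ0.le
      _ = κ := mul_one _
      _ ≤ 2 * (y ^ b / Λ ^ b) * (1 - Real.cos (Real.pi * ε')) := min_le_right _ _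
      _ ≤ _ := by
        apply mul_le_mul_of_nonneg_right _ (by linarith)
        linarith
  rw [hsum1]
  refine (norm_add_le _ _).trans ?_
  rw [hwt1, hwt2] at hsum2
  have : (1 - κ) * ∑ u ∈ S, wt d x u = ∑ u ∈ S, wt d x u - κ * ∑ u ∈ S, wt d x u := by ring
  rw [this]
  linarith

end Pool.Agent.Helper28.BE
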