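import Pool.Agent.Helper28.BE.Basic

/-!
BE-E1: Erdos-Kahane count of the residues with few white chunks.
-/

set_option autoImplicit false

namespace Pool.Agent.Helper28.BE

open Pool.Agent.Helper68.Moeller Pool.Agent.Helper52.Tao

theorem e1_tail_sum_le (G : List ℕ) : G.tail.sum ≤ G.sum := by
  cases G with
  | nil => simp
  | cons g G => simp

/-- the white condition at the head only depends on the residue -/
theorem e1_white_periodic {d m b : ℕ} (hm : 2 ≤ m) {ε : ℝ} (n B A : ℕ) (h : B ≤ A) (ρ y : ℤ) :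
    (∀ z : ℤ, 2 * ε ≤ |((ρ + (m : ℤ) ^ A * y : ℤ) : ℝ) * (d : ℝ) ^ (b * n) / (m : ℝ) ^ B - z|) ↔
      ∀ z : ℤ, 2 * ε ≤ |(ρ : ℝ) * (d : ℝ) ^ (b * n) / (m : ℝ) ^ B - z| := by
  have hm0 : (m : ℝ) ≠ 0 := by positivity
  have key : ∀ z : ℤ, ((ρ + (m : ℤ) ^ A * y : ℤ) : ℝ) * (d : ℝ) ^ (b * n) / (m : ℝ) ^ B -
      ((z + (m : ℤ) ^ (A - B) * y * (d : ℤ) ^ (b * n) : ℤ) : ℝ) =
      (ρ : ℝ) * (d : ℝ) ^ (b * n) / (m : ℝ) ^ B - z := by
    intro z
    have e1 : (m : ℝ) ^ A = (m : ℝ) ^ B * (m : ℝ) ^ (A - B) := by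
      rw [← pow_add]; congr 1; omega
    push_cast
    rw [e1]
    field_simp
    ring
  constructor
  · intro H z
    rw [← key z]
    exact H _
  · intro H z
    have := key (z - (m : ℤ) ^ (A - B) * y * (d : ℤ) ^ (b * n))
    rw [sub_add_cancel] at this
    rw [this]
    exact H _

theorem wr_periodic {d m b Δ : ℕ} (hm : 2 ≤ m) {ε : ℝ} (G : List ℕ) (A : ℕ)
    (h : Δ + 1 + G.tail.sum ≤ A) (ρ y : ℤ) :
    wr d m b Δ ε (ρ + (m : ℤ) ^ A * y) G = wr d m b Δ ε ρ G := by
  induction G with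
  | nil => rfl
  | cons g G ih =>
    rw [List.tail_cons] at h
    have h1 := ih (by have := e1_tail_sum_le G; omega)
    unfold wr
    rw [h1]
    congr 1
    have h2 := e1_white_periodic (d := d) (b := b) hm (ε := ε) G.length (Δ + 1 + G.sum) A h ρ y
    by_cases hp : Proper b g ∧ ∀ z : ℤ,
        2 * ε ≤ |(ρ : ℝ) * (d : ℝ) ^ (b * G.length) / (m : ℝ) ^ (Δ + 1 + G.sum) - z|
    · rw [if_pos hp, if_pos ⟨hp.1, h2.2 hp.2⟩]
    · rw [if_neg hp, if_neg fun h => hp ⟨h.1, h2.1 h.2⟩]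

theorem wr_mod {d m b Δ : ℕ} (hm : 2 ≤ m) {ε : ℝ} (G : List ℕ) (A : ℕ)
    (h : Δ + 1 + G.tail.sum ≤ A) (ρ : ℕ) :
    wr d m b Δ ε ((ρ % m ^ A : ℕ) : ℤ) G = wr d m b Δ ε (ρ : ℤ) G := by
  have h1 := wr_periodic (d := d) (b := b) hm (ε := ε) G A h ((ρ % m ^ A : ℕ) : ℤ)
    ((ρ / m ^ A : ℕ) : ℤ)
  rw [← h1]
  congr 1
  have := Nat.mod_add_div ρ (m ^ A)
  exact_mod_cast this

theorem e1_card_fiber_le {m a e : ℕ} (hm : 2 ≤ m) (s : Finset ℕ) (hs : s ⊆ Finset.range (m ^ (a + e)))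
    (r : ℕ) : (s.filter (fun ρ => ρ % m ^ a = r)).card ≤ m ^ e := by
  have ha : 0 < m ^ a := by positivity
  have h1 : (s.filter (fun ρ => ρ % m ^ a = r)).card ≤ (Finset.range (m ^ e)).card := by
    apply Finset.card_le_card_of_injOn (fun ρ => ρ / m ^ a)
    · intro ρ hρ
      rw [Finset.mem_coe, Finset.mem_filter] at hρ
      have := Finset.mem_range.1 (hs hρ.1)
      rw [Finset.mem_coe, Finset.mem_range]
      apply Nat.div_lt_of_lt_mul
      rw [← pow_add]
      exact this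
    · intro ρ hρ ρ' hρ' h
      rw [Finset.mem_coe, Finset.mem_filter] at hρ hρ'
      simp only at h
      rw [← Nat.mod_add_div ρ (m ^ a), ← Nat.mod_add_div ρ' (m ^ a), hρ.2, hρ'.2, h]
  rwa [Finset.card_range] at h1

/-- two black lifts of the same residue coincide -/
theorem e1_black_unique {d m b : ℕ} (hm : 2 ≤ m) (hco : Nat.Coprime m d) {ε : ℝ}
    (hε0 : 0 < ε) (hε : 4 * ε * (m : ℝ) ^ b ≤ 1) {a e n : ℕ} (he : e ≤ b) {ρ ρ' : ℕ}
    (h1 : ρ < m ^ (a + e)) (h2 : ρ' < m ^ (a + e)) (hmod : ρ % m ^ a = ρ' % m ^ a)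
    (hb : ∃ z : ℤ, |((ρ : ℤ) : ℝ) * (d : ℝ) ^ (b * n) / (m : ℝ) ^ (a + e) - z| < 2 * ε)
    (hb' : ∃ z : ℤ, |((ρ' : ℤ) : ℝ) * (d : ℝ) ^ (b * n) / (m : ℝ) ^ (a + e) - z| < 2 * ε) :
    ρ = ρ' := by
  obtain ⟨z, hz⟩ := hb
  obtain ⟨z', hz'⟩ := hb'
  have hm0 : (0 : ℝ) < m := by positivity
  set y := ρ / m ^ a with hy
  set y' := ρ' / m ^ a with hy'
  set r := ρ % m ^ a with hr
  have e1 : r + m ^ a * y = ρ := Nat.mod_add_div ρ (m ^ a)
  have e2 : r + m ^ a * y' = ρ' := by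
    have := Nat.mod_add_div ρ' (m ^ a)
    rw [← hmod] at this
    exact this
  have hylt : y < m ^ e := by
    apply Nat.div_lt_of_lt_mul
    rw [← pow_add]; exact h1
  have hylt' : y' < m ^ e := by
    apply Nat.div_lt_of_lt_mul
    rw [← pow_add]; exact h2
  have h3 : |((ρ : ℤ) : ℝ) * (d : ℝ) ^ (b * n) / (m : ℝ) ^ (a + e) - z -
      (((ρ' : ℤ) : ℝ) * (d : ℝ) ^ (b * n) / (m : ℝ) ^ (a + e) - z')| < 4 * ε := by
    have := abs_sub (((ρ : ℤ) : ℝ) * (d : ℝ) ^ (b * n) / (m : ℝ) ^ (a + e) - z)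
      (((ρ' : ℤ) : ℝ) * (d : ℝ) ^ (b * n) / (m : ℝ) ^ (a + e) - z')
    linarith
  have h4 : ((ρ : ℤ) : ℝ) * (d : ℝ) ^ (b * n) / (m : ℝ) ^ (a + e) - z -
      (((ρ' : ℤ) : ℝ) * (d : ℝ) ^ (b * n) / (m : ℝ) ^ (a + e) - z') =
      ((((y : ℤ) - y') * (d : ℤ) ^ (b * n) - (z - z') * (m : ℤ) ^ e : ℤ) : ℝ) / (m : ℝ) ^ e := by
    rw [← e1, ← e2]
    push_cast
    rw [pow_add]
    field_simp
    ring
  rw [h4, abs_div, abs_of_pos (by positivity : (0 : ℝ) < (m : ℝ) ^ e),
    div_lt_iff₀ (by positivity)] at h3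
  have h5 : 4 * ε * (m : ℝ) ^ e ≤ 1 := by
    refine le_trans ?_ hε
    apply mul_le_mul_of_nonneg_left _ (by positivity)
    exact pow_le_pow_right₀ (by exact_mod_cast (by omega : 1 ≤ m)) he
  have h6 : |(((y : ℤ) - y') * (d : ℤ) ^ (b * n) - (z - z') * (m : ℤ) ^ e)| < 1 := by
    have := h3.trans_le h5
    exact_mod_cast this
  have h7 : ((y : ℤ) - y') * (d : ℤ) ^ (b * n) = (z - z') * (m : ℤ) ^ e := by
    have := Int.abs_lt_one_iff.1 h6
    linarith
  have h8 : ((m : ℤ) ^ e) ∣ ((y : ℤ) - y') * (d : ℤ) ^ (b * n) := ⟨z - z', by rw [h7]; ring⟩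
  have hcop : IsCoprime ((m : ℤ) ^ e) ((d : ℤ) ^ (b * n)) :=
    (Nat.isCoprime_iff_coprime.2 hco).pow
  have h9 : ((m : ℤ) ^ e) ∣ ((y : ℤ) - y') := hcop.dvd_of_dvd_mul_right h8
  have h10 : (y : ℤ) - y' = 0 := by
    apply Int.eq_zero_of_abs_lt_dvd h9
    have hy1 : (y : ℤ) < (m : ℤ) ^ e := by exact_mod_cast hylt
    have hy2 : (y' : ℤ) < (m : ℤ) ^ e := by exact_mod_cast hylt'
    have hy3 : (0 : ℤ) ≤ (y : ℤ) := Int.natCast_nonneg y
    have hy4 : (0 : ℤ) ≤ (y' : ℤ) := Int.natCast_nonneg y'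
    rw [abs_lt]
    constructor <;> linarith
  have h11 : y = y' := by
    have : (y : ℤ) = y' := by linarith
    exact_mod_cast this
  rw [← e1, ← e2, h11]

open Classical in
/-- the count at the natural modulus -/
theorem e1_count_main {d m b Δ : ℕ} (hm : 2 ≤ m) (hco : Nat.Coprime m d) {ε : ℝ}
    (hε0 : 0 < ε) (hε : 4 * ε * (m : ℝ) ^ b ≤ 1) (G : List ℕ) (hG : ∀ g ∈ G, g ≤ b) (c : ℕ) :
    ((Finset.range (m ^ (Δ + 1 + G.tail.sum))).filter
      (fun ρ : ℕ => wr d m b Δ ε ρ G ≤ c)).card ≤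
      m ^ (Δ + 1) * 2 ^ G.length * m ^ (b * (c + nbad b G)) := by
  induction G generalizing c with
  | nil =>
    refine (Finset.card_filter_le _ _).trans ?_
    rw [Finset.card_range]
    simp only [List.tail_nil, List.sum_nil, add_zero, List.length_nil, pow_zero, mul_one]
    exact Nat.le_mul_of_pos_right _ (by positivity)
  | cons g G ih =>
    have ih' := ih (fun x hx => hG x (List.mem_cons_of_mem g hx))
    -- the exponent of the new part
    obtain ⟨e, he, hsum⟩ : ∃ e, e ≤ b ∧ G.sum = G.tail.sum + e := by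
      cases G with
      | nil => exact ⟨0, Nat.zero_le _, rfl⟩
      | cons g' G' =>
        refine ⟨g', hG g' (by simp), ?_⟩
        simp [add_comm]
    rw [List.tail_cons, hsum, List.length_cons]
    set a := Δ + 1 + G.tail.sum with ha
    have hae : Δ + 1 + (G.tail.sum + e) = a + e := by omega
    rw [hae]
    have hmod : ∀ ρ : ℕ, wr d m b Δ ε ((ρ % m ^ a : ℕ) : ℤ) G = wr d m b Δ ε (ρ : ℤ) G :=
      fun ρ => wr_mod hm G a le_rfl ρ
    have hme : m ^ e ≤ m ^ b := Nat.pow_le_pow_right (by omega) he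
    -- counting with all lifts
    have hall : ∀ c', ((Finset.range (m ^ (a + e))).filter
        (fun ρ : ℕ => wr d m b Δ ε ρ G ≤ c')).card ≤
        m ^ b * (m ^ (Δ + 1) * 2 ^ G.length * m ^ (b * (c' + nbad b G))) := by
      intro c'
      have h1 := Finset.card_le_mul_card_image_of_maps_to
        (s := (Finset.range (m ^ (a + e))).filter (fun ρ : ℕ => wr d m b Δ ε ρ G ≤ c'))
        (t := (Finset.range (m ^ a)).filter (fun ρ : ℕ => wr d m b Δ ε ρ G ≤ c'))
        (f := fun ρ => ρ % m ^ a)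
        (by
          intro ρ hρ
          rw [Finset.mem_filter] at hρ ⊢
          refine ⟨Finset.mem_range.2 (Nat.mod_lt _ (by positivity)), ?_⟩
          rw [hmod]; exact hρ.2) (m ^ e)
        (by
          intro r _
          exact e1_card_fiber_le hm _ (Finset.filter_subset _ _) r)
      exact h1.trans (Nat.mul_le_mul hme (ih' c'))
    by_cases hp : Proper b g
    · -- proper head
      have hnb : nbad b (g :: G) = nbad b G := by simp [nbad, hp]
      rw [hnb]
      let White : ℕ → Prop := fun ρ => ∀ z : ℤ,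
        2 * ε ≤ |((ρ : ℤ) : ℝ) * (d : ℝ) ^ (b * G.length) / (m : ℝ) ^ (a + e) - z|
      have hwr : ∀ ρ : ℕ, wr d m b Δ ε (ρ : ℤ) (g :: G) =
          (if White ρ then 1 else 0) + wr d m b Δ ε (ρ : ℤ) G := by
        intro ρ
        simp only [wr, White]
        rw [hsum, hae]
        congr 1
        apply if_congr _ rfl rfl
        exact ⟨fun h => h.2, fun h => ⟨hp, h⟩⟩
      have hsub : (Finset.range (m ^ (a + e))).filter
          (fun ρ : ℕ => wr d m b Δ ε ρ (g :: G) ≤ c) ⊆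
          ((Finset.range (m ^ (a + e))).filter (fun ρ : ℕ => wr d m b Δ ε ρ G ≤ c)).filter
            (fun ρ => ¬ White ρ) ∪
          (Finset.range (m ^ (a + e))).filter (fun ρ : ℕ => wr d m b Δ ε ρ G + 1 ≤ c) := by
        intro ρ hρ
        rw [Finset.mem_filter, hwr] at hρ
        rw [Finset.mem_union, Finset.mem_filter, Finset.mem_filter, Finset.mem_filter]
        by_cases hW : White ρ
        · rw [if_pos hW] at hρ
          exact Or.inr ⟨hρ.1, by omega⟩
        · rw [if_neg hW] at hρ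
          exact Or.inl ⟨⟨hρ.1, by omega⟩, hW⟩
      have hblack : (((Finset.range (m ^ (a + e))).filter
          (fun ρ : ℕ => wr d m b Δ ε ρ G ≤ c)).filter (fun ρ => ¬ White ρ)).card ≤
          m ^ (Δ + 1) * 2 ^ G.length * m ^ (b * (c + nbad b G)) := by
        refine le_trans ?_ (ih' c)
        apply Finset.card_le_card_of_injOn (fun ρ => ρ % m ^ a)
        · intro ρ hρ
          rw [Finset.mem_coe, Finset.mem_filter, Finset.mem_filter] at hρ
          rw [Finset.mem_coe, Finset.mem_filter]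
          refine ⟨Finset.mem_range.2 (Nat.mod_lt _ (by positivity)), ?_⟩
          rw [hmod]; exact hρ.1.2
        · intro ρ hρ ρ' hρ' h
          rw [Finset.mem_coe, Finset.mem_filter, Finset.mem_filter] at hρ hρ'
          have b1 := hρ.2
          have b2 := hρ'.2
          simp only [White] at b1 b2
          push Not at b1 b2
          exact e1_black_unique hm hco hε0 hε he (Finset.mem_range.1 hρ.1.1)
            (Finset.mem_range.1 hρ'.1.1) h b1 b2
      have hwhite : ((Finset.range (m ^ (a + e))).filter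
          (fun ρ : ℕ => wr d m b Δ ε ρ G + 1 ≤ c)).card ≤
          m ^ (Δ + 1) * 2 ^ G.length * m ^ (b * (c + nbad b G)) := by
        rcases Nat.eq_zero_or_pos c with hc | hc
        · rw [hc]
          have : (Finset.range (m ^ (a + e))).filter
              (fun ρ : ℕ => wr d m b Δ ε ρ G + 1 ≤ 0) = ∅ :=
            Finset.filter_eq_empty_iff.2 fun ρ _ h => by omega
          rw [this, Finset.card_empty]
          exact Nat.zero_le _
        · have h1 := hall (c - 1)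
          have h2 : (Finset.range (m ^ (a + e))).filter
              (fun ρ : ℕ => wr d m b Δ ε ρ G + 1 ≤ c) = (Finset.range (m ^ (a + e))).filter
              (fun ρ : ℕ => wr d m b Δ ε ρ G ≤ c - 1) :=
            Finset.filter_congr fun ρ _ => by omega
          rw [h2]
          refine h1.trans (le_of_eq ?_)
          have h3 : b * (c + nbad b G) = b + b * (c - 1 + nbad b G) := by
            have : c + nbad b G = 1 + (c - 1 + nbad b G) := by omega
            rw [this]; ring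
          rw [h3, pow_add m b]
          ring
      refine (Finset.card_le_card hsub).trans ((Finset.card_union_le _ _).trans ?_)
      rw [pow_succ 2 G.length]
      calc _ ≤ m ^ (Δ + 1) * 2 ^ G.length * m ^ (b * (c + nbad b G)) +
            m ^ (Δ + 1) * 2 ^ G.length * m ^ (b * (c + nbad b G)) := Nat.add_le_add hblack hwhite
        _ = _ := by ring
    · -- improper head
      have hnb : nbad b (g :: G) = 1 + nbad b G := by simp [nbad, hp]
      rw [hnb]
      have hwr : ∀ ρ : ℕ, wr d m b Δ ε (ρ : ℤ) (g :: G) = wr d m b Δ ε (ρ : ℤ) G := by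
        intro ρ
        simp only [wr]
        rw [if_neg (fun h => hp h.1), zero_add]
      have h1 := hall c
      have h2 : (Finset.range (m ^ (a + e))).filter
          (fun ρ : ℕ => wr d m b Δ ε ρ (g :: G) ≤ c) = (Finset.range (m ^ (a + e))).filter
          (fun ρ : ℕ => wr d m b Δ ε ρ G ≤ c) :=
        Finset.filter_congr fun ρ _ => by rw [hwr]
      rw [h2]
      refine h1.trans ?_
      have h3 : b * (c + (1 + nbad b G)) = b + b * (c + nbad b G) := by ring
      rw [h3, pow_add m b, pow_succ 2 G.length]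
      calc m ^ b * (m ^ (Δ + 1) * 2 ^ G.length * m ^ (b * (c + nbad b G)))
          ≤ (m ^ b * (m ^ (Δ + 1) * 2 ^ G.length * m ^ (b * (c + nbad b G)))) * 2 :=
            Nat.le_mul_of_pos_right _ (by norm_num)
        _ = _ := by ring

/-- BE-E1 -/
theorem count_residues {d m b Δ : ℕ} (hd : 2 ≤ d) (hm : 2 ≤ m) (hco : Nat.Coprime m d) {ε : ℝ}
    (hε0 : 0 < ε) (hε : 4 * ε * (m : ℝ) ^ b ≤ 1) (G : List ℕ) (hG : ∀ g ∈ G, g ≤ b) (c : ℕ) :
    (((Finset.range (m ^ (Δ + G.sum))).filter (fun ρ : ℕ => wr d m b Δ ε ρ G ≤ c)).card : ℝ) ≤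
      (m : ℝ) ^ (Δ + 1 + b) * 2 ^ G.length * (m : ℝ) ^ (b * (c + nbad b G)) := by
  classical
  obtain ⟨e, he, hsum⟩ : ∃ e, e ≤ b ∧ G.sum = G.tail.sum + e := by
    cases G with
    | nil => exact ⟨0, Nat.zero_le _, rfl⟩
    | cons g' G' =>
      refine ⟨g', hG g' (by simp), ?_⟩
      simp [add_comm]
  set a := Δ + 1 + G.tail.sum with ha
  have hsub : Finset.range (m ^ (Δ + G.sum)) ⊆ Finset.range (m ^ (a + e)) := by
    apply Finset.range_subset_range.2
    apply Nat.pow_le_pow_right (by omega)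
    omega
  have h1 := Finset.card_le_mul_card_image_of_maps_to
    (s := (Finset.range (m ^ (Δ + G.sum))).filter (fun ρ : ℕ => wr d m b Δ ε ρ G ≤ c))
    (t := (Finset.range (m ^ a)).filter (fun ρ : ℕ => wr d m b Δ ε ρ G ≤ c))
    (f := fun ρ => ρ % m ^ a)
    (by
      intro ρ hρ
      rw [Finset.mem_filter] at hρ ⊢
      refine ⟨Finset.mem_range.2 (Nat.mod_lt _ (by positivity)), ?_⟩
      rw [wr_mod hm G a le_rfl ρ]; exact hρ.2) (m ^ e)
    (by
      intro r _
      exact e1_card_fiber_le hm _ ((Finset.filter_subset _ _).trans hsub) r)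
  have h2 := e1_count_main (Δ := Δ) hm hco hε0 hε G hG c
  have hme : m ^ e ≤ m ^ b := Nat.pow_le_pow_right (by omega) he
  have h3 : ((Finset.range (m ^ (Δ + G.sum))).filter
      (fun ρ : ℕ => wr d m b Δ ε ρ G ≤ c)).card ≤
      m ^ (Δ + 1 + b) * 2 ^ G.length * m ^ (b * (c + nbad b G)) := by
    refine h1.trans ((Nat.mul_le_mul hme h2).trans (le_of_eq ?_))
    rw [pow_add m (Δ + 1) b]
    ring
  exact_mod_cast h3

end Pool.Agent.Helper28.BE
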