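import Pool.Agent.Helper52.Tao.D0
import Pool.Agent.Helper52.Tao.A1
import Pool.Agent.Helper52.Tao.C1
import Pool.Agent.Helper52.Tao.C2
import Pool.Agent.Helper52.Tao.R1

/-!
# Beyond the entropy exponent for Möller maps (MP_fd8838_nt): definitions

Words (lists of digits, head = latest digit), `W d t`, `sg`, `Off`, `wd`, `ex` are the ones of
`Pool.Agent.Helper52.Tao.Defs`.
-/

set_option autoImplicit false

namespace Pool.Agent.Helper28.BE

open Pool.Agent.Helper68.Moeller Pool.Agent.Helper52.Tao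

/-- The multiplicative weight of a word, `x ^ (number of non-zero digits) / (1 + (d-1) x) ^ length`;
the weights of the words of length `t` add up to `1`. -/
noncomputable def wt (d : ℕ) (x : ℝ) (w : List ℕ) : ℝ :=
  x ^ sg w / (1 + ((d : ℝ) - 1) * x) ^ w.length

/-- The type of a word (of length `b * n`): the numbers of non-zero digits of its `n` consecutive
chunks of length `b` (the head belongs to the latest digits). -/
def ty (b : ℕ) : ℕ → List ℕ → List ℕ
  | 0, _ => []
  | n + 1, w => sg (w.take b) :: ty b n (w.drop b)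

/-- A chunk of length `b` with `g` non-zero digits is proper if it has digits of both kinds. -/
def Proper (b g : ℕ) : Prop := 1 ≤ g ∧ g + 1 ≤ b

instance (b g : ℕ) : Decidable (Proper b g) := by unfold Proper; infer_instance

/-- The number of improper entries of a type. -/
def nbad (b : ℕ) : List ℕ → ℕ
  | [] => 0
  | g :: G => (if Proper b g then 0 else 1) + nbad b G

open Classical in
/-- The number of proper chunks at which the phase `g₀ h μ^(S+1) d^(b j) / M` is at distance at least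
`ε` from all integers (`j` = number of earlier chunks, `S` = their number of non-zero digits). -/
noncomputable def wh (d b M : ℕ) (ε : ℝ) (μ g₀ h : ℤ) : List ℕ → ℕ
  | [] => 0
  | g :: G => (if Proper b g ∧ ∀ z : ℤ,
      ε ≤ |((g₀ * h * μ ^ (G.sum + 1) * (d : ℤ) ^ (b * G.length) : ℤ) : ℝ) / M - z| then 1 else 0) +
        wh d b M ε μ g₀ h G

open Classical in
/-- The same count for the phases `ρ d^(b j) / m^(Δ+1+S)`, with `2 ε` instead of `ε`. -/
noncomputable def wr (d m b Δ : ℕ) (ε : ℝ) (ρ : ℤ) : List ℕ → ℕ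
  | [] => 0
  | g :: G => (if Proper b g ∧ ∀ z : ℤ,
      2 * ε ≤ |(ρ : ℝ) * (d : ℝ) ^ (b * G.length) / (m : ℝ) ^ (Δ + 1 + G.sum) - z| then 1 else 0) +
        wr d m b Δ ε ρ G

/-- There is no relation `s' m^k = s d^N + ζ` with very small `s, s', ζ ≠ 0`. -/
def NoRes (d m N : ℕ) : Prop :=
  ∀ (k : ℕ) (s s' ζ : ℤ), s ≠ 0 → s' ≠ 0 → ζ ≠ 0 → |s| ^ 100 ≤ (d : ℤ) ^ N →
    |s'| ^ 100 ≤ (d : ℤ) ^ N → |ζ| ^ 100 ≤ (d : ℤ) ^ N → s' * (m : ℤ) ^ k ≠ s * (d : ℤ) ^ N + ζ

/-- The words of length `b * n` and type `G` (`n = G.length`). -/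
def WT (d b : ℕ) (G : List ℕ) : Finset (List ℕ) :=
  (W d (b * G.length)).filter (fun w => ty b G.length w = G)

/-- The main counting statement: integers of an interval of length `d^N` whose words stay (almost) above the critical
slope for `(1+ε) N` steps. -/
def Core (d m : ℕ) (r : ℤ → ℤ) (η₁ ε δ : ℝ) : Prop :=
  ∃ C : ℝ, 0 < C ∧ ∀ (N : ℕ) (X : ℤ) (S : Finset ℤ),
    (∀ n ∈ S, X ≤ n ∧ n < X + (d : ℤ) ^ N ∧ ∀ a : ℕ, (a : ℝ) ≤ (1 + ε) * N →
      Real.log d / Real.log m * a - δ * N ≤ (sg (wd d m r a n) : ℝ)) →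
    (S.card : ℝ) ≤ C * (d : ℝ) ^ (η₁ * N)

end Pool.Agent.Helper28.BE
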