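import Pool.Agent.Helper28.BE.Basic

/-!
MP_fd8838_nt, block BE-I3: the exceptional set in intervals, from the counting statement `Core`
(helper69).
-/

set_option autoImplicit false

namespace Pool.Agent.Helper28.BE

open Pool.Agent.Helper68.Moeller Pool.Agent.Helper52.Tao

/-- As long as the orbit stays above its starting point `n > 0`, the iterates are at most
`m ^ s / d ^ k * (1 + B / n) ^ k` times `n`. -/
theorem orbit_upper {d m : ℕ} (hd : 2 ≤ d) (hm : 2 ≤ m) {r : ℤ → ℤ} (hr : Admissible d m r)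
    {B : ℕ} (hB : ∀ j : ℤ, 0 < j → j < (d : ℤ) → |r j| ≤ B) {n : ℤ} (hn : 0 < n)
    (habove : ∀ k : ℕ, n ≤ (T d m r)^[k] n) (k : ℕ) :
    (d : ℝ) ^ k * ((T d m r)^[k] n : ℤ) ≤
      (m : ℝ) ^ sg (wd d m r k n) * n * (1 + B / (n : ℝ)) ^ k := by
  have hn' : (0 : ℝ) < n := by exact_mod_cast hn
  have hd0 : (0 : ℝ) < d := by
    have : (2 : ℝ) ≤ d := by exact_mod_cast hd
    linarith
  have hm1 : (1 : ℝ) ≤ m := by
    have : (2 : ℝ) ≤ m := by exact_mod_cast hm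
    linarith
  have hB0 : (0 : ℝ) ≤ B := by positivity
  have hBn : (0 : ℝ) ≤ B / (n : ℝ) := by positivity
  induction k with
  | zero => simp [wd]
  | succ k ih =>
    set x := (T d m r)^[k] n with hx
    have hxn : (n : ℝ) ≤ x := by exact_mod_cast habove k
    have h1 := d_mul_T hd hr x
    obtain ⟨_, h2⟩ := toNat_emod hd x
    set a := (x % (d : ℤ)).toNat with ha
    have h1' : (d : ℝ) * (T d m r x : ℤ) = (m : ℝ) ^ nz a * x - rr r a := by exact_mod_cast h1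
    have hrr : |(rr r a : ℝ)| ≤ B := by
      have h := abs_rr_le hB h2
      exact_mod_cast h
    have h3 : (m : ℝ) ^ nz a * x - rr r a ≤ (m : ℝ) ^ nz a * x * (1 + B / (n : ℝ)) := by
      have hma : (1 : ℝ) ≤ (m : ℝ) ^ nz a := one_le_pow₀ hm1
      have h4 : (B : ℝ) ≤ (m : ℝ) ^ nz a * x * (B / (n : ℝ)) := by
        have h5 : (n : ℝ) ≤ (m : ℝ) ^ nz a * x := by nlinarith
        calc (B : ℝ) = n * (B / (n : ℝ)) := by field_simp
          _ ≤ (m : ℝ) ^ nz a * x * (B / (n : ℝ)) := mul_le_mul_of_nonneg_right h5 hBn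
      have h6 := (neg_le_abs (rr r a : ℝ)).trans hrr
      linarith
    rw [Function.iterate_succ_apply', ← hx, wd, ← hx, ← ha, sg_cons, pow_add (m : ℝ), pow_succ (d : ℝ),
      pow_succ (1 + (B : ℝ) / (n : ℝ))]
    calc (d : ℝ) ^ k * d * (T d m r x : ℤ) = (d : ℝ) ^ k * (d * (T d m r x : ℤ)) := by ring
      _ ≤ (d : ℝ) ^ k * ((m : ℝ) ^ nz a * x * (1 + B / (n : ℝ))) := by
          rw [h1']
          exact mul_le_mul_of_nonneg_left h3 (by positivity)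
      _ = ((m : ℝ) ^ nz a * (1 + B / (n : ℝ))) * ((d : ℝ) ^ k * x) := by ring
      _ ≤ ((m : ℝ) ^ nz a * (1 + B / (n : ℝ))) *
            ((m : ℝ) ^ sg (wd d m r k n) * n * (1 + B / (n : ℝ)) ^ k) :=
          mul_le_mul_of_nonneg_left ih (by positivity)
      _ = (m : ℝ) ^ nz a * (m : ℝ) ^ sg (wd d m r k n) * n *
            ((1 + B / (n : ℝ)) ^ k * (1 + B / (n : ℝ))) := by ring

/-- The words of large elements of the exceptional set stay above the critical slope. -/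
theorem E_word {d m : ℕ} (hd : 2 ≤ d) (hm : 2 ≤ m) {r : ℤ → ℤ} (hr : Admissible d m r)
    {B : ℕ} (hB : ∀ j : ℤ, 0 < j → j < (d : ℤ) → |r j| ≤ B) {ε δ : ℝ} (hε1 : ε ≤ 1) {n : ℤ} (hn : n ∈ E d m r)
    (hnB : (B : ℤ) < n) (hlarge : 2 * (B : ℝ) ≤ δ * Real.log m * n) (N a : ℕ)
    (ha : (a : ℝ) ≤ (1 + ε) * N) :
    Real.log d / Real.log m * a - δ * N ≤ (sg (wd d m r a n) : ℝ) := by
  have habove : ∀ k : ℕ, n ≤ (T d m r)^[k] n := fun k => E_T hr hd (by omega) hB hn hnB k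
  have hn0 : 0 < n := hn.1
  have hn' : (0 : ℝ) < n := by exact_mod_cast hn0
  have hd1 : (0 : ℝ) < d := by
    have : (2 : ℝ) ≤ d := by exact_mod_cast hd
    linarith
  have hm1 : (1 : ℝ) < m := by
    have : (2 : ℝ) ≤ m := by exact_mod_cast hm
    linarith
  have hlm : 0 < Real.log m := Real.log_pos hm1
  have h1 := orbit_upper hd hm hr hB hn0 habove a
  have h2 : (n : ℝ) ≤ ((T d m r)^[a] n : ℤ) := by exact_mod_cast habove a
  have hBn : (0 : ℝ) ≤ B / (n : ℝ) := by positivity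
  have h3 : (1 + B / (n : ℝ)) ^ a ≤ Real.exp (a * (B / (n : ℝ))) := by
    rw [Real.exp_nat_mul]
    refine pow_le_pow_left₀ (by positivity) ?_ a
    have := Real.add_one_le_exp (B / (n : ℝ))
    linarith
  have h4 : (d : ℝ) ^ a ≤ (m : ℝ) ^ sg (wd d m r a n) * Real.exp (a * (B / (n : ℝ))) := by
    have h5 : (d : ℝ) ^ a * n ≤ (m : ℝ) ^ sg (wd d m r a n) * Real.exp (a * (B / (n : ℝ))) * n := by
      calc (d : ℝ) ^ a * n ≤ (d : ℝ) ^ a * ((T d m r)^[a] n : ℤ) :=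
            mul_le_mul_of_nonneg_left h2 (by positivity)
        _ ≤ (m : ℝ) ^ sg (wd d m r a n) * n * (1 + B / (n : ℝ)) ^ a := h1
        _ ≤ (m : ℝ) ^ sg (wd d m r a n) * n * Real.exp (a * (B / (n : ℝ))) :=
            mul_le_mul_of_nonneg_left h3 (by positivity)
        _ = _ := by ring
    exact le_of_mul_le_mul_right h5 hn'
  have h6 : (a : ℝ) * Real.log d ≤ (sg (wd d m r a n) : ℝ) * Real.log m + a * (B / (n : ℝ)) := by
    have h7 := Real.log_le_log (by positivity) h4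
    rwa [Real.log_mul (by positivity) (Real.exp_ne_zero _), Real.log_pow, Real.log_pow,
      Real.log_exp] at h7
  have h8 : (a : ℝ) * (B / (n : ℝ)) ≤ δ * N * Real.log m := by
    have hN : (0 : ℝ) ≤ N := by positivity
    have h9 : (a : ℝ) ≤ 2 * N := by nlinarith
    have h10 : (a : ℝ) * B ≤ δ * N * Real.log m * n := by
      calc (a : ℝ) * B ≤ 2 * N * B := mul_le_mul_of_nonneg_right h9 (by positivity)
        _ = N * (2 * B) := by ring
        _ ≤ N * (δ * Real.log m * n) := mul_le_mul_of_nonneg_left hlarge hN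
        _ = _ := by ring
    rw [← mul_div_assoc, div_le_iff₀ hn']
    exact h10
  rw [div_mul_eq_mul_div, sub_le_iff_le_add, div_le_iff₀ hlm]
  linarith

/-- BE-I3 -/
theorem E_beyond {d m : ℕ} (hd : 2 ≤ d) (hdm : d < m) (hco : Nat.Coprime m d)
    (hm : (m : ℝ) ≤ (d : ℝ) ^ ((d : ℝ) / ((d : ℝ) - 1))) {η₁ ε δ : ℝ} (hη0 : 0 < η₁)
    (hη1 : η₁ < eta d m) (hε0 : 0 < ε) (hε1 : ε ≤ 1) (hδ : 0 < δ) :
    ∀ r : ℤ → ℤ, Admissible d m r → Core d m r η₁ ε δ →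
      ∃ C : ℝ, 0 < C ∧ ∀ (X : ℤ) (Y : ℕ), 1 ≤ Y →
          ((E d m r ∩ Set.Ico X (X + Y)).ncard : ℝ) ≤ C * (Y : ℝ) ^ η₁ := by
  intro r hr hcore
  obtain ⟨C, hC0, hC⟩ := hcore
  have hm2 : 2 ≤ m := by omega
  have hm1 : (1 : ℝ) < m := by
    have : (2 : ℝ) ≤ m := by exact_mod_cast hm2
    linarith
  have hd1 : (1 : ℝ) < d := by
    have : (2 : ℝ) ≤ d := by exact_mod_cast hd
    linarith
  have hlm : 0 < Real.log m := Real.log_pos hm1
  -- a bound for the `r j`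
  obtain ⟨B, hB⟩ : ∃ B : ℕ, ∀ j : ℤ, 0 < j → j < (d : ℤ) → |r j| ≤ B := by
    refine ⟨∑ j ∈ Finset.range d, (r j).natAbs, fun j hj0 hjd => ?_⟩
    have h1 : (r ((j.toNat : ℕ) : ℤ)).natAbs ≤ ∑ j ∈ Finset.range d, (r j).natAbs :=
      Finset.single_le_sum (f := fun j : ℕ => (r (j : ℤ)).natAbs) (fun _ _ => Nat.zero_le _)
        (Finset.mem_range.2 (by omega))
    rw [Int.toNat_of_nonneg hj0.le] at h1
    rw [Int.abs_eq_natAbs]
    exact_mod_cast h1
  obtain ⟨n₀, hn₀⟩ : ∃ n₀ : ℕ, (B : ℝ) + 2 * B / (δ * Real.log m) < n₀ := exists_nat_gt _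
  refine ⟨n₀ + C * (d : ℝ) ^ η₁, by positivity, fun X Y hY => ?_⟩
  classical
  have hY' : (1 : ℝ) ≤ Y := by exact_mod_cast hY
  have hYη : (1 : ℝ) ≤ (Y : ℝ) ^ η₁ := Real.one_le_rpow hY' hη0.le
  -- the power of `d`
  obtain ⟨N, hN1, hN2⟩ : ∃ N : ℕ, Y ≤ d ^ N ∧ (d : ℝ) ^ N ≤ d * Y := by
    refine ⟨Nat.clog d Y, Nat.le_pow_clog (by omega) Y, ?_⟩
    rcases Nat.lt_or_ge 1 Y with h | h
    · have h2 := Nat.pow_pred_clog_lt_self (by omega : 1 < d) h
      have h3 : 0 < Nat.clog d Y := Nat.clog_pos (by omega) h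
      obtain ⟨k, hk⟩ : ∃ k, Nat.clog d Y = k + 1 := ⟨Nat.clog d Y - 1, by omega⟩
      rw [hk, Nat.pred_succ] at h2
      rw [hk, pow_succ, mul_comm]
      have h4 : (d : ℝ) ^ k ≤ Y := by exact_mod_cast h2.le
      exact mul_le_mul_of_nonneg_left h4 (by linarith)
    · have h1 : Y = 1 := by omega
      subst h1
      simp
      linarith
  set S : Finset ℤ := (Finset.Ico X (X + Y)).filter (fun n => n ∈ E d m r ∧ (n₀ : ℤ) ≤ n) with hS
  have hSmem : ∀ n ∈ S, X ≤ n ∧ n < X + (d : ℤ) ^ N ∧ ∀ a : ℕ, (a : ℝ) ≤ (1 + ε) * N →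
      Real.log d / Real.log m * a - δ * N ≤ (sg (wd d m r a n) : ℝ) := by
    intro n hn
    rw [hS, Finset.mem_filter, Finset.mem_Ico] at hn
    obtain ⟨⟨h1, h2⟩, h3, h4⟩ := hn
    have h5 : (Y : ℤ) ≤ (d : ℤ) ^ N := by exact_mod_cast hN1
    refine ⟨h1, by omega, fun a ha => ?_⟩
    have h4' : (n₀ : ℝ) ≤ n := by exact_mod_cast h4
    have hq : 0 ≤ 2 * (B : ℝ) / (δ * Real.log m) := by positivity
    have hB0 : (0 : ℝ) ≤ B := by positivity
    refine E_word hd hm2 hr hB hε1 h3 ?_ ?_ N a ha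
    · have : (B : ℝ) < n := by linarith
      exact_mod_cast this
    · have h6 : 2 * (B : ℝ) / (δ * Real.log m) ≤ n := by linarith
      rw [div_le_iff₀ (by positivity)] at h6
      linarith
  have hcard := hC N X S hSmem
  -- the elements of the interval
  have hsub : E d m r ∩ Set.Ico X (X + Y) ⊆ ((S ∪ Finset.Ico 0 (n₀ : ℤ) : Finset ℤ) : Set ℤ) := by
    rintro n ⟨h1, h2⟩
    rw [Finset.mem_coe, Finset.mem_union, hS, Finset.mem_filter, Finset.mem_Ico, Finset.mem_Ico]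
    by_cases h3 : (n₀ : ℤ) ≤ n
    · exact Or.inl ⟨h2, h1, h3⟩
    · exact Or.inr ⟨h1.1.le, by omega⟩
  have h1 : (E d m r ∩ Set.Ico X (X + Y)).ncard ≤ S.card + n₀ := by
    refine (Set.ncard_le_ncard hsub (Finset.finite_toSet _)).trans ?_
    rw [Set.ncard_coe_finset]
    refine (Finset.card_union_le _ _).trans ?_
    rw [Int.card_Ico]
    simp
  have h2 : ((E d m r ∩ Set.Ico X (X + Y)).ncard : ℝ) ≤ S.card + n₀ := by exact_mod_cast h1
  have h3 : (d : ℝ) ^ (η₁ * N) ≤ (d : ℝ) ^ η₁ * (Y : ℝ) ^ η₁ := by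
    rw [mul_comm η₁, Real.rpow_natCast_mul (by linarith), ← Real.mul_rpow (by linarith) (by linarith)]
    exact Real.rpow_le_rpow (by positivity) hN2 hη0.le
  calc ((E d m r ∩ Set.Ico X (X + Y)).ncard : ℝ) ≤ S.card + n₀ := h2
    _ ≤ C * ((d : ℝ) ^ η₁ * (Y : ℝ) ^ η₁) + n₀ * (Y : ℝ) ^ η₁ := by
        refine add_le_add (hcard.trans (mul_le_mul_of_nonneg_left h3 hC0.le)) ?_
        have : (0 : ℝ) ≤ n₀ := by positivity
        nlinarith
    _ = (n₀ + C * (d : ℝ) ^ η₁) * (Y : ℝ) ^ η₁ := by ring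

end Pool.Agent.Helper28.BE
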