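import Pool.Agent.Helper28.BE.Basic

/-!
# The Fejér kernel bound for collisions (block BE-B, helper14)
-/

set_option autoImplicit false

namespace Pool.Agent.Helper28.BE

open Pool.Agent.Helper68.Moeller Pool.Agent.Helper52.Tao
open scoped ComplexConjugate

namespace Fejer

theorem conj_ex (x : ℝ) : conj (ex x) = ex (-x) := by
  rw [ex_neg]

/-- the Fejér kernel as a double sum -/
theorem kernel (Q : ℕ) (t : ℝ) :
    ((‖∑ k ∈ Finset.range Q, ex ((k : ℝ) * t)‖ ^ 2 : ℝ) : ℂ) =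
      ∑ k ∈ Finset.range Q, ∑ l ∈ Finset.range Q, ex ((((k : ℤ) - (l : ℤ) : ℤ) : ℝ) * t) := by
  push_cast
  rw [← Complex.mul_conj', map_sum, Finset.sum_mul_sum]
  refine Finset.sum_congr rfl fun k _ => Finset.sum_congr rfl fun l _ => ?_
  rw [conj_ex, ← ex_add]
  congr 1
  ring

theorem square {ι : Type*} (s : Finset ι) (a : ι → ℝ) (θ : ι → ℝ) (n : ℤ) :
    ((‖∑ i ∈ s, (a i : ℂ) * ex ((n : ℝ) * θ i)‖ ^ 2 : ℝ) : ℂ) =
      ∑ i ∈ s, ∑ j ∈ s, ((a i * a j : ℝ) : ℂ) * ex ((n : ℝ) * (θ i - θ j)) := by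
  push_cast
  rw [← Complex.mul_conj', map_sum, Finset.sum_mul_sum]
  refine Finset.sum_congr rfl fun i _ => Finset.sum_congr rfl fun j _ => ?_
  rw [map_mul, conj_ex, Complex.conj_ofReal]
  have : ex ((n : ℝ) * (θ i - θ j)) = ex ((n : ℝ) * θ i) * ex (-((n : ℝ) * θ j)) := by
    rw [← ex_add]
    congr 1
    ring
  rw [this]
  ring

theorem expand {ι : Type*} (s : Finset ι) (a : ι → ℝ) (θ : ι → ℝ) (Q : ℕ) :
    ∑ k ∈ Finset.range Q, ∑ l ∈ Finset.range Q,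
        ‖∑ i ∈ s, (a i : ℂ) * ex ((((k : ℤ) - (l : ℤ) : ℤ) : ℝ) * θ i)‖ ^ 2 =
      ∑ i ∈ s, ∑ j ∈ s, a i * a j * ‖∑ k ∈ Finset.range Q, ex ((k : ℝ) * (θ i - θ j))‖ ^ 2 := by
  have h : ((∑ k ∈ Finset.range Q, ∑ l ∈ Finset.range Q,
        ‖∑ i ∈ s, (a i : ℂ) * ex ((((k : ℤ) - (l : ℤ) : ℤ) : ℝ) * θ i)‖ ^ 2 : ℝ) : ℂ) =
      ((∑ i ∈ s, ∑ j ∈ s, a i * a j *
        ‖∑ k ∈ Finset.range Q, ex ((k : ℝ) * (θ i - θ j))‖ ^ 2 : ℝ) : ℂ) := by
    rw [Complex.ofReal_sum, Complex.ofReal_sum]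
    simp only [Complex.ofReal_sum, Complex.ofReal_mul (a _ * a _), kernel, square]
    have h1 : ∀ k ∈ Finset.range Q, (∑ l ∈ Finset.range Q, ∑ i ∈ s, ∑ j ∈ s,
        ((a i * a j : ℝ) : ℂ) * ex ((((k : ℤ) - (l : ℤ) : ℤ) : ℝ) * (θ i - θ j))) =
        ∑ i ∈ s, ∑ j ∈ s, ∑ l ∈ Finset.range Q,
        ((a i * a j : ℝ) : ℂ) * ex ((((k : ℤ) - (l : ℤ) : ℤ) : ℝ) * (θ i - θ j)) := by
      intro k _
      rw [Finset.sum_comm]
      exact Finset.sum_congr rfl fun i _ => Finset.sum_comm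
    rw [Finset.sum_congr rfl h1, Finset.sum_comm]
    refine Finset.sum_congr rfl fun i _ => ?_
    rw [Finset.sum_comm]
    refine Finset.sum_congr rfl fun j _ => ?_
    rw [Finset.mul_sum]
    refine Finset.sum_congr rfl fun k _ => ?_
    rw [Finset.mul_sum]
  exact_mod_cast h

theorem re_ex (x : ℝ) : (ex x).re = Real.cos (2 * Real.pi * x) := by
  unfold ex
  have : (2 * Real.pi * x * Complex.I : ℂ) = ((2 * Real.pi * x : ℝ) : ℂ) * Complex.I := by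
    push_cast; ring
  rw [this, Complex.exp_ofReal_mul_I_re]

theorem lower {Q : ℕ} (hQ : 1 ≤ Q) {t : ℝ} {z : ℤ} (h : |t - z| ≤ 1 / (8 * (Q : ℝ))) :
    (Q : ℝ) ^ 2 / 2 ≤ ‖∑ k ∈ Finset.range Q, ex ((k : ℝ) * t)‖ ^ 2 := by
  have hQ' : (1 : ℝ) ≤ Q := by exact_mod_cast hQ
  have h1 : (Q : ℝ) * (Real.sqrt 2 / 2) ≤ ‖∑ k ∈ Finset.range Q, ex ((k : ℝ) * t)‖ := by
    refine le_trans ?_ (Complex.re_le_norm _)
    rw [Complex.re_sum]
    have h2 : ∀ k ∈ Finset.range Q, Real.sqrt 2 / 2 ≤ (ex ((k : ℝ) * t)).re := by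
      intro k hk
      have hk' : (k : ℝ) ≤ Q := by exact_mod_cast (Finset.mem_range.1 hk).le
      have e1 : ex ((k : ℝ) * t) = ex ((k : ℝ) * (t - z)) := by
        have := ex_add_int ((k : ℝ) * (t - z)) (k * z)
        rw [← this]
        congr 1
        push_cast
        ring
      rw [e1, re_ex, ← Real.cos_abs, ← Real.cos_pi_div_four]
      apply Real.cos_le_cos_of_nonneg_of_le_pi (abs_nonneg _)
      · linarith [Real.pi_pos]
      · rw [abs_mul, abs_mul (k : ℝ), abs_of_pos (by positivity : (0 : ℝ) < 2 * Real.pi),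
          abs_of_nonneg (by positivity : (0 : ℝ) ≤ (k : ℝ))]
        have h3 : (k : ℝ) * |t - z| ≤ 1 / 8 := by
          calc (k : ℝ) * |t - z| ≤ Q * (1 / (8 * (Q : ℝ))) :=
                mul_le_mul hk' h (abs_nonneg _) (by positivity)
            _ = 1 / 8 := by field_simp
        calc 2 * Real.pi * ((k : ℝ) * |t - z|) ≤ 2 * Real.pi * (1 / 8) :=
              mul_le_mul_of_nonneg_left h3 (by positivity)
          _ = Real.pi / 4 := by ring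
    have := Finset.card_nsmul_le_sum _ _ _ h2
    rw [Finset.card_range, nsmul_eq_mul] at this
    exact this
  have h3 : ((Q : ℝ) * (Real.sqrt 2 / 2)) ^ 2 = (Q : ℝ) ^ 2 / 2 := by
    rw [mul_pow, div_pow, Real.sq_sqrt (by norm_num : (0 : ℝ) ≤ 2)]
    ring
  rw [← h3]
  exact pow_le_pow_left₀ (by positivity) h1 2

end Fejer

open Classical in
/-- BE-B -/
theorem fejer {ι : Type*} (s : Finset ι) (a : ι → ℝ) (ha : ∀ i ∈ s, 0 ≤ a i) (θ : ι → ℝ) (Q : ℕ)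
    (hQ : 1 ≤ Q) :
    ∑ i ∈ s, ∑ j ∈ s, (if ∃ z : ℤ, |θ i - θ j - z| ≤ 1 / (8 * (Q : ℝ)) then a i * a j else 0) ≤
      2 / (Q : ℝ) ^ 2 * ∑ k ∈ Finset.range Q, ∑ l ∈ Finset.range Q,
        ‖∑ i ∈ s, (a i : ℂ) * ex ((((k : ℤ) - (l : ℤ) : ℤ) : ℝ) * θ i)‖ ^ 2 := by
  have hQ' : (0 : ℝ) < Q := by exact_mod_cast hQ
  rw [Fejer.expand, Finset.mul_sum]
  refine Finset.sum_le_sum fun i hi => ?_
  rw [Finset.mul_sum]
  refine Finset.sum_le_sum fun j hj => ?_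
  have hij : 0 ≤ a i * a j := mul_nonneg (ha i hi) (ha j hj)
  split_ifs with h
  · obtain ⟨z, hz⟩ := h
    have h1 := Fejer.lower hQ hz
    calc a i * a j = 2 / (Q : ℝ) ^ 2 * (a i * a j * ((Q : ℝ) ^ 2 / 2)) := by field_simp
      _ ≤ _ := by
        apply mul_le_mul_of_nonneg_left _ (by positivity)
        exact mul_le_mul_of_nonneg_left h1 hij
  · positivity

end Pool.Agent.Helper28.BE
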