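import Pool.Agent.Helper28.BE.Transfer
import Pool.Agent.Helper28.BE.Count

/-!
# Few frequencies have few white chunks (block BE-E4)
-/

set_option autoImplicit false

namespace Pool.Agent.Helper28.BE

open Pool.Agent.Helper68.Moeller Pool.Agent.Helper52.Tao

/-- BE-E4 with the number of residues as a bound. -/
theorem card_few_white_aux {d m b Δ M Q c : ℕ} (hm : 2 ≤ m)
    (hM : 0 < M) {μ g₀ h₀ : ℤ} (hμ : (M : ℤ) ∣ m * μ - 1) {ε : ℝ} (hε0 : 0 < ε)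
    (G : List ℕ)
    (hT : ∀ G' : List ℕ, G' <:+ G → (d : ℝ) ^ (b * G'.length) ≤ ε * (m : ℝ) ^ (Δ + 1 + G'.sum))
    (hinj : ∀ ζ : ℤ, ζ ≠ 0 → |ζ| < Q → ∀ z : ℤ,
      1 / (m : ℝ) ^ (Δ + G.sum) ≤ |((g₀ * (ζ * h₀) * μ ^ G.sum : ℤ) : ℝ) / M - z|) (l : ℕ) :
    ((Finset.range Q).filter (fun j : ℕ =>
      wh d b M ε μ g₀ (((j : ℤ) - l) * h₀) G ≤ c)).card ≤
      ((Finset.range (m ^ (Δ + G.sum))).filter (fun ρ : ℕ => wr d m b Δ ε ρ G ≤ c)).card := by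
  classical
  have hm0 : (0 : ℝ) < m := by
    have : 0 < m := by omega
    exact_mod_cast this
  have hD0 : (0 : ℝ) < (m : ℝ) ^ (Δ + G.sum) := by positivity
  let ρ : ℕ → ℤ := fun j => ⌊(m : ℝ) ^ (Δ + G.sum) *
      Int.fract (((g₀ * (((j : ℤ) - l) * h₀) * μ ^ G.sum : ℤ) : ℝ) / M)⌋
  have hρ0 : ∀ j, 0 ≤ ρ j := fun j => Int.floor_nonneg.mpr
    (mul_nonneg hD0.le (Int.fract_nonneg _))
  have hρ1 : ∀ j, ρ j < (m : ℤ) ^ (Δ + G.sum) := by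
    intro j
    rw [Int.floor_lt]
    push_cast
    calc (m : ℝ) ^ (Δ + G.sum) * Int.fract _ < (m : ℝ) ^ (Δ + G.sum) * 1 :=
          mul_lt_mul_of_pos_left (Int.fract_lt_one _) hD0
      _ = _ := mul_one _
  apply Finset.card_le_card_of_injOn (fun j => (ρ j).toNat)
  · intro j hj
    rw [Finset.mem_coe, Finset.mem_filter] at hj
    rw [Finset.mem_coe, Finset.mem_filter, Finset.mem_range]
    refine ⟨?_, ?_⟩
    · have h1 := hρ1 j
      have h2 := hρ0 j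
      have h3 : (((ρ j).toNat : ℕ) : ℤ) < ((m ^ (Δ + G.sum) : ℕ) : ℤ) := by
        rw [Int.toNat_of_nonneg h2]
        push_cast
        exact h1
      exact_mod_cast h3
    · rw [Int.toNat_of_nonneg (hρ0 j)]
      exact (wr_le_wh hm hM hμ hε0 G hT _).trans hj.2
  · intro j hj j' hj' hjj
    rw [Finset.mem_coe, Finset.mem_filter, Finset.mem_range] at hj hj'
    have heq : ρ j = ρ j' := by
      have h1 := congrArg (fun k : ℕ => (k : ℤ)) hjj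
      simp only [Int.toNat_of_nonneg (hρ0 _)] at h1
      exact h1
    by_contra hne
    set α : ℝ := ((g₀ * (((j : ℤ) - l) * h₀) * μ ^ G.sum : ℤ) : ℝ) / M with hα
    set α' : ℝ := ((g₀ * (((j' : ℤ) - l) * h₀) * μ ^ G.sum : ℤ) : ℝ) / M with hα'
    have hζ : ((j : ℤ) - j') ≠ 0 := by
      intro h0
      apply hne
      omega
    have hζ' : |((j : ℤ) - j')| < Q := by
      rw [abs_lt]
      constructor <;> omega
    have h1 := hinj _ hζ hζ' (⌊α⌋ - ⌊α'⌋)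
    have h2 : ((g₀ * (((j : ℤ) - j') * h₀) * μ ^ G.sum : ℤ) : ℝ) / M - ((⌊α⌋ - ⌊α'⌋ : ℤ) : ℝ) =
        Int.fract α - Int.fract α' := by
      have h3 : ((g₀ * (((j : ℤ) - j') * h₀) * μ ^ G.sum : ℤ) : ℝ) / M = α - α' := by
        rw [hα, hα', ← sub_div]
        congr 1
        push_cast
        ring
      rw [h3, Int.cast_sub, Int.fract, Int.fract]
      ring
    rw [h2, div_le_iff₀ hD0] at h1
    have a1 : ((ρ j : ℤ) : ℝ) ≤ (m : ℝ) ^ (Δ + G.sum) * Int.fract α := Int.floor_le _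
    have a2 : (m : ℝ) ^ (Δ + G.sum) * Int.fract α < ρ j + 1 := Int.lt_floor_add_one _
    have b1 : ((ρ j' : ℤ) : ℝ) ≤ (m : ℝ) ^ (Δ + G.sum) * Int.fract α' := Int.floor_le _
    have b2 : (m : ℝ) ^ (Δ + G.sum) * Int.fract α' < ρ j' + 1 := Int.lt_floor_add_one _
    rw [← heq] at b1 b2
    have h4 : |Int.fract α - Int.fract α'| * (m : ℝ) ^ (Δ + G.sum) < 1 := by
      rw [← abs_of_pos hD0, ← abs_mul, abs_lt]
      constructor <;> nlinarith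
    linarith

/-- BE-E4 -/
theorem card_few_white {d m b Δ M Q c : ℕ} (hd : 2 ≤ d) (hm : 2 ≤ m) (hco : Nat.Coprime m d)
    (hM : 0 < M) {μ g₀ h₀ : ℤ} (hμ : (M : ℤ) ∣ m * μ - 1) {ε : ℝ} (hε0 : 0 < ε)
    (hε : 4 * ε * (m : ℝ) ^ b ≤ 1) (G : List ℕ) (hG : ∀ g ∈ G, g ≤ b)
    (hT : ∀ G' : List ℕ, G' <:+ G → (d : ℝ) ^ (b * G'.length) ≤ ε * (m : ℝ) ^ (Δ + 1 + G'.sum))
    (hinj : ∀ ζ : ℤ, ζ ≠ 0 → |ζ| < Q → ∀ z : ℤ,
      1 / (m : ℝ) ^ (Δ + G.sum) ≤ |((g₀ * (ζ * h₀) * μ ^ G.sum : ℤ) : ℝ) / M - z|) (l : ℕ)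
    (hl : l < Q) :
    (((Finset.range Q).filter (fun j : ℕ =>
      wh d b M ε μ g₀ (((j : ℤ) - l) * h₀) G ≤ c)).card : ℝ) ≤
      (m : ℝ) ^ (Δ + 1 + b) * 2 ^ G.length * (m : ℝ) ^ (b * (c + nbad b G)) := by
  have h1 := card_few_white_aux (c := c) hm hM hμ hε0 G hT hinj l
  have h2 := count_residues (Δ := Δ) hd hm hco hε0 hε G hG c
  exact (Nat.cast_le.mpr h1).trans h2

end Pool.Agent.Helper28.BE
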