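import Pool.Agent.Helper28.BE.Basic
import Pool.Agent.Helper52.Moeller.Descent
import Pool.Agent.Helper52.Tao.U3
import Pool.Agent.Helper52.Tao.FD
import Pool.Agent.Helper52.Tao.MX1
import Pool.Agent.Helper52.Tao.MX2
import Pool.Agent.Helper52.Tao.FL
import Pool.Agent.Helper52.Tao.FIN

/-!
BE-I1: consequence of `Core` for the integers all of whose iterates are large
(adaptation of helper52's proofs).
-/

set_option autoImplicit false

namespace Pool.Agent.Helper28.BE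

open Pool.Agent.Helper68.Moeller Pool.Agent.Helper52.Tao Pool.Agent.Helper52.Moeller

variable {d m : ℕ} {r : ℤ → ℤ}

theorem fb_cnt_eq (hd : 2 ≤ d) (a : ℕ) (n : ℤ) : cnt d m r a n = sg (wd d m r a n) := by
  induction a with
  | zero => simp [cnt, wd]
  | succ a ih =>
    have hcnt : cnt d m r (a + 1) n = cnt d m r a n + (if (d : ℤ) ∣ (T d m r)^[a] n then 0 else 1) := by
      rw [cnt_add a 1 n, cnt, cnt, add_zero]
    rw [hcnt, wd, sg_cons, ih, add_comm]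
    congr 1
    have hd0 : (0 : ℤ) < d := by exact_mod_cast (by omega : 0 < d)
    have h1 := Int.emod_nonneg ((T d m r)^[a] n) hd0.ne'
    by_cases h : (d : ℤ) ∣ (T d m r)^[a] n
    · rw [if_pos h, Int.emod_eq_zero_of_dvd h]
      simp
    · rw [if_neg h, nz_of_ne]
      intro h2
      apply h
      apply Int.dvd_of_emod_eq_zero
      omega

/-- Points which do not go down quickly. -/
theorem fb_stay (hd : 2 ≤ d) (hdm : d < m) {η₁ ε δ : ℝ} (hη0 : 0 < η₁) (hε1 : ε ≤ 1)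
    (hδ : 0 < δ) :
    ∃ γ : ℝ, 0 < γ ∧ γ < 1 ∧ ∀ r : ℤ → ℤ, Admissible d m r → Core d m r η₁ ε δ →
      ∃ C : ℝ, 0 < C ∧ ∀ B : ℕ, 1 ≤ B → (∀ j : ℤ, 0 < j → j < (d : ℤ) → |r j| ≤ B) →
        ∀ K : ℕ, 1 ≤ K → ∀ Y₁ Y₂ : ℝ,
        1 ≤ Y₁ → Y₁ ≤ (d : ℝ) ^ K → (d : ℝ) ^ K ≤ d * Y₁ → Y₁ ^ γ ≤ Y₂ →
        2 * (B : ℝ) * ((2 * K : ℕ) : ℝ) ≤ Y₂ → ∀ F : Finset ℤ,
          (∀ y ∈ F, 0 < y ∧ (y : ℝ) ≤ Y₁ ∧ ∀ i ≤ 2 * K, Y₂ < ((T d m r)^[i] y : ℝ)) →
            (F.card : ℝ) ≤ C * Y₁ ^ η₁ := by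
  have h1 := log_d_pos hd
  have h2 := log_m_gt hd hdm
  have hlm : 0 < Real.log m := h1.trans h2
  have hd' : (2 : ℝ) ≤ d := by exact_mod_cast hd
  have hd0 : (0 : ℝ) < d := by linarith
  have hm1 : 1 ≤ m := by omega
  have hm0 : (0 : ℝ) < m := by exact_mod_cast hm1
  set θ : ℝ := min (1 / 2) (δ / 2 * Real.log m / Real.log d) with hθ
  have hθ0 : 0 < θ := lt_min (by norm_num) (by positivity)
  have hθ1 : θ ≤ 1 / 2 := min_le_left _ _
  have hθ2 : θ * Real.log d ≤ δ / 2 * Real.log m := by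
    have h3 : θ ≤ δ / 2 * Real.log m / Real.log d := min_le_right _ _
    rwa [le_div_iff₀ h1] at h3
  refine ⟨1 - θ, by linarith, by linarith, ?_⟩
  rintro r hr ⟨C₀, hC₀, hcore⟩
  set K₀ := ⌈Real.log 2 / (δ / 2 * Real.log m)⌉₊ with hK₀
  refine ⟨C₀ * (d : ℝ) ^ η₁ + (d : ℝ) ^ K₀, by positivity, ?_⟩
  intro B hB1 hB K hK Y₁ Y₂ hY1 hY1K hY1K' hY12 hY2 F hF
  have hY10 : 0 < Y₁ := by linarith
  have hYη : 1 ≤ Y₁ ^ η₁ := Real.one_le_rpow hY1 hη0.le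
  rcases lt_or_ge K K₀ with hKK | hKK
  · -- few steps: trivial
    have hcard : (F.card : ℝ) ≤ Y₁ := by
      have h3 : F ⊆ Finset.Icc 1 ⌊Y₁⌋ := by
        intro n hn
        obtain ⟨a1, a2, _⟩ := hF n hn
        rw [Finset.mem_Icc]
        exact ⟨a1, Int.le_floor.2 a2⟩
      have h4 := Finset.card_le_card h3
      rw [Int.card_Icc] at h4
      have h5 : ((⌊Y₁⌋ + 1 - 1).toNat : ℤ) = ⌊Y₁⌋ := by
        rw [add_sub_cancel_right]
        exact Int.toNat_of_nonneg (Int.floor_nonneg.2 hY10.le)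
      calc (F.card : ℝ) ≤ ((⌊Y₁⌋ + 1 - 1).toNat : ℝ) := by exact_mod_cast h4
        _ = ((((⌊Y₁⌋ + 1 - 1).toNat : ℤ)) : ℝ) := by push_cast; rfl
        _ = (⌊Y₁⌋ : ℝ) := by rw [h5]
        _ ≤ Y₁ := Int.floor_le Y₁
    have h3 : (d : ℝ) ^ K ≤ (d : ℝ) ^ K₀ := pow_le_pow_right₀ (by linarith) hKK.le
    have h4 : (0 : ℝ) < (d : ℝ) ^ K₀ := by positivity
    have h5 : 0 ≤ C₀ * (d : ℝ) ^ η₁ * Y₁ ^ η₁ := by positivity
    nlinarith
  · -- the main case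
    have hc := hcore K 1 F (by
      intro y hy
      obtain ⟨hy0, hyY, hyT⟩ := hF y hy
      refine ⟨by omega, ?_, ?_⟩
      · have h3 : (y : ℝ) ≤ (d : ℝ) ^ K := hyY.trans hY1K
        have h4 : y ≤ (d : ℤ) ^ K := by exact_mod_cast h3
        omega
      · intro a ha
        have haK : a ≤ 2 * K := by
          have h3 : (a : ℝ) ≤ 2 * K := by
            refine ha.trans ?_
            have : (0 : ℝ) ≤ K := by positivity
            nlinarith
          exact_mod_cast h3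
        rw [← fb_cnt_eq hd]
        obtain ⟨_, hs⟩ := size hr hd hm1 hB hB1 (by omega : 1 ≤ 2 * K) hY2 a haK y hy0
          (fun i hi => hyT i (by omega))
        have hTa := hyT a haK
        have h3 : (d : ℝ) ^ a * Y₂ ≤ 2 * ((m : ℝ) ^ cnt d m r a y * Y₁) := by
          calc (d : ℝ) ^ a * Y₂ ≤ (d : ℝ) ^ a * ((T d m r)^[a] y : ℝ) :=
                mul_le_mul_of_nonneg_left hTa.le (by positivity)
            _ ≤ 2 * ((m : ℝ) ^ cnt d m r a y * y) := hs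
            _ ≤ 2 * ((m : ℝ) ^ cnt d m r a y * Y₁) := by gcongr
        have h4 : (d : ℝ) ^ a * Y₁ ^ (1 - θ) ≤ 2 * ((m : ℝ) ^ cnt d m r a y * Y₁) :=
          (mul_le_mul_of_nonneg_left hY12 (by positivity)).trans h3
        have h5 := Real.log_le_log (by positivity) h4
        rw [Real.log_mul (by positivity) (by positivity), Real.log_rpow hY10, Real.log_pow,
          Real.log_mul (by norm_num) (by positivity), Real.log_mul (by positivity) hY10.ne',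
          Real.log_pow] at h5
        have h6 : Real.log Y₁ ≤ K * Real.log d := by
          have := Real.log_le_log hY10 hY1K
          rwa [Real.log_pow] at this
        have h7 : Real.log 2 ≤ δ / 2 * Real.log m * K := by
          have h8 : Real.log 2 / (δ / 2 * Real.log m) ≤ K :=
            (Nat.le_ceil _).trans (by exact_mod_cast hKK)
          rw [div_le_iff₀ (by positivity)] at h8
          linarith
        have h8 : θ * Real.log Y₁ ≤ δ / 2 * Real.log m * K := by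
          have h9 : 0 ≤ (K : ℝ) := by positivity
          calc θ * Real.log Y₁ ≤ θ * (K * Real.log d) := mul_le_mul_of_nonneg_left h6 hθ0.le
            _ = (θ * Real.log d) * K := by ring
            _ ≤ (δ / 2 * Real.log m) * K := mul_le_mul_of_nonneg_right hθ2 h9
        have h9 : (a : ℝ) * Real.log d - δ * K * Real.log m ≤ cnt d m r a y * Real.log m := by
          linarith
        have h10 : Real.log d / Real.log m * a - δ * K =
            (a * Real.log d - δ * K * Real.log m) / Real.log m := by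
          field_simp
        rw [h10, div_le_iff₀ hlm]
        exact h9)
    have h3 : (d : ℝ) ^ (η₁ * K) ≤ (d * Y₁) ^ η₁ := by
      rw [mul_comm η₁, Real.rpow_mul hd0.le, Real.rpow_natCast]
      exact Real.rpow_le_rpow (by positivity) hY1K' hη0.le
    have h4 : (d * Y₁) ^ η₁ = (d : ℝ) ^ η₁ * Y₁ ^ η₁ := Real.mul_rpow hd0.le hY10.le
    have h5 : C₀ * (d : ℝ) ^ (η₁ * K) ≤ C₀ * ((d : ℝ) ^ η₁ * Y₁ ^ η₁) := by
      rw [← h4]; exact mul_le_mul_of_nonneg_left h3 hC₀.le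
    have h6 : 0 ≤ (d : ℝ) ^ K₀ * Y₁ ^ η₁ := by positivity
    linarith

/-- The scales, with twice the number of steps. -/
theorem fb_scales (hd : 2 ≤ d) {γ : ℝ} (hγ0 : 0 < γ) (hγ1 : γ < 1) :
    ∃ c : ℝ, 0 < c ∧ ∀ x z : ℝ, 2 ≤ z → z < x → ∃ (J : ℕ) (Y : ℕ → ℝ) (K : ℕ → ℕ),
      Y 0 = x ∧ Y J = z ∧ (∀ j ≤ J, z ≤ Y j ∧ Y j ≤ x) ∧
      (∀ j < J, 1 ≤ K j ∧ Y j ≤ (d : ℝ) ^ K j ∧ (d : ℝ) ^ K j ≤ d * Y j ∧
        Y j ^ γ ≤ Y (j + 1)) ∧
      (J : ℝ) ≤ c * Real.log x ∧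
      ((∑ j ∈ Finset.range J, 2 * K j : ℕ) : ℝ) ≤ c * Real.log x := by
  obtain ⟨c, hc0, hc⟩ := exists_scales hd hγ0 hγ1
  refine ⟨2 * c, by positivity, fun x z hz hzx => ?_⟩
  obtain ⟨J, Y, K, h1, h2, h3, h4, h5, h6⟩ := hc x z hz hzx
  have hx : 0 ≤ Real.log x := Real.log_nonneg (by linarith)
  refine ⟨J, Y, K, h1, h2, h3, h4, by nlinarith, ?_⟩
  rw [← Finset.mul_sum]
  push_cast at h6 ⊢
  linarith

/-- The main estimate for the `T`-orbits. -/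
theorem fb_main_T (hd : 2 ≤ d) (hdm : d < m) (hco : Nat.Coprime m d) (hr : Admissible d m r)
    {η γ C₀ : ℝ} (hη0 : 0 < η) (hη1 : η < 1) (hγ0 : 0 < γ) (hγ1 : γ < 1) (hC₀ : 0 < C₀) {B : ℕ}
    (hB1 : 1 ≤ B) (hB : ∀ j : ℤ, 0 < j → j < (d : ℤ) → |r j| ≤ B)
    (hstay : ∀ K : ℕ, 1 ≤ K → ∀ Y₁ Y₂ : ℝ,
        1 ≤ Y₁ → Y₁ ≤ (d : ℝ) ^ K → (d : ℝ) ^ K ≤ d * Y₁ → Y₁ ^ γ ≤ Y₂ →
        2 * (B : ℝ) * ((2 * K : ℕ) : ℝ) ≤ Y₂ → ∀ F : Finset ℤ,
          (∀ y ∈ F, 0 < y ∧ (y : ℝ) ≤ Y₁ ∧ ∀ i ≤ 2 * K, Y₂ < ((T d m r)^[i] y : ℝ)) →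
            (F.card : ℝ) ≤ C₀ * Y₁ ^ η) :
    ∃ C : ℝ, 0 < C ∧ ∀ x z : ℝ, 2 ≤ x → 1 ≤ z → ∀ S : Finset ℤ,
        (∀ n ∈ S, 0 < n ∧ (n : ℝ) ≤ x ∧ ∀ k, z < ((T d m r)^[k] n : ℝ)) →
          (S.card : ℝ) ≤ C * Real.log x ^ 4 * x * z ^ (η - 1) := by
  classical
  obtain ⟨c, hc0, hscales⟩ := fb_scales hd hγ0 hγ1
  have hl2 : 0 < Real.log 2 := Real.log_pos (by norm_num)
  have hm1 : 1 ≤ m := by omega
  have hd1 : (1 : ℝ) ≤ d := by exact_mod_cast (by omega : 1 ≤ d)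
  set c₁ := c + 1 / Real.log 2 with hc₁
  have hc₁0 : 0 < c₁ := by positivity
  refine ⟨(68 * C₀ * d ^ 2 * c₁ ^ 4 + 2 * c₁ / Real.log 2 ^ 3) * B, by positivity, ?_⟩
  intro x z hx hz S hS
  have hB1' : (1 : ℝ) ≤ B := by exact_mod_cast hB1
  have hx0 : 0 < x := by linarith
  have hz0 : 0 < z := by linarith
  have hlx2 : Real.log 2 ≤ Real.log x := Real.log_le_log (by norm_num) hx
  have hlx : 0 < Real.log x := hl2.trans_le hlx2
  set N := ⌈c * Real.log x⌉₊ with hN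
  have hN1 : 1 ≤ N := Nat.one_le_iff_ne_zero.2 (by
    rw [hN]; exact (Nat.ceil_pos.2 (by positivity)).ne')
  have hN1' : (1 : ℝ) ≤ N := by exact_mod_cast hN1
  have hNc : (N : ℝ) ≤ c₁ * Real.log x := by
    have h1 := (Nat.ceil_lt_add_one (show 0 ≤ c * Real.log x by positivity)).le
    have h2 : 1 ≤ 1 / Real.log 2 * Real.log x := by
      rw [div_mul_eq_mul_div, one_mul, one_le_div hl2]; exact hlx2
    rw [hc₁, add_mul]
    linarith
  have hcN : c * Real.log x ≤ N := Nat.le_ceil _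
  rcases lt_or_ge z (2 * B * N) with hz2 | hz2
  · -- trivial range
    have hcard : (S.card : ℝ) ≤ x := by
      have h1 : S ⊆ Finset.Icc 1 ⌊x⌋ := by
        intro n hn
        obtain ⟨a1, a2, _⟩ := hS n hn
        rw [Finset.mem_Icc]
        exact ⟨a1, Int.le_floor.2 a2⟩
      have h2 := Finset.card_le_card h1
      rw [Int.card_Icc] at h2
      have h3 : ((⌊x⌋ + 1 - 1).toNat : ℤ) = ⌊x⌋ := by
        rw [add_sub_cancel_right]
        exact Int.toNat_of_nonneg (Int.floor_nonneg.2 hx0.le)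
      calc (S.card : ℝ) ≤ ((⌊x⌋ + 1 - 1).toNat : ℝ) := by exact_mod_cast h2
        _ = ((((⌊x⌋ + 1 - 1).toNat : ℤ)) : ℝ) := by push_cast; rfl
        _ = (⌊x⌋ : ℝ) := by rw [h3]
        _ ≤ x := Int.floor_le x
    have h1 : (2 * (B : ℝ) * N)⁻¹ ≤ z ^ (η - 1) := by
      calc (2 * (B : ℝ) * N)⁻¹ ≤ z⁻¹ := inv_anti₀ hz0 hz2.le
        _ = z ^ (-1 : ℝ) := (Real.rpow_neg_one z).symm
        _ ≤ z ^ (η - 1) := Real.rpow_le_rpow_of_exponent_le hz (by linarith)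
    have h2 : x ≤ (2 * c₁ / Real.log 2 ^ 3) * B * Real.log x ^ 4 * x * (2 * (B : ℝ) * N)⁻¹ := by
      have h3 : (2 * c₁ / Real.log 2 ^ 3) * B * Real.log x ^ 4 * x * (2 * (B : ℝ) * N)⁻¹ =
          (c₁ * Real.log x / N) * (Real.log x ^ 3 / Real.log 2 ^ 3) * x := by
        field_simp
      rw [h3]
      have h4 : 1 ≤ c₁ * Real.log x / N := by
        rw [one_le_div (by positivity)]; exact hNc
      have h5 : 1 ≤ Real.log x ^ 3 / Real.log 2 ^ 3 := by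
        rw [one_le_div (by positivity)]
        exact pow_le_pow_left₀ hl2.le hlx2 3
      have h6 : 1 ≤ (c₁ * Real.log x / N) * (Real.log x ^ 3 / Real.log 2 ^ 3) := by
        nlinarith
      nlinarith
    calc (S.card : ℝ) ≤ x := hcard
      _ ≤ (2 * c₁ / Real.log 2 ^ 3) * B * Real.log x ^ 4 * x * (2 * (B : ℝ) * N)⁻¹ := h2
      _ ≤ (2 * c₁ / Real.log 2 ^ 3) * B * Real.log x ^ 4 * x * z ^ (η - 1) := by gcongr
      _ ≤ (68 * C₀ * d ^ 2 * c₁ ^ 4 + 2 * c₁ / Real.log 2 ^ 3) * B * Real.log x ^ 4 * x *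
          z ^ (η - 1) := by
          gcongr
          have : 0 ≤ 68 * C₀ * d ^ 2 * c₁ ^ 4 := by positivity
          linarith
  rcases le_or_gt x z with hxz | hxz
  · -- nothing to count
    have : S = ∅ := by
      rw [Finset.eq_empty_iff_forall_notMem]
      intro n hn
      obtain ⟨_, a2, a3⟩ := hS n hn
      have := a3 0
      simp only [Function.iterate_zero, id_eq] at this
      linarith
    rw [this]
    simp only [Finset.card_empty, Nat.cast_zero]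
    positivity
  have h2z : 2 ≤ z := by nlinarith
  obtain ⟨J, Y, K, hY0, hYJ, hYb, hK, hJN, hKN⟩ := hscales x z h2z hxz
  have hKN' : ∑ j ∈ Finset.range J, 2 * K j ≤ N := by
    have : ((∑ j ∈ Finset.range J, 2 * K j : ℕ) : ℝ) ≤ N := hKN.trans hcN
    exact_mod_cast this
  have hJN' : (J : ℝ) ≤ N := hJN.trans hcN
  have hKj : ∀ j < J, 2 * K j ≤ N := fun j hj =>
    (Finset.single_le_sum (f := fun j => 2 * K j) (fun _ _ => Nat.zero_le _)
      (Finset.mem_range.2 hj)).trans hKN'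
  -- the stages
  set F : ℕ → Finset ℤ := fun j => (Finset.Icc 1 ⌊Y j⌋).filter
    (fun y => ∀ i ≤ 2 * K j, Y (j + 1) < ((T d m r)^[i] y : ℝ)) with hF
  set P : ℕ → ℤ → Prop := fun j n => ∃ t ≤ N, ((T d m r)^[t] n : ℝ) ≤ Y j ∧
      (∀ i < t, Y j < ((T d m r)^[i] n : ℝ)) ∧
      ∀ i ≤ 2 * K j, Y (j + 1) < ((T d m r)^[i] ((T d m r)^[t] n) : ℝ) with hP
  have hcover : S ⊆ (Finset.range J).biUnion (fun j => S.filter (P j)) := by
    intro n hn
    obtain ⟨a1, a2, a3⟩ := hS n hn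
    obtain ⟨j, hj, t, ht, h1, h2, h3⟩ := exists_stage x z J Y (fun j => 2 * K j) hY0.ge hYJ.le n a2 a3
    rw [Finset.mem_biUnion]
    exact ⟨j, Finset.mem_range.2 hj, Finset.mem_filter.2 ⟨hn, t, ht.trans hKN', h1, h2, h3⟩⟩
  have hFj : ∀ j < J, ((F j).card : ℝ) ≤ C₀ * Y j ^ η := by
    intro j hj
    obtain ⟨k1, k2, k3, k4⟩ := hK j hj
    have hYj := hYb j hj.le
    have hYj' := hYb (j + 1) hj
    refine hstay (K j) k1 (Y j) (Y (j + 1)) (by linarith) k2 k3 k4 ?_ (F j) ?_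
    · have h1 : ((2 * K j : ℕ) : ℝ) ≤ N := by exact_mod_cast hKj j hj
      have h2 : 2 * (B : ℝ) * ((2 * K j : ℕ) : ℝ) ≤ 2 * B * N := by gcongr
      linarith
    · intro y hy
      rw [hF, Finset.mem_filter, Finset.mem_Icc] at hy
      exact ⟨by linarith [hy.1.1], Int.le_floor.1 hy.1.2, hy.2⟩
  have hSj : ∀ j ∈ Finset.range J, ((S.filter (P j)).card : ℝ) ≤
      68 * C₀ * d ^ 2 * B * (N : ℝ) ^ 3 * x * z ^ (η - 1) := by
    intro j hj
    rw [Finset.mem_range] at hj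
    have hYj := hYb j hj.le
    have hYj0 : 0 < Y j := by linarith
    have h1 := card_stage hr hd hm1 hco hB hB1 hN1 (Y := Y j) (Y' := Y (j + 1))
      (by linarith) (x := x) hYj.2 (2 * K j) (S.filter (P j)) (F j) (by
        intro y hy0 hyY hyT
        rw [hF, Finset.mem_filter, Finset.mem_Icc]
        exact ⟨⟨by omega, Int.le_floor.2 hyY⟩, hyT⟩) (by
        intro y hy
        rw [hF, Finset.mem_filter, Finset.mem_Icc] at hy
        exact ⟨by linarith [hy.1.1], Int.le_floor.1 hy.1.2⟩) (by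
        intro n hn
        rw [Finset.mem_filter] at hn
        obtain ⟨hn1, t, ht1, ht2, ht3, ht4⟩ := hn
        obtain ⟨a1, a2, a3⟩ := hS n hn1
        refine ⟨a1, a2, t, ht1, ?_, ht2, ht3, ht4⟩
        have : (0 : ℝ) < ((T d m r)^[t] n : ℝ) := hz0.trans (a3 t)
        exact_mod_cast this)
    have h2 : ((N : ℝ) + 1) ^ 2 ≤ 4 * (N : ℝ) ^ 2 := by nlinarith
    have h3 : Y j ^ η * (x / Y j) ≤ x * z ^ (η - 1) := by
      have h4 : Y j ^ η * (x / Y j) = x * Y j ^ (η - 1) := by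
        rw [Real.rpow_sub_one hYj0.ne']
        field_simp
      rw [h4]
      refine mul_le_mul_of_nonneg_left ?_ hx0.le
      exact Real.rpow_le_rpow_of_nonpos hz0 hYj.1 (by linarith)
    calc ((S.filter (P j)).card : ℝ)
        ≤ (F j).card * (17 * B * N * ((N : ℝ) + 1) ^ 2 * d ^ 2 * (x / Y j)) := h1
      _ ≤ (C₀ * Y j ^ η) * (17 * B * N * (4 * (N : ℝ) ^ 2) * d ^ 2 * (x / Y j)) := by
          have := hFj j hj
          gcongr
      _ = 68 * C₀ * d ^ 2 * B * (N : ℝ) ^ 3 * (Y j ^ η * (x / Y j)) := by ring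
      _ ≤ 68 * C₀ * d ^ 2 * B * (N : ℝ) ^ 3 * (x * z ^ (η - 1)) := by gcongr
      _ = _ := by ring
  have hsum : (S.card : ℝ) ≤ ∑ j ∈ Finset.range J, ((S.filter (P j)).card : ℝ) := by
    have h1 := (Finset.card_le_card hcover).trans Finset.card_biUnion_le
    exact_mod_cast h1
  have hfin : (S.card : ℝ) ≤ N * (68 * C₀ * d ^ 2 * B * (N : ℝ) ^ 3 * x * z ^ (η - 1)) := by
    refine hsum.trans ((Finset.sum_le_card_nsmul _ _ _ hSj).trans ?_)
    rw [Finset.card_range, nsmul_eq_mul]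
    exact mul_le_mul_of_nonneg_right hJN' (by positivity)
  calc (S.card : ℝ) ≤ N * (68 * C₀ * d ^ 2 * B * (N : ℝ) ^ 3 * x * z ^ (η - 1)) := hfin
    _ = 68 * C₀ * d ^ 2 * (N : ℝ) ^ 4 * B * x * z ^ (η - 1) := by ring
    _ ≤ 68 * C₀ * d ^ 2 * (c₁ * Real.log x) ^ 4 * B * x * z ^ (η - 1) := by gcongr
    _ = (68 * C₀ * d ^ 2 * c₁ ^ 4) * B * Real.log x ^ 4 * x * z ^ (η - 1) := by ring
    _ ≤ (68 * C₀ * d ^ 2 * c₁ ^ 4 + 2 * c₁ / Real.log 2 ^ 3) * B * Real.log x ^ 4 * x *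
          z ^ (η - 1) := by
        gcongr
        have : 0 ≤ 2 * c₁ / Real.log 2 ^ 3 := by positivity
        linarith


/-- The polylogarithmic version, for `ncard`. -/
theorem fb_ncard {η₁ : ℝ} (hT : ∃ C : ℝ, 0 < C ∧ ∀ x z : ℝ, 2 ≤ x → 1 ≤ z → ∀ S : Finset ℤ,
        (∀ n ∈ S, 0 < n ∧ (n : ℝ) ≤ x ∧ ∀ k, z < ((T d m r)^[k] n : ℝ)) →
          (S.card : ℝ) ≤ C * Real.log x ^ 4 * x * z ^ (η₁ - 1)) :
    ∃ C : ℝ, 0 < C ∧ ∀ x z : ℝ, 2 ≤ x → 1 ≤ z →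
      ({n : ℤ | 0 < n ∧ (n : ℝ) ≤ x ∧ ∀ k : ℕ, z < ((T d m r)^[k] n : ℝ)}.ncard : ℝ) ≤
        C * Real.log x ^ 4 * x * z ^ (η₁ - 1) := by
  obtain ⟨C, hC0, hC⟩ := hT
  refine ⟨C, hC0, fun x z hx hz => ?_⟩
  have hfin : {n : ℤ | 0 < n ∧ (n : ℝ) ≤ x ∧ ∀ k : ℕ, z < ((T d m r)^[k] n : ℝ)}.Finite := by
    refine (Set.finite_Icc 0 ⌊x⌋).subset ?_
    rintro n ⟨h1, h2, _⟩
    exact ⟨h1.le, Int.le_floor.2 h2⟩
  rw [Set.ncard_eq_toFinset_card _ hfin]
  refine hC x z hx hz _ ?_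
  intro n hn
  rw [Set.Finite.mem_toFinset] at hn
  exact hn

/-- From the polylogarithmic version to the version without logarithms. -/
theorem fb_final (hd : 2 ≤ d) (hdm : d < m) (hco : Nat.Coprime m d)
    (hm : (m : ℝ) ≤ (d : ℝ) ^ ((d : ℝ) / ((d : ℝ) - 1))) (h1 : Flow d m r) {η η₁ : ℝ}
    (hη0 : 0 < η) (hη1 : η < 1) (hlt : η₁ < η)
    (hTT : ∃ C : ℝ, 0 < C ∧ ∀ x z : ℝ, 2 ≤ x → 1 ≤ z →
      ({n : ℤ | 0 < n ∧ (n : ℝ) ≤ x ∧ ∀ k : ℕ, z < ((T d m r)^[k] n : ℝ)}.ncard : ℝ) ≤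
        C * Real.log x ^ 4 * x * z ^ (η₁ - 1)) :
    ∃ C : ℝ, 0 < C ∧ ∀ x z : ℝ, 1 ≤ x → 1 ≤ z →
      ({n : ℤ | 0 < n ∧ (n : ℝ) ≤ x ∧ ∀ k : ℕ, z < ((T d m r)^[k] n : ℝ)}.ncard : ℝ) ≤
        C * x * z ^ (η - 1) := by
  obtain ⟨CT, hCT, hT⟩ := hTT
  set κ : ℝ := (η - η₁) / 4 with hκ_def
  have hκ : 0 < κ := by rw [hκ_def]; linarith
  have hκη : 4 * κ + (η₁ - 1) = η - 1 := by rw [hκ_def]; ring
  obtain ⟨C₅, Z, hC₅, hZ1, hZ⟩ := gd_bound hd hdm hco hm h1 hη0 hκ hκη hCT hT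
  have hZ0 : 0 < Z := by linarith
  refine ⟨2 * (CT + C₅) + 2 * Z ^ (1 - η), by positivity, ?_⟩
  intro x z hx hz
  have hz0 : 0 < z := by linarith
  have hx0 : 0 < x := by linarith
  have hzη : 0 < z ^ (η - 1) := Real.rpow_pos_of_pos hz0 _
  have hfinlt : ∀ y : ℝ, {n : ℤ | 0 < n ∧ (n : ℝ) < y ∧
      ∀ k : ℕ, z < ((T d m r)^[k] n : ℝ)}.Finite := by
    intro y
    refine (Set.finite_Icc 0 ⌊y⌋).subset ?_
    rintro n ⟨a1, a2, _⟩
    exact ⟨a1.le, Int.le_floor.2 a2.le⟩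
  have hfinle : ∀ y : ℝ, {n : ℤ | 0 < n ∧ (n : ℝ) ≤ y ∧
      ∀ k : ℕ, z < ((T d m r)^[k] n : ℝ)}.Finite := by
    intro y
    refine (Set.finite_Icc 0 ⌊y⌋).subset ?_
    rintro n ⟨a1, a2, _⟩
    exact ⟨a1.le, Int.le_floor.2 a2⟩
  rcases lt_or_ge z Z with hzZ | hzZ
  · -- small `z`
    have h2 : ({n : ℤ | 0 < n ∧ (n : ℝ) ≤ x ∧ ∀ k : ℕ, z < ((T d m r)^[k] n : ℝ)}.ncard : ℝ) ≤
        x := by
      have h3 : {n : ℤ | 0 < n ∧ (n : ℝ) ≤ x ∧ ∀ k : ℕ, z < ((T d m r)^[k] n : ℝ)}.ncard ≤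
          (Finset.Ioc 0 ⌊x⌋).card := by
        rw [← Set.ncard_coe_finset]
        refine Set.ncard_le_ncard ?_ (Finset.finite_toSet _)
        rintro n ⟨a1, a2, _⟩
        rw [Finset.coe_Ioc]
        exact ⟨a1, Int.le_floor.2 a2⟩
      rw [Int.card_Ioc] at h3
      have h4 : (0 : ℤ) ≤ ⌊x⌋ := Int.floor_nonneg.2 hx0.le
      have h5 : (((⌊x⌋ - 0).toNat : ℕ) : ℝ) = ((⌊x⌋ : ℤ) : ℝ) := by
        rw [sub_zero]
        have := Int.toNat_of_nonneg h4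
        exact_mod_cast this
      have h6 : (({n : ℤ | 0 < n ∧ (n : ℝ) ≤ x ∧
          ∀ k : ℕ, z < ((T d m r)^[k] n : ℝ)}.ncard : ℕ) : ℝ) ≤ (((⌊x⌋ - 0).toNat : ℕ) : ℝ) := by
        exact_mod_cast h3
      exact h6.trans (h5.le.trans (Int.floor_le x))
    have h3 : 1 ≤ Z ^ (1 - η) * z ^ (η - 1) := by
      have h4 : Z ^ (η - 1) ≤ z ^ (η - 1) :=
        Real.rpow_le_rpow_of_nonpos hz0 hzZ.le (by linarith)
      have h5 : Z ^ (1 - η) * Z ^ (η - 1) = 1 := by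
        rw [← Real.rpow_add hZ0]; simp
      have h6 : 0 < Z ^ (1 - η) := Real.rpow_pos_of_pos hZ0 _
      nlinarith
    have h4 : x ≤ x * (Z ^ (1 - η) * z ^ (η - 1)) := by nlinarith
    have h5 : 0 ≤ (CT + C₅) * (x * z ^ (η - 1)) := by positivity
    have h6 : 0 ≤ x * (Z ^ (1 - η) * z ^ (η - 1)) := by positivity
    refine h2.trans (h4.trans ?_)
    nlinarith
  · obtain ⟨hlog2, hgd⟩ := hZ z hzZ
    have hu₀0 : 0 < z ^ κ := Real.rpow_pos_of_pos hz0 _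
    -- the base case
    have hbase : ∀ y : ℝ, y ≤ Real.exp (z ^ κ) → 0 < y →
        ({n : ℤ | 0 < n ∧ (n : ℝ) < y ∧ ∀ k : ℕ, z < ((T d m r)^[k] n : ℝ)}.ncard : ℝ) ≤
          (CT + C₅) * y * z ^ (η - 1) := by
      intro y hy hy0
      rcases lt_or_ge y 2 with hy2 | hy2
      · have hemp : {n : ℤ | 0 < n ∧ (n : ℝ) < y ∧ ∀ k : ℕ, z < ((T d m r)^[k] n : ℝ)} = ∅ := by
          rw [Set.eq_empty_iff_forall_notMem]
          rintro n ⟨a1, a2, a3⟩
          have a4 : (n : ℝ) < 2 := a2.trans hy2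
          have a5 : n < 2 := by exact_mod_cast a4
          have a6 : n = 1 := by omega
          have a7 := a3 0
          simp only [Function.iterate_zero, id_eq, a6, Int.cast_one] at a7
          linarith
        rw [hemp, Set.ncard_empty, Nat.cast_zero]
        positivity
      · have h2 := hT y z hy2 hz
        have hsub : ({n : ℤ | 0 < n ∧ (n : ℝ) < y ∧
            ∀ k : ℕ, z < ((T d m r)^[k] n : ℝ)}.ncard : ℝ) ≤
            ({n : ℤ | 0 < n ∧ (n : ℝ) ≤ y ∧ ∀ k : ℕ, z < ((T d m r)^[k] n : ℝ)}.ncard : ℝ) := by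
          norm_cast
          refine Set.ncard_le_ncard ?_ (hfinle y)
          rintro n ⟨a1, a2, a3⟩
          exact ⟨a1, a2.le, a3⟩
        have hlog : Real.log y ≤ z ^ κ := by
          rw [← Real.log_exp (z ^ κ)]
          exact Real.log_le_log hy0 hy
        have hlog0 : 0 ≤ Real.log y := Real.log_nonneg (by linarith)
        have hlog4 : Real.log y ^ 4 ≤ z ^ (4 * κ) := by
          refine (pow_le_pow_left₀ hlog0 hlog 4).trans (le_of_eq ?_)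
          rw [← Real.rpow_natCast (z ^ κ) 4, ← Real.rpow_mul hz0.le]
          congr 1
          push_cast; ring
        have hzη₁ : 0 < z ^ (η₁ - 1) := Real.rpow_pos_of_pos hz0 _
        calc _ ≤ _ := hsub
          _ ≤ _ := h2
          _ ≤ CT * z ^ (4 * κ) * y * z ^ (η₁ - 1) := by gcongr
          _ = CT * y * (z ^ (4 * κ) * z ^ (η₁ - 1)) := by ring
          _ = CT * y * z ^ (η - 1) := by rw [← Real.rpow_add hz0, hκη]
          _ ≤ (CT + C₅) * y * z ^ (η - 1) := by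
            have : CT * y ≤ (CT + C₅) * y := mul_le_mul_of_nonneg_right (by linarith) hy0.le
            exact mul_le_mul_of_nonneg_right this hzη.le
    have hind : ∀ k : ℕ, ∀ y : ℝ, y ≤ 2 ^ k * Real.exp (z ^ κ) → 0 < y →
        ({n : ℤ | 0 < n ∧ (n : ℝ) < y ∧ ∀ k : ℕ, z < ((T d m r)^[k] n : ℝ)}.ncard : ℝ) ≤
          (CT + C₅) * y * z ^ (η - 1) := by
      intro k
      induction k with
      | zero => intro y hy hy0; exact hbase y (by simpa using hy) hy0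
      | succ k ih =>
        intro y hy hy0
        rcases le_or_gt y (Real.exp (z ^ κ)) with hle | hgt
        · exact hbase y hle hy0
        set a : ℝ := y / 2 with ha
        have ha0 : 0 < a := by positivity
        have hya : y = 2 * a := by rw [ha]; ring
        have h2 : Real.exp (z ^ κ / 2) ≤ a := by
          have h3 : 2 ≤ Real.exp (z ^ κ / 2) := by
            have h9 := Real.exp_le_exp.2 hlog2
            rwa [Real.exp_log (by norm_num)] at h9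
          have h4 : Real.exp (z ^ κ) = Real.exp (z ^ κ / 2) * Real.exp (z ^ κ / 2) := by
            rw [← Real.exp_add]; congr 1; ring
          nlinarith [Real.exp_pos (z ^ κ / 2)]
        have h3 : z ^ κ / 2 ≤ Real.log a := (Real.le_log_iff_exp_le ha0).2 h2
        have h4 := hgd _ h3
        rw [Real.exp_log ha0] at h4
        have h5 := ih a (by rw [ha]; rw [pow_succ] at hy; linarith) ha0
        have h6 : ({n : ℤ | a ≤ n ∧ (n : ℝ) < 2 * a ∧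
            ∀ k : ℕ, z < ((T d m r)^[k] n : ℝ)}.ncard : ℝ) ≤ C₅ * z ^ (η - 1) * a := by
          unfold gd at h4
          rwa [div_le_iff₀ ha0] at h4
        have h7 : ({n : ℤ | 0 < n ∧ (n : ℝ) < y ∧
            ∀ k : ℕ, z < ((T d m r)^[k] n : ℝ)}.ncard : ℝ) ≤
            ({n : ℤ | 0 < n ∧ (n : ℝ) < a ∧ ∀ k : ℕ, z < ((T d m r)^[k] n : ℝ)}.ncard : ℝ) +
            ({n : ℤ | a ≤ n ∧ (n : ℝ) < 2 * a ∧
              ∀ k : ℕ, z < ((T d m r)^[k] n : ℝ)}.ncard : ℝ) := by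
          norm_cast
          refine le_trans (Set.ncard_le_ncard ?_ ((hfinlt a).union ?_)) (Set.ncard_union_le _ _)
          · rintro n ⟨a1, a2, a3⟩
            rcases lt_or_ge (n : ℝ) a with a4 | a4
            · exact Or.inl ⟨a1, a4, a3⟩
            · exact Or.inr ⟨a4, by rw [← hya]; exact a2, a3⟩
          · refine (Set.finite_Icc 0 ⌊2 * a⌋).subset ?_
            rintro n ⟨a1, a2, _⟩
            refine ⟨?_, Int.le_floor.2 a2.le⟩
            have : (0 : ℝ) ≤ n := by linarith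
            exact_mod_cast this
        have h8 : 0 ≤ CT * a * z ^ (η - 1) := by positivity
        rw [hya]
        rw [hya] at h7
        nlinarith
    obtain ⟨k, hk⟩ := exists_nat_gt (2 * x)
    have h2k : (k : ℝ) ≤ 2 ^ k := by
      have := (Nat.lt_two_pow_self (n := k)).le
      exact_mod_cast this
    have hexp1 : 1 ≤ Real.exp (z ^ κ) := Real.one_le_exp hu₀0.le
    have h2 := hind k (2 * x) (by nlinarith) (by linarith)
    have hsub : ({n : ℤ | 0 < n ∧ (n : ℝ) ≤ x ∧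
        ∀ k : ℕ, z < ((T d m r)^[k] n : ℝ)}.ncard : ℝ) ≤
        ({n : ℤ | 0 < n ∧ (n : ℝ) < 2 * x ∧
        ∀ k : ℕ, z < ((T d m r)^[k] n : ℝ)}.ncard : ℝ) := by
      norm_cast
      refine Set.ncard_le_ncard ?_ (hfinlt _)
      rintro n ⟨a1, a2, a3⟩
      exact ⟨a1, by linarith, a3⟩
    refine (hsub.trans h2).trans ?_
    have h3 : 0 ≤ Z ^ (1 - η) * x * z ^ (η - 1) := by positivity
    nlinarith


/-- BE-I1 (adaptation of Helper52.Moeller.{Density.card_stay, Descent.main_T}, Helper52.Tao.FIN: use 2 K steps instead of K and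
the hypothesis `Core` in place of the Chernoff count; `Pool.Agent.Helper52.Tao.flow` gives `Flow`). Here `eta` is
`Pool.Agent.Helper68.Moeller.eta`. -/
theorem final_beyond {d m : ℕ} (hd : 2 ≤ d) (hdm : d < m) (hco : Nat.Coprime m d)
    (hm : (m : ℝ) ≤ (d : ℝ) ^ ((d : ℝ) / ((d : ℝ) - 1))) {η₁ ε δ : ℝ} (hη0 : 0 < η₁)
    (hη1 : η₁ < eta d m) (hε0 : 0 < ε) (hε1 : ε ≤ 1) (hδ : 0 < δ) :
    ∃ η₂ : ℝ, 0 < η₂ ∧ η₂ < eta d m ∧ ∀ r : ℤ → ℤ, Admissible d m r → Core d m r η₁ ε δ →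
      ∃ C : ℝ, 0 < C ∧ ∀ x z : ℝ, 1 ≤ x → 1 ≤ z →
        ({n : ℤ | 0 < n ∧ (n : ℝ) ≤ x ∧ ∀ k : ℕ, z < ((T d m r)^[k] n : ℝ)}.ncard : ℝ) ≤
          C * x * z ^ (η₂ - 1) := by
  have heta1 := eta_lt_one hd hdm hco hm
  obtain ⟨γ, hγ0, hγ1, hstay⟩ := fb_stay hd hdm hη0 hε1 hδ
  refine ⟨(η₁ + eta d m) / 2, by linarith, by linarith, ?_⟩
  intro r hr hcore
  obtain ⟨C₀, hC₀, hst⟩ := hstay r hr hcore
  obtain ⟨B, hB1, hB⟩ : ∃ B : ℕ, 1 ≤ B ∧ ∀ j : ℤ, 0 < j → j < (d : ℤ) → |r j| ≤ B := by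
    refine ⟨1 + ∑ j ∈ Finset.range d, (r j).natAbs, by omega, ?_⟩
    intro j hj hjd
    have h1 : j.toNat ∈ Finset.range d := by
      rw [Finset.mem_range]; omega
    have h2 := Finset.single_le_sum (f := fun j : ℕ => (r j).natAbs) (fun i _ => Nat.zero_le _) h1
    have h3 : ((j.toNat : ℕ) : ℤ) = j := Int.toNat_of_nonneg hj.le
    simp only [h3] at h2
    rw [Int.abs_eq_natAbs]
    have h4 : (r j).natAbs ≤ 1 + ∑ j ∈ Finset.range d, (r j).natAbs := by omega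
    exact_mod_cast h4
  have hflow : Flow d m r := flow hd hdm hco hr (mixing hd hdm hco (mixing_step hd hdm hco hm hr
    (fourier_decay hd hdm hco hm hr (one_block hd hdm hco hm))))
  exact fb_final hd hdm hco hm hflow (by linarith) (by linarith) (by linarith)
    (fb_ncard (fb_main_T hd hdm hco hr hη0 (by linarith) hγ0 hγ1 hC₀ hB1 hB
      (hst B hB1 hB)))

end Pool.Agent.Helper28.BE
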