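import Pool.Agent.Helper28.BE.Words
import Pool.Agent.Helper28.BE.Fejer

/-!
Block F: the main inequality for fixed counts.
-/

set_option autoImplicit false

namespace Pool.Agent.Helper28.BE

open Pool.Agent.Helper68.Moeller Pool.Agent.Helper52.Tao

/-- Cauchy-Schwarz over the futures. -/
theorem cauchy_futures {α β : Type*} [DecidableEq β] (S : Finset α) (𝒲 : Finset β) (w : α → β)
    (hw : ∀ n ∈ S, w n ∈ 𝒲) (f : α → ℝ) :
    (∑ n ∈ S, f n) ^ 2 ≤ (𝒲.card : ℝ) * ∑ n ∈ S, ∑ n' ∈ S, (if w n' = w n then f n * f n' else 0) := by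
  have h1 : ∑ n ∈ S, f n = ∑ y ∈ 𝒲, ∑ n ∈ S with w n = y, f n :=
    (Finset.sum_fiberwise_of_maps_to hw f).symm
  rw [h1]
  refine (sq_sum_le_card_mul_sum_sq (s := 𝒲) (f := fun y => ∑ n ∈ S with w n = y, f n)).trans ?_
  refine mul_le_mul_of_nonneg_left (le_of_eq ?_) (by positivity)
  rw [← Finset.sum_fiberwise_of_maps_to hw]
  refine Finset.sum_congr rfl fun y _ => ?_
  rw [sq, Finset.sum_mul]
  refine Finset.sum_congr rfl fun n hn => ?_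
  have hn' := (Finset.mem_filter.1 hn).2
  rw [Finset.mul_sum, Finset.sum_filter]
  refine Finset.sum_congr rfl fun n' _ => ?_
  rw [hn']

theorem weighted_le {Q c : ℕ} {κ X₁ Y₁ : ℝ} (hκ0 : 0 ≤ κ) (hκ1 : κ ≤ 1) (A : ℕ → ℝ)
    (hA0 : ∀ j, 0 ≤ A j) (hA1 : ∀ j, A j ≤ 1) (hX : ∑ j ∈ Finset.range Q, A j ≤ X₁) (u : ℕ → ℕ)
    (hY : (((Finset.range Q).filter (fun j => u j ≤ c)).card : ℝ) ≤ Y₁) :
    ∑ j ∈ Finset.range Q, A j * (1 - κ) ^ u j ≤ (1 - κ) ^ c * X₁ + Y₁ := by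
  have h1 : ∀ j ∈ Finset.range Q, A j * (1 - κ) ^ u j ≤
      (1 - κ) ^ c * A j + (if u j ≤ c then 1 else 0) := by
    intro j _
    have h2 : 0 ≤ (1 - κ) := by linarith
    have h3 : (1 - κ) ^ u j ≤ 1 := pow_le_one₀ h2 (by linarith)
    have h4 : 0 ≤ (1 - κ) ^ u j := pow_nonneg h2 _
    have h5 : 0 ≤ (1 - κ) ^ c := pow_nonneg h2 _
    split_ifs with h
    · have := mul_le_mul (hA1 j) h3 h4 (by norm_num)
      have := mul_nonneg h5 (hA0 j)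
      linarith
    · have h6 : (1 - κ) ^ u j ≤ (1 - κ) ^ c :=
        pow_le_pow_of_le_one h2 (by linarith) (by omega)
      have := mul_le_mul_of_nonneg_left h6 (hA0 j)
      linarith
  refine (Finset.sum_le_sum h1).trans ?_
  rw [Finset.sum_add_distrib, ← Finset.mul_sum]
  refine add_le_add (mul_le_mul_of_nonneg_left hX (pow_nonneg (by linarith) _)) ?_
  rw [Finset.card_filter] at hY
  push_cast at hY
  exact hY

variable {d m : ℕ} {r : ℤ → ℤ}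

/-- Block F. -/
theorem fixed_counts (hd : 2 ≤ d) (hco : Nat.Coprime m d)
    (hr : Admissible d m r) {x : ℝ} (hx : 0 < x) {i₁ b n i k₁ k₂ c Q : ℕ} {μ g₀ : ℤ}
    (hμ : ((d ^ (i₁ + b * n + i) : ℕ) : ℤ) ∣ m * μ - 1) {ε κ X₁ Y₁ : ℝ} (hκ0 : 0 ≤ κ)
    (hκ1 : κ ≤ 1) (hY0 : 0 ≤ Y₁) (hQ1 : 1 ≤ Q) (hQ : 8 * Q ≤ d ^ i) (V₁ : Finset (List ℕ))
    (hV₁ : ∀ v ∈ V₁, v ∈ W d i₁ ∧ sg v = k₁) (TT : Finset (List ℕ))
    (hTT : ∀ G ∈ TT, G.length = n ∧ G.sum = k₂)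
    (hX₁ : ∀ l < Q, ∑ j ∈ Finset.range Q, ‖∑ v ∈ V₁, (wt d x v : ℂ) *
      ex (((((j : ℤ) - l) * (μ ^ k₁ * Off d m r v) : ℤ) : ℝ) / ((d ^ (i₁ + b * n + i) : ℕ) : ℝ))‖ ^ 2 ≤
        X₁)
    (hD : ∀ G ∈ TT, ∀ h : ℤ,
      ‖∑ w ∈ WT d b G, (wt d x w : ℂ) *
        ex (((h * (μ ^ G.sum * Off d m r w) : ℤ) : ℝ) / ((d ^ (i₁ + b * n + i) : ℕ) : ℝ))‖ ≤
      (∑ w ∈ WT d b G, wt d x w) * (1 - κ) ^ wh d b (d ^ (i₁ + b * n + i)) ε μ g₀ h G)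
    (hE : ∀ G ∈ TT, ∀ l < Q, (((Finset.range Q).filter (fun j : ℕ =>
      wh d b (d ^ (i₁ + b * n + i)) ε μ g₀ (((j : ℤ) - l) * (μ ^ k₁ * (d : ℤ) ^ i₁)) G ≤ c)).card : ℝ) ≤
        Y₁)
    (𝒲 : Finset (List ℕ)) (X : ℤ) (S : Finset ℤ)
    (hS : ∀ n' ∈ S, X ≤ n' ∧ n' < X + (d : ℤ) ^ (i₁ + b * n) ∧ wd d m r i₁ n' ∈ V₁ ∧
      ty b n (wd d m r (b * n) ((T d m r)^[i₁] n')) ∈ TT ∧
      wd d m r i ((T d m r)^[i₁ + b * n] n') ∈ 𝒲) :
    (∑ n' ∈ S, wt d x (wd d m r (i₁ + b * n) n')) ^ 2 ≤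
      (𝒲.card : ℝ) * (2 / Q * ((1 - κ) ^ c * X₁ + Y₁)) := by
  classical
  have hd1 : 1 ≤ d := by omega
  have hd0 : 0 < d := by omega
  set M : ℕ := d ^ (i₁ + b * n + i) with hM
  have hM0 : 0 < M := Nat.pow_pos hd0
  have hMr : (0 : ℝ) < M := by exact_mod_cast hM0
  have hQ0 : (0 : ℝ) < Q := by exact_mod_cast hQ1
  -- the two factors
  set U : Finset (List ℕ) := TT.biUnion (fun G => WT d b G) with hU
  have hUmem : ∀ w ∈ U, w ∈ W d (b * n) ∧ sg w = k₂ := by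
    intro w hw
    rw [hU, Finset.mem_biUnion] at hw
    obtain ⟨G, hG, hwG⟩ := hw
    obtain ⟨h1, h2⟩ := mem_WT.1 hwG
    obtain ⟨h3, h4⟩ := hTT G hG
    rw [h3] at h1 h2
    refine ⟨h1, ?_⟩
    rw [← ty_sum n h1, h2, h4]
  set s : Finset (List ℕ × List ℕ) := U ×ˢ V₁ with hs
  set a : List ℕ × List ℕ → ℝ := fun p => wt d x p.1 * wt d x p.2 with ha
  have ha0 : ∀ p, 0 ≤ a p := fun p => mul_nonneg (wt_nonneg hd1 hx.le _) (wt_nonneg hd1 hx.le _)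
  set θ : List ℕ × List ℕ → ℝ := fun p =>
    ((μ ^ (k₁ + k₂) * Off d m r (p.1 ++ p.2) : ℤ) : ℝ) / (M : ℝ) with hθ
  set p : ℤ → List ℕ × List ℕ := fun n' =>
    (wd d m r (b * n) ((T d m r)^[i₁] n'), wd d m r i₁ n') with hp
  have hpw : ∀ n', wd d m r (i₁ + b * n) n' = (p n').1 ++ (p n').2 := by
    intro n'
    rw [hp, add_comm i₁ (b * n), wd_add]
  have hpa : ∀ n', wt d x (wd d m r (i₁ + b * n) n') = a (p n') := by
    intro n'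
    rw [hpw, wt_append]
  have hps : ∀ n' ∈ S, p n' ∈ s := by
    intro n' hn'
    obtain ⟨_, _, h3, h4, _⟩ := hS n' hn'
    rw [hs, Finset.mem_product]
    refine ⟨?_, h3⟩
    rw [hU, Finset.mem_biUnion]
    refine ⟨_, h4, mem_WT.2 ?_⟩
    rw [ty_length]
    exact ⟨wd_mem hd r _ _, rfl⟩
  have hinj : ∀ n' ∈ S, ∀ n'' ∈ S, p n' = p n'' → n' = n'' := by
    intro n' hn' n'' hn'' h
    obtain ⟨h1, h2, _⟩ := hS n' hn'
    obtain ⟨h3, h4, _⟩ := hS n'' hn''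
    have h5 : wd d m r (i₁ + b * n) n' = wd d m r (i₁ + b * n) n'' := by rw [hpw, hpw, h]
    exact eq_of_dvd_of_lt (dvd_of_wd_eq hd hco hr h5) h1 h2 h3 h4
  -- Cauchy-Schwarz
  have hCS := cauchy_futures S 𝒲 (fun n' => wd d m r i ((T d m r)^[i₁ + b * n] n'))
    (fun n' hn' => (hS n' hn').2.2.2.2) (fun n' => wt d x (wd d m r (i₁ + b * n) n'))
  refine hCS.trans (mul_le_mul_of_nonneg_left ?_ (by positivity))
  -- closeness
  have hclose : ∑ n' ∈ S, ∑ n'' ∈ S,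
      (if wd d m r i ((T d m r)^[i₁ + b * n] n'') = wd d m r i ((T d m r)^[i₁ + b * n] n') then
        wt d x (wd d m r (i₁ + b * n) n') * wt d x (wd d m r (i₁ + b * n) n'') else 0) ≤
      ∑ q ∈ s, ∑ q' ∈ s, (if ∃ z : ℤ, |θ q - θ q' - z| ≤ 1 / (8 * (Q : ℝ)) then a q * a q' else 0) := by
    have h1 : ∑ n' ∈ S, ∑ n'' ∈ S,
        (if wd d m r i ((T d m r)^[i₁ + b * n] n'') = wd d m r i ((T d m r)^[i₁ + b * n] n') then
          wt d x (wd d m r (i₁ + b * n) n') * wt d x (wd d m r (i₁ + b * n) n'') else 0) ≤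
        ∑ n' ∈ S, ∑ n'' ∈ S, (if ∃ z : ℤ, |θ (p n') - θ (p n'') - z| ≤ 1 / (8 * (Q : ℝ)) then
          a (p n') * a (p n'') else 0) := by
      refine Finset.sum_le_sum fun n' hn' => Finset.sum_le_sum fun n'' hn'' => ?_
      by_cases h : wd d m r i ((T d m r)^[i₁ + b * n] n'') = wd d m r i ((T d m r)^[i₁ + b * n] n')
      · have h2 : ∃ z : ℤ, |θ (p n') - θ (p n'') - z| ≤ 1 / (8 * (Q : ℝ)) := by
          obtain ⟨a1, a2, a3, a4, _⟩ := hS n' hn'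
          obtain ⟨b1, b2, b3, b4, _⟩ := hS n'' hn''
          have hsg : ∀ y ∈ S, sg (wd d m r (i₁ + b * n) y) = k₁ + k₂ := by
            intro y hy
            have h3 := hps y hy
            rw [hs, Finset.mem_product] at h3
            rw [hpw, sg_append, (hUmem _ h3.1).2, (hV₁ _ h3.2).2, add_comm]
          have h3 := close_of_wd_eq hd hco hr hQ1 hQ hμ
            (by rw [abs_lt]; constructor <;> linarith) (hsg n' hn') (hsg n'' hn'') h.symm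
          rw [hpw, hpw] at h3
          exact h3
        rw [if_pos h, if_pos h2, hpa, hpa]
      · rw [if_neg h]
        split_ifs
        · exact mul_nonneg (ha0 _) (ha0 _)
        · exact le_rfl
    refine h1.trans ?_
    have h2 : ∑ n' ∈ S, ∑ n'' ∈ S, (if ∃ z : ℤ, |θ (p n') - θ (p n'') - z| ≤ 1 / (8 * (Q : ℝ)) then
          a (p n') * a (p n'') else 0) =
        ∑ q ∈ S.image p, ∑ q' ∈ S.image p,
          (if ∃ z : ℤ, |θ q - θ q' - z| ≤ 1 / (8 * (Q : ℝ)) then a q * a q' else 0) := by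
      rw [Finset.sum_image (fun y hy y' hy' h => hinj y hy y' hy' h)]
      refine Finset.sum_congr rfl fun n' _ => ?_
      rw [Finset.sum_image (fun y hy y' hy' h => hinj y hy y' hy' h)]
    rw [h2]
    have hsub : S.image p ⊆ s := by
      intro q hq
      obtain ⟨n', hn', rfl⟩ := Finset.mem_image.1 hq
      exact hps n' hn'
    have hnn : ∀ q q', 0 ≤ (if ∃ z : ℤ, |θ q - θ q' - z| ≤ 1 / (8 * (Q : ℝ)) then a q * a q' else 0) := by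
      intro q q'
      split_ifs
      · exact mul_nonneg (ha0 _) (ha0 _)
      · exact le_rfl
    refine (Finset.sum_le_sum fun q _ =>
      Finset.sum_le_sum_of_subset_of_nonneg hsub fun q' _ _ => hnn q q').trans ?_
    exact Finset.sum_le_sum_of_subset_of_nonneg hsub fun q _ _ =>
      Finset.sum_nonneg fun q' _ => hnn q q'
  refine hclose.trans ?_
  refine (fejer s a (fun q _ => ha0 q) θ Q hQ1).trans ?_
  -- factorization
  set A₁ : ℤ → ℂ := fun ξ => ∑ v ∈ V₁, (wt d x v : ℂ) *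
    ex (((ξ * (μ ^ k₁ * Off d m r v) : ℤ) : ℝ) / (M : ℝ)) with hA₁
  set A₂ : ℤ → ℂ := fun ξ => ∑ w ∈ U, (wt d x w : ℂ) *
    ex ((((ξ * (μ ^ k₁ * (d : ℤ) ^ i₁)) * (μ ^ k₂ * Off d m r w) : ℤ) : ℝ) / (M : ℝ)) with hA₂
  have hfac : ∀ ξ : ℤ, ∑ q ∈ s, (a q : ℂ) * ex ((ξ : ℝ) * θ q) = A₂ ξ * A₁ ξ := by
    intro ξ
    rw [hs, Finset.sum_product, hA₁, hA₂, Finset.sum_mul_sum]
    refine Finset.sum_congr rfl fun w hw => Finset.sum_congr rfl fun v hv => ?_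
    obtain ⟨h1, h2⟩ := hUmem w hw
    obtain ⟨h3, h4⟩ := hV₁ v hv
    have h5 : ex ((ξ : ℝ) * θ (w, v)) =
        ex ((((ξ * (μ ^ k₁ * (d : ℤ) ^ i₁)) * (μ ^ k₂ * Off d m r w) : ℤ) : ℝ) / (M : ℝ)) *
          ex (((ξ * (μ ^ k₁ * Off d m r v) : ℤ) : ℝ) / (M : ℝ)) := by
      rw [← ex_add, hθ]
      simp only
      rw [Off_append, h2, length_of_mem_W h3]
      have h6 : (ξ : ℝ) * (((μ ^ (k₁ + k₂) * ((m : ℤ) ^ k₂ * Off d m r v + (d : ℤ) ^ i₁ *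
          Off d m r w) : ℤ) : ℝ) / (M : ℝ)) =
          ((ξ * (μ ^ (k₁ + k₂) * ((m : ℤ) ^ k₂ * Off d m r v + (d : ℤ) ^ i₁ *
          Off d m r w)) : ℤ) : ℝ) / (M : ℝ) := by
        push_cast; ring
      have h7 : ((((ξ * (μ ^ k₁ * (d : ℤ) ^ i₁)) * (μ ^ k₂ * Off d m r w) : ℤ) : ℝ) / (M : ℝ)) +
          (((ξ * (μ ^ k₁ * Off d m r v) : ℤ) : ℝ) / (M : ℝ)) =
          (((ξ * (μ ^ k₁ * (d : ℤ) ^ i₁)) * (μ ^ k₂ * Off d m r w) + ξ * (μ ^ k₁ * Off d m r v) : ℤ) : ℝ)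
            / (M : ℝ) := by
        push_cast; ring
      rw [h6, h7]
      refine ex_congr hM0 ?_
      obtain ⟨e, he⟩ := inv_pow hμ k₂
      refine ⟨ξ * μ ^ k₁ * Off d m r v * e, ?_⟩
      rw [pow_add]
      linear_combination (ξ * μ ^ k₁ * Off d m r v) * he
    rw [h5, ha]
    push_cast
    ring
  have hA₁1 : ∀ ξ, ‖A₁ ξ‖ ≤ 1 := by
    intro ξ
    refine (norm_sum_le _ _).trans ?_
    refine le_trans (Finset.sum_le_sum fun v _ => ?_) (sum_wt_le hd1 hx.le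
      (fun v hv => (hV₁ v hv).1) : ∑ v ∈ V₁, wt d x v ≤ 1)
    rw [norm_mul, norm_ex, mul_one, Complex.norm_real, Real.norm_eq_abs,
      abs_of_nonneg (wt_nonneg hd1 hx.le _)]
  have hA₂1 : ∀ ξ, ‖A₂ ξ‖ ≤ 1 := by
    intro ξ
    refine (norm_sum_le _ _).trans ?_
    refine le_trans (Finset.sum_le_sum fun v _ => ?_) (sum_wt_le hd1 hx.le
      (fun v hv => (hUmem v hv).1) : ∑ v ∈ U, wt d x v ≤ 1)
    rw [norm_mul, norm_ex, mul_one, Complex.norm_real, Real.norm_eq_abs,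
      abs_of_nonneg (wt_nonneg hd1 hx.le _)]
  have hdisj : ∀ G ∈ TT, ∀ G' ∈ TT, G ≠ G' → Disjoint (WT d b G) (WT d b G') := by
    intro G hG G' hG' hne
    rw [Finset.disjoint_left]
    intro w hw hw'
    obtain ⟨_, h1⟩ := mem_WT.1 hw
    obtain ⟨_, h2⟩ := mem_WT.1 hw'
    rw [(hTT G hG).1] at h1
    rw [(hTT G' hG').1] at h2
    exact hne (h1.symm.trans h2)
  set ω : List ℕ → ℝ := fun G => ∑ w ∈ WT d b G, wt d x w with hω
  have hω0 : ∀ G, 0 ≤ ω G := fun G => Finset.sum_nonneg fun w _ => wt_nonneg hd1 hx.le w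
  have hω1 : ∑ G ∈ TT, ω G ≤ 1 := by
    have h1 : ∑ G ∈ TT, ω G = ∑ w ∈ U, wt d x w := by
      rw [hU, Finset.sum_biUnion]
      intro G hG G' hG' hne
      exact hdisj G hG G' hG' hne
    rw [h1]
    exact sum_wt_le hd1 hx.le (fun v hv => (hUmem v hv).1)
  have hA₂G : ∀ ξ : ℤ, ‖A₂ ξ‖ ≤ ∑ G ∈ TT, ω G *
      (1 - κ) ^ wh d b M ε μ g₀ (ξ * (μ ^ k₁ * (d : ℤ) ^ i₁)) G := by
    intro ξ
    have h1 : A₂ ξ = ∑ G ∈ TT, ∑ w ∈ WT d b G, (wt d x w : ℂ) *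
        ex ((((ξ * (μ ^ k₁ * (d : ℤ) ^ i₁)) * (μ ^ k₂ * Off d m r w) : ℤ) : ℝ) / (M : ℝ)) := by
      simp only [hA₂, hU]
      rw [Finset.sum_biUnion]
      intro G hG G' hG' hne
      exact hdisj G hG G' hG' hne
    rw [h1]
    refine (norm_sum_le _ _).trans (Finset.sum_le_sum fun G hG => ?_)
    have h2 := hD G hG (ξ * (μ ^ k₁ * (d : ℤ) ^ i₁))
    rw [(hTT G hG).2] at h2
    exact h2
  have hrow : ∀ l < Q, ∑ k ∈ Finset.range Q, ‖A₂ ((k : ℤ) - l) * A₁ ((k : ℤ) - l)‖ ^ 2 ≤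
      (1 - κ) ^ c * X₁ + Y₁ := by
    intro l hl
    have h1 : ∀ k ∈ Finset.range Q, ‖A₂ ((k : ℤ) - l) * A₁ ((k : ℤ) - l)‖ ^ 2 ≤
        ∑ G ∈ TT, ω G * (‖A₁ ((k : ℤ) - l)‖ ^ 2 *
          (1 - κ) ^ wh d b M ε μ g₀ (((k : ℤ) - l) * (μ ^ k₁ * (d : ℤ) ^ i₁)) G) := by
      intro k _
      rw [norm_mul, mul_pow]
      have h2 : ‖A₂ ((k : ℤ) - l)‖ ^ 2 ≤ ‖A₂ ((k : ℤ) - l)‖ := by
        have := hA₂1 ((k : ℤ) - l)
        have h0 := norm_nonneg (A₂ ((k : ℤ) - l))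
        nlinarith
      have h3 := h2.trans (hA₂G ((k : ℤ) - l))
      have h4 := mul_le_mul_of_nonneg_right h3 (by positivity : 0 ≤ ‖A₁ ((k : ℤ) - l)‖ ^ 2)
      refine h4.trans (le_of_eq ?_)
      rw [Finset.sum_mul]
      refine Finset.sum_congr rfl fun G _ => ?_
      ring
    refine (Finset.sum_le_sum h1).trans ?_
    rw [Finset.sum_comm]
    have hXY0 : 0 ≤ (1 - κ) ^ c * X₁ + Y₁ := by
      have h2 : 0 ≤ X₁ := le_trans (Finset.sum_nonneg fun j _ => by positivity) (hX₁ l hl)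
      have h4 : 0 ≤ (1 - κ) ^ c := pow_nonneg (by linarith) _
      positivity
    have h2 : ∀ G ∈ TT, ∑ k ∈ Finset.range Q, ω G * (‖A₁ ((k : ℤ) - l)‖ ^ 2 *
          (1 - κ) ^ wh d b M ε μ g₀ (((k : ℤ) - l) * (μ ^ k₁ * (d : ℤ) ^ i₁)) G) ≤
        ω G * ((1 - κ) ^ c * X₁ + Y₁) := by
      intro G hG
      rw [← Finset.mul_sum]
      refine mul_le_mul_of_nonneg_left ?_ (hω0 G)
      exact weighted_le hκ0 hκ1 (fun k => ‖A₁ ((k : ℤ) - l)‖ ^ 2) (fun k => by positivity)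
        (fun k => pow_le_one₀ (norm_nonneg _) (hA₁1 _)) (hX₁ l hl)
        (fun k => wh d b M ε μ g₀ (((k : ℤ) - l) * (μ ^ k₁ * (d : ℤ) ^ i₁)) G) (hE G hG l hl)
    refine (Finset.sum_le_sum h2).trans ?_
    rw [← Finset.sum_mul]
    exact mul_le_of_le_one_left hXY0 hω1
  have hfin : ∑ k ∈ Finset.range Q, ∑ l ∈ Finset.range Q,
      ‖∑ q ∈ s, (a q : ℂ) * ex ((((k : ℤ) - (l : ℤ) : ℤ) : ℝ) * θ q)‖ ^ 2 ≤
      Q * ((1 - κ) ^ c * X₁ + Y₁) := by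
    rw [Finset.sum_comm]
    have h1 : ∀ l ∈ Finset.range Q, ∑ k ∈ Finset.range Q,
        ‖∑ q ∈ s, (a q : ℂ) * ex ((((k : ℤ) - (l : ℤ) : ℤ) : ℝ) * θ q)‖ ^ 2 ≤
        (1 - κ) ^ c * X₁ + Y₁ := by
      intro l hl
      refine le_trans (le_of_eq ?_) (hrow l (Finset.mem_range.1 hl))
      refine Finset.sum_congr rfl fun k _ => ?_
      rw [hfac]
    refine (Finset.sum_le_card_nsmul _ _ _ h1).trans (le_of_eq ?_)
    rw [Finset.card_range, nsmul_eq_mul]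
  refine (mul_le_mul_of_nonneg_left hfin (by positivity)).trans (le_of_eq ?_)
  field_simp

end Pool.Agent.Helper28.BE
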