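import Pool.Agent.Helper28.BE.Basic

set_option autoImplicit false

namespace Pool.Agent.Helper28.BE

open Pool.Agent.Helper68.Moeller Pool.Agent.Helper52.Tao

/-- BE-E3 -/
theorem no_collision {d m : ℕ} (hd : 2 ≤ d) (hm : 2 ≤ m) {i₁ M₁ k₁ S Δ A : ℕ} {μ g₀ ζ : ℤ}
    (hμ : ((d ^ (i₁ + M₁) : ℕ) : ℤ) ∣ m * μ - 1) (hres : NoRes d m M₁) (hA : A ^ 100 ≤ d ^ M₁)
    (h1 : d ^ M₁ ≤ A * m ^ (Δ + S)) (h2 : m ^ k₁ + 1 ≤ A) (h3 : |g₀ * ζ| ≤ A)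
    (h4 : |g₀ * ζ| < (m : ℤ) ^ (k₁ + S)) (hg₀ : g₀ ≠ 0) (hζ : ζ ≠ 0) (z : ℤ) :
    1 / (m : ℝ) ^ (Δ + S) ≤
      |((g₀ * (ζ * (μ ^ k₁ * (d : ℤ) ^ i₁)) * μ ^ S : ℤ) : ℝ) / ((d ^ (i₁ + M₁) : ℕ) : ℝ) - z| := by
  by_contra hcon
  rw [not_le] at hcon
  have hdR : (0 : ℝ) < d := by exact_mod_cast (by omega : 0 < d)
  have hmR : (0 : ℝ) < m := by exact_mod_cast (by omega : 0 < m)
  have hmR1 : (1 : ℝ) ≤ m := by exact_mod_cast (by omega : 1 ≤ m)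
  have hD : (0 : ℤ) < (d : ℤ) ^ M₁ := pow_pos (by exact_mod_cast (by omega : 0 < d)) _
  have hDR : (0 : ℝ) < (d : ℝ) ^ M₁ := pow_pos hdR _
  -- the integer `s'`
  set s' : ℤ := g₀ * ζ * μ ^ (k₁ + S) - z * (d : ℤ) ^ M₁ with hs'
  have hid : ((g₀ * (ζ * (μ ^ k₁ * (d : ℤ) ^ i₁)) * μ ^ S : ℤ) : ℝ) / ((d ^ (i₁ + M₁) : ℕ) : ℝ) - z
      = (s' : ℝ) / (d : ℝ) ^ M₁ := by
    rw [hs']
    push_cast
    rw [pow_add (d : ℝ), pow_add (μ : ℝ)]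
    have h5 : (d : ℝ) ^ i₁ ≠ 0 := (pow_pos hdR _).ne'
    have h6 : (d : ℝ) ^ M₁ ≠ 0 := hDR.ne'
    field_simp
  rw [hid, abs_div, abs_of_pos hDR, div_lt_div_iff₀ hDR (pow_pos hmR _), one_mul] at hcon
  -- `|s'| m^(Δ+S) < d^M₁`
  have hconZ : |s'| * (m : ℤ) ^ (Δ + S) < (d : ℤ) ^ M₁ := by
    have : ((|s'| * (m : ℤ) ^ (Δ + S) : ℤ) : ℝ) < (((d : ℤ) ^ M₁ : ℤ) : ℝ) := by
      push_cast; exact hcon
    exact_mod_cast this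
  have hmS : (0 : ℤ) < (m : ℤ) ^ (Δ + S) := pow_pos (by exact_mod_cast (by omega : 0 < m)) _
  have h1Z : (d : ℤ) ^ M₁ ≤ A * (m : ℤ) ^ (Δ + S) := by exact_mod_cast h1
  have hs'A : |s'| ≤ A := by
    have : |s'| * (m : ℤ) ^ (Δ + S) < A * (m : ℤ) ^ (Δ + S) := hconZ.trans_le h1Z
    exact (lt_of_mul_lt_mul_right this hmS.le).le
  -- the congruence
  have hdvd : (d : ℤ) ^ M₁ ∣ ((m : ℤ) * μ) ^ (k₁ + S) - 1 := by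
    have h5 : (d : ℤ) ^ M₁ ∣ (m : ℤ) * μ - 1 := by
      refine dvd_trans ?_ hμ
      push_cast
      rw [pow_add]
      exact dvd_mul_left _ _
    have h6 := sub_dvd_pow_sub_pow ((m : ℤ) * μ) 1 (k₁ + S)
    rw [one_pow] at h6
    exact h5.trans h6
  obtain ⟨c, hc⟩ := hdvd
  set s : ℤ := g₀ * ζ * c - z * (m : ℤ) ^ (k₁ + S) with hs
  have hrel : s' * (m : ℤ) ^ (k₁ + S) = s * (d : ℤ) ^ M₁ + g₀ * ζ := by
    rw [hs', hs]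
    have h7 : ((m : ℤ) * μ) ^ (k₁ + S) = 1 + (d : ℤ) ^ M₁ * c := by linarith
    rw [mul_pow] at h7
    linear_combination (g₀ * ζ) * h7
  have hA2 : 2 ≤ A := by
    have : 1 ≤ m ^ k₁ := Nat.one_le_pow _ _ (by omega)
    omega
  have hAlt : A < d ^ M₁ := by
    refine lt_of_lt_of_le ?_ hA
    calc A = A ^ 1 := (pow_one A).symm
      _ < A ^ 100 := Nat.pow_lt_pow_right (by omega) (by norm_num)
  have hAltZ : (A : ℤ) < (d : ℤ) ^ M₁ := by exact_mod_cast hAlt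
  have hgz : g₀ * ζ ≠ 0 := mul_ne_zero hg₀ hζ
  -- `s' ≠ 0`
  have hs'0 : s' ≠ 0 := by
    intro h0
    rw [h0, zero_mul] at hrel
    have hdv : (d : ℤ) ^ M₁ ∣ g₀ * ζ := ⟨-s, by linarith⟩
    exact hgz (Int.eq_zero_of_abs_lt_dvd hdv (h3.trans_lt hAltZ))
  -- `s ≠ 0`
  have hs0 : s ≠ 0 := by
    intro h0
    rw [h0, zero_mul, zero_add] at hrel
    rw [← hrel, abs_mul, abs_of_pos (pow_pos (by exact_mod_cast (by omega : 0 < m)) _ :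
      (0 : ℤ) < (m : ℤ) ^ (k₁ + S))] at h4
    have h8 : 1 ≤ |s'| := Int.one_le_abs hs'0
    have h9 : (0 : ℤ) < (m : ℤ) ^ (k₁ + S) := pow_pos (by exact_mod_cast (by omega : 0 < m)) _
    nlinarith
  -- size of `s`
  have hsA : |s| ≤ A := by
    have h10 : |s| * (d : ℤ) ^ M₁ ≤ |s'| * (m : ℤ) ^ (k₁ + S) + |g₀ * ζ| := by
      have : s * (d : ℤ) ^ M₁ = s' * (m : ℤ) ^ (k₁ + S) - g₀ * ζ := by linarith
      have h11 : |s * (d : ℤ) ^ M₁| ≤ |s' * (m : ℤ) ^ (k₁ + S)| + |g₀ * ζ| := by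
        rw [this]; exact abs_sub _ _
      rwa [abs_mul, abs_of_pos hD, abs_mul, abs_of_pos (pow_pos
        (by exact_mod_cast (by omega : 0 < m)) _ : (0 : ℤ) < (m : ℤ) ^ (k₁ + S))] at h11
    have hmZ : (1 : ℤ) ≤ m := by exact_mod_cast (by omega : 1 ≤ m)
    have h12 : |s'| * (m : ℤ) ^ (k₁ + S) ≤ (d : ℤ) ^ M₁ * (m : ℤ) ^ k₁ := by
      have h13 : (m : ℤ) ^ (k₁ + S) ≤ (m : ℤ) ^ (Δ + S) * (m : ℤ) ^ k₁ := by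
        rw [← pow_add]
        exact pow_le_pow_right₀ hmZ (by omega)
      calc |s'| * (m : ℤ) ^ (k₁ + S) ≤ |s'| * ((m : ℤ) ^ (Δ + S) * (m : ℤ) ^ k₁) :=
            mul_le_mul_of_nonneg_left h13 (abs_nonneg _)
        _ = (|s'| * (m : ℤ) ^ (Δ + S)) * (m : ℤ) ^ k₁ := by ring
        _ ≤ (d : ℤ) ^ M₁ * (m : ℤ) ^ k₁ :=
            mul_le_mul_of_nonneg_right hconZ.le (pow_nonneg (by linarith) _)
    have h14 : |s| * (d : ℤ) ^ M₁ ≤ ((m : ℤ) ^ k₁ + 1) * (d : ℤ) ^ M₁ := by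
      have : |g₀ * ζ| ≤ (d : ℤ) ^ M₁ := h3.trans hAltZ.le
      nlinarith
    have h15 : |s| ≤ (m : ℤ) ^ k₁ + 1 := le_of_mul_le_mul_right h14 hD
    have h16 : ((m : ℤ) ^ k₁ + 1) ≤ A := by exact_mod_cast h2
    exact h15.trans h16
  have hpow : ∀ t : ℤ, |t| ≤ A → |t| ^ 100 ≤ (d : ℤ) ^ M₁ := by
    intro t ht
    have h17 : (A : ℤ) ^ 100 ≤ (d : ℤ) ^ M₁ := by exact_mod_cast hA
    exact (pow_le_pow_left₀ (abs_nonneg t) ht 100).trans h17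
  exact hres (k₁ + S) s s' (g₀ * ζ) hs0 hs'0 hgz (hpow _ hsA) (hpow _ hs'A) (hpow _ h3) hrel

end Pool.Agent.Helper28.BE
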