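import Pool.Agent.Helper28.BE.Basic

/-!
MP_fd8838_nt, block BE-J: the offset of a word which stays in the tube (helper69).
-/

set_option autoImplicit false

namespace Pool.Agent.Helper28.BE

open Pool.Agent.Helper68.Moeller Pool.Agent.Helper52.Tao

/-- BE-J -/
theorem abs_Off_tube {d m : ℕ} (hd : 2 ≤ d) (hm : 2 ≤ m) {r : ℤ → ℤ} {B : ℕ}
    (hB : ∀ j : ℤ, 0 < j → j < (d : ℤ) → |r j| ≤ B) {t : ℕ} {w : List ℕ} (hw : w ∈ W d t)
    {V : ℝ} (hV0 : 0 ≤ V)
    (hV : ∀ j ≤ t, (d : ℝ) ^ j ≤ V * (m : ℝ) ^ sg (w.drop (t - j))) :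
    |(Off d m r w : ℝ)| ≤ B * t * V * (m : ℝ) ^ sg w := by
  induction t generalizing w with
  | zero =>
    rw [W, Finset.mem_singleton] at hw
    subst hw
    simp [Off]
  | succ t ih =>
    obtain ⟨h1, h2⟩ := mem_W.1 hw
    rcases w with _ | ⟨a, u⟩
    · simp at h1
    have hu : u ∈ W d t := mem_W.2 ⟨by simpa using h1, fun b hb => h2 b (by simp [hb])⟩
    have ha : a < d := h2 a (by simp)
    have hlen : u.length = t := length_of_mem_W hu
    have hVu : ∀ j ≤ t, (d : ℝ) ^ j ≤ V * (m : ℝ) ^ sg (u.drop (t - j)) := by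
      intro j hj
      have h := hV j (by omega)
      rwa [show t + 1 - j = (t - j) + 1 by omega, List.drop_succ_cons] at h
    have hk := ih hu hVu
    have ht : (d : ℝ) ^ t ≤ V * (m : ℝ) ^ sg u := by
      have h := hVu t le_rfl
      rwa [Nat.sub_self, List.drop_zero] at h
    have hr : |(rr r a : ℝ)| ≤ B := by
      have h := abs_rr_le hB ha
      exact_mod_cast h
    have hm1 : (1 : ℝ) ≤ (m : ℝ) ^ nz a := one_le_pow₀ (by
      have : (2 : ℝ) ≤ m := by exact_mod_cast hm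
      linarith)
    have hms : (0 : ℝ) ≤ (m : ℝ) ^ sg u := by positivity
    have hB0 : (0 : ℝ) ≤ B := by positivity
    rw [Off, hlen, sg_cons, pow_add]
    push_cast
    calc |(m : ℝ) ^ nz a * (Off d m r u : ℝ) + (d : ℝ) ^ t * (rr r a : ℝ)|
        ≤ (m : ℝ) ^ nz a * |(Off d m r u : ℝ)| + (d : ℝ) ^ t * |(rr r a : ℝ)| := by
          refine (abs_add_le _ _).trans (le_of_eq ?_)
          rw [abs_mul, abs_mul, abs_of_nonneg (by positivity : (0 : ℝ) ≤ (m : ℝ) ^ nz a),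
            abs_of_nonneg (by positivity : (0 : ℝ) ≤ (d : ℝ) ^ t)]
      _ ≤ (m : ℝ) ^ nz a * (B * t * V * (m : ℝ) ^ sg u) + (V * (m : ℝ) ^ sg u) * B := by
          refine add_le_add (mul_le_mul_of_nonneg_left hk (by positivity)) ?_
          exact mul_le_mul ht hr (abs_nonneg _) (by positivity)
      _ ≤ (m : ℝ) ^ nz a * (B * t * V * (m : ℝ) ^ sg u) +
            (m : ℝ) ^ nz a * ((V * (m : ℝ) ^ sg u) * B) := by
          have h3 : (0 : ℝ) ≤ (V * (m : ℝ) ^ sg u) * B := by positivity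
          nlinarith [mul_nonneg (sub_nonneg.mpr hm1) h3]
      _ = B * ((t : ℝ) + 1) * V * ((m : ℝ) ^ nz a * (m : ℝ) ^ sg u) := by ring

end Pool.Agent.Helper28.BE
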