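import Pool.Agent.Helper28.BE.Basic

/-!
BE-D2: the product bound over the chunks (MP_fd8838_nt).
-/

set_option autoImplicit false

namespace Pool.Agent.Helper28.BE

open Pool.Agent.Helper68.Moeller Pool.Agent.Helper52.Tao

/-- Summation over words of type `g :: G`. -/
theorem psi_sum_WT_cons {M : Type*} [AddCommMonoid M] (d b g : ℕ) (G : List ℕ) (f : List ℕ → M) :
    ∑ w ∈ WT d b (g :: G), f w =
      ∑ u ∈ (W d b).filter (fun u => sg u = g), ∑ v ∈ WT d b G, f (u ++ v) := by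
  have h0 : ∀ (k n : ℕ), k = n → ∀ (P : List ℕ → Prop) [DecidablePred P],
      ∑ w ∈ (W d k).filter P, f w = ∑ w ∈ (W d n).filter P, f w := by
    rintro k n rfl P _; rfl
  unfold WT
  rw [List.length_cons, h0 (b * (G.length + 1)) (b + b * G.length) (by ring), Finset.sum_filter,
    sum_W_add, Finset.sum_filter]
  refine Finset.sum_congr rfl fun u hu => ?_
  by_cases hg : sg u = g
  · rw [if_pos hg, Finset.sum_filter]
    refine Finset.sum_congr rfl fun v _ => ?_
    rw [ty_append hu, hg]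
    by_cases h : ty b G.length v = G
    · rw [if_pos h, if_pos (by rw [h])]
    · rw [if_neg h, if_neg (fun h' => h (List.cons.inj h').2)]
  · rw [if_neg hg]
    refine Finset.sum_eq_zero fun v _ => ?_
    rw [ty_append hu, if_neg (fun h' => hg (List.cons.inj h').1)]

theorem psi_dvd_pow {m M : ℕ} {μ : ℤ} (hμ : (M : ℤ) ∣ m * μ - 1) (g : ℕ) :
    (M : ℤ) ∣ μ ^ g * (m : ℤ) ^ g - 1 := by
  rw [← mul_pow, mul_comm μ]
  refine hμ.trans ?_
  simpa using sub_dvd_pow_sub_pow ((m : ℤ) * μ) 1 g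

/-- BE-D2 -/
theorem psi_le {d m : ℕ} (hd : 2 ≤ d) (r : ℤ → ℤ) {x : ℝ} (hx : 0 < x) {ε κ : ℝ} (hκ0 : 0 ≤ κ)
    (hκ1 : κ ≤ 1) {b M : ℕ} (hM : 0 < M) {μ : ℤ} (hμ : (M : ℤ) ∣ m * μ - 1)
    (hgain : ∀ g : ℕ, Proper b g → ∀ α : ℝ,
      (∀ z : ℤ, ε ≤ |α * ((m : ℝ) ^ (g - 1) * ((d : ℝ) - 1) * (r 1 : ℝ)) - z|) →
      ‖∑ u ∈ (W d b).filter (fun u => sg u = g), (wt d x u : ℂ) * ex (α * (Off d m r u : ℝ))‖ ≤
        (1 - κ) * ∑ u ∈ (W d b).filter (fun u => sg u = g), wt d x u) (h : ℤ) (G : List ℕ) :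
    ‖∑ w ∈ WT d b G, (wt d x w : ℂ) * ex (((h * (μ ^ G.sum * Off d m r w) : ℤ) : ℝ) / M)‖ ≤
      (∑ w ∈ WT d b G, wt d x w) * (1 - κ) ^ wh d b M ε μ (((d : ℤ) - 1) * r 1) h G := by
  have hM' : (M : ℝ) ≠ 0 := by positivity
  have hd1 : 1 ≤ d := by omega
  induction G with
  | nil =>
    have h1 : WT d b [] = {[]} := by
      unfold WT
      rw [List.length_nil, Nat.mul_zero, W]
      ext w
      rw [Finset.mem_filter, Finset.mem_singleton]
      exact ⟨fun h => h.1, fun h => ⟨h, by subst h; rfl⟩⟩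
    rw [h1, Finset.sum_singleton, Finset.sum_singleton, norm_mul, norm_ex, mul_one]
    have h2 : wh d b M ε μ (((d : ℤ) - 1) * r 1) h [] = 0 := rfl
    rw [h2, pow_zero, mul_one, Complex.norm_real, Real.norm_of_nonneg (wt_nonneg hd1 hx.le _)]
  | cons g G ih =>
    set S := G.sum with hS
    set L := G.length with hL
    -- the phase of the head chunk
    set α : ℝ := ((h * μ ^ (g + S) * (d : ℤ) ^ (b * L) : ℤ) : ℝ) / M with hα
    have key : ∀ u ∈ (W d b).filter (fun u => sg u = g), ∀ v ∈ WT d b G,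
        (wt d x (u ++ v) : ℂ) *
          ex (((h * (μ ^ (g :: G).sum * Off d m r (u ++ v)) : ℤ) : ℝ) / M) =
        ((wt d x u : ℂ) * ex (α * (Off d m r u : ℝ))) *
          ((wt d x v : ℂ) * ex (((h * (μ ^ S * Off d m r v) : ℤ) : ℝ) / M)) := by
      intro u hu v hv
      have hsg : sg u = g := (Finset.mem_filter.1 hu).2
      have hlen : v.length = b * L := length_of_mem_W (mem_WT.1 hv).1
      have e1 : ((h * (μ ^ (g :: G).sum * Off d m r (u ++ v)) : ℤ) : ℝ) / M =
          ((h * (μ ^ (g + S) * ((m : ℤ) ^ g * Off d m r v)) : ℤ) : ℝ) / M +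
            α * (Off d m r u : ℝ) := by
        rw [Off_append, hsg, hlen, List.sum_cons, ← hS, hα]
        push_cast
        ring
      have e2 : ex (((h * (μ ^ (g + S) * ((m : ℤ) ^ g * Off d m r v)) : ℤ) : ℝ) / M) =
          ex (((h * (μ ^ S * Off d m r v) : ℤ) : ℝ) / M) := by
        apply ex_congr hM
        have e3 : h * (μ ^ (g + S) * ((m : ℤ) ^ g * Off d m r v)) - h * (μ ^ S * Off d m r v) =
            (h * μ ^ S * Off d m r v) * (μ ^ g * (m : ℤ) ^ g - 1) := by
          rw [pow_add]; ring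
        rw [e3]
        exact Dvd.dvd.mul_left (psi_dvd_pow hμ g) _
      rw [e1, ex_add, e2, wt_append]
      push_cast
      ring
    have hsum : ∑ w ∈ WT d b (g :: G),
        (wt d x w : ℂ) * ex (((h * (μ ^ (g :: G).sum * Off d m r w) : ℤ) : ℝ) / M) =
        (∑ u ∈ (W d b).filter (fun u => sg u = g), (wt d x u : ℂ) * ex (α * (Off d m r u : ℝ))) *
          ∑ v ∈ WT d b G, (wt d x v : ℂ) * ex (((h * (μ ^ S * Off d m r v) : ℤ) : ℝ) / M) := by
      rw [psi_sum_WT_cons, Finset.sum_mul_sum]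
      exact Finset.sum_congr rfl fun u hu => Finset.sum_congr rfl fun v hv => key u hu v hv
    have hwt : ∑ w ∈ WT d b (g :: G), wt d x w =
        (∑ u ∈ (W d b).filter (fun u => sg u = g), wt d x u) * ∑ v ∈ WT d b G, wt d x v := by
      rw [psi_sum_WT_cons, Finset.sum_mul_sum]
      exact Finset.sum_congr rfl fun u _ => Finset.sum_congr rfl fun v _ => wt_append d x u v
    have hA0 : 0 ≤ ∑ u ∈ (W d b).filter (fun u => sg u = g), wt d x u :=
      Finset.sum_nonneg fun u _ => wt_nonneg hd1 hx.le u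
    have hB0 : 0 ≤ ∑ v ∈ WT d b G, wt d x v :=
      Finset.sum_nonneg fun u _ => wt_nonneg hd1 hx.le u
    have hk0 : 0 ≤ 1 - κ := by linarith
    have hhead : ‖∑ u ∈ (W d b).filter (fun u => sg u = g),
        (wt d x u : ℂ) * ex (α * (Off d m r u : ℝ))‖ ≤
        ∑ u ∈ (W d b).filter (fun u => sg u = g), wt d x u := by
      refine (norm_sum_le _ _).trans (Finset.sum_le_sum fun u _ => ?_)
      rw [norm_mul, norm_ex, mul_one, Complex.norm_real,
        Real.norm_of_nonneg (wt_nonneg hd1 hx.le _)]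
    rw [hsum, hwt, norm_mul, wh]
    split_ifs with hc
    · obtain ⟨hp, hz⟩ := hc
      have h1 := hgain g hp α (by
        intro z
        obtain ⟨c, hc⟩ := psi_dvd_pow hμ (g - 1)
        have hg : g + S = (S + 1) + (g - 1) := by have := hp.1; omega
        have e : α * ((m : ℝ) ^ (g - 1) * ((d : ℝ) - 1) * (r 1 : ℝ)) - z =
            (((((d : ℤ) - 1) * r 1) * h * μ ^ (S + 1) * (d : ℤ) ^ (b * L) : ℤ) : ℝ) / M -
              ((z - (((d : ℤ) - 1) * r 1) * h * μ ^ (S + 1) * (d : ℤ) ^ (b * L) * c : ℤ) : ℝ) := by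
          have hc' : (μ : ℝ) ^ (g - 1) * (m : ℝ) ^ (g - 1) = 1 + M * c := by
            have : μ ^ (g - 1) * (m : ℤ) ^ (g - 1) = 1 + M * c := by linarith
            exact_mod_cast this
          rw [hα, hg, pow_add μ (S + 1)]
          push_cast
          field_simp
          linear_combination
            ((h : ℝ) * μ ^ (S + 1) * (d : ℝ) ^ (b * L) * ((d : ℝ) - 1) * (r 1 : ℝ)) * hc'
        rw [e]
        exact hz _)
      calc _ ≤ ((1 - κ) * ∑ u ∈ (W d b).filter (fun u => sg u = g), wt d x u) *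
            ((∑ w ∈ WT d b G, wt d x w) *
              (1 - κ) ^ wh d b M ε μ (((d : ℤ) - 1) * r 1) h G) :=
            mul_le_mul h1 ih (norm_nonneg _) (mul_nonneg hk0 hA0)
        _ = _ := by rw [pow_add, pow_one]; ring
    · calc _ ≤ (∑ u ∈ (W d b).filter (fun u => sg u = g), wt d x u) *
            ((∑ w ∈ WT d b G, wt d x w) *
              (1 - κ) ^ wh d b M ε μ (((d : ℤ) - 1) * r 1) h G) :=
            mul_le_mul hhead ih (norm_nonneg _) hA0
        _ = _ := by rw [zero_add]; ring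

end Pool.Agent.Helper28.BE
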