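import Pool.Agent.Helper28.BE.Fixed
import Pool.Agent.Helper28.BE.BlockOne
import Pool.Agent.Helper28.BE.Psi
import Pool.Agent.Helper28.BE.NoColl
import Pool.Agent.Helper28.BE.FewWhite
import Pool.Agent.Helper28.BE.Count
import Pool.Agent.Helper28.BE.OffTube

/-!
Block H1: the good points with fixed counts.
-/

set_option autoImplicit false

namespace Pool.Agent.Helper28.BE

open Pool.Agent.Helper68.Moeller Pool.Agent.Helper52.Tao

variable {d m : ℕ} {r : ℤ → ℤ}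

theorem wd_drop (hd : 2 ≤ d) (s t : ℕ) (n : ℤ) :
    (wd d m r (s + t) n).drop s = wd d m r t n := by
  rw [wd_add]
  have h1 : (wd d m r s ((T d m r)^[t] n)).length = s := length_of_mem_W (wd_mem hd r _ _)
  rw [List.drop_append_of_le_length h1.ge, List.drop_of_length_le h1.le, List.nil_append]

/-- A suffix of the type of a word is the type of a beginning. -/
theorem suffix_ty (hd : 2 ≤ d) {b : ℕ} : ∀ (n : ℕ) (y : ℤ) (G' : List ℕ),
    G' <:+ ty b n (wd d m r (b * n) y) → G' = ty b G'.length (wd d m r (b * G'.length) y) ∧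
      G'.length ≤ n := by
  intro n
  induction n with
  | zero =>
    intro y G' h
    rw [ty, List.suffix_nil] at h
    subst h
    exact ⟨rfl, le_rfl⟩
  | succ n ih =>
    intro y G' h
    have h0 : ty b (n + 1) (wd d m r (b * (n + 1)) y) =
        sg (wd d m r b ((T d m r)^[b * n] y)) :: ty b n (wd d m r (b * n) y) := by
      rw [Nat.mul_succ, add_comm (b * n) b, wd_add]
      exact ty_append (wd_mem hd r _ _) n _
    rw [h0, List.suffix_cons_iff] at h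
    rcases h with h | h
    · have hl : G'.length = n + 1 := by
        rw [h, List.length_cons, ty_length]
      rw [hl, h0, h]
      exact ⟨rfl, le_rfl⟩
    · obtain ⟨h1, h2⟩ := ih y G' h
      exact ⟨h1, by omega⟩

/-- Block H1. -/
theorem good_fixed (hd : 2 ≤ d) (hm : 2 ≤ m) (hco : Nat.Coprime m d) (hr : Admissible d m r)
    {x : ℝ} (hx : 0 < x) {i₁ b n i k₁ k₂ c Q Δ nb A B : ℕ} {μ : ℤ}
    (hB : ∀ j : ℤ, 0 < j → j < (d : ℤ) → |r j| ≤ B)
    (hμ : ((d ^ (i₁ + b * n + i) : ℕ) : ℤ) ∣ m * μ - 1) {ε κ V U : ℝ} (hκ0 : 0 ≤ κ)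
    (hκ1 : κ ≤ 1) (hgain : ∀ g : ℕ, Proper b g → ∀ α : ℝ,
      (∀ z : ℤ, ε ≤ |α * ((m : ℝ) ^ (g - 1) * ((d : ℝ) - 1) * (r 1 : ℝ)) - z|) →
      ‖∑ u ∈ (W d b).filter (fun u => sg u = g), (wt d x u : ℂ) * ex (α * (Off d m r u : ℝ))‖ ≤
        (1 - κ) * ∑ u ∈ (W d b).filter (fun u => sg u = g), wt d x u)
    (hε0 : 0 < ε) (hε : 4 * ε * (m : ℝ) ^ b ≤ 1) (hb : 1 ≤ b) (hQ1 : 1 ≤ Q) (hQ : 8 * Q ≤ d ^ i)
    (hV1 : 1 ≤ V) (hQV : (Q : ℝ) * V ≤ (d : ℝ) ^ i₁) (hΔ : V ^ 2 ≤ ε * (m : ℝ) ^ (Δ + 1))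
    (hU : 1 ≤ U) (hUB : (B : ℝ) * i₁ * V ≤ U)
    (hres : NoRes d m (b * n + i)) (hA : A ^ 100 ≤ d ^ (b * n + i))
    (hA1 : V * (d : ℝ) ^ i₁ + 1 ≤ A) (hA2 : d ^ i ≤ A)
    (hA3 : |((d : ℤ) - 1) * r 1| * Q ≤ A) (hA4 : (A : ℝ) * V < (d : ℝ) ^ (i₁ + b * n))
    (X : ℤ) (S : Finset ℤ)
    (hS : ∀ y ∈ S, X ≤ y ∧ y < X + (d : ℤ) ^ (i₁ + b * n) ∧
      (∀ a ≤ i₁ + b * n + i, (d : ℝ) ^ a ≤ V * (m : ℝ) ^ sg (wd d m r a y)) ∧
      sg (wd d m r i₁ y) = k₁ ∧ sg (wd d m r (b * n) ((T d m r)^[i₁] y)) = k₂ ∧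
      (m : ℝ) ^ k₁ ≤ V * (d : ℝ) ^ i₁ ∧ (m : ℝ) ^ (k₁ + k₂) ≤ V * (d : ℝ) ^ (i₁ + b * n) ∧
      nbad b (ty b n (wd d m r (b * n) ((T d m r)^[i₁] y))) ≤ nb)
    (𝒲 : Finset (List ℕ)) (h𝒲 : ∀ w ∈ W d i, (d : ℝ) ^ i ≤ V ^ 2 * (m : ℝ) ^ sg w → w ∈ 𝒲) :
    (∑ y ∈ S, wt d x (wd d m r (i₁ + b * n) y)) ^ 2 ≤
      (𝒲.card : ℝ) * (2 / Q * ((1 - κ) ^ c *
        (6 * U * ((m : ℝ) * x) ^ k₁ / (1 + ((d : ℝ) - 1) * x) ^ i₁ +
          2 * Q * (7 * Q * U / ((d ^ (i₁ + b * n + i) : ℕ) : ℝ)) ^ 2) +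
        (m : ℝ) ^ (Δ + 1 + b) * 2 ^ n * (m : ℝ) ^ (b * (c + nb)))) := by
  classical
  rcases S.eq_empty_or_nonempty with hSe | ⟨y₀, hy₀⟩
  · subst hSe
    have hΛ := lam_pos (by omega : 1 ≤ d) hx.le
    have h1 : 0 ≤ 1 - κ := by linarith
    rw [Finset.sum_empty]
    have h2 : (0 : ℝ) ^ 2 = 0 := by norm_num
    rw [h2]
    positivity
  have hd0 : (0 : ℝ) < d := by exact_mod_cast (by omega : 0 < d)
  have hd1 : (1 : ℝ) ≤ d := by exact_mod_cast (by omega : 1 ≤ d)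
  have hm0 : (0 : ℝ) < m := by exact_mod_cast (by omega : 0 < m)
  have hm1 : (1 : ℝ) ≤ m := by exact_mod_cast (by omega : 1 ≤ m)
  have hV0 : 0 < V := by linarith
  have hQr : (1 : ℝ) ≤ Q := by exact_mod_cast hQ1
  -- consequences of the point `y₀`
  obtain ⟨_, _, hy3, hy4, hy5, hy6, hy7, _⟩ := hS y₀ hy₀
  have htot : ∀ y ∈ S, sg (wd d m r (i₁ + b * n) y) = k₁ + k₂ := by
    intro y hy
    obtain ⟨_, _, _, e4, e5, _⟩ := hS y hy
    rw [add_comm i₁ (b * n), wd_add, sg_append, e4, e5, add_comm]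
  have hQk : Q ≤ m ^ k₁ := by
    have h1 := hy3 i₁ (by omega)
    rw [hy4] at h1
    have h2 : (Q : ℝ) * V ≤ (m : ℝ) ^ k₁ * V := by linarith
    have h3 := le_of_mul_le_mul_right h2 hV0
    exact_mod_cast h3
  have hkA : m ^ k₁ + 1 ≤ A := by
    have h1 : (m : ℝ) ^ k₁ + 1 ≤ A := by linarith
    exact_mod_cast h1
  have hk4 : (A : ℝ) < (m : ℝ) ^ (k₁ + k₂) := by
    have h1 := hy3 (i₁ + b * n) (by omega)
    rw [htot y₀ hy₀] at h1
    have h2 : (A : ℝ) * V < (m : ℝ) ^ (k₁ + k₂) * V := by linarith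
    exact lt_of_mul_lt_mul_right h2 hV0.le
  -- the sets
  set V₁ : Finset (List ℕ) := (W d i₁).filter (fun v => sg v = k₁ ∧
    |(Off d m r v : ℝ)| ≤ U * (m : ℝ) ^ k₁) with hV₁
  set TT : Finset (List ℕ) := ((W d (b * n)).image (ty b n)).filter (fun G => G.sum = k₂ ∧
    (∀ G' : List ℕ, G' <:+ G → (d : ℝ) ^ (b * G'.length) ≤ ε * (m : ℝ) ^ (Δ + 1 + G'.sum)) ∧
    nbad b G ≤ nb) with hTTdef
  have hTT : ∀ G ∈ TT, G.length = n ∧ G.sum = k₂ ∧ (∀ g ∈ G, g ≤ b) ∧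
      (∀ G' : List ℕ, G' <:+ G → (d : ℝ) ^ (b * G'.length) ≤ ε * (m : ℝ) ^ (Δ + 1 + G'.sum)) ∧
      nbad b G ≤ nb := by
    intro G hG
    rw [hTTdef, Finset.mem_filter, Finset.mem_image] at hG
    obtain ⟨⟨w, hw, rfl⟩, h1, h2, h3⟩ := hG
    exact ⟨ty_length _ _ _, h1, ty_le n hw, h2, h3⟩
  have hM0 : 0 < d ^ (i₁ + b * n + i) := Nat.pow_pos (by omega)
  have hg₀ : ((d : ℤ) - 1) * r 1 ≠ 0 := by
    have h1 := hr 1 one_pos (by exact_mod_cast (by omega : 1 < d))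
    intro h
    rcases mul_eq_zero.1 h with h2 | h2
    · omega
    · rw [h2, mul_one] at h1
      have h3 : (d : ℤ) ∣ m := by
        have := h1.dvd
        simpa using this
      have h4 : d ∣ m := by exact_mod_cast h3
      have h5 := Nat.eq_one_of_dvd_coprimes hco h4 (dvd_refl d)
      omega
  refine fixed_counts hd hco hr hx (k₁ := k₁) (k₂ := k₂) (c := c) (Q := Q) (μ := μ)
    (g₀ := ((d : ℤ) - 1) * r 1) hμ (ε := ε) (κ := κ) hκ0 hκ1 (by positivity) hQ1 hQ V₁ ?_ TT ?_ ?_ ?_ ?_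
    𝒲 X S ?_
  · intro v hv
    rw [hV₁, Finset.mem_filter] at hv
    exact ⟨hv.1, hv.2.1⟩
  · intro G hG
    exact ⟨(hTT G hG).1, (hTT G hG).2.1⟩
  · intro l hl
    refine block_one hd hm hco hr hx hM0 hμ hQk hU V₁ ?_ l hl
    intro v hv
    rw [hV₁, Finset.mem_filter] at hv
    exact ⟨hv.1, hv.2.1, hv.2.2⟩
  · intro G _ h
    exact psi_le hd r hx hκ0 hκ1 hM0 hμ hgain h G
  · intro G hG l hl
    obtain ⟨e1, e2, e3, e4, e5⟩ := hTT G hG
    have h1 := card_few_white_aux (d := d) (b := b) (c := c) (Q := Q) (h₀ := μ ^ k₁ * (d : ℤ) ^ i₁)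
      (g₀ := ((d : ℤ) - 1) * r 1) hm hM0 hμ hε0 G e4 (by
        intro ζ hζ0 hζ z
        have hz : ((d ^ (i₁ + (b * n + i)) : ℕ) : ℤ) ∣ m * μ - 1 := by rw [← add_assoc]; exact hμ
        have hζA : |((d : ℤ) - 1) * r 1 * ζ| ≤ A := by
          rw [abs_mul]
          refine le_trans (mul_le_mul_of_nonneg_left hζ.le (abs_nonneg _)) hA3
        have h2 := no_collision (A := A) (S := G.sum) (Δ := Δ) hd hm hz hres hA (by
          -- d^M₁ ≤ A m^(Δ+S)
          have h3 := e4 G (List.suffix_refl G)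
          rw [e1] at h3
          have h4 : (d : ℝ) ^ (b * n) ≤ (m : ℝ) ^ (Δ + G.sum) := by
            have h5 : ε * (m : ℝ) ^ (Δ + 1 + G.sum) = (ε * m) * (m : ℝ) ^ (Δ + G.sum) := by ring
            have h6 : ε * m ≤ 1 := by
              have h7 : (m : ℝ) ≤ (m : ℝ) ^ b := le_self_pow₀ hm1 (by omega)
              have h8 : ε * m ≤ ε * (m : ℝ) ^ b := mul_le_mul_of_nonneg_left h7 hε0.le
              have h9 : 0 ≤ ε * (m : ℝ) ^ b := by positivity
              linarith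
            rw [h5] at h3
            refine h3.trans (mul_le_of_le_one_left (by positivity) h6)
          have h5 : (d : ℝ) ^ (b * n + i) ≤ A * (m : ℝ) ^ (Δ + G.sum) := by
            rw [pow_add, mul_comm]
            have h6 : (d : ℝ) ^ i ≤ A := by exact_mod_cast hA2
            exact mul_le_mul h6 h4 (by positivity) (by positivity)
          exact_mod_cast h5) hkA hζA (by
          have h3 : ((|((d : ℤ) - 1) * r 1 * ζ| : ℤ) : ℝ) ≤ (A : ℝ) := by exact_mod_cast hζA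
          have h4 := h3.trans_lt hk4
          rw [← e2] at h4
          exact_mod_cast h4) hg₀ hζ0 z
        rw [← add_assoc] at h2
        exact h2) l
    have h1' := count_residues (Δ := Δ) hd hm hco hε0 hε G e3 c
    refine le_trans (by exact_mod_cast h1) (h1'.trans ?_)
    rw [e1]
    have h2 : (m : ℝ) ^ (b * (c + nbad b G)) ≤ (m : ℝ) ^ (b * (c + nb)) :=
      pow_le_pow_right₀ hm1 (Nat.mul_le_mul_left b (by omega))
    gcongr
  · intro y hy
    obtain ⟨f1, f2, f3, f4, f5, f6, f7, f8⟩ := hS y hy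
    refine ⟨f1, f2, ?_, ?_, ?_⟩
    · rw [hV₁, Finset.mem_filter]
      refine ⟨wd_mem hd r _ _, f4, ?_⟩
      have h1 := abs_Off_tube (V := V) hd hm hB (wd_mem (m := m) hd r i₁ y) hV0.le (by
        intro j hj
        have h2 : (wd d m r i₁ y).drop (i₁ - j) = wd d m r j y := by
          have h3 := wd_drop (m := m) (r := r) hd (i₁ - j) j y
          rwa [Nat.sub_add_cancel hj] at h3
        rw [h2]
        exact f3 j (by omega))
      rw [f4] at h1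
      exact h1.trans (mul_le_mul_of_nonneg_right hUB (by positivity))
    · rw [hTTdef, Finset.mem_filter]
      refine ⟨Finset.mem_image.2 ⟨_, wd_mem hd r _ _, rfl⟩, ?_, ?_, f8⟩
      · rw [ty_sum n (wd_mem hd r _ _), f5]
      · intro G' hG'
        obtain ⟨g1, g2⟩ := suffix_ty hd n _ G' hG'
        have g3 : G'.sum = sg (wd d m r (b * G'.length) ((T d m r)^[i₁] y)) := by
          conv_lhs => rw [g1]
          exact ty_sum _ (wd_mem hd r _ _)
        have g4 := f3 (i₁ + b * G'.length) (by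
          have := Nat.mul_le_mul_left b g2
          omega)
        rw [add_comm i₁, wd_add, sg_append, f4, ← g3, pow_add, pow_add] at g4
        have g5 : (d : ℝ) ^ (b * G'.length) * (d : ℝ) ^ i₁ ≤
            (V ^ 2 * (m : ℝ) ^ G'.sum) * (d : ℝ) ^ i₁ := by
          refine g4.trans ?_
          have : V * ((m : ℝ) ^ G'.sum * (m : ℝ) ^ k₁) ≤
              V * ((m : ℝ) ^ G'.sum * (V * (d : ℝ) ^ i₁)) := by gcongr
          refine this.trans (le_of_eq ?_)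
          ring
        have g6 := le_of_mul_le_mul_right g5 (by positivity)
        refine g6.trans ?_
        rw [pow_add, ← mul_assoc]
        exact mul_le_mul_of_nonneg_right hΔ (by positivity)
    · refine h𝒲 _ (wd_mem hd r _ _) ?_
      have g4 := f3 (i₁ + b * n + i) le_rfl
      rw [add_comm (i₁ + b * n) i, wd_add, sg_append, htot y hy, pow_add (d : ℝ) i, pow_add (m : ℝ) (sg _)] at g4
      have g5 : (d : ℝ) ^ i * (d : ℝ) ^ (i₁ + b * n) ≤
          (V ^ 2 * (m : ℝ) ^ sg (wd d m r i ((T d m r)^[i₁ + b * n] y))) * (d : ℝ) ^ (i₁ + b * n) := by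
        refine g4.trans ?_
        have : V * ((m : ℝ) ^ sg (wd d m r i ((T d m r)^[i₁ + b * n] y)) * (m : ℝ) ^ (k₁ + k₂)) ≤
            V * ((m : ℝ) ^ sg (wd d m r i ((T d m r)^[i₁ + b * n] y)) *
              (V * (d : ℝ) ^ (i₁ + b * n))) := by gcongr
        refine this.trans (le_of_eq ?_)
        ring
      exact le_of_mul_le_mul_right g5 (by positivity)

end Pool.Agent.Helper28.BE
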