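import Pool.Agent.Helper28.BE.Numeric

/-!
The three terms of the main inequality.
-/

set_option autoImplicit false

namespace Pool.Agent.Helper28.BE

open Pool.Agent.Helper68.Moeller Pool.Agent.Helper52.Tao

/-- The common factor. -/
theorem front_le {d : ℕ} (hd : 2 ≤ d) {i Q : ℕ} {cW w : ℝ} (hc0 : 0 ≤ cW)
    (hc : cW ≤ Real.exp w) (hQ : (d : ℝ) ^ i ≤ 16 * Q) (hQ1 : 1 ≤ Q) :
    cW * (2 / Q) ≤ 32 * Real.exp (w - Real.log d * i) := by
  have hd0 : (0 : ℝ) < d := by exact_mod_cast (by omega : 0 < d)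
  have hQ0 : (0 : ℝ) < Q := by exact_mod_cast hQ1
  have h1 : (2 : ℝ) / Q ≤ 32 / (d : ℝ) ^ i := by
    rw [div_le_div_iff₀ hQ0 (by positivity)]
    linarith
  calc cW * (2 / Q) ≤ Real.exp w * (32 / (d : ℝ) ^ i) := mul_le_mul hc h1 (by positivity) (by positivity)
    _ = 32 * (Real.exp w * Real.exp (-(i * Real.log d))) := by
        rw [pow_eq_exp hd0, Real.exp_neg]
        ring
    _ = _ := by
        rw [← Real.exp_add]
        congr 2
        ring

theorem term_A {d m : ℕ} (hd : 2 ≤ d) (hdm : d < m) {x η δ κ cW : ℝ} (hx : 1 < x)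
    (hΛ : Real.log (1 + ((d : ℝ) - 1) * x) =
        η * Real.log d + Real.log d / Real.log m * Real.log x) (hη0 : 0 ≤ η) (hη1 : η ≤ 1)
    (hδ : 0 ≤ δ) {N i u b i₁ k₁ c Q B : ℕ} (hi : i₁ ≤ i + u + b)
    (hu : (u : ℝ) ≤ δ * Real.log m * N / Real.log d + 2) (hQ : (d : ℝ) ^ i ≤ 16 * Q)
    (hQ1 : 1 ≤ Q) (hk : (k₁ : ℝ) * Real.log m ≤ δ * Real.log m * N + i₁ * Real.log d)
    (hc0 : 0 ≤ cW) (hc : cW ≤ Real.exp (η * Real.log d * i + 2 * δ * Real.log x * N)) (hκ : κ ≤ 1) :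
    cW * (2 / Q) * ((1 - κ) ^ c * (6 * (B * N * Real.exp (δ * Real.log m * N)) *
      ((m : ℝ) * x) ^ k₁ / (1 + ((d : ℝ) - 1) * x) ^ i₁)) ≤
      192 * B * N * (1 - κ) ^ c *
        Real.exp (3 * δ * (Real.log x + Real.log m) * N + (b + 2) * Real.log d) := by
  have hD := log_d_pos hd
  have hLD := log_m_gt hd hdm
  have hL := hD.trans hLD
  have hd0 : (0 : ℝ) < d := by exact_mod_cast (by omega : 0 < d)
  have hm0 : (0 : ℝ) < m := by exact_mod_cast (by omega : 0 < m)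
  have hx0 : 0 < x := by linarith
  have hlx : 0 < Real.log x := Real.log_pos hx
  have hΛ0 := lam_pos (by omega : 1 ≤ d) hx0.le
  have h1 := front_le hd hc0 hc hQ hQ1
  have h1κ : 0 ≤ 1 - κ := by linarith
  set D := Real.log d
  set L := Real.log m
  set lx := Real.log x
  have h2 : ((m : ℝ) * x) ^ k₁ / (1 + ((d : ℝ) - 1) * x) ^ i₁ ≤
      Real.exp (δ * N * (L + lx) + (1 - η) * D * i₁) := by
    rw [pow_eq_exp (by positivity), pow_eq_exp hΛ0, ← Real.exp_sub, Real.exp_le_exp, hΛ,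
      Real.log_mul hm0.ne' hx0.ne']
    have h3 : (k₁ : ℝ) ≤ δ * N + i₁ * D / L := by
      have h4 : (k₁ : ℝ) * L ≤ (δ * N + i₁ * D / L) * L := by
        refine hk.trans (le_of_eq ?_)
        field_simp
      exact le_of_mul_le_mul_right h4 hL
    have h4 := mul_le_mul_of_nonneg_right h3 (by positivity : 0 ≤ L + lx)
    have h5 : (δ * N + i₁ * D / L) * (L + lx) - i₁ * (η * D + D / L * lx) =
        δ * N * (L + lx) + (1 - η) * D * i₁ := by
      field_simp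
      ring
    linarith
  have h3 : (0 : ℝ) ≤ (1 - κ) ^ c := pow_nonneg h1κ c
  calc cW * (2 / Q) * ((1 - κ) ^ c * (6 * (B * N * Real.exp (δ * L * N)) *
      ((m : ℝ) * x) ^ k₁ / (1 + ((d : ℝ) - 1) * x) ^ i₁))
      = cW * (2 / Q) * ((1 - κ) ^ c * (6 * (B * N * Real.exp (δ * L * N)) *
      (((m : ℝ) * x) ^ k₁ / (1 + ((d : ℝ) - 1) * x) ^ i₁))) := by ring
    _ ≤ (32 * Real.exp (η * D * i + 2 * δ * lx * N - D * i)) *
        ((1 - κ) ^ c * (6 * (B * N * Real.exp (δ * L * N)) *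
          Real.exp (δ * N * (L + lx) + (1 - η) * D * i₁))) := by
        gcongr
    _ = 192 * B * N * (1 - κ) ^ c * (Real.exp (η * D * i + 2 * δ * lx * N - D * i) *
          Real.exp (δ * L * N) * Real.exp (δ * N * (L + lx) + (1 - η) * D * i₁)) := by ring
    _ ≤ _ := by
        refine mul_le_mul_of_nonneg_left ?_ (by positivity)
        rw [← Real.exp_add, ← Real.exp_add, Real.exp_le_exp]
        have hi' : (i₁ : ℝ) ≤ i + u + b := by exact_mod_cast hi
        have h4 : (1 - η) * D * i₁ ≤ (1 - η) * D * (i + u + b) :=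
          mul_le_mul_of_nonneg_left hi' (mul_nonneg (by linarith) hD.le)
        have h5 : (1 - η) * D * (u + b) ≤ D * (u + b) := by
          have : (1 - η) * D ≤ 1 * D := mul_le_mul_of_nonneg_right (by linarith) hD.le
          rw [one_mul] at this
          exact mul_le_mul_of_nonneg_right this (by positivity)
        have h6 : D * u ≤ δ * L * N + 2 * D := by
          have := mul_le_mul_of_nonneg_left hu hD.le
          refine this.trans (le_of_eq ?_)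
          field_simp
        nlinarith

theorem term_B {d m : ℕ} (hd : 2 ≤ d) (hdm : d < m) {x η δ κ cW : ℝ} (hx : 1 < x)
    (hη1 : η ≤ 1) (hδ : 0 ≤ δ) {N i c Q B : ℕ} (hiN : i ≤ N)
    (hQd : Q ≤ d ^ i) (hQ1 : 1 ≤ Q)
    (hc0 : 0 ≤ cW) (hc : cW ≤ Real.exp (η * Real.log d * i + 2 * δ * Real.log x * N))
    (hκ0 : 0 ≤ κ) (hκ : κ ≤ 1) :
    cW * (2 / Q) * ((1 - κ) ^ c * (2 * Q *
      (7 * Q * (B * N * Real.exp (δ * Real.log m * N)) / ((d ^ (N + i) : ℕ) : ℝ)) ^ 2)) ≤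
      196 * B ^ 2 * N ^ 2 *
        Real.exp (2 * δ * (Real.log x + Real.log m) * N - Real.log d * N) := by
  have hD := log_d_pos hd
  have hd0 : (0 : ℝ) < d := by exact_mod_cast (by omega : 0 < d)
  have hQ0 : (0 : ℝ) < Q := by exact_mod_cast hQ1
  have h1κ : 0 ≤ 1 - κ := by linarith
  have h3 : (1 - κ) ^ c ≤ 1 := pow_le_one₀ h1κ (by linarith)
  set D := Real.log d
  set L := Real.log m
  set lx := Real.log x
  set E := Real.exp (δ * L * N) with hE
  have h4 : cW * (2 / Q) * ((1 - κ) ^ c * (2 * Q *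
      (7 * Q * (B * N * E) / ((d ^ (N + i) : ℕ) : ℝ)) ^ 2)) =
      (1 - κ) ^ c * (196 * B ^ 2 * N ^ 2 * (cW * E ^ 2 * ((Q : ℝ) / (d ^ (N + i) : ℝ)) ^ 2)) := by
    push_cast
    field_simp
    ring
  rw [h4]
  have h5 : (Q : ℝ) / (d ^ (N + i) : ℝ) ≤ Real.exp (-(D * N)) := by
    rw [div_le_iff₀ (by positivity), pow_add, pow_eq_exp hd0 N, ← mul_assoc, ← Real.exp_add]
    have : -(D * N) + N * Real.log d = 0 := by ring
    rw [this, Real.exp_zero, one_mul]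
    exact_mod_cast hQd
  have h6 : ((Q : ℝ) / (d ^ (N + i) : ℝ)) ^ 2 ≤ Real.exp (-(D * N)) ^ 2 :=
    pow_le_pow_left₀ (by positivity) h5 2
  have h7 : cW * E ^ 2 * ((Q : ℝ) / (d ^ (N + i) : ℝ)) ^ 2 ≤
      Real.exp (2 * δ * (lx + L) * N - D * N) := by
    calc cW * E ^ 2 * ((Q : ℝ) / (d ^ (N + i) : ℝ)) ^ 2
        ≤ Real.exp (η * D * i + 2 * δ * lx * N) * E ^ 2 * Real.exp (-(D * N)) ^ 2 := by gcongr
      _ = Real.exp (η * D * i + 2 * δ * lx * N + 2 * (δ * L * N) + 2 * (-(D * N))) := by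
          rw [hE, sq, sq, ← Real.exp_add, ← Real.exp_add, ← Real.exp_add, ← Real.exp_add]
          congr 1
          ring
      _ ≤ _ := by
          rw [Real.exp_le_exp]
          have hiN' : (i : ℝ) ≤ N := by exact_mod_cast hiN
          have h8 : η * D * i ≤ D * N := by
            have h9 : η * D ≤ 1 * D := mul_le_mul_of_nonneg_right hη1 hD.le
            rw [one_mul] at h9
            calc η * D * i ≤ D * i := mul_le_mul_of_nonneg_right h9 (by positivity)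
              _ ≤ D * N := mul_le_mul_of_nonneg_left hiN' hD.le
          linarith
  have h8 : 0 ≤ 196 * (B : ℝ) ^ 2 * N ^ 2 * (cW * E ^ 2 * ((Q : ℝ) / (d ^ (N + i) : ℝ)) ^ 2) := by
    positivity
  refine (mul_le_of_le_one_left h8 h3).trans ?_
  exact mul_le_mul_of_nonneg_left h7 (by positivity)

theorem term_C {d m : ℕ} (hd : 2 ≤ d) (hdm : d < m) {x η δ cW κ c₃ : ℝ} (hx : 1 < x)
    (hδ : 0 ≤ δ) {N i b n c Q nb Δ : ℕ} (hQ : (d : ℝ) ^ i ≤ 16 * Q) (hQ1 : 1 ≤ Q)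
    (hc0 : 0 ≤ cW) (hc : cW ≤ Real.exp (η * Real.log d * i + 2 * δ * Real.log x * N))
    (hΔ : (Δ : ℝ) ≤ 2 * δ * N + b + 2) (hbn : b * n ≤ N) (hb : 1 ≤ b) (hcN : (c : ℝ) ≤ c₃ * N)
    (hnb : (nb : ℝ) ≤ κ * n) (hκ : 0 ≤ κ) :
    cW * (2 / Q) * ((m : ℝ) ^ (Δ + 1 + b) * 2 ^ n * (m : ℝ) ^ (b * (c + nb))) ≤
      32 * Real.exp (-(1 - η) * Real.log d * i + 2 * δ * (Real.log x + Real.log m) * N +
        (2 * b + 3) * Real.log m + Real.log 2 / b * N + (b * c₃ + κ) * Real.log m * N) := by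
  have hD := log_d_pos hd
  have hLD := log_m_gt hd hdm
  have hL := hD.trans hLD
  have hm0 : (0 : ℝ) < m := by exact_mod_cast (by omega : 0 < m)
  have h1 := front_le hd hc0 hc hQ hQ1
  have hb0 : (0 : ℝ) < b := by exact_mod_cast hb
  have hbn' : (b : ℝ) * n ≤ N := by exact_mod_cast hbn
  set D := Real.log d
  set L := Real.log m
  set lx := Real.log x
  have h2 : (m : ℝ) ^ (Δ + 1 + b) * 2 ^ n * (m : ℝ) ^ (b * (c + nb)) =
      Real.exp (((Δ + 1 + b : ℕ) : ℝ) * L + n * Real.log 2 + ((b * (c + nb) : ℕ) : ℝ) * L) := by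
    rw [pow_eq_exp hm0, pow_eq_exp (by norm_num : (0 : ℝ) < 2), pow_eq_exp hm0, ← Real.exp_add,
      ← Real.exp_add]
  rw [h2]
  refine (mul_le_mul_of_nonneg_right h1 (Real.exp_pos _).le).trans ?_
  rw [mul_assoc, ← Real.exp_add]
  refine mul_le_mul_of_nonneg_left ?_ (by norm_num)
  rw [Real.exp_le_exp]
  have e1 : ((Δ + 1 + b : ℕ) : ℝ) * L ≤ (2 * δ * N + 2 * b + 3) * L := by
    refine mul_le_mul_of_nonneg_right ?_ hL.le
    push_cast
    linarith
  have e2 : (n : ℝ) * Real.log 2 ≤ Real.log 2 / b * N := by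
    rw [div_mul_eq_mul_div, le_div_iff₀ hb0]
    have := mul_le_mul_of_nonneg_right hbn' (Real.log_pos (by norm_num : (1 : ℝ) < 2)).le
    linarith
  have e3 : ((b * (c + nb) : ℕ) : ℝ) * L ≤ (b * c₃ + κ) * N * L := by
    refine mul_le_mul_of_nonneg_right ?_ hL.le
    push_cast
    have e4 : (b : ℝ) * c ≤ b * (c₃ * N) := mul_le_mul_of_nonneg_left hcN hb0.le
    have e5 : (b : ℝ) * nb ≤ b * (κ * n) := mul_le_mul_of_nonneg_left hnb hb0.le
    have e6 : κ * (b * n) ≤ κ * N := mul_le_mul_of_nonneg_left hbn' hκ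
    nlinarith
  nlinarith

end Pool.Agent.Helper28.BE
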