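import Pool.Agent.Helper28.BE.Params
import Pool.Agent.Helper28.BE.Good
import Pool.Agent.Helper28.BE.Terms

/-!
The bound for the sum over the good points with fixed counts, for large `N`.
-/

set_option autoImplicit false

namespace Pool.Agent.Helper28.BE

open Pool.Agent.Helper68.Moeller Pool.Agent.Helper52.Tao

variable {d m : ℕ} {r : ℤ → ℤ}

/-- All the numerical data for a large `N`. -/
theorem exists_data {d : ℕ} (hd : 2 ≤ d) {L D δ : ℝ} (hD : 0 < D) (hL : 0 < L) (hδ : 0 < δ)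
    (hδD : δ * L / D ≤ 1 / 2000) {b : ℕ} (hb : 2 ≤ b) (g T₀ N : ℕ)
    (hN1 : 200 * b + 2000 + 1000 * g + 4 * T₀ ≤ N) :
    ∃ i u n i₁ a : ℕ, i = N / 400 ∧ 3 ≤ i ∧ (δ * L * N / D ≤ u) ∧ ((u : ℝ) ≤ δ * L * N / D + 2) ∧
      i₁ + b * n = N ∧ i + u ≤ i₁ ∧ i₁ ≤ i + u + b ∧ T₀ ≤ b * n + i ∧ 100 * a ≤ b * n + i ∧
      u + i₁ + 1 ≤ a ∧ i + g ≤ a ∧ a + u < N ∧ N ≤ 2 * (b * n + b) := by
  set i := N / 400 with hi
  have hi1 : 400 * i ≤ N := Nat.mul_div_le N 400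
  have hi2 : N < 400 * (i + 1) := Nat.lt_mul_div_succ N (by norm_num)
  have hN0 : (0 : ℝ) ≤ N := by positivity
  set u := ⌈δ * L * N / D⌉₊ + 1 with hu
  have hu1 : δ * L * N / D ≤ u := by
    have := Nat.le_ceil (δ * L * N / D)
    rw [hu]; push_cast; linarith
  have hu2 : (u : ℝ) ≤ δ * L * N / D + 2 := by
    have := (Nat.ceil_lt_add_one (by positivity : 0 ≤ δ * L * N / D)).le
    rw [hu]; push_cast; linarith
  have hu3 : 2000 * u ≤ N + 4000 := by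
    have h1 : δ * L * N / D ≤ 1 / 2000 * N := by
      have := mul_le_mul_of_nonneg_right hδD hN0
      calc δ * L * N / D = δ * L / D * N := by ring
        _ ≤ _ := this
    have h2 : (2000 : ℝ) * u ≤ N + 4000 := by linarith
    exact_mod_cast h2
  have hiu : i + u ≤ N := by omega
  set n := (N - i - u) / b with hn
  have hb0 : 0 < b := by omega
  have hn1 : b * n ≤ N - i - u := Nat.mul_div_le _ _
  have hn2 : N - i - u < b * (n + 1) := Nat.lt_mul_div_succ _ hb0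
  have hn3 : b * (n + 1) = b * n + b := by ring
  rw [hn3] at hn2
  refine ⟨i, u, n, N - b * n, (b * n + i) / 100, rfl, by omega, hu1, hu2, by omega, by omega,
    by omega, by omega, Nat.mul_div_le _ _, ?_, ?_, ?_, by omega⟩
  · omega
  · omega
  · omega

/-- The good points with fixed counts, in exponential form. -/
theorem good_bound (hd : 2 ≤ d) (hdm : d < m) (hco : Nat.Coprime m d) (hr : Admissible d m r)
    {x η : ℝ} (hx : 1 < x)
    (hΛ : Real.log (1 + ((d : ℝ) - 1) * x) =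
        η * Real.log d + Real.log d / Real.log m * Real.log x) (hη0 : 0 ≤ η) (hη1 : η ≤ 1)
    {B g T₀ b : ℕ} (hB1 : 1 ≤ B) (hB : ∀ j : ℤ, 0 < j → j < (d : ℤ) → |r j| ≤ B)
    (hg : |((d : ℤ) - 1) * r 1| ≤ g) (hT : ∀ M, T₀ ≤ M → NoRes d m M)
    (hb : 2 ≤ b) {κ κ₀ c₃ δ : ℝ} (hκ : 0 < κ) (hκ0 : 0 < κ₀) (hκ1 : κ₀ < 1) (hc₃ : 0 < c₃)
    (hδ : 0 < δ)
    (hgain : ∀ g' : ℕ, Proper b g' → ∀ α : ℝ,
      (∀ z : ℤ, 1 / (4 * (m : ℝ) ^ b) ≤ |α * ((m : ℝ) ^ (g' - 1) * ((d : ℝ) - 1) * (r 1 : ℝ)) - z|) →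
      ‖∑ w ∈ (W d b).filter (fun w => sg w = g'), (wt d x w : ℂ) * ex (α * (Off d m r w : ℝ))‖ ≤
        (1 - κ₀) * ∑ w ∈ (W d b).filter (fun w => sg w = g'), wt d x w)
    {N i u n i₁ a : ℕ} (hN0 : 0 < N) (hi3 : 3 ≤ i)
    (hu1 : δ * Real.log m * N / Real.log d ≤ u)
    (hu2 : (u : ℝ) ≤ δ * Real.log m * N / Real.log d + 2)
    (hN : i₁ + b * n = N) (hi1 : i + u ≤ i₁) (hi2 : i₁ ≤ i + u + b) (hTn : T₀ ≤ b * n + i)
    (ha : 100 * a ≤ b * n + i) (ha1 : u + i₁ + 1 ≤ a) (ha2 : i + g ≤ a) (ha3 : a + u < N)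
    (X : ℤ) (S : Finset ℤ) {k₁ k₂ : ℕ}
    (hk1 : (k₁ : ℝ) * Real.log m ≤ δ * Real.log m * N + i₁ * Real.log d)
    (hk2 : ((k₁ + k₂ : ℕ) : ℝ) * Real.log m ≤ δ * Real.log m * N + N * Real.log d)
    (hS : ∀ y ∈ S, X ≤ y ∧ y < X + (d : ℤ) ^ N ∧
      (∀ j ≤ N + i, (d : ℝ) ^ j ≤ Real.exp (δ * Real.log m * N) * (m : ℝ) ^ sg (wd d m r j y)) ∧
      sg (wd d m r i₁ y) = k₁ ∧ sg (wd d m r (b * n) ((T d m r)^[i₁] y)) = k₂ ∧
      (nbad b (ty b n (wd d m r (b * n) ((T d m r)^[i₁] y))) : ℝ) < κ * n) :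
    (∑ y ∈ S, wt d x (wd d m r N y)) ^ 2 ≤
      192 * B * N * (1 - κ₀) ^ ⌊c₃ * N⌋₊ *
        Real.exp (3 * δ * (Real.log x + Real.log m) * N + (b + 2) * Real.log d) +
      196 * B ^ 2 * N ^ 2 *
        Real.exp (2 * δ * (Real.log x + Real.log m) * N - Real.log d * N) +
      32 * Real.exp (-(1 - η) * Real.log d * i + 2 * δ * (Real.log x + Real.log m) * N +
        (2 * b + 3) * Real.log m + Real.log 2 / b * N + (b * c₃ + κ) * Real.log m * N) := by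
  classical
  have hD := log_d_pos hd
  have hLD := log_m_gt hd hdm
  have hL := hD.trans hLD
  have hm : 2 ≤ m := by omega
  have hm3 : 3 ≤ m := by omega
  have hd0 : (0 : ℝ) < d := by exact_mod_cast (by omega : 0 < d)
  have hd1 : (1 : ℝ) ≤ d := by exact_mod_cast (by omega : 1 ≤ d)
  have hm0 : (0 : ℝ) < m := by exact_mod_cast (by omega : 0 < m)
  have hm3' : (3 : ℝ) ≤ m := by exact_mod_cast hm3
  have hx0 : 0 < x := by linarith
  have hlx : 0 < Real.log x := Real.log_pos hx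
  have hΛ0 := lam_pos (by omega : 1 ≤ d) hx0.le
  set L := Real.log m with hLdef
  set D := Real.log d with hDdef
  set V := Real.exp (δ * L * N) with hVdef
  have hV0 : 0 < V := Real.exp_pos _
  have hV1 : 1 ≤ V := by
    rw [hVdef]; exact Real.one_le_exp (by positivity)
  have hVu : V ≤ (d : ℝ) ^ u := by
    rw [pow_eq_exp hd0, hVdef, Real.exp_le_exp, ← hDdef]
    rwa [div_le_iff₀ hD] at hu1
  set Q := d ^ i / 8 with hQdef
  have hdi8 : 8 ≤ d ^ i := by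
    calc 8 = 2 ^ 3 := by norm_num
      _ ≤ 2 ^ i := Nat.pow_le_pow_right (by norm_num) hi3
      _ ≤ d ^ i := Nat.pow_le_pow_left hd i
  have hQ1 : 1 ≤ Q := by omega
  have hQ8 : 8 * Q ≤ d ^ i := by omega
  have hQd : Q ≤ d ^ i := by omega
  have hQ16 : d ^ i ≤ 16 * Q := by omega
  have hQ16' : (d : ℝ) ^ i ≤ 16 * Q := by exact_mod_cast hQ16
  have hQd' : (Q : ℝ) ≤ (d : ℝ) ^ i := by exact_mod_cast hQd
  -- the inverse of `m`
  have hcop : Nat.Coprime m (d ^ (N + i)) := Nat.Coprime.pow_right _ hco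
  obtain ⟨μ, hμ⟩ : ∃ μ : ℤ, ((d ^ (N + i) : ℕ) : ℤ) ∣ m * μ - 1 := by
    have h1 := Nat.isCoprime_iff_coprime.2 hcop
    obtain ⟨p, q, hpq⟩ := h1
    refine ⟨p, -q, ?_⟩
    linear_combination hpq
  set Δ := ⌈2 * δ * N⌉₊ + b + 1 with hΔdef
  have hΔ1 : (Δ : ℝ) ≤ 2 * δ * N + b + 2 := by
    have := (Nat.ceil_lt_add_one (by positivity : 0 ≤ 2 * δ * N)).le
    rw [hΔdef]; push_cast; linarith
  have hΔ2 : 2 * δ * N + b + 2 ≤ ((Δ + 1 : ℕ) : ℝ) := by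
    have := Nat.le_ceil (2 * δ * (N : ℝ))
    rw [hΔdef]; push_cast; linarith
  have hΔ : V ^ 2 ≤ 1 / (4 * (m : ℝ) ^ b) * (m : ℝ) ^ (Δ + 1) := by
    rw [div_mul_eq_mul_div, one_mul, le_div_iff₀ (by positivity)]
    have h4 : (4 : ℝ) ≤ (m : ℝ) ^ 2 := by nlinarith
    calc V ^ 2 * (4 * (m : ℝ) ^ b) ≤ V ^ 2 * ((m : ℝ) ^ 2 * (m : ℝ) ^ b) := by gcongr
      _ = Real.exp ((2 * δ * N + b + 2) * L) := by
          rw [← pow_add, pow_eq_exp hm0, hVdef, ← Real.exp_nat_mul, ← Real.exp_add]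
          congr 1
          push_cast
          ring
      _ ≤ Real.exp (((Δ + 1 : ℕ) : ℝ) * L) := by
          rw [Real.exp_le_exp]
          exact mul_le_mul_of_nonneg_right hΔ2 hL.le
      _ = (m : ℝ) ^ (Δ + 1) := by rw [pow_eq_exp hm0]
  set c := ⌊c₃ * N⌋₊ with hcdef
  set nb := ⌊κ * n⌋₊ with hnbdef
  have hcN : (c : ℝ) ≤ c₃ * N := Nat.floor_le (by positivity)
  have hnbn : (nb : ℝ) ≤ κ * n := Nat.floor_le (by positivity)
  set U := (B : ℝ) * N * V with hUdef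
  have hB1' : (1 : ℝ) ≤ B := by exact_mod_cast hB1
  have hN1 : (1 : ℝ) ≤ N := by exact_mod_cast hN0
  have hU : 1 ≤ U := by
    rw [hUdef]
    exact one_le_mul_of_one_le_of_one_le (one_le_mul_of_one_le_of_one_le hB1' hN1) hV1
  have hi1N : i₁ ≤ N := by omega
  have hbnN : b * n ≤ N := by omega
  have hiN : i ≤ N := by omega
  have hi1N' : (i₁ : ℝ) ≤ N := by exact_mod_cast hi1N
  have hUB : (B : ℝ) * i₁ * V ≤ U := by
    rw [hUdef]; gcongr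
  -- the numbers
  have hQV : (Q : ℝ) * V ≤ (d : ℝ) ^ i₁ := by
    calc (Q : ℝ) * V ≤ (d : ℝ) ^ i * (d : ℝ) ^ u := by gcongr
      _ = (d : ℝ) ^ (i + u) := by rw [pow_add]
      _ ≤ (d : ℝ) ^ i₁ := pow_le_pow_right₀ hd1 hi1
  have hA : (d ^ a) ^ 100 ≤ d ^ (b * n + i) := by
    rw [← pow_mul]
    exact Nat.pow_le_pow_right (by omega) (by omega)
  have hA1 : V * (d : ℝ) ^ i₁ + 1 ≤ ((d ^ a : ℕ) : ℝ) := by
    have hd2 : (2 : ℝ) ≤ d := by exact_mod_cast hd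
    have h1 : (1 : ℝ) ≤ (d : ℝ) ^ (u + i₁) := one_le_pow₀ hd1
    calc V * (d : ℝ) ^ i₁ + 1 ≤ (d : ℝ) ^ u * (d : ℝ) ^ i₁ + (d : ℝ) ^ (u + i₁) := by gcongr
      _ = 2 * (d : ℝ) ^ (u + i₁) := by rw [pow_add]; ring
      _ ≤ d * (d : ℝ) ^ (u + i₁) := by gcongr
      _ = (d : ℝ) ^ (u + i₁ + 1) := by rw [pow_succ]; ring
      _ ≤ (d : ℝ) ^ a := pow_le_pow_right₀ hd1 ha1
      _ = _ := by push_cast; rfl
  have hA2 : d ^ i ≤ d ^ a := Nat.pow_le_pow_right (by omega) (by omega)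
  have hA3 : |((d : ℤ) - 1) * r 1| * (Q : ℤ) ≤ ((d ^ a : ℕ) : ℤ) := by
    have hgd : g ≤ d ^ g := (Nat.lt_pow_self (by omega : 1 < d)).le
    calc |((d : ℤ) - 1) * r 1| * (Q : ℤ) ≤ (g : ℤ) * Q :=
          mul_le_mul_of_nonneg_right hg (by positivity)
      _ = ((g * Q : ℕ) : ℤ) := by push_cast; ring
      _ ≤ ((d ^ g * d ^ i : ℕ) : ℤ) := by
          exact_mod_cast Nat.mul_le_mul hgd hQd
      _ = ((d ^ (g + i) : ℕ) : ℤ) := by rw [pow_add]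
      _ ≤ _ := by exact_mod_cast Nat.pow_le_pow_right (by omega) (by omega : g + i ≤ a)
  have hA4 : ((d ^ a : ℕ) : ℝ) * V < (d : ℝ) ^ (i₁ + b * n) := by
    calc ((d ^ a : ℕ) : ℝ) * V ≤ (d : ℝ) ^ a * (d : ℝ) ^ u := by push_cast; gcongr
      _ = (d : ℝ) ^ (a + u) := by rw [pow_add]
      _ < (d : ℝ) ^ (i₁ + b * n) := pow_lt_pow_right₀ (by linarith [show (2 : ℝ) ≤ d by exact_mod_cast hd]) (by omega)
  -- the heavy words
  set 𝒲 : Finset (List ℕ) := (W d i).filter (fun w => (d : ℝ) ^ i ≤ V ^ 2 * (m : ℝ) ^ sg w) with h𝒲def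
  have h𝒲card : (𝒲.card : ℝ) ≤ Real.exp (η * D * i + 2 * δ * Real.log x * N) := by
    have h1 := card_heavy hd hx.le i (i * D / L - 2 * δ * N)
    have h2 : 𝒲.card ≤ ((W d i).filter (fun w => i * D / L - 2 * δ * N ≤ (sg w : ℝ))).card := by
      refine Finset.card_le_card ?_
      intro w hw
      rw [h𝒲def, Finset.mem_filter] at hw
      rw [Finset.mem_filter]
      refine ⟨hw.1, ?_⟩
      have h3 := hw.2
      rw [pow_eq_exp hd0, pow_eq_exp hm0, hVdef, ← Real.exp_nat_mul, ← Real.exp_add,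
        Real.exp_le_exp] at h3
      have h4 : i * D / L ≤ 2 * δ * N + sg w := by
        rw [div_le_iff₀ hL]
        push_cast at h3
        linarith
      linarith
    refine le_trans (by exact_mod_cast h2) (h1.trans ?_)
    rw [pow_eq_exp hΛ0, Real.rpow_def_of_pos hx0, ← Real.exp_add, hΛ, Real.exp_le_exp]
    refine le_of_eq ?_
    field_simp
    ring
  have key := good_fixed hd hm hco hr hx0 (i₁ := i₁) (b := b) (n := n) (i := i) (k₁ := k₁)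
    (k₂ := k₂) (c := c) (Q := Q) (Δ := Δ) (nb := nb) (A := d ^ a) (B := B) (μ := μ) hB
    (by rw [hN]; exact hμ) (ε := 1 / (4 * (m : ℝ) ^ b)) (κ := κ₀) (V := V) (U := U) hκ0.le hκ1.le
    hgain (by positivity) (by
      have : (0 : ℝ) < (m : ℝ) ^ b := by positivity
      refine le_of_eq ?_
      field_simp) (by omega) hQ1 hQ8 hV1 hQV hΔ hU hUB (hT _ hTn) hA hA1 hA2 hA3 hA4 X S (by
      intro y hy
      obtain ⟨f1, f2, f3, f4, f5, f6⟩ := hS y hy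
      rw [hN]
      refine ⟨f1, f2, f3, f4, f5, ?_, ?_, Nat.le_floor f6.le⟩
      · rw [pow_eq_exp hm0, pow_eq_exp hd0, hVdef, ← Real.exp_add, Real.exp_le_exp]
        exact hk1
      · rw [pow_eq_exp hm0, pow_eq_exp hd0, hVdef, ← Real.exp_add, Real.exp_le_exp]
        exact hk2) 𝒲 (by
      intro w hw h
      rw [h𝒲def, Finset.mem_filter]
      exact ⟨hw, h⟩)
  rw [hN] at key
  refine key.trans ?_
  have hcW0 : (0 : ℝ) ≤ 𝒲.card := by positivity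
  have tA := term_A (B := B) (c := c) (cW := (𝒲.card : ℝ)) hd hdm hx hΛ hη0 hη1 hδ.le hi2 hu2
    hQ16' hQ1 hk1 hcW0 h𝒲card hκ1.le
  have tB := term_B (B := B) (c := c) (cW := (𝒲.card : ℝ)) hd hdm hx hη1 hδ.le hiN hQd hQ1 hcW0
    h𝒲card hκ0.le hκ1.le
  have tC := term_C (cW := (𝒲.card : ℝ)) (κ := κ) (c₃ := c₃) hd hdm hx hδ.le hQ16' hQ1 hcW0
    h𝒲card hΔ1 hbnN (by omega) hcN hnbn hκ.le
  rw [← hLdef, ← hDdef] at tA tB tC
  rw [← hVdef, ← hUdef] at tA tB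
  refine le_trans (le_of_eq ?_) (add_le_add (add_le_add tA tB) tC)
  ring

end Pool.Agent.Helper28.BE
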