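import Pool.Agent.Helper28.BE.SumBound

/-!
The main counting theorem: integers of an interval of length `d^N` whose words stay above the critical
line have an exponent strictly smaller than the entropy exponent.
-/

set_option autoImplicit false

namespace Pool.Agent.Helper28.BE

open Pool.Agent.Helper68.Moeller Pool.Agent.Helper52.Tao

variable {d m : ℕ} {r : ℤ → ℤ}

theorem core (hd : 2 ≤ d) (hdm : d < m) (hco : Nat.Coprime m d)
    (hm : (m : ℝ) ≤ (d : ℝ) ^ ((d : ℝ) / ((d : ℝ) - 1))) :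
    ∃ η₁ δ : ℝ, 0 < η₁ ∧ η₁ < eta d m ∧ 0 < δ ∧ ∀ r : ℤ → ℤ, Admissible d m r →
      Core d m r η₁ (1 / 400) δ := by
  have hD := log_d_pos hd
  have hLD := log_m_gt hd hdm
  have hL := hD.trans hLD
  have hd0 : (0 : ℝ) < d := by exact_mod_cast (by omega : 0 < d)
  have hd1 : (1 : ℝ) ≤ d := by exact_mod_cast (by omega : 1 ≤ d)
  have heta := eta_pos hd hdm
  obtain ⟨x, hx, hp, hΛ⟩ := exists_x hd hdm hco hm
  have hx0 : 0 < x := by linarith
  have hlx : 0 < Real.log x := Real.log_pos hx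
  have hΛ0 := lam_pos (by omega : 1 ≤ d) hx0.le
  obtain ⟨δ', γ₂, hδ', hγ₂, hmain⟩ := sum_bound hd hdm hco hx hp hΛ heta.le
    (eta_lt_one hd hdm hco hm)
  set D := Real.log d with hDdef
  set L := Real.log m with hLdef
  set δ := min δ' (γ₂ / (2 * Real.log x)) with hδdef
  have hδ0 : 0 < δ := lt_min hδ' (by positivity)
  have hδ1 : δ ≤ δ' := min_le_left _ _
  have hδ2 : δ * (2 * Real.log x) ≤ γ₂ := by
    rw [← le_div_iff₀ (by positivity)]
    exact min_le_right _ _
  refine ⟨max (eta d m - γ₂ / (2 * D)) (eta d m / 2), δ, lt_max_of_lt_right (by positivity),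
    max_lt (by linarith [show 0 < γ₂ / (2 * D) by positivity]) (by linarith), hδ0, ?_⟩
  intro r hr
  obtain ⟨C, hC, h⟩ := hmain r hr
  refine ⟨C, hC, ?_⟩
  intro N X S hS
  have hN0 : (0 : ℝ) ≤ N := Nat.cast_nonneg N
  have h1 := h N X S (by
    intro n hn
    obtain ⟨f1, f2, f3⟩ := hS n hn
    refine ⟨f1, f2, fun a ha => le_trans ?_ (f3 a ha)⟩
    have := mul_le_mul_of_nonneg_right hδ1 hN0
    linarith)
  have h2 : ∀ y ∈ S, Real.exp (-(eta d m * D + δ * Real.log x) * N) ≤ wt d x (wd d m r N y) := by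
    intro y hy
    obtain ⟨_, _, f3⟩ := hS y hy
    have f4 := f3 N (by linarith)
    rw [wt_of_mem (wd_mem hd r N y), pow_eq_exp hx0, pow_eq_exp hΛ0, ← Real.exp_sub,
      Real.exp_le_exp, hΛ]
    have f5 := mul_le_mul_of_nonneg_right f4 hlx.le
    linarith
  have h3 : (S.card : ℝ) * Real.exp (-(eta d m * D + δ * Real.log x) * N) ≤
      C * Real.exp (-(γ₂ * N)) := by
    refine le_trans ?_ h1
    rw [← nsmul_eq_mul]
    exact Finset.card_nsmul_le_sum _ _ _ h2
  have h4 : (S.card : ℝ) ≤ C * Real.exp ((eta d m * D + δ * Real.log x - γ₂) * N) := by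
    have e1 : Real.exp ((eta d m * D + δ * Real.log x) * N) *
        Real.exp (-(eta d m * D + δ * Real.log x) * N) = 1 := by
      rw [← Real.exp_add, neg_mul, add_neg_cancel, Real.exp_zero]
    calc (S.card : ℝ) = (S.card : ℝ) * Real.exp (-(eta d m * D + δ * Real.log x) * N) *
          Real.exp ((eta d m * D + δ * Real.log x) * N) := by
          rw [mul_assoc, mul_comm (Real.exp (-(eta d m * D + δ * Real.log x) * N)), e1, mul_one]
      _ ≤ C * Real.exp (-(γ₂ * N)) * Real.exp ((eta d m * D + δ * Real.log x) * N) := by gcongr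
      _ = C * Real.exp ((eta d m * D + δ * Real.log x - γ₂) * N) := by
          rw [mul_assoc, ← Real.exp_add]
          congr 2
          ring
  refine h4.trans ?_
  refine mul_le_mul_of_nonneg_left ?_ hC.le
  rw [Real.rpow_def_of_pos hd0, Real.exp_le_exp, ← mul_assoc, ← hDdef]
  refine mul_le_mul_of_nonneg_right ?_ hN0
  have e1 : D * (eta d m - γ₂ / (2 * D)) ≤ D * max (eta d m - γ₂ / (2 * D)) (eta d m / 2) :=
    mul_le_mul_of_nonneg_left (le_max_left _ _) hD.le
  have e2 : D * (eta d m - γ₂ / (2 * D)) = eta d m * D - γ₂ / 2 := by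
    field_simp
  linarith

end Pool.Agent.Helper28.BE
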