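import Pool.Agent.Helper28.BE.Basic
import Pool.Agent.Helper68.Moeller.Residues

/-!
Numerical facts for the final choice of parameters.
-/

set_option autoImplicit false

namespace Pool.Agent.Helper28.BE

open Pool.Agent.Helper68.Moeller Pool.Agent.Helper52.Tao

theorem pow_eq_exp {a : ℝ} (ha : 0 < a) (k : ℕ) : a ^ k = Real.exp (k * Real.log a) := by
  rw [Real.exp_nat_mul, Real.exp_log ha]

theorem exists_x {d m : ℕ} (hd : 2 ≤ d) (hdm : d < m) (hco : Nat.Coprime m d)
    (hm : (m : ℝ) ≤ (d : ℝ) ^ ((d : ℝ) / ((d : ℝ) - 1))) :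
    ∃ x : ℝ, 1 < x ∧ ((d : ℝ) - 1) * x / (1 + ((d : ℝ) - 1) * x) = Real.log d / Real.log m ∧
      Real.log (1 + ((d : ℝ) - 1) * x) =
        eta d m * Real.log d + Real.log d / Real.log m * Real.log x := by
  have hD := log_d_pos hd
  have hL := log_m_gt hd hdm
  obtain ⟨h1, h2⟩ := p_bounds hd hdm hco hm
  set p := Real.log d / Real.log m with hp
  have hd' : (2 : ℝ) ≤ d := by exact_mod_cast hd
  have hd1 : (0 : ℝ) < (d : ℝ) - 1 := by linarith
  have hp0 : 0 < p := div_pos hD (hD.trans hL)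
  have h1p : 0 < 1 - p := by linarith
  set x := p / ((1 - p) * ((d : ℝ) - 1)) with hx
  have hx0 : 0 < x := by positivity
  have e1 : 1 + ((d : ℝ) - 1) * x = (1 - p)⁻¹ := by
    rw [hx]; field_simp; ring
  refine ⟨x, ?_, ?_, ?_⟩
  · rw [hx, one_lt_div (by positivity)]
    have h3 : (1 - 1 / (d : ℝ)) * d < p * d := mul_lt_mul_of_pos_right h1 (by linarith)
    have h4 : (1 - 1 / (d : ℝ)) * d = d - 1 := by field_simp
    nlinarith
  · rw [e1, hx]; field_simp
  · have h3 := chernoff_id hd hp0 h2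
    have h4 : 0 < 1 + ((d : ℝ) - 1) * x := by rw [e1]; positivity
    have h5 : Real.log ((1 + ((d : ℝ) - 1) * x) * x ^ (-p)) = Real.qaryEntropy d p := by
      rw [hx, h3, Real.log_exp]
    rw [Real.log_mul h4.ne' (Real.rpow_pos_of_pos hx0 _).ne', Real.log_rpow hx0] at h5
    have h6 : eta d m * Real.log d = Real.qaryEntropy d p := by
      rw [eta, div_mul_cancel₀ _ hD.ne']
    linarith

/-- Polynomial factors. -/
theorem poly_exp {γ : ℝ} (hγ : 0 < γ) (k : ℕ) :
    ∃ C : ℝ, 0 < C ∧ ∀ N : ℕ, ((N : ℝ) + 1) ^ k * Real.exp (-(2 * γ * N)) ≤ C * Real.exp (-(γ * N)) := by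
  refine ⟨k.factorial / γ ^ k * Real.exp γ, by positivity, ?_⟩
  intro N
  have h1 : (γ * ((N : ℝ) + 1)) ^ k / k.factorial ≤ Real.exp (γ * ((N : ℝ) + 1)) :=
    Real.pow_div_factorial_le_exp _ (by positivity) k
  have h2 : ((N : ℝ) + 1) ^ k ≤ k.factorial / γ ^ k * Real.exp (γ * ((N : ℝ) + 1)) := by
    rw [div_le_iff₀ (by positivity), mul_pow] at h1
    rw [div_mul_eq_mul_div, le_div_iff₀ (by positivity)]
    linarith
  calc ((N : ℝ) + 1) ^ k * Real.exp (-(2 * γ * N)) ≤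
      (k.factorial / γ ^ k * Real.exp (γ * ((N : ℝ) + 1))) * Real.exp (-(2 * γ * N)) := by gcongr
    _ = k.factorial / γ ^ k * (Real.exp (γ * ((N : ℝ) + 1)) * Real.exp (-(2 * γ * N))) := by ring
    _ = k.factorial / γ ^ k * (Real.exp γ * Real.exp (-(γ * N))) := by
        rw [← Real.exp_add, ← Real.exp_add]
        congr 2
        ring
    _ = _ := by ring

end Pool.Agent.Helper28.BE
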