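import Pool.Agent.Helper68.Moeller.Basic

/-!
Consequences for infinite orbits and their growth (as in `SparseTransversals` of helper8).
-/

set_option autoImplicit false

namespace Pool.Agent.Helper28.BE

open Pool.Agent.Helper68.Moeller

variable {d m : ℕ} {r : ℤ → ℤ}

/-- The bound for infinite orbits. -/
theorem orbit_bound {K η : ℝ}
    (hgen : ∀ S : Set ℤ, (∀ k, Set.InjOn ((T d m r)^[k]) S) → ∀ (X : ℤ) (Y : ℕ), 1 ≤ Y →
      ((S ∩ Set.Ico X (X + Y)).ncard : ℝ) ≤ K * (Y : ℝ) ^ η) (n : ℤ)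
    (hn : ∀ i j : ℕ, (T d m r)^[i] n = (T d m r)^[j] n → i = j) (X : ℤ) (Y : ℕ) (hY : 1 ≤ Y) :
    (({i : ℕ | (T d m r)^[i] n ∈ Set.Ico X (X + Y)}).ncard : ℝ) ≤ K * (Y : ℝ) ^ η := by
  have h1 := hgen (Set.range fun i : ℕ => (T d m r)^[i] n) (by
    rintro k _ ⟨i, rfl⟩ _ ⟨j, rfl⟩ h
    simp only at h ⊢
    rw [← Function.iterate_add_apply, ← Function.iterate_add_apply] at h
    have := hn _ _ h
    rw [show i = j by omega]) X Y hY
  have h2 : (Set.range fun i : ℕ => (T d m r)^[i] n) ∩ Set.Ico X (X + Y) =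
      (fun i : ℕ => (T d m r)^[i] n) '' {i : ℕ | (T d m r)^[i] n ∈ Set.Ico X (X + Y)} := by
    ext z
    constructor
    · rintro ⟨⟨i, rfl⟩, hz⟩
      exact ⟨i, hz, rfl⟩
    · rintro ⟨i, hi, rfl⟩
      exact ⟨⟨i, rfl⟩, hi⟩
  rwa [h2, Set.ncard_image_of_injective _ (fun i j h => hn i j h)] at h1

/-- The growth of infinite orbits. -/
theorem growth {K η : ℝ} (hK0 : 0 < K) (hη0 : 0 < η)
    (horb : ∀ n : ℤ, (∀ i j : ℕ, (T d m r)^[i] n = (T d m r)^[j] n → i = j) →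
      ∀ (X : ℤ) (Y : ℕ), 1 ≤ Y →
        (({i : ℕ | (T d m r)^[i] n ∈ Set.Ico X (X + Y)}).ncard : ℝ) ≤ K * (Y : ℝ) ^ η) (n : ℤ)
    (hn : ∀ i j : ℕ, (T d m r)^[i] n = (T d m r)^[j] n → i = j) (k : ℕ) (hk : 1 ≤ k) :
    ∃ i < k, 1 / (2 * (5 * K ^ (1 / η))) * (k : ℝ) ^ (1 / η) ≤ |((T d m r)^[i] n : ℝ)| := by
  by_contra hcon
  push Not at hcon
  set c : ℝ := 1 / (2 * (5 * K ^ (1 / η))) with hc
  have hc0 : 0 < c := by positivity
  have hk1 : (1 : ℝ) ≤ k := by exact_mod_cast hk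
  set V : ℝ := c * (k : ℝ) ^ (1 / η) with hV
  have hV0 : 0 < V := by positivity
  -- the orbit avoids zero
  have hne : n ≠ 0 := by
    rintro rfl
    have hT0 : T d m r 0 = 0 := by rw [T, if_pos (dvd_zero _)]; simp
    have := hn 1 0 (by simpa using hT0)
    omega
  have hV1 : 1 < V := by
    have h1 := hcon 0 hk
    simp only [Function.iterate_zero, id_eq] at h1
    have h2 : (1 : ℤ) ≤ |n| := Int.one_le_abs hne
    have h3 : (1 : ℝ) ≤ |(n : ℝ)| := by exact_mod_cast h2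
    linarith
  have hZ : (⌈V⌉₊ : ℝ) < V + 1 := Nat.ceil_lt_add_one hV0.le
  have h1 := horb n hn (-(⌈V⌉₊ : ℤ)) (2 * ⌈V⌉₊ + 1) (by omega)
  have hsub : Set.Iio k ⊆ {i : ℕ | (T d m r)^[i] n ∈
      Set.Ico (-(⌈V⌉₊ : ℤ)) (-(⌈V⌉₊ : ℤ) + ((2 * ⌈V⌉₊ + 1 : ℕ) : ℤ))} := by
    intro i hi
    have h2 := hcon i hi
    have h3 : |((T d m r)^[i] n : ℝ)| < (⌈V⌉₊ : ℝ) := h2.trans_le (Nat.le_ceil V)
    have h4 : |(T d m r)^[i] n| < (⌈V⌉₊ : ℤ) := by exact_mod_cast h3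
    rw [abs_lt] at h4
    rw [Set.mem_ofPred_eq, Set.mem_Ico]
    push_cast
    omega
  have hfin : {i : ℕ | (T d m r)^[i] n ∈
      Set.Ico (-(⌈V⌉₊ : ℤ)) (-(⌈V⌉₊ : ℤ) + ((2 * ⌈V⌉₊ + 1 : ℕ) : ℤ))}.Finite :=
    Set.Finite.preimage (fun i _ j _ h => hn i j h) (Set.finite_Ico _ _)
  have h2 := Set.ncard_le_ncard hsub hfin
  have h3 : (Set.Iio k).ncard = k := by
    rw [← Finset.coe_Iio, Set.ncard_coe_finset, Nat.card_Iio]
  rw [h3] at h2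
  have h4 : (k : ℝ) ≤ K * ((2 * ⌈V⌉₊ + 1 : ℕ) : ℝ) ^ η := le_trans (by exact_mod_cast h2) h1
  have h5 : (((2 * ⌈V⌉₊ + 1 : ℕ) : ℝ)) ^ η ≤ (5 * V) ^ η := by
    refine Real.rpow_le_rpow (by positivity) ?_ hη0.le
    push_cast
    linarith
  have h6 : (5 * V) ^ η = (1 / (2 ^ η * K)) * k := by
    have e1 : 5 * V = (1 / (2 * K ^ (1 / η))) * (k : ℝ) ^ (1 / η) := by
      rw [hV, hc]; field_simp
    rw [e1, Real.mul_rpow (by positivity) (by positivity), ← Real.rpow_mul (by positivity),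
      one_div_mul_cancel hη0.ne', Real.rpow_one, Real.div_rpow (by norm_num) (by positivity),
      Real.one_rpow, Real.mul_rpow (by norm_num) (by positivity), ← Real.rpow_mul hK0.le,
      one_div_mul_cancel hη0.ne', Real.rpow_one]
  have h7 : (k : ℝ) ≤ (1 / 2 ^ η) * k := by
    calc (k : ℝ) ≤ K * ((2 * ⌈V⌉₊ + 1 : ℕ) : ℝ) ^ η := h4
      _ ≤ K * (5 * V) ^ η := mul_le_mul_of_nonneg_left h5 hK0.le
      _ = (1 / 2 ^ η) * k := by rw [h6]; field_simp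
  have h8 : (1 : ℝ) / 2 ^ η < 1 := by
    rw [div_lt_one (by positivity)]
    exact Real.one_lt_rpow (by norm_num) hη0
  nlinarith

end Pool.Agent.Helper28.BE
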