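import Pool.Agent.Helper28.BE.Basic

/-!
# Blocks BE-G2, BE-G3, BE-K: three short Markov bounds
-/

set_option autoImplicit false

namespace Pool.Agent.Helper28.BE

open Pool.Agent.Helper68.Moeller Pool.Agent.Helper52.Tao

theorem sum_tau_nbad {d b : ℕ} (hd : 2 ≤ d) {x τ : ℝ} (hx : 0 < x) (hτ0 : 0 < τ)
    (hτ : ∑ u ∈ (W d b).filter (fun u => ¬ Proper b (sg u)), wt d x u ≤ τ) (n : ℕ) :
    ∑ w ∈ W d (b * n), wt d x w * (τ⁻¹) ^ nbad b (ty b n w) ≤ 2 ^ n := by
  have hd1 : 1 ≤ d := by omega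
  induction n with
  | zero =>
    rw [Nat.mul_zero, sum_W_zero]
    simp [ty, nbad, wt]
  | succ n ih =>
    rw [show b * (n + 1) = b + b * n by ring, sum_W_add]
    have h1 : ∀ u ∈ W d b, ∑ v ∈ W d (b * n),
        wt d x (u ++ v) * (τ⁻¹) ^ nbad b (ty b (n + 1) (u ++ v)) =
        (wt d x u * (if Proper b (sg u) then 1 else τ⁻¹)) *
          ∑ v ∈ W d (b * n), wt d x v * (τ⁻¹) ^ nbad b (ty b n v) := by
      intro u hu
      rw [Finset.mul_sum]
      refine Finset.sum_congr rfl fun v _ => ?_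
      rw [ty_append hu, wt_append, nbad, pow_add]
      split_ifs with h
      · rw [pow_zero]; ring
      · rw [pow_one]; ring
    rw [Finset.sum_congr rfl h1, ← Finset.sum_mul, pow_succ, mul_comm]
    have h2 : ∑ u ∈ W d b, wt d x u * (if Proper b (sg u) then (1 : ℝ) else τ⁻¹) ≤ 2 := by
      rw [← Finset.sum_filter_add_sum_filter_not (W d b) (fun u => Proper b (sg u))]
      have h3 : ∑ u ∈ (W d b).filter (fun u => Proper b (sg u)),
          wt d x u * (if Proper b (sg u) then (1 : ℝ) else τ⁻¹) ≤ 1 := by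
        rw [Finset.sum_congr rfl fun u hu => by
          rw [if_pos (Finset.mem_filter.1 hu).2, mul_one]]
        exact sum_wt_le hd1 hx.le (Finset.filter_subset _ _)
      have h4 : ∑ u ∈ (W d b).filter (fun u => ¬ Proper b (sg u)),
          wt d x u * (if Proper b (sg u) then (1 : ℝ) else τ⁻¹) ≤ 1 := by
        rw [Finset.sum_congr rfl fun u hu => by
          rw [if_neg (Finset.mem_filter.1 hu).2], ← Finset.sum_mul]
        calc (∑ u ∈ (W d b).filter (fun u => ¬ Proper b (sg u)), wt d x u) * τ⁻¹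
            ≤ τ * τ⁻¹ := mul_le_mul_of_nonneg_right hτ (by positivity)
          _ = 1 := mul_inv_cancel₀ hτ0.ne'
      linarith
    have h5 : 0 ≤ ∑ v ∈ W d (b * n), wt d x v * (τ⁻¹) ^ nbad b (ty b n v) :=
      Finset.sum_nonneg fun v _ => mul_nonneg (wt_nonneg hd1 hx.le v) (by positivity)
    exact mul_le_mul ih h2 (Finset.sum_nonneg fun u _ => mul_nonneg (wt_nonneg hd1 hx.le u)
      (by split_ifs <;> positivity)) (by positivity)

/-- BE-G2 -/
theorem bad_tail {d b : ℕ} (hd : 2 ≤ d) {x τ κ : ℝ} (hx : 0 < x) (hτ0 : 0 < τ) (hτ1 : τ ≤ 1)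
    (hτ : ∑ u ∈ (W d b).filter (fun u => ¬ Proper b (sg u)), wt d x u ≤ τ) (hκ : 0 ≤ κ) (n : ℕ) :
    ∑ w ∈ (W d (b * n)).filter (fun w => κ * n ≤ (nbad b (ty b n w) : ℝ)), wt d x w ≤
      (2 * τ ^ κ) ^ n := by
  have hd1 : 1 ≤ d := by omega
  have h1 : ∀ w ∈ (W d (b * n)).filter (fun w => κ * n ≤ (nbad b (ty b n w) : ℝ)),
      wt d x w ≤ τ ^ (κ * n) * (wt d x w * (τ⁻¹) ^ nbad b (ty b n w)) := by
    intro w hw
    have hw2 := (Finset.mem_filter.1 hw).2
    have h2 : (1 : ℝ) ≤ τ ^ (κ * n) * (τ⁻¹) ^ nbad b (ty b n w) := by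
      rw [inv_pow, ← Real.rpow_natCast, ← Real.rpow_neg hτ0.le, ← Real.rpow_add hτ0]
      exact Real.one_le_rpow_of_pos_of_le_one_of_nonpos hτ0 hτ1 (by linarith)
    have h3 := wt_nonneg hd1 hx.le w
    nlinarith
  calc ∑ w ∈ (W d (b * n)).filter (fun w => κ * n ≤ (nbad b (ty b n w) : ℝ)), wt d x w
      ≤ ∑ w ∈ (W d (b * n)).filter (fun w => κ * n ≤ (nbad b (ty b n w) : ℝ)),
          τ ^ (κ * n) * (wt d x w * (τ⁻¹) ^ nbad b (ty b n w)) := Finset.sum_le_sum h1
    _ ≤ ∑ w ∈ W d (b * n), τ ^ (κ * n) * (wt d x w * (τ⁻¹) ^ nbad b (ty b n w)) :=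
        Finset.sum_le_sum_of_subset_of_nonneg (Finset.filter_subset _ _) fun w _ _ =>
          mul_nonneg (Real.rpow_nonneg hτ0.le _)
            (mul_nonneg (wt_nonneg hd1 hx.le w) (by positivity))
    _ = τ ^ (κ * n) * ∑ w ∈ W d (b * n), wt d x w * (τ⁻¹) ^ nbad b (ty b n w) := by
        rw [Finset.mul_sum]
    _ ≤ τ ^ (κ * n) * 2 ^ n :=
        mul_le_mul_of_nonneg_left (sum_tau_nbad hd hx hτ0 hτ n) (Real.rpow_nonneg hτ0.le _)
    _ = (2 * τ ^ κ) ^ n := by
        rw [mul_pow, Real.rpow_mul hτ0.le, Real.rpow_natCast]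
        ring

theorem sum_wt_sg_zero {d : ℕ} (hd : 1 ≤ d) (x : ℝ) (t : ℕ) :
    ∑ w ∈ W d t, (if sg w = 0 then wt d x w else 0) = (1 / (1 + ((d : ℝ) - 1) * x)) ^ t := by
  induction t with
  | zero =>
    rw [sum_W_zero]
    simp [wt]
  | succ t ih =>
    rw [show t + 1 = 1 + t by ring, sum_W_add, show 1 = 0 + 1 from rfl, sum_W_succ]
    simp only [sum_W_zero]
    rw [Finset.sum_eq_single 0]
    · rw [pow_add, pow_one, ← ih, Finset.mul_sum]
      refine Finset.sum_congr rfl fun w _ => ?_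
      rw [wt_append]
      simp only [List.cons_append, List.nil_append, sg_cons, nz_zero, zero_add]
      split_ifs with h
      · congr 1
        simp [wt]
      · rw [mul_zero]
    · intro a _ ha
      refine Finset.sum_eq_zero fun w _ => ?_
      simp only [List.cons_append, List.nil_append, sg_cons, nz_of_ne ha]
      rw [if_neg (by omega)]
    · intro h
      exact absurd (Finset.mem_range.2 hd) h

theorem sum_wt_sg_full {d : ℕ} (hd : 1 ≤ d) (x : ℝ) (t : ℕ) :
    ∑ w ∈ W d t, (if sg w = t then wt d x w else 0) =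
      (((d : ℝ) - 1) * x / (1 + ((d : ℝ) - 1) * x)) ^ t := by
  induction t with
  | zero =>
    rw [sum_W_zero]
    simp [wt]
  | succ t ih =>
    rw [show t + 1 = 1 + t by ring, sum_W_add, show 1 = 0 + 1 from rfl, sum_W_succ]
    simp only [sum_W_zero]
    have h0 : ∀ a ∈ Finset.range d, ∑ w ∈ W d t,
        (if sg ([a] ++ w) = 0 + 1 + t then wt d x ([a] ++ w) else 0) =
        (if a = 0 then 0 else x / (1 + ((d : ℝ) - 1) * x)) *
          (((d : ℝ) - 1) * x / (1 + ((d : ℝ) - 1) * x)) ^ t := by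
      intro a _
      rw [← ih, Finset.mul_sum]
      refine Finset.sum_congr rfl fun w hw => ?_
      have hlen : sg w ≤ t := (sg_le_length w).trans (length_of_mem_W hw).le
      rw [wt_append]
      simp only [List.cons_append, List.nil_append, sg_cons]
      by_cases ha : a = 0
      · subst ha
        rw [nz_zero, if_neg (by omega), if_pos rfl, zero_mul]
      · rw [nz_of_ne ha, if_neg ha]
        by_cases h : sg w = t
        · rw [if_pos (by omega), if_pos h]
          congr 1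
          simp [wt, nz_of_ne ha]
        · rw [if_neg (by omega), if_neg h, mul_zero]
    rw [Finset.sum_congr rfl h0, ← Finset.sum_mul, pow_add, zero_add, pow_one]
    congr 1
    obtain ⟨e, rfl⟩ : ∃ e, d = e + 1 := ⟨d - 1, by omega⟩
    rw [Finset.sum_range_succ']
    simp only [Nat.add_eq_zero_iff, one_ne_zero, and_false, if_false, if_true, Finset.sum_const,
      Finset.card_range, nsmul_eq_mul, add_zero]
    push_cast
    ring

/-- BE-G3 -/
theorem improper_weight {d : ℕ} (hd : 2 ≤ d) {x : ℝ} (hx : 0 < x) :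
    ∃ q : ℝ, 0 < q ∧ q < 1 ∧ ∀ b : ℕ, 1 ≤ b →
      ∑ u ∈ (W d b).filter (fun u => ¬ Proper b (sg u)), wt d x u ≤ 2 * q ^ b := by
  have hd1 : 1 ≤ d := by omega
  have hdr : (2 : ℝ) ≤ d := by exact_mod_cast hd
  have hL := lam_pos hd1 hx.le
  have hdx : 0 < ((d : ℝ) - 1) * x := mul_pos (by linarith) hx
  set L := 1 + ((d : ℝ) - 1) * x with hLdef
  have hA0 : 0 < 1 / L := by positivity
  have hA1 : 1 / L < 1 := by rw [div_lt_one hL]; linarith
  have hB0 : 0 < ((d : ℝ) - 1) * x / L := by positivity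
  have hB1 : ((d : ℝ) - 1) * x / L < 1 := by rw [div_lt_one hL]; linarith
  refine ⟨max (1 / L) (((d : ℝ) - 1) * x / L), lt_max_of_lt_left hA0, max_lt hA1 hB1,
    fun b hb => ?_⟩
  have h1 : ∑ u ∈ (W d b).filter (fun u => ¬ Proper b (sg u)), wt d x u ≤
      ∑ u ∈ W d b, ((if sg u = 0 then wt d x u else 0) + (if sg u = b then wt d x u else 0)) := by
    rw [Finset.sum_filter]
    refine Finset.sum_le_sum fun u hu => ?_
    have h2 := wt_nonneg hd1 hx.le u
    have h3 : sg u ≤ b := (sg_le_length u).trans (length_of_mem_W hu).le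
    by_cases hp : Proper b (sg u)
    · rw [if_neg (not_not.2 hp)]
      split_ifs <;> linarith
    · rw [if_pos hp]
      unfold Proper at hp
      by_cases h4 : sg u = 0
      · rw [if_pos h4]
        split_ifs <;> linarith
      · have h5 : sg u = b := by omega
        rw [if_neg h4, if_pos h5, zero_add]
  refine h1.trans ?_
  rw [Finset.sum_add_distrib, sum_wt_sg_zero hd1, sum_wt_sg_full hd1, two_mul]
  exact add_le_add (pow_le_pow_left₀ hA0.le (le_max_left _ _) b)
    (pow_le_pow_left₀ hB0.le (le_max_right _ _) b)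

/-- BE-K -/
theorem card_heavy {d : ℕ} (hd : 2 ≤ d) {x : ℝ} (hx : 1 ≤ x) (i : ℕ) (L : ℝ) :
    (((W d i).filter (fun w => L ≤ (sg w : ℝ))).card : ℝ) ≤
      (1 + ((d : ℝ) - 1) * x) ^ i * x ^ (-L) := by
  have hx0 : 0 < x := by linarith
  rw [← sum_pow_sg d i x (by omega), Finset.sum_mul, Finset.card_eq_sum_ones, Nat.cast_sum]
  calc ∑ w ∈ (W d i).filter (fun w => L ≤ (sg w : ℝ)), ((1 : ℕ) : ℝ)
      ≤ ∑ w ∈ (W d i).filter (fun w => L ≤ (sg w : ℝ)), x ^ sg w * x ^ (-L) := by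
        refine Finset.sum_le_sum fun w hw => ?_
        have h1 := (Finset.mem_filter.1 hw).2
        rw [Nat.cast_one, ← Real.rpow_natCast, ← Real.rpow_add hx0]
        exact Real.one_le_rpow hx (by linarith)
    _ ≤ ∑ w ∈ W d i, x ^ sg w * x ^ (-L) :=
        Finset.sum_le_sum_of_subset_of_nonneg (Finset.filter_subset _ _) fun w _ _ => by positivity

end Pool.Agent.Helper28.BE
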