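import Pool.Agent.Helper28.BE.Basic

/-!
# Block BE-G1: exponential upper tail of the number of non-zero digits
-/

set_option autoImplicit false

namespace Pool.Agent.Helper28.BE

open Pool.Agent.Helper68.Moeller Pool.Agent.Helper52.Tao

/-- BE-G1 -/
theorem upper_tail {d : ℕ} (hd : 2 ≤ d) {x δ : ℝ} (hx : 0 < x) (hδ : 0 < δ) :
    ∃ ρ : ℝ, 0 < ρ ∧ ρ < 1 ∧ ∀ N t : ℕ, t ≤ N →
      ∑ w ∈ (W d t).filter (fun w =>
        ((d : ℝ) - 1) * x / (1 + ((d : ℝ) - 1) * x) * t + δ * N ≤ (sg w : ℝ)), wt d x w ≤ ρ ^ N := by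
  have hd1 : 1 ≤ d := by omega
  have hd1' : (1 : ℝ) ≤ d := by exact_mod_cast hd1
  have hlam := lam_pos hd1 hx.le
  set p : ℝ := ((d : ℝ) - 1) * x / (1 + ((d : ℝ) - 1) * x) with hp
  have hnum : 0 ≤ ((d : ℝ) - 1) * x := mul_nonneg (by linarith) hx.le
  have hp0 : 0 ≤ p := div_nonneg hnum hlam.le
  have hp1 : p ≤ 1 := by
    rw [hp, div_le_one hlam]
    linarith
  set u : ℝ := min δ 1 / 2 with hu
  have hu0 : 0 < u := by
    have : 0 < min δ 1 := lt_min hδ one_pos
    positivity
  have hu1 : u ≤ 1 / 2 := by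
    have : min δ 1 ≤ 1 := min_le_right _ _
    rw [hu]; linarith
  have hu2 : u ≤ δ / 2 := by
    have : min δ 1 ≤ δ := min_le_left _ _
    rw [hu]; linarith
  set L : ℝ := Real.log (1 + u) with hL
  have hL1 : u * (1 - u / 2) ≤ L := by
    have h1 := Real.le_log_one_add_of_nonneg hu0.le
    refine le_trans ?_ h1
    rw [le_div_iff₀ (by positivity)]
    nlinarith [sq_nonneg u, mul_pos hu0 hu0, mul_pos (mul_pos hu0 hu0) hu0]
  have hL0 : 0 ≤ L := Real.log_nonneg (by linarith)
  have hexpL : Real.exp L = 1 + u := Real.exp_log (by linarith)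
  refine ⟨Real.exp (-(u * δ / 2)), Real.exp_pos _, ?_, ?_⟩
  · rw [Real.exp_lt_one_iff]
    have : 0 < u * δ := mul_pos hu0 hδ
    linarith
  intro N t ht
  have htN : (t : ℝ) ≤ N := by exact_mod_cast ht
  have ht0 : (0 : ℝ) ≤ t := Nat.cast_nonneg t
  -- exponential Markov
  have h1 : ∑ w ∈ (W d t).filter (fun w => p * t + δ * N ≤ (sg w : ℝ)), wt d x w ≤
      ∑ w ∈ (W d t).filter (fun w => p * t + δ * N ≤ (sg w : ℝ)),
        wt d x w * (1 + u) ^ sg w * Real.exp (-(L * (p * t + δ * N))) := by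
    refine Finset.sum_le_sum fun w hw => ?_
    rw [Finset.mem_filter] at hw
    have h2 : 0 ≤ wt d x w := wt_nonneg hd1 hx.le w
    have h3 : 1 ≤ (1 + u) ^ sg w * Real.exp (-(L * (p * t + δ * N))) := by
      rw [← hexpL, ← Real.exp_nat_mul, ← Real.exp_add]
      apply Real.one_le_exp
      have := mul_le_mul_of_nonneg_left hw.2 hL0
      linarith
    calc wt d x w = wt d x w * 1 := (mul_one _).symm
      _ ≤ wt d x w * ((1 + u) ^ sg w * Real.exp (-(L * (p * t + δ * N)))) :=
        mul_le_mul_of_nonneg_left h3 h2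
      _ = _ := by ring
  have h2 : ∑ w ∈ (W d t).filter (fun w => p * t + δ * N ≤ (sg w : ℝ)),
        wt d x w * (1 + u) ^ sg w * Real.exp (-(L * (p * t + δ * N))) ≤
      ∑ w ∈ W d t, wt d x w * (1 + u) ^ sg w * Real.exp (-(L * (p * t + δ * N))) := by
    refine Finset.sum_le_sum_of_subset_of_nonneg (Finset.filter_subset _ _) fun w _ _ => ?_
    have h2 : 0 ≤ wt d x w := wt_nonneg hd1 hx.le w
    positivity
  have h3 : ∑ w ∈ W d t, wt d x w * (1 + u) ^ sg w = (1 + p * u) ^ t := by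
    have h4 : ∀ w ∈ W d t, wt d x w * (1 + u) ^ sg w =
        (x * (1 + u)) ^ sg w / (1 + ((d : ℝ) - 1) * x) ^ t := by
      intro w hw
      rw [wt_of_mem hw, mul_pow]
      ring
    rw [Finset.sum_congr rfl h4, ← Finset.sum_div, sum_pow_sg d t _ hd1, ← div_pow]
    congr 1
    rw [hp]
    field_simp
    ring
  have h4 : (1 + p * u) ^ t ≤ Real.exp (p * u * t) := by
    have h5 : 1 + p * u ≤ Real.exp (p * u) := by
      have := Real.add_one_le_exp (p * u)
      linarith
    have h6 : 0 ≤ 1 + p * u := by positivity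
    calc (1 + p * u) ^ t ≤ (Real.exp (p * u)) ^ t := pow_le_pow_left₀ h6 h5 t
      _ = Real.exp (p * u * t) := by rw [← Real.exp_nat_mul]; ring_nf
  refine (h1.trans h2).trans ?_
  rw [← Finset.sum_mul, h3]
  calc (1 + p * u) ^ t * Real.exp (-(L * (p * t + δ * N)))
      ≤ Real.exp (p * u * t) * Real.exp (-(L * (p * t + δ * N))) :=
        mul_le_mul_of_nonneg_right h4 (Real.exp_pos _).le
    _ = Real.exp (p * u * t - L * (p * t + δ * N)) := by rw [← Real.exp_add]; ring_nf
    _ ≤ Real.exp ((N : ℝ) * -(u * δ / 2)) := by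
        apply Real.exp_le_exp.mpr
        have hN0 : (0 : ℝ) ≤ N := Nat.cast_nonneg N
        have h5 : u * (1 - u / 2) * (p * t + δ * N) ≤ L * (p * t + δ * N) :=
          mul_le_mul_of_nonneg_right hL1 (by positivity)
        have h6 : p * t ≤ N := by
          calc p * t ≤ 1 * t := mul_le_mul_of_nonneg_right hp1 ht0
            _ ≤ N := by linarith
        have h7 : u * u / 2 * (p * t) ≤ u * u / 2 * N :=
          mul_le_mul_of_nonneg_left h6 (by positivity)
        have h8 : u * u / 2 * N ≤ u * (δ / 2) / 2 * N := by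
          apply mul_le_mul_of_nonneg_right _ hN0
          have := mul_le_mul_of_nonneg_left hu2 hu0.le
          linarith
        have h9 : (3 / 4) * (u * δ * N) ≤ (1 - u / 2) * (u * δ * N) :=
          mul_le_mul_of_nonneg_right (by linarith) (by positivity)
        nlinarith
    _ = (Real.exp (-(u * δ / 2))) ^ N := by rw [Real.exp_nat_mul]

end Pool.Agent.Helper28.BE
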