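import Pool.Agent.Helper28.BE.Split
import Pool.Agent.Helper28.BE.ChunkGain
import Pool.Agent.Helper28.BE.UpperTail
import Pool.Agent.Helper28.BE.Tails

/-!
Choice of the chunk length, and the bound of the sum over the good points.
-/

set_option autoImplicit false

namespace Pool.Agent.Helper28.BE

open Pool.Agent.Helper68.Moeller Pool.Agent.Helper52.Tao

/-- The chunk length. -/
theorem exists_chunk {d : ℕ} (hd : 2 ≤ d) {x e₀ κ : ℝ} (hx : 0 < x) (he : 0 < e₀) (hκ : 0 < κ) :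
    ∃ (b : ℕ) (τ : ℝ), 2 ≤ b ∧ Real.log 2 / b ≤ e₀ ∧ 0 < τ ∧ τ ≤ 1 ∧ 2 * τ ^ κ ≤ 1 / 2 ∧
      ∑ u ∈ (W d b).filter (fun u => ¬ Proper b (sg u)), wt d x u ≤ τ := by
  obtain ⟨q, hq0, hq1, hq⟩ := improper_weight hd hx
  have h1 : Filter.Tendsto (fun b : ℕ => 2 * q ^ b) Filter.atTop (nhds 0) := by
    have := (tendsto_pow_atTop_nhds_zero_of_lt_one hq0.le hq1).const_mul 2
    simpa using this
  have h2 : Filter.Tendsto (fun b : ℕ => (2 * q ^ b) ^ κ) Filter.atTop (nhds 0) := by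
    have := h1.rpow_const (p := κ) (Or.inr hκ.le)
    rwa [Real.zero_rpow hκ.ne'] at this
  have h3 : Filter.Tendsto (fun b : ℕ => Real.log 2 / (b : ℝ)) Filter.atTop (nhds 0) :=
    tendsto_const_div_atTop_nhds_zero_nat _
  have h4 := (h1.eventually (ge_mem_nhds (by norm_num : (0 : ℝ) < 1))).and
    ((h2.eventually (ge_mem_nhds (by norm_num : (0 : ℝ) < 1 / 4))).and
      ((h3.eventually (ge_mem_nhds he)).and (Filter.eventually_ge_atTop 2)))
  obtain ⟨b, e1, e2, e3, e4⟩ := h4.exists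
  refine ⟨b, 2 * q ^ b, e4, e3, by positivity, e1, ?_, hq b (by omega)⟩
  linarith

end Pool.Agent.Helper28.BE
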