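import Pool.Agent.Helper28.BE.Good
import Pool.Agent.Helper28.BE.Terms

/-!
Splitting the weighted sum over the points of an interval.
-/

set_option autoImplicit false

namespace Pool.Agent.Helper28.BE

open Pool.Agent.Helper68.Moeller Pool.Agent.Helper52.Tao

variable {d m : ℕ} {r : ℤ → ℤ}

open Classical in
theorem sum_le_words (hd : 2 ≤ d) (hco : Nat.Coprime m d) (hr : Admissible d m r) {x : ℝ}
    (hx : 0 ≤ x) (N : ℕ) (X : ℤ) (S : Finset ℤ) (hS : ∀ y ∈ S, X ≤ y ∧ y < X + (d : ℤ) ^ N)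
    (P : List ℕ → Prop) :
    ∑ y ∈ S with P (wd d m r N y), wt d x (wd d m r N y) ≤ ∑ v ∈ W d N with P v, wt d x v := by
  have hinj : ∀ y ∈ S.filter (fun y => P (wd d m r N y)), ∀ y' ∈ S.filter (fun y => P (wd d m r N y)),
      wd d m r N y = wd d m r N y' → y = y' := by
    intro y hy y' hy' h
    obtain ⟨h1, h2⟩ := hS y (Finset.mem_filter.1 hy).1
    obtain ⟨h3, h4⟩ := hS y' (Finset.mem_filter.1 hy').1
    exact eq_of_dvd_of_lt (dvd_of_wd_eq hd hco hr h) h1 h2 h3 h4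
  rw [← Finset.sum_image (f := fun v => wt d x v) hinj]
  refine Finset.sum_le_sum_of_subset_of_nonneg ?_ fun v _ _ => wt_nonneg (by omega) hx v
  intro v hv
  obtain ⟨y, hy, rfl⟩ := Finset.mem_image.1 hv
  exact Finset.mem_filter.2 ⟨wd_mem hd r _ _, (Finset.mem_filter.1 hy).2⟩

open Classical in
theorem sum_drop {x : ℝ} (hd : 1 ≤ d) (hx : 0 ≤ x) (i j : ℕ) (P : List ℕ → Prop) :
    ∑ v ∈ W d (i + j) with P (v.drop i), wt d x v = ∑ v ∈ W d j with P v, wt d x v := by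
  rw [Finset.sum_filter, sum_W_add]
  have h1 : ∀ u ∈ W d i, ∑ v ∈ W d j, (if P ((u ++ v).drop i) then wt d x (u ++ v) else 0) =
      wt d x u * ∑ v ∈ W d j with P v, wt d x v := by
    intro u hu
    have h2 := length_of_mem_W hu
    rw [Finset.sum_filter, Finset.mul_sum]
    refine Finset.sum_congr rfl fun v _ => ?_
    rw [List.drop_append_of_le_length h2.ge, List.drop_of_length_le h2.le, List.nil_append, wt_append]
    split_ifs <;> simp
  rw [Finset.sum_congr rfl h1, ← Finset.sum_mul, sum_wt hd hx, one_mul]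

open Classical in
theorem sum_take {x : ℝ} (hd : 1 ≤ d) (hx : 0 ≤ x) (i j : ℕ) (P : List ℕ → Prop) :
    ∑ v ∈ W d (i + j) with P (v.take i), wt d x v = ∑ v ∈ W d i with P v, wt d x v := by
  rw [Finset.sum_filter, sum_W_add, Finset.sum_filter]
  refine Finset.sum_congr rfl fun u hu => ?_
  have h2 := length_of_mem_W hu
  have h1 : ∀ v ∈ W d j, (if P ((u ++ v).take i) then wt d x (u ++ v) else 0) =
      (if P u then wt d x u else 0) * wt d x v := by
    intro v _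
    rw [List.take_append_of_le_length h2.ge, List.take_of_length_le h2.le, wt_append]
    split_ifs <;> simp
  rw [Finset.sum_congr rfl h1, ← Finset.mul_sum, sum_wt hd hx, mul_one]

open Classical in
/-- The splitting. `R` bounds the squares of the sums over the good points with fixed counts. -/
theorem split_sum (hd : 2 ≤ d) (hco : Nat.Coprime m d) (hr : Admissible d m r) {x : ℝ}
    (hx : 0 ≤ x) {i₁ b n : ℕ} (X : ℤ) (S : Finset ℤ)
    (hS : ∀ y ∈ S, X ≤ y ∧ y < X + (d : ℤ) ^ (i₁ + b * n)) {α β κ R ρ₁ ρ₂ ρ₃ : ℝ}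
    (h1 : ∑ v ∈ W d i₁ with α ≤ (sg v : ℝ), wt d x v ≤ ρ₁)
    (h2 : ∑ v ∈ W d (i₁ + b * n) with β ≤ (sg v : ℝ), wt d x v ≤ ρ₂)
    (h3 : ∑ v ∈ W d (b * n) with κ * n ≤ (nbad b (ty b n v) : ℝ), wt d x v ≤ ρ₃) (hR : 0 ≤ R)
    (hgood : ∀ k₁ k₂ : ℕ, (k₁ : ℝ) < α → ((k₁ + k₂ : ℕ) : ℝ) < β →
      (∑ y ∈ S with (sg (wd d m r i₁ y) = k₁ ∧ sg (wd d m r (b * n) ((T d m r)^[i₁] y)) = k₂ ∧
        (nbad b (ty b n (wd d m r (b * n) ((T d m r)^[i₁] y))) : ℝ) < κ * n),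
          wt d x (wd d m r (i₁ + b * n) y)) ^ 2 ≤ R ^ 2) :
    ∑ y ∈ S, wt d x (wd d m r (i₁ + b * n) y) ≤
      ρ₁ + ρ₂ + ρ₃ + (((i₁ + b * n : ℕ) : ℝ) + 1) ^ 2 * R := by
  set N := i₁ + b * n with hN
  set f : ℤ → ℝ := fun y => wt d x (wd d m r N y) with hf
  have hf0 : ∀ y, 0 ≤ f y := fun y => wt_nonneg (by omega) hx _
  set A : ℤ → ℕ := fun y => sg (wd d m r i₁ y) with hA
  set B : ℤ → ℕ := fun y => sg (wd d m r (b * n) ((T d m r)^[i₁] y)) with hB
  set nb : ℤ → ℕ := fun y => nbad b (ty b n (wd d m r (b * n) ((T d m r)^[i₁] y))) with hnb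
  have hw : ∀ y, wd d m r N y = wd d m r (b * n) ((T d m r)^[i₁] y) ++ wd d m r i₁ y := by
    intro y
    rw [hN, add_comm i₁ (b * n), wd_add]
  have hAB : ∀ y, sg (wd d m r N y) = A y + B y := by
    intro y
    rw [hw, sg_append, add_comm]
  have hlen : ∀ y, (wd d m r (b * n) ((T d m r)^[i₁] y)).length = b * n := fun y =>
    length_of_mem_W (wd_mem hd r _ _)
  have hdrop : ∀ y, (wd d m r N y).drop (b * n) = wd d m r i₁ y := by
    intro y
    rw [hw, List.drop_append_of_le_length (hlen y).ge, List.drop_of_length_le (hlen y).le,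
      List.nil_append]
  have htake : ∀ y, (wd d m r N y).take (b * n) = wd d m r (b * n) ((T d m r)^[i₁] y) := by
    intro y
    rw [hw, List.take_append_of_le_length (hlen y).ge, List.take_of_length_le (hlen y).le]
  have hNc : N = b * n + i₁ := by rw [hN, add_comm]
  -- pointwise splitting
  have hpt : ∀ y ∈ S, f y ≤ (if α ≤ (A y : ℝ) then f y else 0) + (if β ≤ ((A y + B y : ℕ) : ℝ) then f y else 0) +
      (if κ * n ≤ (nb y : ℝ) then f y else 0) +
      ∑ k₁ ∈ Finset.range (N + 1), ∑ k₂ ∈ Finset.range (N + 1),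
        (if (k₁ : ℝ) < α ∧ ((k₁ + k₂ : ℕ) : ℝ) < β then
          (if (A y = k₁ ∧ B y = k₂ ∧ (nb y : ℝ) < κ * n) then f y else 0) else 0) := by
    intro y _
    have hnn : 0 ≤ ∑ k₁ ∈ Finset.range (N + 1), ∑ k₂ ∈ Finset.range (N + 1),
        (if (k₁ : ℝ) < α ∧ ((k₁ + k₂ : ℕ) : ℝ) < β then
          (if (A y = k₁ ∧ B y = k₂ ∧ (nb y : ℝ) < κ * n) then f y else 0) else 0) := by
      refine Finset.sum_nonneg fun k₁ _ => Finset.sum_nonneg fun k₂ _ => ?_
      split_ifs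
      · exact hf0 y
      · exact le_rfl
      · exact le_rfl
    by_cases e1 : α ≤ (A y : ℝ)
    · rw [if_pos e1]
      have : 0 ≤ (if β ≤ ((A y + B y : ℕ) : ℝ) then f y else 0) := by split_ifs; exacts [hf0 y, le_rfl]
      have : 0 ≤ (if κ * n ≤ (nb y : ℝ) then f y else 0) := by split_ifs; exacts [hf0 y, le_rfl]
      linarith
    by_cases e2 : β ≤ ((A y + B y : ℕ) : ℝ)
    · rw [if_pos e2, if_neg e1]
      have : 0 ≤ (if κ * n ≤ (nb y : ℝ) then f y else 0) := by split_ifs; exacts [hf0 y, le_rfl]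
      linarith
    by_cases e3 : κ * n ≤ (nb y : ℝ)
    · rw [if_pos e3, if_neg e1, if_neg e2]
      linarith
    rw [if_neg e1, if_neg e2, if_neg e3, zero_add, zero_add, zero_add]
    push Not at e1 e2 e3
    have hAN : A y ∈ Finset.range (N + 1) := by
      rw [Finset.mem_range]
      have h5 : A y ≤ i₁ := (sg_le_length _).trans (length_of_mem_W (wd_mem hd r _ _)).le
      omega
    have hBN : B y ∈ Finset.range (N + 1) := by
      rw [Finset.mem_range]
      have h5 : B y ≤ b * n := (sg_le_length _).trans (length_of_mem_W (wd_mem hd r _ _)).le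
      omega
    have h4 : f y = (if ((A y : ℕ) : ℝ) < α ∧ ((A y + B y : ℕ) : ℝ) < β then
          (if (A y = A y ∧ B y = B y ∧ (nb y : ℝ) < κ * n) then f y else 0) else 0) := by
      rw [if_pos ⟨e1, e2⟩, if_pos ⟨rfl, rfl, e3⟩]
    have h5 : (if ((A y : ℕ) : ℝ) < α ∧ ((A y + B y : ℕ) : ℝ) < β then
          (if (A y = A y ∧ B y = B y ∧ (nb y : ℝ) < κ * n) then f y else 0) else 0) ≤
        ∑ k₂ ∈ Finset.range (N + 1), (if ((A y : ℕ) : ℝ) < α ∧ ((A y + k₂ : ℕ) : ℝ) < β then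
          (if (A y = A y ∧ B y = k₂ ∧ (nb y : ℝ) < κ * n) then f y else 0) else 0) :=
      Finset.single_le_sum (f := fun k₂ : ℕ => (if ((A y : ℕ) : ℝ) < α ∧ ((A y + k₂ : ℕ) : ℝ) < β then
          (if (A y = A y ∧ B y = k₂ ∧ (nb y : ℝ) < κ * n) then f y else 0) else 0))
        (fun k₂ _ => by
          show 0 ≤ (if ((A y : ℕ) : ℝ) < α ∧ ((A y + k₂ : ℕ) : ℝ) < β then
            (if (A y = A y ∧ B y = k₂ ∧ (nb y : ℝ) < κ * n) then f y else 0) else 0)
          split_ifs; exacts [hf0 y, le_rfl, le_rfl]) hBN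
    have h6 : ∑ k₂ ∈ Finset.range (N + 1), (if ((A y : ℕ) : ℝ) < α ∧ ((A y + k₂ : ℕ) : ℝ) < β then
          (if (A y = A y ∧ B y = k₂ ∧ (nb y : ℝ) < κ * n) then f y else 0) else 0) ≤
        ∑ k₁ ∈ Finset.range (N + 1), ∑ k₂ ∈ Finset.range (N + 1),
        (if (k₁ : ℝ) < α ∧ ((k₁ + k₂ : ℕ) : ℝ) < β then
          (if (A y = k₁ ∧ B y = k₂ ∧ (nb y : ℝ) < κ * n) then f y else 0) else 0) :=
      Finset.single_le_sum (f := fun k₁ : ℕ => ∑ k₂ ∈ Finset.range (N + 1),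
        (if (k₁ : ℝ) < α ∧ ((k₁ + k₂ : ℕ) : ℝ) < β then
          (if (A y = k₁ ∧ B y = k₂ ∧ (nb y : ℝ) < κ * n) then f y else 0) else 0))
        (fun k₁ _ => Finset.sum_nonneg fun k₂ _ => by
          show 0 ≤ (if (k₁ : ℝ) < α ∧ ((k₁ + k₂ : ℕ) : ℝ) < β then
            (if (A y = k₁ ∧ B y = k₂ ∧ (nb y : ℝ) < κ * n) then f y else 0) else 0)
          split_ifs; exacts [hf0 y, le_rfl, le_rfl]) hAN
    exact h4.le.trans (h5.trans h6)
  refine (Finset.sum_le_sum hpt).trans ?_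
  rw [Finset.sum_add_distrib, Finset.sum_add_distrib, Finset.sum_add_distrib]
  have g1 : ∑ y ∈ S, (if α ≤ (A y : ℝ) then f y else 0) ≤ ρ₁ := by
    rw [← Finset.sum_filter]
    have e1 := sum_le_words hd hco hr hx N X S hS (fun v => α ≤ (sg (v.drop (b * n)) : ℝ))
    simp only [hdrop] at e1
    refine e1.trans ?_
    have e2 := sum_drop (x := x) (by omega : 1 ≤ d) hx (b * n) i₁ (fun v => α ≤ (sg v : ℝ))
    rw [← hNc] at e2
    rw [e2]
    exact h1
  have g2 : ∑ y ∈ S, (if β ≤ ((A y + B y : ℕ) : ℝ) then f y else 0) ≤ ρ₂ := by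
    rw [← Finset.sum_filter]
    have e1 := sum_le_words hd hco hr hx N X S hS (fun v => β ≤ (sg v : ℝ))
    simp only [hAB] at e1
    exact e1.trans h2
  have g3 : ∑ y ∈ S, (if κ * n ≤ (nb y : ℝ) then f y else 0) ≤ ρ₃ := by
    rw [← Finset.sum_filter]
    have e1 := sum_le_words hd hco hr hx N X S hS
      (fun v => κ * n ≤ (nbad b (ty b n (v.take (b * n))) : ℝ))
    simp only [htake] at e1
    refine e1.trans ?_
    have e2 := sum_take (x := x) (by omega : 1 ≤ d) hx (b * n) i₁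
      (fun v => κ * n ≤ (nbad b (ty b n v) : ℝ))
    rw [← hNc] at e2
    rw [e2]
    exact h3
  have g4 : ∑ y ∈ S, ∑ k₁ ∈ Finset.range (N + 1), ∑ k₂ ∈ Finset.range (N + 1),
        (if (k₁ : ℝ) < α ∧ ((k₁ + k₂ : ℕ) : ℝ) < β then
          (if (A y = k₁ ∧ B y = k₂ ∧ (nb y : ℝ) < κ * n) then f y else 0) else 0) ≤
      ((N : ℝ) + 1) ^ 2 * R := by
    rw [Finset.sum_comm]
    have e1 : ∀ k₁ ∈ Finset.range (N + 1), ∑ y ∈ S, ∑ k₂ ∈ Finset.range (N + 1),
        (if (k₁ : ℝ) < α ∧ ((k₁ + k₂ : ℕ) : ℝ) < β then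
          (if (A y = k₁ ∧ B y = k₂ ∧ (nb y : ℝ) < κ * n) then f y else 0) else 0) ≤
        ((N : ℝ) + 1) * R := by
      intro k₁ _
      rw [Finset.sum_comm]
      have e2 : ∀ k₂ ∈ Finset.range (N + 1), ∑ y ∈ S,
          (if (k₁ : ℝ) < α ∧ ((k₁ + k₂ : ℕ) : ℝ) < β then
          (if (A y = k₁ ∧ B y = k₂ ∧ (nb y : ℝ) < κ * n) then f y else 0) else 0) ≤ R := by
        intro k₂ _
        by_cases h : (k₁ : ℝ) < α ∧ ((k₁ + k₂ : ℕ) : ℝ) < β
        · simp only [if_pos h]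
          rw [← Finset.sum_filter]
          exact le_of_sq_le_sq (hgood k₁ k₂ h.1 h.2) hR
        · simp only [if_neg h, Finset.sum_const_zero]
          exact hR
      refine (Finset.sum_le_card_nsmul _ _ _ e2).trans (le_of_eq ?_)
      rw [Finset.card_range, nsmul_eq_mul]
      push_cast; ring
    refine (Finset.sum_le_card_nsmul _ _ _ e1).trans (le_of_eq ?_)
    rw [Finset.card_range, nsmul_eq_mul]
    push_cast; ring
  linarith
where
  le_of_sq_le_sq {a b : ℝ} (h : a ^ 2 ≤ b ^ 2) (hb : 0 ≤ b) : a ≤ b :=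
    le_of_abs_le ((sq_le_sq.1 h).trans (abs_of_nonneg hb).le)

end Pool.Agent.Helper28.BE
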