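import Pool.Agent.Helper28.BE.Defs

/-!
# Block BE-TS: no relations with very small coefficients (Thue-Siegel, Padé approximants)
-/

set_option autoImplicit false

namespace Pool.Agent.Helper28.BE

open Finset Polynomial

/-- the coefficients of the remainder -/
def ee (n l j : ℕ) : ℕ := (j + l).choose l * (n - 1 - j).choose l

/-- `(l !) ^ 2 * ee` extended to a polynomial function on the integers -/
def ff (n l : ℕ) (x : ℤ) : ℤ :=
  (∏ u ∈ range l, (x + 1 + u)) * ∏ u ∈ range l, ((n : ℤ) - 1 - x - u)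

theorem ff_eq (n l j : ℕ) (hj : j < n) :
    ff n l j = ((l.factorial : ℤ) ^ 2) * (ee n l j : ℤ) := by
  unfold ff ee
  have h1 : (∏ u ∈ range l, ((j : ℤ) + 1 + u)) = (l.factorial : ℤ) * ((j + l).choose l : ℤ) := by
    have h2 := Nat.ascFactorial_eq_prod_range (j + 1) l
    have h3 := Nat.ascFactorial_eq_factorial_mul_choose j l
    rw [h3] at h2
    have h4 : (((l.factorial * (j + l).choose l : ℕ)) : ℤ) =
        ((∏ i ∈ range l, (j + 1 + i) : ℕ) : ℤ) := by exact_mod_cast h2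
    push_cast at h4
    rw [← h4]
  have h5 : (∏ u ∈ range l, ((n : ℤ) - 1 - j - u)) =
      (l.factorial : ℤ) * ((n - 1 - j).choose l : ℤ) := by
    have h6 : ((n : ℤ) - 1 - j) = ((n - 1 - j : ℕ) : ℤ) := by omega
    rw [h6, ← descPochhammer_eval_eq_prod_range, descPochhammer_eval_eq_descFactorial,
      Nat.descFactorial_eq_factorial_mul_choose]
    push_cast
    ring
  rw [h1, h5]
  push_cast
  ring

theorem ff_neg (n l : ℕ) {x : ℤ} (h1 : x < 0) (h2 : -(l : ℤ) ≤ x) : ff n l x = 0 := by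
  unfold ff
  rw [Finset.prod_eq_zero (i := (-x - 1).toNat), zero_mul]
  · rw [mem_range]; omega
  · have : (((-x - 1).toNat : ℕ) : ℤ) = -x - 1 := by omega
    rw [this]
    ring

theorem diff_zero (n l : ℕ) (a : ℤ) :
    ∑ i ∈ range (2 * l + 1 + 1), (-1 : ℤ) ^ (2 * l + 1 - i) * ((2 * l + 1).choose i : ℤ) *
      ff n l (a - i) = 0 := by
  let Q : ℤ[X] := (∏ u ∈ range l, (C (a + 1 + u) - X)) *
    ∏ u ∈ range l, (X + C ((n : ℤ) - 1 - a - u))
  have hdeg : Q.natDegree < 2 * l + 1 := by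
    have h1 : (∏ u ∈ range l, (C (a + 1 + u) - X : ℤ[X])).natDegree ≤ l := by
      refine (natDegree_prod_le _ _).trans ?_
      have : ∀ u ∈ range l, (C (a + 1 + u) - X : ℤ[X]).natDegree ≤ 1 := by
        intro u _
        refine (natDegree_sub_le _ _).trans ?_
        rw [natDegree_C, natDegree_X]
        simp
      refine (Finset.sum_le_sum this).trans ?_
      simp
    have h2 : (∏ u ∈ range l, (X + C ((n : ℤ) - 1 - a - u) : ℤ[X])).natDegree ≤ l := by
      refine (natDegree_prod_le _ _).trans ?_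
      have : ∀ u ∈ range l, (X + C ((n : ℤ) - 1 - a - u) : ℤ[X]).natDegree ≤ 1 := by
        intro u _
        rw [natDegree_X_add_C]
      refine (Finset.sum_le_sum this).trans ?_
      simp
    have h3 : Q.natDegree ≤ l + l := natDegree_mul_le.trans (add_le_add h1 h2)
    omega
  have h1 := congrFun (Polynomial.fwdDiff_iter_eq_zero_of_degree_lt hdeg) 0
  rw [fwdDiff_iter_eq_sum_shift] at h1
  have h2 : ∀ i : ℕ, Q.eval ((0 : ℤ) + i • (1 : ℤ)) = ff n l (a - i) := by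
    intro i
    unfold ff
    simp only [Q, eval_mul, eval_prod, eval_sub, eval_add, eval_C, eval_X, zero_add, nsmul_eq_mul,
      mul_one]
    congr 1
    · apply prod_congr rfl
      intro u _
      ring
    · apply prod_congr rfl
      intro u _
      ring
  simp only [h2, smul_eq_mul, Pi.zero_apply] at h1
  exact h1

/-- the remainder polynomial -/
noncomputable def EE (n l : ℕ) : ℤ[X] := ∑ j ∈ range (n - l), C (ee n l j : ℤ) * X ^ j

theorem coeff_EE (n l j : ℕ) (hj : j < n) : (EE n l).coeff j = (ee n l j : ℤ) := by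
  unfold EE
  rw [finsetSum_coeff]
  simp only [coeff_C_mul, coeff_X_pow]
  by_cases h : j < n - l
  · rw [Finset.sum_eq_single j]
    · simp
    · intro i _ hij
      rw [if_neg (Ne.symm hij), mul_zero]
    · intro h'
      exact absurd (mem_range.2 h) h'
  · have h1 : ee n l j = 0 := by
      unfold ee
      rw [Nat.choose_eq_zero_of_lt (show n - 1 - j < l by omega), mul_zero]
    rw [h1, Finset.sum_eq_zero]
    · simp
    · intro i hi
      rw [mem_range] at hi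
      rw [if_neg (by omega), mul_zero]

theorem natDegree_EE (n l : ℕ) (h : l < n) : (EE n l).natDegree ≤ n - l - 1 := by
  unfold EE
  refine (natDegree_sum_le_of_forall_le _ _ ?_)
  intro j hj
  rw [mem_range] at hj
  refine (natDegree_C_mul_X_pow_le _ _).trans ?_
  omega

/-- the product -/
noncomputable def PP (n l : ℕ) : ℤ[X] := (X + C (-1)) ^ (2 * l + 1) * EE n l

theorem natDegree_PP (n l : ℕ) (h : l < n) : (PP n l).natDegree < n + l + 1 := by
  unfold PP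
  have h1 : ((X + C (-1) : ℤ[X]) ^ (2 * l + 1)).natDegree ≤ 2 * l + 1 := by
    refine natDegree_pow_le.trans ?_
    rw [natDegree_X_add_C, mul_one]
  have h2 := natDegree_EE n l h
  have h3 : ((X + C (-1) : ℤ[X]) ^ (2 * l + 1) * EE n l).natDegree ≤ _ := natDegree_mul_le
  omega

theorem coeff_PP (n l a : ℕ) : (PP n l).coeff a = ∑ i ∈ range (a + 1),
    ((-1 : ℤ) ^ (2 * l + 1 - i) * ((2 * l + 1).choose i : ℤ)) * (EE n l).coeff (a - i) := by
  unfold PP
  rw [coeff_mul, Finset.Nat.sum_antidiagonal_eq_sum_range_succ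
    (fun i j => ((X + C (-1) : ℤ[X]) ^ (2 * l + 1)).coeff i * (EE n l).coeff j)]
  apply sum_congr rfl
  intro i _
  rw [coeff_X_add_C_pow]

theorem coeff_PP_mid (n l a : ℕ) (h1 : l < a) (h2 : a < n) : (PP n l).coeff a = 0 := by
  have hfac : ((l.factorial : ℤ) ^ 2) ≠ 0 := by positivity
  have hmain : ((l.factorial : ℤ) ^ 2) * (PP n l).coeff a = 0 := by
    rw [coeff_PP, mul_sum]
    have e1 : ∀ i ∈ range (a + 1), (l.factorial : ℤ) ^ 2 *
        (((-1 : ℤ) ^ (2 * l + 1 - i) * ((2 * l + 1).choose i : ℤ)) * (EE n l).coeff (a - i)) =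
        (-1 : ℤ) ^ (2 * l + 1 - i) * ((2 * l + 1).choose i : ℤ) * ff n l ((a : ℤ) - i) := by
      intro i hi
      rw [mem_range] at hi
      rw [coeff_EE n l (a - i) (by omega)]
      have e2 : ((a : ℤ) - i) = ((a - i : ℕ) : ℤ) := by omega
      rw [e2, ff_eq n l (a - i) (by omega)]
      ring
    rw [sum_congr rfl e1]
    have e3 : ∑ i ∈ range (a + 1), (-1 : ℤ) ^ (2 * l + 1 - i) * ((2 * l + 1).choose i : ℤ) *
        ff n l ((a : ℤ) - i) = ∑ i ∈ range (a + 1 + (2 * l + 1 + 1)),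
        (-1 : ℤ) ^ (2 * l + 1 - i) * ((2 * l + 1).choose i : ℤ) * ff n l ((a : ℤ) - i) := by
      apply sum_subset
      · intro i hi
        rw [mem_range] at hi ⊢
        omega
      · intro i _ hi
        rw [mem_range] at hi
        rcases Nat.lt_or_ge (2 * l + 1) i with h | h
        · rw [Nat.choose_eq_zero_of_lt h]
          simp
        · rw [ff_neg n l (by omega) (by omega), mul_zero]
    have e4 : ∑ i ∈ range (2 * l + 1 + 1), (-1 : ℤ) ^ (2 * l + 1 - i) *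
        ((2 * l + 1).choose i : ℤ) * ff n l ((a : ℤ) - i) =
        ∑ i ∈ range (a + 1 + (2 * l + 1 + 1)),
        (-1 : ℤ) ^ (2 * l + 1 - i) * ((2 * l + 1).choose i : ℤ) * ff n l ((a : ℤ) - i) := by
      apply sum_subset
      · intro i hi
        rw [mem_range] at hi ⊢
        omega
      · intro i _ hi
        rw [mem_range] at hi
        rw [Nat.choose_eq_zero_of_lt (show 2 * l + 1 < i by omega)]
        simp
    rw [e3, ← e4]
    exact diff_zero n l a
  rcases mul_eq_zero.1 hmain with h | h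
  · exact absurd h hfac
  · exact h

theorem ee_le (n l j : ℕ) (hj : j < n) : ee n l j ≤ 2 ^ (n + l) := by
  unfold ee
  calc (j + l).choose l * (n - 1 - j).choose l ≤ 2 ^ (j + l) * 2 ^ (n - 1 - j) :=
        Nat.mul_le_mul (Nat.choose_le_two_pow _ _) (Nat.choose_le_two_pow _ _)
    _ = 2 ^ (j + l + (n - 1 - j)) := (pow_add _ _ _).symm
    _ ≤ 2 ^ (n + l) := Nat.pow_le_pow_right (by norm_num) (by omega)

theorem abs_coeff_EE (n l j : ℕ) : |(EE n l).coeff j| ≤ 2 ^ (n + l) := by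
  by_cases hj : j < n
  · rw [coeff_EE n l j hj, Nat.abs_cast]
    exact_mod_cast ee_le n l j hj
  · have : (EE n l).coeff j = 0 := by
      unfold EE
      rw [finsetSum_coeff]
      apply Finset.sum_eq_zero
      intro i hi
      rw [mem_range] at hi
      rw [coeff_C_mul, coeff_X_pow, if_neg (by omega), mul_zero]
    rw [this, abs_zero]
    positivity

theorem abs_coeff_PP (n l a : ℕ) (ha : a ≤ n + l) : |(PP n l).coeff a| ≤ 2 ^ (2 * n + 4 * l + 1 + 1) := by
  rw [coeff_PP]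
  calc |∑ i ∈ range (a + 1), ((-1 : ℤ) ^ (2 * l + 1 - i) * ((2 * l + 1).choose i : ℤ)) *
        (EE n l).coeff (a - i)|
      ≤ ∑ i ∈ range (a + 1), |((-1 : ℤ) ^ (2 * l + 1 - i) * ((2 * l + 1).choose i : ℤ)) *
        (EE n l).coeff (a - i)| := Finset.abs_sum_le_sum_abs _ _
    _ ≤ ∑ i ∈ range (a + 1), (2 : ℤ) ^ (2 * l + 1) * 2 ^ (n + l) := by
        apply Finset.sum_le_sum
        intro i _
        rw [abs_mul, abs_mul, abs_pow, abs_neg, abs_one, one_pow, one_mul, Nat.abs_cast]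
        apply mul_le_mul
        · exact_mod_cast Nat.choose_le_two_pow _ _
        · exact abs_coeff_EE n l _
        · exact abs_nonneg _
        · positivity
    _ = ((a + 1 : ℕ) : ℤ) * (2 ^ (2 * l + 1) * 2 ^ (n + l)) := by
        rw [Finset.sum_const, card_range, nsmul_eq_mul]
    _ ≤ 2 ^ (n + l + 1) * (2 ^ (2 * l + 1) * 2 ^ (n + l)) := by
        apply mul_le_mul_of_nonneg_right _ (by positivity)
        have h1 : a + 1 ≤ n + l + 1 := by omega
        have h2 : n + l + 1 ≤ 2 ^ (n + l + 1) := (Nat.lt_two_pow_self).le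
        exact_mod_cast h1.trans h2
    _ = 2 ^ (2 * n + 4 * l + 1 + 1) := by
        rw [← pow_add, ← pow_add]
        congr 1
        ring

/-- the Padé identity -/
theorem pade (n l : ℕ) (hln : l < n) (x y : ℤ) (hy : y ≠ 0) : ∃ A B : ℤ,
    (x - y) ^ (2 * l + 1) * (∑ j ∈ range (n - l), (ee n l j : ℤ) * x ^ j * y ^ (n - l - 1 - j)) =
      x ^ n * B - y ^ n * A ∧
    ∀ M : ℤ, |x| ≤ M → |y| ≤ M → |A| ≤ 2 ^ (2 * n + 5 * l + 2) * M ^ l ∧
      |B| ≤ 2 ^ (2 * n + 5 * l + 2) * M ^ l := by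
  refine ⟨-∑ a ∈ range (l + 1), (PP n l).coeff a * x ^ a * y ^ (l - a),
    ∑ a ∈ range (l + 1), (PP n l).coeff (n + a) * x ^ a * y ^ (l - a), ?_, ?_⟩
  · have hyq : (y : ℚ) ≠ 0 := by exact_mod_cast hy
    let φ := Int.castRingHom ℚ
    -- evaluation at x / y
    have h1 : ((PP n l).map φ).eval ((x : ℚ) / y) = ((x : ℚ) / y - 1) ^ (2 * l + 1) *
        ∑ j ∈ range (n - l), (ee n l j : ℚ) * ((x : ℚ) / y) ^ j := by
      unfold PP EE
      simp only [Polynomial.map_mul, Polynomial.map_pow, Polynomial.map_add, map_X, map_C,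
        Polynomial.map_sum, eval_mul, eval_pow, eval_add, eval_X, eval_C, eval_finsetSum]
      simp [φ, sub_eq_add_neg]
    have h2 : ((PP n l).map φ).eval ((x : ℚ) / y) =
        ∑ a ∈ range (n + l + 1), ((PP n l).coeff a : ℚ) * ((x : ℚ) / y) ^ a := by
      rw [eval_eq_sum_range' (lt_of_le_of_lt natDegree_map_le (natDegree_PP n l hln))]
      simp [φ]
    have h3 : ∑ a ∈ range (n + l + 1), ((PP n l).coeff a : ℚ) * ((x : ℚ) / y) ^ a =
        (∑ a ∈ range (l + 1), ((PP n l).coeff a : ℚ) * ((x : ℚ) / y) ^ a) +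
        ∑ a ∈ range (l + 1), ((PP n l).coeff (n + a) : ℚ) * ((x : ℚ) / y) ^ (n + a) := by
      rw [show n + l + 1 = n + (l + 1) by ring, sum_range_add]
      congr 1
      have h4 : n = (l + 1) + (n - (l + 1)) := by omega
      conv_lhs => rw [h4, sum_range_add]
      rw [← h4]
      rw [add_eq_left]
      apply Finset.sum_eq_zero
      intro i hi
      rw [mem_range] at hi
      rw [coeff_PP_mid n l (l + 1 + i) (by omega) (by omega)]
      simp
    have h5 : ∀ a, a ≤ l → (y : ℚ) ^ (n + l) * (((PP n l).coeff a : ℚ) * ((x : ℚ) / y) ^ a) =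
        y ^ n * (((PP n l).coeff a : ℚ) * x ^ a * y ^ (l - a)) := by
      intro a ha
      obtain ⟨c, rfl⟩ := Nat.exists_eq_add_of_le ha
      rw [div_pow, Nat.add_sub_cancel_left, pow_add, pow_add]
      field_simp
    have h6 : ∀ a, a ≤ l → (y : ℚ) ^ (n + l) *
        (((PP n l).coeff (n + a) : ℚ) * ((x : ℚ) / y) ^ (n + a)) =
        x ^ n * (((PP n l).coeff (n + a) : ℚ) * x ^ a * y ^ (l - a)) := by
      intro a ha
      obtain ⟨c, rfl⟩ := Nat.exists_eq_add_of_le ha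
      rw [div_pow, Nat.add_sub_cancel_left, pow_add, pow_add, pow_add, pow_add]
      field_simp
    have h7 : ∀ j, j < n - l → (y : ℚ) ^ (n - l - 1) * ((ee n l j : ℚ) * ((x : ℚ) / y) ^ j) =
        (ee n l j : ℚ) * x ^ j * y ^ (n - l - 1 - j) := by
      intro j hj
      obtain ⟨c, hc⟩ := Nat.exists_eq_add_of_le (show j ≤ n - l - 1 by omega)
      rw [hc, Nat.add_sub_cancel_left, div_pow, pow_add]
      field_simp
    have h8 : ((((x - y) ^ (2 * l + 1) * (∑ j ∈ range (n - l),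
        (ee n l j : ℤ) * x ^ j * y ^ (n - l - 1 - j)) : ℤ)) : ℚ) =
        (y : ℚ) ^ (n + l) * ((PP n l).map φ).eval ((x : ℚ) / y) := by
      rw [h1]
      push_cast
      rw [← sum_congr rfl (fun j hj => h7 j (mem_range.1 hj)), ← mul_sum]
      have h9 : (x : ℚ) / y - 1 = (x - y) / y := by field_simp
      rw [h9, div_pow]
      have h10 : n + l = (2 * l + 1) + (n - l - 1) := by omega
      rw [h10, pow_add (y : ℚ) (2 * l + 1) (n - l - 1)]
      field_simp
    have h11 : (((x ^ n * (∑ a ∈ range (l + 1), (PP n l).coeff (n + a) * x ^ a * y ^ (l - a)) -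
        y ^ n * (-∑ a ∈ range (l + 1), (PP n l).coeff a * x ^ a * y ^ (l - a)) : ℤ)) : ℚ) =
        (y : ℚ) ^ (n + l) * ((PP n l).map φ).eval ((x : ℚ) / y) := by
      have h5' : (y : ℚ) ^ (n + l) * ∑ a ∈ range (l + 1),
          (((PP n l).coeff a : ℚ) * ((x : ℚ) / y) ^ a) =
          y ^ n * ∑ a ∈ range (l + 1), ((PP n l).coeff a : ℚ) * x ^ a * y ^ (l - a) := by
        rw [mul_sum, mul_sum]
        exact sum_congr rfl (fun a ha => h5 a (by rw [mem_range] at ha; omega))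
      have h6' : (y : ℚ) ^ (n + l) * ∑ a ∈ range (l + 1),
          (((PP n l).coeff (n + a) : ℚ) * ((x : ℚ) / y) ^ (n + a)) =
          x ^ n * ∑ a ∈ range (l + 1), ((PP n l).coeff (n + a) : ℚ) * x ^ a * y ^ (l - a) := by
        rw [mul_sum, mul_sum]
        exact sum_congr rfl (fun a ha => h6 a (by rw [mem_range] at ha; omega))
      rw [h2, h3, mul_add, h5', h6']
      push_cast
      ring
    have h12 := h8.trans h11.symm
    exact_mod_cast h12
  · intro M hx hy'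
    have hM : 0 ≤ M := (abs_nonneg x).trans hx
    have key : ∀ g : ℕ → ℤ, (∀ a, a ≤ l → |g a| ≤ 2 ^ (2 * n + 4 * l + 1 + 1)) →
        |∑ a ∈ range (l + 1), g a * x ^ a * y ^ (l - a)| ≤ 2 ^ (2 * n + 5 * l + 2) * M ^ l := by
      intro g hg
      calc |∑ a ∈ range (l + 1), g a * x ^ a * y ^ (l - a)|
          ≤ ∑ a ∈ range (l + 1), |g a * x ^ a * y ^ (l - a)| := Finset.abs_sum_le_sum_abs _ _
        _ ≤ ∑ a ∈ range (l + 1), 2 ^ (2 * n + 4 * l + 1 + 1) * M ^ l := by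
            apply Finset.sum_le_sum
            intro a ha
            have ha' : a ≤ l := Nat.lt_succ_iff.1 (mem_range.1 ha)
            rw [abs_mul, abs_mul, abs_pow, abs_pow, mul_assoc]
            have e1 : |x| ^ a * |y| ^ (l - a) ≤ M ^ a * M ^ (l - a) := by
              apply mul_le_mul (pow_le_pow_left₀ (abs_nonneg _) hx _)
                (pow_le_pow_left₀ (abs_nonneg _) hy' _) (by positivity) (by positivity)
            rw [← pow_add, Nat.add_sub_cancel' ha'] at e1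
            exact mul_le_mul (hg a ha') e1 (by positivity) (by positivity)
        _ = ((l + 1 : ℕ) : ℤ) * (2 ^ (2 * n + 4 * l + 1 + 1) * M ^ l) := by
            rw [Finset.sum_const, card_range, nsmul_eq_mul]
        _ ≤ 2 ^ l * (2 ^ (2 * n + 4 * l + 1 + 1) * M ^ l) := by
            apply mul_le_mul_of_nonneg_right _ (by positivity)
            have h2 : l + 1 ≤ 2 ^ l := Nat.lt_two_pow_self
            exact_mod_cast h2
        _ = 2 ^ (2 * n + 5 * l + 2) * M ^ l := by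
            rw [← mul_assoc, ← pow_add]
            congr 2
            ring
    constructor
    · rw [abs_neg]
      exact key _ (fun a ha => abs_coeff_PP n l a (by omega))
    · exact key (fun a => (PP n l).coeff (n + a)) (fun a ha => abs_coeff_PP n l (n + a) (by omega))

theorem E_bounds (n l : ℕ) (hln : l < n) (x y : ℤ) (hx : 0 < x) (hy : 0 < y) (hxy : x ≤ 2 * y) :
    y ^ (n - l - 1) ≤ ∑ j ∈ range (n - l), (ee n l j : ℤ) * x ^ j * y ^ (n - l - 1 - j) ∧
    ∑ j ∈ range (n - l), (ee n l j : ℤ) * x ^ j * y ^ (n - l - 1 - j) ≤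
      2 ^ (3 * n + l) * y ^ (n - l - 1) := by
  constructor
  · have h0 : 0 ∈ range (n - l) := by rw [mem_range]; omega
    refine le_trans ?_ (Finset.single_le_sum (f := fun j =>
      (ee n l j : ℤ) * x ^ j * y ^ (n - l - 1 - j)) (fun j _ => by positivity) h0)
    simp only [pow_zero, mul_one, Nat.sub_zero]
    have h1 : 1 ≤ ee n l 0 := by
      unfold ee
      rw [Nat.zero_add, Nat.choose_self, one_mul, Nat.sub_zero]
      exact Nat.choose_pos (by omega)
    have h2 : (1 : ℤ) ≤ (ee n l 0 : ℤ) := by exact_mod_cast h1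
    exact le_mul_of_one_le_left (by positivity) h2
  · calc ∑ j ∈ range (n - l), (ee n l j : ℤ) * x ^ j * y ^ (n - l - 1 - j)
        ≤ ∑ j ∈ range (n - l), 2 ^ (n + l) * 2 ^ n * y ^ (n - l - 1) := by
          apply Finset.sum_le_sum
          intro j hj
          rw [mem_range] at hj
          have e1 : (ee n l j : ℤ) ≤ 2 ^ (n + l) := by exact_mod_cast ee_le n l j (by omega)
          have e2 : x ^ j ≤ 2 ^ n * y ^ j := by
            calc x ^ j ≤ (2 * y) ^ j := pow_le_pow_left₀ hx.le hxy j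
              _ = 2 ^ j * y ^ j := mul_pow _ _ _
              _ ≤ 2 ^ n * y ^ j := by
                apply mul_le_mul_of_nonneg_right _ (by positivity)
                exact pow_le_pow_right₀ (by norm_num) (by omega)
          have e3 : y ^ j * y ^ (n - l - 1 - j) = y ^ (n - l - 1) := by
            rw [← pow_add]; congr 1; omega
          calc (ee n l j : ℤ) * x ^ j * y ^ (n - l - 1 - j)
              ≤ 2 ^ (n + l) * (2 ^ n * y ^ j) * y ^ (n - l - 1 - j) := by gcongr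
            _ = 2 ^ (n + l) * 2 ^ n * (y ^ j * y ^ (n - l - 1 - j)) := by ring
            _ = 2 ^ (n + l) * 2 ^ n * y ^ (n - l - 1) := by rw [e3]
      _ = ((n - l : ℕ) : ℤ) * (2 ^ (n + l) * 2 ^ n * y ^ (n - l - 1)) := by
          rw [Finset.sum_const, card_range, nsmul_eq_mul]
      _ ≤ 2 ^ n * (2 ^ (n + l) * 2 ^ n * y ^ (n - l - 1)) := by
          apply mul_le_mul_of_nonneg_right _ (by positivity)
          have h1 : n - l ≤ 2 ^ n := (Nat.sub_le n l).trans (Nat.lt_two_pow_self).le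
          exact_mod_cast h1
      _ = 2 ^ (3 * n + l) * y ^ (n - l - 1) := by
          rw [show 3 * n + l = n + (n + l) + n by ring, pow_add 2 (n + (n + l)) n, pow_add 2 n (n + l)]
          ring

theorem root100 {x q : ℝ} {e : ℕ} (hx : 0 ≤ x) (hq : 0 ≤ q) (h : x ^ 100 ≤ q ^ (100 * e)) :
    x ≤ q ^ e := by
  have h1 : x ^ 100 ≤ (q ^ e) ^ 100 := by
    rw [← pow_mul, mul_comm e 100]
    exact h
  exact (pow_le_pow_iff_left₀ hx (by positivity) (by norm_num)).1 h1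

theorem exists_q {d N : ℕ} (hd : 2 ≤ d) (hN : 1000 ≤ N) :
    ∃ q : ℝ, 2 ≤ q ∧ q ^ 1000 = (d : ℝ) ^ N := by
  have hd' : (2 : ℝ) ≤ d := by exact_mod_cast hd
  have hd0 : (0 : ℝ) ≤ d := by linarith
  refine ⟨(d : ℝ) ^ ((N : ℝ) / 1000), ?_, ?_⟩
  · have h1 : (1 : ℝ) ≤ (N : ℝ) / 1000 := by
      rw [le_div_iff₀ (by norm_num), one_mul]
      exact_mod_cast hN
    calc (2 : ℝ) ≤ d := hd'
      _ = (d : ℝ) ^ (1 : ℝ) := (Real.rpow_one _).symm
      _ ≤ (d : ℝ) ^ ((N : ℝ) / 1000) := Real.rpow_le_rpow_of_exponent_le (by linarith) h1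
  · rw [← Real.rpow_natCast, ← Real.rpow_mul hd0, ← Real.rpow_natCast]
    congr 1
    push_cast
    field_simp

/-- the two relations contradict each other -/
theorem contra {d m : ℕ} (hd : 2 ≤ d) (hm : 1 ≤ m) {N1 N2 k1 k2 : ℕ} {s1 t1 z1 s2 t2 z2 : ℤ}
    (hs1 : 0 < s1) (ht1 : 0 < t1) (hz1 : z1 ≠ 0) (hs2 : 0 < s2) (ht2 : 0 < t2)
    (bs1 : s1 ^ 100 ≤ (d : ℤ) ^ N1) (bt1 : t1 ^ 100 ≤ (d : ℤ) ^ N1)
    (bz1 : |z1| ^ 100 ≤ (d : ℤ) ^ N1)
    (bs2 : s2 ^ 100 ≤ (d : ℤ) ^ N2) (bt2 : t2 ^ 100 ≤ (d : ℤ) ^ N2)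
    (bz2 : |z2| ^ 100 ≤ (d : ℤ) ^ N2)
    (e1 : t1 * (m : ℤ) ^ k1 = s1 * (d : ℤ) ^ N1 + z1)
    (e2 : t2 * (m : ℤ) ^ k2 = s2 * (d : ℤ) ^ N2 + z2) (hN1 : 1000 ≤ N1) (hN2 : 4 * N1 ≤ N2) :
    False := by
  obtain ⟨q, hq2, hq⟩ := exists_q hd hN1
  have hq0 : (0 : ℝ) < q := by linarith
  have hq1 : (1 : ℝ) < q := by linarith
  have hq1' : (1 : ℝ) ≤ q := hq1.le
  obtain ⟨n, hn⟩ : ∃ n, n = N2 / N1 := ⟨_, rfl⟩
  obtain ⟨rr, hrr⟩ : ∃ r, r = N2 % N1 := ⟨_, rfl⟩
  have hN2eq : N2 = n * N1 + rr := by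
    rw [hn, hrr, mul_comm]; exact (Nat.div_add_mod N2 N1).symm
  have hrrlt : rr < N1 := by rw [hrr]; exact Nat.mod_lt _ (by omega)
  have hn4 : 4 ≤ n := by
    rw [hn]; exact (Nat.le_div_iff_mul_le (by omega)).2 hN2
  clear hn hrr
  obtain ⟨l, hl⟩ : ∃ l, l = n / 3 := ⟨_, rfl⟩
  have hl1 : 1 ≤ l := by omega
  have hl3 : 3 * l ≤ n := by omega
  have hl4 : n ≤ 3 * l + 2 := by omega
  clear hl
  have hln : l < n := by omega
  have hd' : (1 : ℝ) ≤ d := by exact_mod_cast (by omega : 1 ≤ d)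
  -- sizes
  have hDN2lo : q ^ (1000 * n) ≤ (d : ℝ) ^ N2 := by
    rw [pow_mul, hq, ← pow_mul]
    exact pow_le_pow_right₀ hd' (by rw [hN2eq, mul_comm]; omega)
  have hDN2hi : (d : ℝ) ^ N2 ≤ q ^ (1000 * (n + 1)) := by
    rw [pow_mul, hq, ← pow_mul]
    apply pow_le_pow_right₀ hd'
    rw [hN2eq]
    nlinarith
  have hDrr : (d : ℝ) ^ rr ≤ q ^ 1000 := by
    rw [hq]
    exact pow_le_pow_right₀ hd' hrrlt.le
  have c1 : ∀ u : ℤ, 0 ≤ u → u ^ 100 ≤ (d : ℤ) ^ N1 → (u : ℝ) ≤ q ^ 10 := by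
    intro u hu h
    apply root100 (by exact_mod_cast hu) hq0.le
    have h1 : (u : ℝ) ^ 100 ≤ (d : ℝ) ^ N1 := by exact_mod_cast h
    rw [← hq] at h1
    exact h1
  have c2 : ∀ u : ℤ, 0 ≤ u → u ^ 100 ≤ (d : ℤ) ^ N2 → (u : ℝ) ≤ q ^ (10 * (n + 1)) := by
    intro u hu h
    apply root100 (by exact_mod_cast hu) hq0.le
    have h1 : (u : ℝ) ^ 100 ≤ (d : ℝ) ^ N2 := by exact_mod_cast h
    refine (h1.trans hDN2hi).trans (le_of_eq ?_)
    congr 1
    ring
  have fs1 := c1 s1 hs1.le bs1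
  have ft1 := c1 t1 ht1.le bt1
  have fz1 := c1 |z1| (abs_nonneg _) bz1
  have fs2 := c2 s2 hs2.le bs2
  have ft2 := c2 t2 ht2.le bt2
  have fz2 := c2 |z2| (abs_nonneg _) bz2
  have s1ge : (1 : ℝ) ≤ s1 := by exact_mod_cast hs1
  have s2ge : (1 : ℝ) ≤ s2 := by exact_mod_cast hs2
  -- X, Y
  obtain ⟨Y, hY⟩ : ∃ Y : ℤ, Y = s1 * (d : ℤ) ^ N1 := ⟨_, rfl⟩
  obtain ⟨X, hX⟩ : ∃ X : ℤ, X = t1 * (m : ℤ) ^ k1 := ⟨_, rfl⟩
  obtain ⟨Y2, hY2⟩ : ∃ Y2 : ℤ, Y2 = s2 * (d : ℤ) ^ N2 := ⟨_, rfl⟩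
  obtain ⟨X2, hX2⟩ : ∃ X2 : ℤ, X2 = t2 * (m : ℤ) ^ k2 := ⟨_, rfl⟩
  have hXY : X = Y + z1 := by rw [hX, hY, e1]
  have hXY2 : X2 = Y2 + z2 := by rw [hX2, hY2, e2]
  have ylo : q ^ 1000 ≤ (Y : ℝ) := by
    rw [hY, hq]; push_cast
    exact le_mul_of_one_le_left (by positivity) s1ge
  have yhi : (Y : ℝ) ≤ q ^ 1010 := by
    rw [hY]; push_cast
    rw [← hq, show (1010 : ℕ) = 10 + 1000 by norm_num, pow_add]
    exact mul_le_mul_of_nonneg_right fs1 (by positivity)
  have y2lo : q ^ (1000 * n) ≤ (Y2 : ℝ) := by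
    rw [hY2]; push_cast
    exact hDN2lo.trans (le_mul_of_one_le_left (by positivity) s2ge)
  have hlt : ∀ {i j : ℕ}, i < j → q ^ i < q ^ j := fun h => pow_lt_pow_right₀ hq1 h
  have hle : ∀ {i j : ℕ}, i ≤ j → q ^ i ≤ q ^ j := fun h => pow_le_pow_right₀ hq1' h
  have hY0 : (0 : ℝ) < Y := lt_of_lt_of_le (by positivity) ylo
  have hY20 : (0 : ℝ) < Y2 := lt_of_lt_of_le (by positivity) y2lo
  have hYpos : 0 < Y := by exact_mod_cast hY0
  have hY2pos : 0 < Y2 := by exact_mod_cast hY20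
  have z1small : 2 * (|z1| : ℝ) ≤ Y := by
    calc 2 * (|z1| : ℝ) ≤ q * q ^ 10 := by
          apply mul_le_mul hq2 _ (by positivity) hq0.le
          exact_mod_cast fz1
      _ = q ^ 11 := by ring
      _ ≤ q ^ 1000 := hle (by norm_num)
      _ ≤ Y := ylo
  have z2small : 2 * (|z2| : ℝ) ≤ Y2 := by
    calc 2 * (|z2| : ℝ) ≤ q * q ^ (10 * (n + 1)) := by
          apply mul_le_mul hq2 _ (by positivity) hq0.le
          exact_mod_cast fz2
      _ = q ^ (10 * (n + 1) + 1) := by ring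
      _ ≤ q ^ (1000 * n) := hle (by omega)
      _ ≤ Y2 := y2lo
  have xr : (X : ℝ) = Y + z1 := by rw [hXY]; push_cast; ring
  have x2r : (X2 : ℝ) = Y2 + z2 := by rw [hXY2]; push_cast; ring
  have az1 := neg_abs_le (z1 : ℝ)
  have bz1' := le_abs_self (z1 : ℝ)
  have az2 := neg_abs_le (z2 : ℝ)
  have bz2' := le_abs_self (z2 : ℝ)
  have x_le : (X : ℝ) ≤ 2 * Y := by linarith
  have y_le : (Y : ℝ) ≤ 2 * X := by linarith
  have x2_le : (X2 : ℝ) ≤ 2 * Y2 := by linarith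
  have y2_le : (Y2 : ℝ) ≤ 2 * X2 := by linarith
  have hX0 : (0 : ℝ) < X := by linarith
  have hX20 : (0 : ℝ) < X2 := by linarith
  have hXpos : 0 < X := by exact_mod_cast hX0
  have hX2pos : 0 < X2 := by exact_mod_cast hX20
  have hm0 : (0 : ℤ) < m := by exact_mod_cast (by omega : 0 < m)
  have hd0 : (0 : ℤ) < d := by exact_mod_cast (by omega : 0 < d)
  -- the multipliers
  have hab : ∃ a b : ℤ, 0 < a ∧ 0 < b ∧ b * X ^ n * Y2 = a * Y ^ n * X2 ∧
      ((b : ℝ) ≤ q ^ (20 * n + 10) ∨ (a : ℝ) ≤ q ^ (20 * n + 1010)) := by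
    rcases le_total k2 (n * k1) with h | h
    · refine ⟨t1 ^ n * s2 * (m : ℤ) ^ (n * k1 - k2) * (d : ℤ) ^ rr, s1 ^ n * t2, by positivity,
        by positivity, ?_, Or.inl ?_⟩
      · obtain ⟨c, hc⟩ := Nat.exists_eq_add_of_le h
        rw [hX, hY, hX2, hY2, hc, Nat.add_sub_cancel_left, mul_pow, mul_pow, ← pow_mul, ← pow_mul,
          mul_comm k1 n, hc, hN2eq, mul_comm N1 n, pow_add, pow_add]
        ring
      · push_cast
        calc (s1 : ℝ) ^ n * t2 ≤ (q ^ 10) ^ n * q ^ (10 * (n + 1)) := by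
              apply mul_le_mul _ ft2 (by positivity) (by positivity)
              exact pow_le_pow_left₀ (by linarith) fs1 n
          _ = q ^ (20 * n + 10) := by
              rw [← pow_mul, ← pow_add]; congr 1; ring
    · refine ⟨t1 ^ n * s2 * (d : ℤ) ^ rr, s1 ^ n * t2 * (m : ℤ) ^ (k2 - n * k1), by positivity,
        by positivity, ?_, Or.inr ?_⟩
      · obtain ⟨c, hc⟩ := Nat.exists_eq_add_of_le h
        rw [hX, hY, hX2, hY2, hc, Nat.add_sub_cancel_left, mul_pow, mul_pow, ← pow_mul, ← pow_mul,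
          mul_comm k1 n, hN2eq, mul_comm N1 n, pow_add, pow_add]
        ring
      · push_cast
        have ht1' : (0 : ℝ) ≤ t1 := by exact_mod_cast ht1.le
        calc (t1 : ℝ) ^ n * s2 * (d : ℝ) ^ rr ≤ (q ^ 10) ^ n * q ^ (10 * (n + 1)) * q ^ 1000 := by
              apply mul_le_mul _ hDrr (by positivity) (by positivity)
              apply mul_le_mul _ fs2 (by linarith) (by positivity)
              exact pow_le_pow_left₀ ht1' ft1 n
          _ = q ^ (20 * n + 1010) := by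
              rw [← pow_mul, ← pow_add, ← pow_add]; congr 1; ring
  obtain ⟨a, b, ha, hb, hab1, hab2⟩ := hab
  have ha0 : (0 : ℝ) < a := by exact_mod_cast ha
  have hb0 : (0 : ℝ) < b := by exact_mod_cast hb
  have habr : (b : ℝ) * X ^ n * Y2 = a * Y ^ n * X2 := by exact_mod_cast hab1
  have ab1 : (a : ℝ) ≤ 2 ^ (n + 1) * b := by
    have h1 : (a : ℝ) * (Y ^ n * X2) ≤ 2 ^ (n + 1) * b * (Y ^ n * X2) := by
      calc (a : ℝ) * (Y ^ n * X2) = b * X ^ n * Y2 := by rw [habr]; ring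
        _ ≤ b * (2 * Y) ^ n * (2 * X2) := by
            apply mul_le_mul _ y2_le hY20.le (by positivity)
            apply mul_le_mul_of_nonneg_left _ hb0.le
            exact pow_le_pow_left₀ hX0.le x_le n
        _ = 2 ^ (n + 1) * b * (Y ^ n * X2) := by rw [mul_pow, pow_succ]; ring
    exact le_of_mul_le_mul_right h1 (by positivity)
  have ab2 : (b : ℝ) ≤ 2 ^ (n + 1) * a := by
    have h1 : (b : ℝ) * (X ^ n * Y2) ≤ 2 ^ (n + 1) * a * (X ^ n * Y2) := by
      calc (b : ℝ) * (X ^ n * Y2) = a * Y ^ n * X2 := by rw [← habr]; ring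
        _ ≤ a * (2 * X) ^ n * (2 * Y2) := by
            apply mul_le_mul _ x2_le hX20.le (by positivity)
            apply mul_le_mul_of_nonneg_left _ ha0.le
            exact pow_le_pow_left₀ hY0.le y_le n
        _ = 2 ^ (n + 1) * a * (X ^ n * Y2) := by rw [mul_pow, pow_succ]; ring
    exact le_of_mul_le_mul_right h1 (by positivity)
  have h2q : ∀ i : ℕ, (2 : ℝ) ^ i ≤ q ^ i := fun i => pow_le_pow_left₀ (by norm_num) hq2 i
  have hbb : (b : ℝ) ≤ q ^ (21 * n + 1011) := by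
    rcases hab2 with h | h
    · exact h.trans (hle (by omega))
    · calc (b : ℝ) ≤ 2 ^ (n + 1) * a := ab2
        _ ≤ q ^ (n + 1) * q ^ (20 * n + 1010) := mul_le_mul (h2q _) h ha0.le (by positivity)
        _ = q ^ (21 * n + 1011) := by
            rw [← pow_add, show n + 1 + (20 * n + 1010) = 21 * n + 1011 by ring]
  have haa : (a : ℝ) ≤ q ^ (21 * n + 1011) := by
    rcases hab2 with h | h
    · calc (a : ℝ) ≤ 2 ^ (n + 1) * b := ab1
        _ ≤ q ^ (n + 1) * q ^ (20 * n + 10) := mul_le_mul (h2q _) h hb0.le (by positivity)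
        _ = q ^ (21 * n + 11) := by rw [← pow_add]; congr 1; ring
        _ ≤ q ^ (21 * n + 1011) := hle (by omega)
    · exact h.trans (hle (by omega))
  -- the Padé identity
  obtain ⟨A, B, hP, hAB⟩ := pade n l hln X Y hYpos.ne'
  have hXle : X ≤ 2 * Y := by exact_mod_cast x_le
  obtain ⟨E1, E2⟩ := E_bounds n l hln X Y hXpos hYpos hXle
  obtain ⟨-, hB⟩ := hAB (2 * Y) (by rw [abs_of_pos hXpos]; exact hXle)
    (by rw [abs_of_pos hYpos]; linarith)
  generalize (∑ j ∈ range (n - l), (ee n l j : ℤ) * X ^ j * Y ^ (n - l - 1 - j)) = E at hP E1 E2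
  have hz1X : X - Y = z1 := by rw [hXY]; ring
  rw [hz1X] at hP
  have hc : Y2 * Y ^ n * (a * B - b * A) = b * Y2 * z1 ^ (2 * l + 1) * E - a * Y ^ n * z2 * B := by
    rw [hXY2] at hab1
    linear_combination (-(b * Y2)) * hP - B * hab1
  have E1r : (Y : ℝ) ^ (n - l - 1) ≤ E := by exact_mod_cast E1
  have E2r : (E : ℝ) ≤ 2 ^ (3 * n + l) * (Y : ℝ) ^ (n - l - 1) := by exact_mod_cast E2
  have hE0 : (0 : ℝ) ≤ E := le_trans (by positivity) E1r
  have hBr : |(B : ℝ)| ≤ 2 ^ (2 * n + 5 * l + 2) * (2 * (Y : ℝ)) ^ l := by exact_mod_cast hB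
  have hBq : |(B : ℝ)| ≤ q ^ (2 * n + 1016 * l + 2) := by
    calc |(B : ℝ)| ≤ 2 ^ (2 * n + 5 * l + 2) * (2 * (Y : ℝ)) ^ l := hBr
      _ = 2 ^ (2 * n + 6 * l + 2) * (Y : ℝ) ^ l := by
          rw [mul_pow, show 2 * n + 6 * l + 2 = (2 * n + 5 * l + 2) + l by ring, pow_add 2 _ l]
          ring
      _ ≤ q ^ (2 * n + 6 * l + 2) * (q ^ 1010) ^ l :=
          mul_le_mul (h2q _) (pow_le_pow_left₀ hY0.le yhi l) (by positivity) (by positivity)
      _ = q ^ (2 * n + 1016 * l + 2) := by rw [← pow_mul, ← pow_add]; congr 1; ring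
  have fz1' : |(z1 : ℝ)| ≤ q ^ 10 := by exact_mod_cast fz1
  have fz2' : |(z2 : ℝ)| ≤ q ^ (10 * (n + 1)) := by exact_mod_cast fz2
  have hYn : (Y : ℝ) ^ (l + 1) * (Y : ℝ) ^ (n - l - 1) = (Y : ℝ) ^ n := by
    rw [← pow_add]; congr 1; omega
  have I1 : 2 * (b * |(z1 : ℝ)| ^ (2 * l + 1) * E) < (Y : ℝ) ^ n := by
    calc 2 * (b * |(z1 : ℝ)| ^ (2 * l + 1) * E)
        ≤ q * (q ^ (21 * n + 1011) * (q ^ 10) ^ (2 * l + 1) *
            (q ^ (3 * n + l) * (Y : ℝ) ^ (n - l - 1))) := by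
          apply mul_le_mul hq2 _ (by positivity) hq0.le
          apply mul_le_mul _ _ hE0 (by positivity)
          · apply mul_le_mul hbb _ (by positivity) (by positivity)
            exact pow_le_pow_left₀ (abs_nonneg _) fz1' _
          · exact E2r.trans (mul_le_mul_of_nonneg_right (h2q _) (by positivity))
      _ = q ^ (24 * n + 21 * l + 1022) * (Y : ℝ) ^ (n - l - 1) := by
          rw [← pow_mul]
          rw [show 24 * n + 21 * l + 1022 = 1 + (21 * n + 1011) + (10 * (2 * l + 1)) + (3 * n + l)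
            by ring, pow_add q (1 + (21 * n + 1011) + (10 * (2 * l + 1))) _,
            pow_add q (1 + (21 * n + 1011)) _, pow_add q 1 _, pow_one]
          ring
      _ < q ^ (1000 * (l + 1)) * (Y : ℝ) ^ (n - l - 1) := by
          apply mul_lt_mul_of_pos_right _ (by positivity)
          exact hlt (by omega)
      _ ≤ (Y : ℝ) ^ (l + 1) * (Y : ℝ) ^ (n - l - 1) := by
          apply mul_le_mul_of_nonneg_right _ (by positivity)
          rw [pow_mul]
          exact pow_le_pow_left₀ (by positivity) ylo _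
      _ = (Y : ℝ) ^ n := hYn
  have I2 : 2 * (a * |(z2 : ℝ)| * |(B : ℝ)|) < Y2 := by
    calc 2 * (a * |(z2 : ℝ)| * |(B : ℝ)|)
        ≤ q * (q ^ (21 * n + 1011) * q ^ (10 * (n + 1)) * q ^ (2 * n + 1016 * l + 2)) := by
          apply mul_le_mul hq2 _ (by positivity) hq0.le
          apply mul_le_mul _ hBq (abs_nonneg _) (by positivity)
          exact mul_le_mul haa fz2' (abs_nonneg _) (by positivity)
      _ = q ^ (33 * n + 1016 * l + 1024) := by
          rw [← pow_add, ← pow_add, mul_comm, ← pow_succ]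
          congr 1
          ring
      _ < q ^ (1000 * n) := hlt (by omega)
      _ ≤ Y2 := y2lo
  have I3 : 2 ^ (n + 1) * (Y : ℝ) ^ (l + 1) * |(z2 : ℝ)| * |(B : ℝ)| < Y2 := by
    calc 2 ^ (n + 1) * (Y : ℝ) ^ (l + 1) * |(z2 : ℝ)| * |(B : ℝ)|
        ≤ q ^ (n + 1) * (q ^ 1010) ^ (l + 1) * q ^ (10 * (n + 1)) * q ^ (2 * n + 1016 * l + 2) := by
          apply mul_le_mul _ hBq (abs_nonneg _) (by positivity)
          apply mul_le_mul _ fz2' (abs_nonneg _) (by positivity)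
          exact mul_le_mul (h2q _) (pow_le_pow_left₀ hY0.le yhi _) (by positivity) (by positivity)
      _ = q ^ (13 * n + 2026 * l + 1023) := by
          rw [← pow_mul, ← pow_add, ← pow_add, ← pow_add]
          congr 1
          ring
      _ < q ^ (1000 * n) := hlt (by omega)
      _ ≤ Y2 := y2lo
  have hcr : (Y2 : ℝ) * Y ^ n * (a * B - b * A) =
      b * Y2 * z1 ^ (2 * l + 1) * E - a * Y ^ n * z2 * B := by exact_mod_cast hc
  have hYn0 : (0 : ℝ) < (Y : ℝ) ^ n := by positivity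
  -- aB = bA
  have hzero : a * B - b * A = 0 := by
    have h1 : |(Y2 : ℝ) * Y ^ n * (a * B - b * A)| < Y2 * Y ^ n := by
      rw [hcr]
      calc |(b : ℝ) * Y2 * z1 ^ (2 * l + 1) * E - a * Y ^ n * z2 * B|
          ≤ |(b : ℝ) * Y2 * z1 ^ (2 * l + 1) * E| + |(a : ℝ) * Y ^ n * z2 * B| := abs_sub _ _
        _ = Y2 * (b * |(z1 : ℝ)| ^ (2 * l + 1) * E) + Y ^ n * (a * |(z2 : ℝ)| * |(B : ℝ)|) := by
            rw [abs_mul, abs_mul, abs_mul, abs_mul, abs_mul, abs_mul, abs_pow, abs_of_pos hb0,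
              abs_of_pos hY20, abs_of_nonneg hE0, abs_of_pos ha0, abs_of_pos hYn0]
            ring
        _ < Y2 * Y ^ n := by nlinarith
    rw [abs_mul, abs_of_pos (by positivity : (0 : ℝ) < Y2 * Y ^ n)] at h1
    have h2 : |(a : ℝ) * B - b * A| < 1 := by
      by_contra hcon
      rw [not_lt] at hcon
      have : (Y2 : ℝ) * Y ^ n * 1 ≤ Y2 * Y ^ n * |(a : ℝ) * B - b * A| :=
        mul_le_mul_of_nonneg_left hcon (by positivity)
      linarith
    have h3 : |a * B - b * A| < 1 := by exact_mod_cast h2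
    exact Int.abs_lt_one_iff.1 h3
  have hzr : (a : ℝ) * B - b * A = 0 := by exact_mod_cast hzero
  rw [hzr, mul_zero] at hcr
  have h4 : (b : ℝ) * Y2 * z1 ^ (2 * l + 1) * E = a * Y ^ n * z2 * B := by linarith
  have h5 : (b : ℝ) * Y2 * |(z1 : ℝ)| ^ (2 * l + 1) * E = a * Y ^ n * |(z2 : ℝ)| * |(B : ℝ)| := by
    have h6 := congrArg abs h4
    rw [abs_mul, abs_mul, abs_mul, abs_mul, abs_mul, abs_mul, abs_pow, abs_of_pos hb0,
      abs_of_pos hY20, abs_of_nonneg hE0, abs_of_pos ha0, abs_of_pos hYn0] at h6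
    exact h6
  have hz1ge : (1 : ℝ) ≤ |(z1 : ℝ)| := by
    have : 1 ≤ |z1| := Int.one_le_abs hz1
    exact_mod_cast this
  have h7 : (b : ℝ) * Y2 * Y ^ (n - l - 1) ≤ b * Y2 * |(z1 : ℝ)| ^ (2 * l + 1) * E := by
    apply mul_le_mul _ E1r (by positivity) (by positivity)
    exact le_mul_of_one_le_right (by positivity) (one_le_pow₀ hz1ge)
  have h8 : (b : ℝ) * Y ^ (n - l - 1) * Y2 ≤
      b * Y ^ (n - l - 1) * (2 ^ (n + 1) * (Y : ℝ) ^ (l + 1) * |(z2 : ℝ)| * |(B : ℝ)|) := by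
    calc (b : ℝ) * Y ^ (n - l - 1) * Y2 = b * Y2 * Y ^ (n - l - 1) := by ring
      _ ≤ a * Y ^ n * |(z2 : ℝ)| * |(B : ℝ)| := by rw [← h5]; exact h7
      _ ≤ 2 ^ (n + 1) * b * Y ^ n * |(z2 : ℝ)| * |(B : ℝ)| := by gcongr
      _ = b * Y ^ (n - l - 1) * (2 ^ (n + 1) * (Y : ℝ) ^ (l + 1) * |(z2 : ℝ)| * |(B : ℝ)|) := by
          rw [← hYn]; ring
  have h9 := le_of_mul_le_mul_left h8 (by positivity)
  linarith

theorem sign_aux {D P s t z : ℤ} (hD : 2 ≤ D) (hP : 0 < P) (hs : s ≠ 0) (bz : |z| ^ 100 ≤ D)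
    (e : t * P = s * D + z) : (0 < s ∧ 0 < t) ∨ (s < 0 ∧ t < 0) := by
  have hzD : |z| < D := by
    by_contra hcon
    rw [not_lt] at hcon
    have h1 : (1 : ℤ) ≤ |z| := by linarith
    have h2 : |z| ^ 2 ≤ |z| ^ 100 := pow_le_pow_right₀ h1 (by norm_num)
    nlinarith
  have hz1 := neg_abs_le z
  have hz2 := le_abs_self z
  rcases lt_or_gt_of_ne hs with h | h
  · right
    refine ⟨h, ?_⟩
    have h1 : s * D ≤ -D := by nlinarith
    have h2 : t * P < 0 := by rw [e]; linarith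
    by_contra hcon
    rw [not_lt] at hcon
    have := mul_nonneg hcon hP.le
    linarith
  · left
    refine ⟨h, ?_⟩
    have h1 : D ≤ s * D := by nlinarith
    have h2 : 0 < t * P := by rw [e]; linarith
    by_contra hcon
    rw [not_lt] at hcon
    have := mul_nonneg (neg_nonneg.2 hcon) hP.le
    linarith

theorem pos_rel {d m N : ℕ} (hd : 2 ≤ d) (hm : 1 ≤ m) (hN : 1 ≤ N) (h : ¬ NoRes d m N) :
    ∃ (k : ℕ) (s t z : ℤ), 0 < s ∧ 0 < t ∧ z ≠ 0 ∧ s ^ 100 ≤ (d : ℤ) ^ N ∧ t ^ 100 ≤ (d : ℤ) ^ N ∧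
      |z| ^ 100 ≤ (d : ℤ) ^ N ∧ t * (m : ℤ) ^ k = s * (d : ℤ) ^ N + z := by
  unfold NoRes at h
  push Not at h
  obtain ⟨k, s, t, z, hs, ht, hz, bs, bt, bz, e⟩ := h
  have hd2 : (2 : ℤ) ≤ d := by exact_mod_cast hd
  have hD : (2 : ℤ) ≤ (d : ℤ) ^ N := by
    calc (2 : ℤ) ≤ d := hd2
      _ = (d : ℤ) ^ 1 := (pow_one _).symm
      _ ≤ (d : ℤ) ^ N := pow_le_pow_right₀ (by linarith) hN
  have hMk : (0 : ℤ) < (m : ℤ) ^ k := by
    have : (0 : ℤ) < m := by exact_mod_cast (by omega : 0 < m)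
    positivity
  rcases sign_aux hD hMk hs bz e with ⟨h1, h2⟩ | ⟨h1, h2⟩
  · rw [abs_of_pos h1] at bs
    rw [abs_of_pos h2] at bt
    exact ⟨k, s, t, z, h1, h2, hz, bs, bt, bz, e⟩
  · rw [abs_of_neg h1] at bs
    rw [abs_of_neg h2] at bt
    refine ⟨k, -s, -t, -z, by linarith, by linarith, neg_ne_zero.2 hz, bs, bt, ?_, ?_⟩
    · rwa [abs_neg]
    · rw [neg_mul, e]
      ring

/-- BE-TS -/
theorem exists_noRes {d m : ℕ} (hd : 2 ≤ d) (hm : 1 ≤ m) :
    ∃ N₀ : ℕ, ∀ N, N₀ ≤ N → NoRes d m N := by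
  by_contra hcon
  push Not at hcon
  obtain ⟨N1, hN1, h1⟩ := hcon 1000
  obtain ⟨N2, hN2, h2⟩ := hcon (4 * N1)
  obtain ⟨k1, s1, t1, z1, a1, a2, a3, a4, a5, a6, a7⟩ := pos_rel hd hm (by omega) h1
  obtain ⟨k2, s2, t2, z2, b1, b2, b3, b4, b5, b6, b7⟩ := pos_rel hd hm (by omega) h2
  exact contra hd hm a1 a2 a3 b1 b2 a4 a5 a6 b4 b5 b6 a7 b7 hN1 hN2

end Pool.Agent.Helper28.BE
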