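import Pool.Agent.Helper28.BE.Large
import Pool.Agent.Helper28.BE.TS

/-!
The bound of the weighted sum over the points of an interval which stay above the critical line.
-/

set_option autoImplicit false

namespace Pool.Agent.Helper28.BE

open Pool.Agent.Helper68.Moeller Pool.Agent.Helper52.Tao

variable {d m : ℕ} {r : ℤ → ℤ}

/-- The right-hand side of `good_bound`. -/
theorem rhs_le {D L lx η δ κ κ₀ c₃ : ℝ} {b B N i : ℕ} (hD : 0 < D) (hL : 0 < L) (hlx : 0 < lx)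
    (hη0 : 0 ≤ η) (hη1 : η < 1) (hδ : 0 < δ) (hκ0 : 0 < κ₀) (hκ1 : κ₀ < 1) (hc₃ : 0 < c₃)
    (hb : 2 ≤ b) {e₀ : ℝ} (he₀ : e₀ = (1 - η) * D / 400) (hκ : κ * L = e₀ / 8)
    (hb2 : Real.log 2 / b ≤ e₀ / 8) (hc : b * c₃ * L = e₀ / 8) (hδ1 : 2 * δ * (lx + L) ≤ e₀ / 8)
    (hδ2 : 3 * δ * (lx + L) ≤ c₃ * (-Real.log (1 - κ₀)) / 2) (hδ3 : 2 * δ * (lx + L) ≤ D / 2)
    (hi : (N : ℝ) / 400 ≤ i + 1) {γ₁ : ℝ} (hγ1 : γ₁ ≤ c₃ * (-Real.log (1 - κ₀)) / 2)
    (hγ2 : γ₁ ≤ D / 2) (hγ3 : γ₁ ≤ e₀ / 2) :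
    192 * B * N * (1 - κ₀) ^ ⌊c₃ * N⌋₊ *
        Real.exp (3 * δ * (lx + L) * N + (b + 2) * D) +
      196 * B ^ 2 * N ^ 2 * Real.exp (2 * δ * (lx + L) * N - D * N) +
      32 * Real.exp (-(1 - η) * D * i + 2 * δ * (lx + L) * N +
        (2 * b + 3) * L + Real.log 2 / b * N + (b * c₃ + κ) * L * N) ≤
      (192 * B * Real.exp (-Real.log (1 - κ₀) + (b + 2) * D) + 196 * B ^ 2 +
        32 * Real.exp (D + (2 * b + 3) * L)) * ((N : ℝ) + 1) ^ 2 * Real.exp (-(γ₁ * N)) := by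
  have hN0 : (0 : ℝ) ≤ N := Nat.cast_nonneg N
  have h1κ : 0 < 1 - κ₀ := by linarith
  set lk := -Real.log (1 - κ₀) with hlk
  have hlk0 : 0 < lk := by
    rw [hlk, neg_pos]; exact Real.log_neg h1κ (by linarith)
  have hE : Real.exp (-(γ₁ * N)) > 0 := Real.exp_pos _
  have hB0 : (0 : ℝ) ≤ B := Nat.cast_nonneg B
  -- first term
  have t1 : 192 * B * N * (1 - κ₀) ^ ⌊c₃ * N⌋₊ * Real.exp (3 * δ * (lx + L) * N + (b + 2) * D) ≤
      192 * B * Real.exp (lk + (b + 2) * D) * ((N : ℝ) + 1) ^ 2 * Real.exp (-(γ₁ * N)) := by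
    have e1 : (1 - κ₀) ^ ⌊c₃ * N⌋₊ ≤ Real.exp (lk - lk * (c₃ * N)) := by
      rw [pow_eq_exp h1κ, Real.exp_le_exp]
      have h2 : c₃ * N ≤ ⌊c₃ * N⌋₊ + 1 := (Nat.lt_floor_add_one (c₃ * N)).le
      have h3 := mul_le_mul_of_nonneg_left h2 hlk0.le
      have h4 : Real.log (1 - κ₀) = -lk := by rw [hlk, neg_neg]
      rw [h4]
      linarith
    have e2 : (N : ℝ) ≤ ((N : ℝ) + 1) ^ 2 :=
      (le_add_of_nonneg_right zero_le_one).trans (le_self_pow₀ (by linarith) two_ne_zero)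
    calc 192 * B * N * (1 - κ₀) ^ ⌊c₃ * N⌋₊ * Real.exp (3 * δ * (lx + L) * N + (b + 2) * D)
        ≤ 192 * B * ((N : ℝ) + 1) ^ 2 * Real.exp (lk - lk * (c₃ * N)) *
          Real.exp (3 * δ * (lx + L) * N + (b + 2) * D) := by gcongr
      _ = 192 * B * ((N : ℝ) + 1) ^ 2 * Real.exp ((lk - lk * (c₃ * N)) +
          (3 * δ * (lx + L) * N + (b + 2) * D)) := by rw [mul_assoc, ← Real.exp_add]
      _ ≤ 192 * B * ((N : ℝ) + 1) ^ 2 * Real.exp ((lk + (b + 2) * D) + -(γ₁ * N)) := by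
          refine mul_le_mul_of_nonneg_left (Real.exp_le_exp.2 ?_) (by positivity)
          have h2 := mul_le_mul_of_nonneg_right hδ2 hN0
          have h3 := mul_le_mul_of_nonneg_right hγ1 hN0
          linarith
      _ = _ := by rw [Real.exp_add (lk + (b + 2) * D)]; ring
  have t2 : 196 * B ^ 2 * N ^ 2 * Real.exp (2 * δ * (lx + L) * N - D * N) ≤
      196 * B ^ 2 * ((N : ℝ) + 1) ^ 2 * Real.exp (-(γ₁ * N)) := by
    have h0 : 196 * (B : ℝ) ^ 2 * N ^ 2 ≤ 196 * B ^ 2 * ((N : ℝ) + 1) ^ 2 := by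
      gcongr; linarith
    refine mul_le_mul h0 (Real.exp_le_exp.2 ?_) (Real.exp_pos _).le (by positivity)
    · have h2 := mul_le_mul_of_nonneg_right hδ3 hN0
      have h3 := mul_le_mul_of_nonneg_right hγ2 hN0
      linarith
  have t3 : 32 * Real.exp (-(1 - η) * D * i + 2 * δ * (lx + L) * N +
        (2 * b + 3) * L + Real.log 2 / b * N + (b * c₃ + κ) * L * N) ≤
      32 * Real.exp (D + (2 * b + 3) * L) * ((N : ℝ) + 1) ^ 2 * Real.exp (-(γ₁ * N)) := by
    calc 32 * Real.exp (-(1 - η) * D * i + 2 * δ * (lx + L) * N +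
        (2 * b + 3) * L + Real.log 2 / b * N + (b * c₃ + κ) * L * N)
        ≤ 32 * Real.exp ((D + (2 * b + 3) * L) + -(γ₁ * N)) := by
          refine mul_le_mul_of_nonneg_left (Real.exp_le_exp.2 ?_) (by norm_num)
          have h1 : (1 - η) * D * (N / 400) ≤ (1 - η) * D * (i + 1) :=
            mul_le_mul_of_nonneg_left hi (mul_nonneg (by linarith) hD.le)
          have h2 : (1 - η) * D ≤ D := mul_le_of_le_one_left hD.le (by linarith)
          have h3 : e₀ * N = (1 - η) * D * (N / 400) := by rw [he₀]; ring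
          have h4 := mul_le_mul_of_nonneg_right hδ1 hN0
          have h5 := mul_le_mul_of_nonneg_right hb2 hN0
          have h6 : (b * c₃ + κ) * L * N = e₀ / 8 * N + e₀ / 8 * N := by
            rw [add_mul, add_mul, hc, hκ]
          have h7 := mul_le_mul_of_nonneg_right hγ3 hN0
          linarith
      _ = 32 * Real.exp (D + (2 * b + 3) * L) * 1 * Real.exp (-(γ₁ * N)) := by
          rw [Real.exp_add (D + (2 * b + 3) * L)]; ring
      _ ≤ _ := by
          gcongr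
          exact one_le_pow₀ (by linarith)
  calc _ ≤ _ := add_le_add (add_le_add t1 t2) t3
    _ = _ := by ring

/-- The weighted sum over the points which stay above the critical line. -/
theorem sum_bound (hd : 2 ≤ d) (hdm : d < m) (hco : Nat.Coprime m d) {x η : ℝ} (hx : 1 < x)
    (hp : ((d : ℝ) - 1) * x / (1 + ((d : ℝ) - 1) * x) = Real.log d / Real.log m)
    (hΛ : Real.log (1 + ((d : ℝ) - 1) * x) =
        η * Real.log d + Real.log d / Real.log m * Real.log x) (hη0 : 0 ≤ η) (hη1 : η < 1) :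
    ∃ δ' γ₂ : ℝ, 0 < δ' ∧ 0 < γ₂ ∧ ∀ r : ℤ → ℤ, Admissible d m r → ∃ C : ℝ, 0 < C ∧
      ∀ (N : ℕ) (X : ℤ) (S : Finset ℤ),
      (∀ n ∈ S, X ≤ n ∧ n < X + (d : ℤ) ^ N ∧ ∀ a : ℕ, (a : ℝ) ≤ (1 + 1 / 400) * N →
        Real.log d / Real.log m * a - δ' * N ≤ (sg (wd d m r a n) : ℝ)) →
      ∑ y ∈ S, wt d x (wd d m r N y) ≤ C * Real.exp (-(γ₂ * N)) := by
  classical
  have hD := log_d_pos hd
  have hLD := log_m_gt hd hdm
  have hL := hD.trans hLD
  have hd0 : (0 : ℝ) < d := by exact_mod_cast (by omega : 0 < d)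
  have hm0 : (0 : ℝ) < m := by exact_mod_cast (by omega : 0 < m)
  have hx0 : 0 < x := by linarith
  have hlx : 0 < Real.log x := Real.log_pos hx
  set D := Real.log d with hDdef
  set L := Real.log m with hLdef
  set lx := Real.log x with hlxdef
  have h1η : 0 < 1 - η := by linarith
  set e₀ := (1 - η) * D / 400 with he₀def
  have he₀ : 0 < e₀ := by positivity
  set κ := e₀ / (8 * L) with hκdef
  have hκ : 0 < κ := by positivity
  obtain ⟨b, τ, hb, hb2, hτ0, hτ1, hτκ, hτ⟩ := exists_chunk hd hx0 (by positivity : 0 < e₀ / 8) hκ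
  have hb0 : (0 : ℝ) < b := by exact_mod_cast (by omega : 0 < b)
  obtain ⟨κ₀, hκ0, hκ1, hgain⟩ := chunk_gain hd hx0 (ε := 1 / (4 * (m : ℝ) ^ b)) (by positivity) b
  have h1κ : 0 < 1 - κ₀ := by linarith
  set lk := -Real.log (1 - κ₀) with hlk
  have hlk0 : 0 < lk := by
    rw [hlk, neg_pos]; exact Real.log_neg h1κ (by linarith)
  set c₃ := e₀ / (8 * L * b) with hc₃def
  have hc₃ : 0 < c₃ := by positivity
  have hlxL : 0 < lx + L := by positivity
  set δ' := min (min (e₀ / (16 * (lx + L))) (c₃ * lk / (6 * (lx + L))))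
    (min (D / (4 * (lx + L))) (D / (2000 * L))) with hδdef
  have hδ0 : 0 < δ' := by
    rw [hδdef]
    exact lt_min (lt_min (by positivity) (by positivity)) (lt_min (by positivity) (by positivity))
  have hδa : δ' ≤ e₀ / (16 * (lx + L)) := (min_le_left _ _).trans (min_le_left _ _)
  have hδb : δ' ≤ c₃ * lk / (6 * (lx + L)) := (min_le_left _ _).trans (min_le_right _ _)
  have hδc : δ' ≤ D / (4 * (lx + L)) := (min_le_right _ _).trans (min_le_left _ _)
  have hδd : δ' ≤ D / (2000 * L) := (min_le_right _ _).trans (min_le_right _ _)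
  rw [le_div_iff₀ (by positivity)] at hδa hδb hδc hδd
  have hδ1 : 2 * δ' * (lx + L) ≤ e₀ / 8 := by linarith
  have hδ2 : 3 * δ' * (lx + L) ≤ c₃ * lk / 2 := by linarith
  have hδ3 : 2 * δ' * (lx + L) ≤ D / 2 := by linarith
  have hδD : δ' * L / D ≤ 1 / 2000 := by
    rw [div_le_iff₀ hD]; linarith
  obtain ⟨ρ, hρ0, hρ1, hρ⟩ := upper_tail hd hx0 hδ0
  rw [hp] at hρ
  set γ₁ := min (min (c₃ * lk / 2) (D / 2)) (e₀ / 2) with hγ₁def
  have hγ₁ : 0 < γ₁ := lt_min (lt_min (by positivity) (by positivity)) (by positivity)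
  have hγa : γ₁ ≤ c₃ * lk / 2 := (min_le_left _ _).trans (min_le_left _ _)
  have hγb : γ₁ ≤ D / 2 := (min_le_left _ _).trans (min_le_right _ _)
  have hγc : γ₁ ≤ e₀ / 2 := min_le_right _ _
  have hlog2 : 0 < Real.log 2 := Real.log_pos (by norm_num)
  have hlogρ : 0 < -Real.log ρ := by
    rw [neg_pos]; exact Real.log_neg hρ0 hρ1
  set γ₂ := min (min (-Real.log ρ) (Real.log 2 / (2 * b))) (γ₁ / 4) with hγ₂def
  have hγ₂ : 0 < γ₂ := lt_min (lt_min hlogρ (by positivity)) (by positivity)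
  have hγd : γ₂ ≤ -Real.log ρ := (min_le_left _ _).trans (min_le_left _ _)
  have hγe : γ₂ ≤ Real.log 2 / (2 * b) := (min_le_left _ _).trans (min_le_right _ _)
  have hγf : γ₂ ≤ γ₁ / 4 := min_le_right _ _
  obtain ⟨Cp, hCp, hpoly⟩ := poly_exp (by positivity : 0 < γ₁ / 4) 3
  refine ⟨δ', γ₂, hδ0, hγ₂, ?_⟩
  intro r hr
  set B := 1 + ∑ j ∈ Finset.range d, (r j).natAbs with hBdef
  have hB1 : 1 ≤ B := by omega
  have hB : ∀ j : ℤ, 0 < j → j < (d : ℤ) → |r j| ≤ B := by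
    intro j hj0 hj
    lift j to ℕ using hj0.le
    have h1 : (r (j : ℤ)).natAbs ≤ ∑ j ∈ Finset.range d, (r (j : ℤ)).natAbs :=
      Finset.single_le_sum (f := fun j : ℕ => (r (j : ℤ)).natAbs) (fun _ _ => Nat.zero_le _)
        (Finset.mem_range.2 (by exact_mod_cast hj))
    rw [Int.abs_eq_natAbs]
    exact_mod_cast (by omega : (r (j : ℤ)).natAbs ≤ B)
  set g := (((d : ℤ) - 1) * r 1).natAbs with hgdef
  have hg : |((d : ℤ) - 1) * r 1| ≤ g := by
    rw [Int.abs_eq_natAbs]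
  obtain ⟨T₀, hT₀⟩ := exists_noRes (m := m) hd (by omega)
  set N₀ := 200 * b + 2000 + 1000 * g + 4 * T₀ with hN₀
  set K := 192 * (B : ℝ) * Real.exp (lk + (b + 2) * D) + 196 * (B : ℝ) ^ 2 +
    32 * Real.exp (D + (2 * b + 3) * L) with hK
  have hK0 : 0 ≤ K := by positivity
  refine ⟨Real.exp (γ₂ * N₀) + (4 + Real.sqrt K * Cp), by positivity, ?_⟩
  intro N X S hS
  rcases le_or_gt N₀ N with hN | hN
  swap
  · have h1 := sum_le_words hd hco hr hx0.le N X S (fun y hy => ⟨(hS y hy).1, (hS y hy).2.1⟩)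
      (fun _ => True)
    simp only [Finset.sum_filter, if_true] at h1
    rw [sum_wt (by omega) hx0.le] at h1
    refine h1.trans ?_
    have h2 : (1 : ℝ) ≤ Real.exp (γ₂ * N₀) * Real.exp (-(γ₂ * N)) := by
      rw [← Real.exp_add]
      refine Real.one_le_exp ?_
      have h3 : (N : ℝ) ≤ N₀ := by exact_mod_cast hN.le
      linarith [mul_le_mul_of_nonneg_left h3 hγ₂.le]
    refine h2.trans ?_
    have h4 : 0 ≤ 4 + Real.sqrt K * Cp := by positivity
    have h5 := Real.exp_pos (-(γ₂ * N))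
    rw [add_mul]
    linarith [mul_nonneg h4 h5.le]
  have hNr : (0 : ℝ) ≤ N := Nat.cast_nonneg N
  have hN0 : 0 < N := by omega
  obtain ⟨i, u, n, i₁, a, hi, hi3, hu1, hu2, hNe, hi1, hi2, hTn, ha, ha1, ha2, ha3, hNn⟩ :=
    exists_data hd hD hL hδ0 hδD hb g T₀ N hN
  have hiN : (N : ℝ) / 400 ≤ i + 1 := by
    have h1 : N < 400 * (i + 1) := by rw [hi]; exact Nat.lt_mul_div_succ N (by norm_num)
    have h2 : (N : ℝ) ≤ 400 * (i + 1) := by exact_mod_cast h1.le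
    linarith
  have hiN2 : (i : ℝ) ≤ N / 400 := by
    have h1 : 400 * i ≤ N := by rw [hi]; exact Nat.mul_div_le N 400
    have h2 : 400 * (i : ℝ) ≤ N := by exact_mod_cast h1
    linarith
  have hSN : ∀ y ∈ S, X ≤ y ∧ y < X + (d : ℤ) ^ (i₁ + b * n) := by
    intro y hy
    rw [hNe]
    exact ⟨(hS y hy).1, (hS y hy).2.1⟩
  set R := Real.sqrt K * ((N : ℝ) + 1) * Real.exp (-(γ₁ / 2 * N)) with hR
  have hR0 : 0 ≤ R := by positivity
  have hR2 : R ^ 2 = K * ((N : ℝ) + 1) ^ 2 * Real.exp (-(γ₁ * N)) := by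
    rw [hR, mul_pow, mul_pow, Real.sq_sqrt hK0, ← Real.exp_nat_mul]
    congr 2
    push_cast
    ring
  have hi₁N : i₁ ≤ N := by omega
  have hsum := split_sum hd hco hr hx0.le (i₁ := i₁) (b := b) (n := n) X S hSN
    (α := D / L * i₁ + δ' * N) (β := D / L * N + δ' * N) (κ := κ) (R := R) (ρ₁ := ρ ^ N)
    (ρ₂ := ρ ^ N) (ρ₃ := (2 * τ ^ κ) ^ n) (hρ N i₁ hi₁N) (by rw [hNe]; exact hρ N N le_rfl)
    (bad_tail hd hx0 hτ0 hτ1 hτ hκ.le n) hR0 (by
      intro k₁ k₂ hk1 hk2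
      rw [hNe, hR2]
      have hk1' : (k₁ : ℝ) * L ≤ δ' * L * N + i₁ * D := by
        have := mul_le_mul_of_nonneg_right hk1.le hL.le
        refine this.trans (le_of_eq ?_)
        field_simp
        ring
      have hk2' : ((k₁ + k₂ : ℕ) : ℝ) * L ≤ δ' * L * N + N * D := by
        have := mul_le_mul_of_nonneg_right hk2.le hL.le
        refine this.trans (le_of_eq ?_)
        field_simp
        ring
      refine (good_bound hd hdm hco hr hx hΛ hη0 hη1.le hB1 hB hg hT₀ hb hκ hκ0 hκ1 hc₃ hδ0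
        (fun g' hg' α hα => hgain m r g' hg' α hα) hN0 hi3 hu1 hu2 hNe hi1 hi2 hTn ha ha1 ha2 ha3
        X _ hk1' hk2' ?_).trans ?_
      · intro y hy
        rw [Finset.mem_filter] at hy
        obtain ⟨hy, f4, f5, f6⟩ := hy
        obtain ⟨f1, f2, f3⟩ := hS y hy
        refine ⟨f1, f2, ?_, f4, f5, f6⟩
        intro j hj
        have hj' : (j : ℝ) ≤ (1 + 1 / 400) * N := by
          have : (j : ℝ) ≤ N + i := by exact_mod_cast hj
          linarith
        have h1 := f3 j hj'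
        rw [pow_eq_exp hd0, pow_eq_exp hm0, ← Real.exp_add, Real.exp_le_exp]
        have h2 := mul_le_mul_of_nonneg_right h1 hL.le
        have h3 : (D / L * j - δ' * N) * L = j * D - δ' * L * N := by
          field_simp
        rw [h3] at h2
        linarith
      · exact rhs_le hD hL hlx hη0 hη1 hδ0 hκ0 hκ1 hc₃ hb he₀def (by
          rw [hκdef]; field_simp) hb2 (by rw [hc₃def]; field_simp) hδ1 hδ2 hδ3 hiN hγa hγb hγc)
  rw [hNe] at hsum
  refine hsum.trans ?_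
  have hE : 0 < Real.exp (-(γ₂ * N)) := Real.exp_pos _
  have s1 : ρ ^ N ≤ Real.exp (-(γ₂ * N)) := by
    rw [pow_eq_exp hρ0, Real.exp_le_exp]
    have := mul_le_mul_of_nonneg_right hγd hNr
    linarith
  have s2 : (2 * τ ^ κ) ^ n ≤ 2 * Real.exp (-(γ₂ * N)) := by
    have h0 : 0 ≤ 2 * τ ^ κ := by positivity
    have h1 : (2 * τ ^ κ) ^ n ≤ (1 / 2 : ℝ) ^ n := pow_le_pow_left₀ h0 hτκ n
    refine h1.trans ?_
    have h2 : (N : ℝ) ≤ 2 * (b * n + b) := by exact_mod_cast hNn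
    have h3 : (N : ℝ) / (2 * b) ≤ n + 1 := by
      rw [div_le_iff₀ (by positivity)]
      linarith
    rw [pow_eq_exp (by norm_num : (0 : ℝ) < 1 / 2)]
    have h4 : Real.log (1 / 2) = -Real.log 2 := by
      rw [one_div, Real.log_inv]
    have h5 : (2 : ℝ) * Real.exp (-(γ₂ * N)) = Real.exp (Real.log 2 + -(γ₂ * N)) := by
      rw [Real.exp_add, Real.exp_log (by norm_num)]
    rw [h5, h4, Real.exp_le_exp]
    have h6 := mul_le_mul_of_nonneg_right hγe hNr
    have h7 : Real.log 2 / (2 * b) * N = Real.log 2 * (N / (2 * b)) := by ring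
    have h8 := mul_le_mul_of_nonneg_left h3 hlog2.le
    linarith
  have s3 : ((N : ℝ) + 1) ^ 2 * R ≤ Real.sqrt K * Cp * Real.exp (-(γ₂ * N)) := by
    have h1 := hpoly N
    have h2 : ((N : ℝ) + 1) ^ 2 * R = Real.sqrt K * (((N : ℝ) + 1) ^ 3 *
        Real.exp (-(2 * (γ₁ / 4) * N))) := by
      have h3 : -(γ₁ / 2 * N) = -(2 * (γ₁ / 4) * N) := by ring
      rw [hR, h3]
      ring
    rw [h2, mul_assoc (Real.sqrt K) Cp]
    refine mul_le_mul_of_nonneg_left (h1.trans ?_) (Real.sqrt_nonneg _)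
    refine mul_le_mul_of_nonneg_left (Real.exp_le_exp.2 ?_) hCp.le
    have := mul_le_mul_of_nonneg_right hγf hNr
    linarith
  have s4 : 0 ≤ Real.exp (γ₂ * N₀) * Real.exp (-(γ₂ * N)) := by positivity
  calc ρ ^ N + ρ ^ N + (2 * τ ^ κ) ^ n + ((N : ℝ) + 1) ^ 2 * R
      ≤ Real.exp (-(γ₂ * N)) + Real.exp (-(γ₂ * N)) + 2 * Real.exp (-(γ₂ * N)) +
        Real.sqrt K * Cp * Real.exp (-(γ₂ * N)) := by gcongr
    _ ≤ _ := by
        rw [add_mul, add_mul]
        linarith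

end Pool.Agent.Helper28.BE
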