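import Pool.Agent.Helper28.BE.Basic
import Pool.Agent.Helper8.SparseTransversals

/-!
Block BE-I2 (helper17): sets on which all iterates of `T` are injective, below the entropy exponent.
-/

set_option autoImplicit false

namespace Pool.Agent.Helper28.BE

open Pool.Agent.Helper68.Moeller Pool.Agent.Helper52.Tao

namespace TransBeyond

/-- Offset at the first time below the tube. -/
theorem off_bound {d m : ℕ} (hd : 2 ≤ d) (hm : 1 ≤ m) {r : ℤ → ℤ} {B : ℕ}
    (hB : ∀ j : ℤ, 0 < j → j < (d : ℤ) → |r j| ≤ B) (n : ℤ) (a : ℕ)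
    (h : ∀ t, t + 1 ≤ a → (m : ℝ) ^ (sg (wd d m r a n)) ≤
      (d : ℝ) ^ (a - (t + 1)) * (m : ℝ) ^ sg (wd d m r (t + 1) n)) :
    ∀ t ≤ a, (m : ℝ) ^ sg (wd d m r a n) * |(Off d m r (wd d m r t n) : ℝ)| ≤
      B * t * (d : ℝ) ^ (a - 1) * (m : ℝ) ^ sg (wd d m r t n) := by
  intro t
  induction t with
  | zero =>
    intro _
    simp [wd, Off]
  | succ t ih =>
    intro hta
    have ih' := ih (by omega)
    have h1 := h t hta
    set w := wd d m r t n with hw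
    have hlen : w.length = t := length_of_mem_W (wd_mem hd r t n)
    have ha := (toNat_emod hd ((T d m r)^[t] n)).2
    set c := ((T d m r)^[t] n % (d : ℤ)).toNat with hc
    have e1 : wd d m r (t + 1) n = c :: w := rfl
    rw [e1] at h1 ⊢
    rw [sg_cons] at h1 ⊢
    rw [Off, hlen]
    have hr1 : |(rr r c : ℝ)| ≤ B := by
      have := abs_rr_le hB ha
      exact_mod_cast this
    have hm0 : (0 : ℝ) ≤ (m : ℝ) := by positivity
    have hd0 : (0 : ℝ) ≤ (d : ℝ) := by positivity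
    have h2 : |(((m : ℤ) ^ nz c * Off d m r w + (d : ℤ) ^ t * rr r c : ℤ) : ℝ)| ≤
        (m : ℝ) ^ nz c * |(Off d m r w : ℝ)| + (d : ℝ) ^ t * B := by
      push_cast
      refine (abs_add_le _ _).trans ?_
      rw [abs_mul, abs_mul, abs_of_nonneg (by positivity : (0 : ℝ) ≤ (m : ℝ) ^ nz c),
        abs_of_nonneg (by positivity : (0 : ℝ) ≤ (d : ℝ) ^ t)]
      have := mul_le_mul_of_nonneg_left hr1 (by positivity : (0 : ℝ) ≤ (d : ℝ) ^ t)
      linarith
    have h3 : (d : ℝ) ^ (a - (t + 1)) * (d : ℝ) ^ t = (d : ℝ) ^ (a - 1) := by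
      rw [← pow_add]
      congr 1
      omega
    set Ma := (m : ℝ) ^ sg (wd d m r a n) with hMa
    have hMa0 : 0 ≤ Ma := by positivity
    calc Ma * |(((m : ℤ) ^ nz c * Off d m r w + (d : ℤ) ^ t * rr r c : ℤ) : ℝ)|
        ≤ Ma * ((m : ℝ) ^ nz c * |(Off d m r w : ℝ)| + (d : ℝ) ^ t * B) :=
          mul_le_mul_of_nonneg_left h2 hMa0
      _ = (m : ℝ) ^ nz c * (Ma * |(Off d m r w : ℝ)|) + (d : ℝ) ^ t * B * Ma := by ring
      _ ≤ (m : ℝ) ^ nz c * (B * t * (d : ℝ) ^ (a - 1) * (m : ℝ) ^ sg w) +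
          (d : ℝ) ^ t * B * ((d : ℝ) ^ (a - (t + 1)) * (m : ℝ) ^ (nz c + sg w)) := by
          refine add_le_add (mul_le_mul_of_nonneg_left ih' (by positivity))
            (mul_le_mul_of_nonneg_left h1 (by positivity))
      _ = B * t * (d : ℝ) ^ (a - 1) * (m : ℝ) ^ (nz c + sg w) +
          B * ((d : ℝ) ^ (a - (t + 1)) * (d : ℝ) ^ t) * (m : ℝ) ^ (nz c + sg w) := by
          rw [pow_add]; ring
      _ = B * ((t + 1 : ℕ) : ℝ) * (d : ℝ) ^ (a - 1) * (m : ℝ) ^ (nz c + sg w) := by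
          rw [h3]; push_cast; ring

/-- The number of points falling below the tube at time `a` for the first time. -/
theorem card_first {d m : ℕ} (hd : 2 ≤ d) (hdm : d < m) {r : ℤ → ℤ} (hr : Admissible d m r)
    {B : ℕ} (hB : ∀ j : ℤ, 0 < j → j < (d : ℤ) → |r j| ≤ B) {C' η' : ℝ} (hη' : 0 < η')
    (hgen : ∀ S : Set ℤ, (∀ k, Set.InjOn ((T d m r)^[k]) S) → ∀ (X : ℤ) (Y : ℕ), 1 ≤ Y →
      ((S ∩ Set.Ico X (X + Y)).ncard : ℝ) ≤ C' * (Y : ℝ) ^ η') {D : ℝ} (hD : 0 ≤ D)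
    (N : ℕ) (X : ℤ) (F : Finset ℤ) (hFX : ∀ n ∈ F, X ≤ n ∧ n < X + (d : ℤ) ^ N)
    (hinj : ∀ k, Set.InjOn ((T d m r)^[k]) (F : Set ℤ)) (a : ℕ)
    (hF1 : ∀ n ∈ F, (sg (wd d m r a n) : ℝ) < Real.log d / Real.log m * a - D)
    (hF2 : ∀ n ∈ F, ∀ t < a, Real.log d / Real.log m * t - D ≤ (sg (wd d m r t n) : ℝ)) :
    (F.card : ℝ) ≤ |C'| * ((d : ℝ) ^ N * (m : ℝ) ^ (-D) + 2 * B * a + 2) ^ η' := by
  classical
  have hd0 : (0 : ℝ) < d := by positivity
  have hd1 : (1 : ℝ) < d := by exact_mod_cast (by omega : 1 < d)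
  have hm0 : (0 : ℝ) < m := by exact_mod_cast (by omega : 0 < m)
  have hm1 : (1 : ℝ) < m := by exact_mod_cast (by omega : 1 < m)
  have hlm : 0 < Real.log m := Real.log_pos hm1
  have hld : 0 < Real.log d := Real.log_pos hd1
  set p := Real.log d / Real.log m with hp
  have hp0 : 0 < p := div_pos hld hlm
  have hp1 : p < 1 := by
    rw [hp, div_lt_one hlm]
    exact Real.log_lt_log hd0 (by exact_mod_cast hdm)
  have hmp : ∀ x : ℝ, (m : ℝ) ^ (p * x) = (d : ℝ) ^ x := by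
    intro x
    rw [Real.rpow_def_of_pos hm0, Real.rpow_def_of_pos hd0]
    congr 1
    rw [hp]
    field_simp
  set L := (d : ℝ) ^ N * (m : ℝ) ^ (-D) + 2 * B * a with hL
  have hL0 : 0 ≤ L := by positivity
  rcases F.eq_empty_or_nonempty with rfl | ⟨x₀, hx₀⟩
  · rw [Finset.card_empty, Nat.cast_zero]
    exact mul_nonneg (abs_nonneg _) (Real.rpow_nonneg (by linarith) _)
  -- `a` is positive
  have ha : 1 ≤ a := by
    by_contra h
    have h0 : a = 0 := by omega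
    have := hF1 x₀ hx₀
    rw [h0] at this
    simp [wd] at this
    linarith
  -- bounds for the number of non-zero digits
  have hs1 : ∀ n ∈ F, p * a - D - p ≤ (sg (wd d m r a n) : ℝ) := by
    intro n hn
    obtain ⟨b, rfl⟩ : ∃ b, a = b + 1 := ⟨a - 1, by omega⟩
    have h1 := hF2 n hn b (by omega)
    have h2 : sg (wd d m r b n) ≤ sg (wd d m r (b + 1) n) := by
      rw [wd, sg_cons]; omega
    have h3 : (sg (wd d m r b n) : ℝ) ≤ (sg (wd d m r (b + 1) n) : ℝ) := by exact_mod_cast h2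
    push_cast
    linarith
  set s := sg (wd d m r a x₀) with hs
  have hsame : ∀ n ∈ F, sg (wd d m r a n) = s := by
    intro n hn
    have h1 := hs1 n hn
    have h2 := hF1 n hn
    have h3 := hs1 x₀ hx₀
    have h4 := hF1 x₀ hx₀
    rw [← hs] at h3 h4
    have h5 : (sg (wd d m r a n) : ℝ) < (s : ℝ) + 1 := by linarith
    have h6 : (s : ℝ) < (sg (wd d m r a n) : ℝ) + 1 := by linarith
    have h5' : sg (wd d m r a n) < s + 1 := by exact_mod_cast h5
    have h6' : s < sg (wd d m r a n) + 1 := by exact_mod_cast h6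
    omega
  -- size of `m ^ s`
  have hms : (m : ℝ) ^ s ≤ (d : ℝ) ^ a * (m : ℝ) ^ (-D) := by
    have h4 := hF1 x₀ hx₀
    rw [← hs] at h4
    rw [← Real.rpow_natCast (m : ℝ) s, ← Real.rpow_natCast (d : ℝ) a, ← hmp a,
      ← Real.rpow_add hm0]
    apply Real.rpow_le_rpow_of_exponent_le hm1.le
    linarith
  -- the offsets
  have hoff : ∀ n ∈ F, |(Off d m r (wd d m r a n) : ℝ)| ≤ B * a * (d : ℝ) ^ a := by
    intro n hn
    have hkey := off_bound (m := m) (r := r) hd (by omega) hB n a (fun t ht => by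
      rcases Nat.lt_or_ge (t + 1) a with hlt | hge
      · have h1 := hF1 n hn
        have h2 := hF2 n hn (t + 1) hlt
        rw [← Real.rpow_natCast (m : ℝ) (sg (wd d m r a n)),
          ← Real.rpow_natCast (m : ℝ) (sg (wd d m r (t + 1) n)),
          ← Real.rpow_natCast (d : ℝ) (a - (t + 1)), ← hmp, ← Real.rpow_add hm0]
        apply Real.rpow_le_rpow_of_exponent_le hm1.le
        rw [Nat.cast_sub hlt.le]
        push_cast at h2 ⊢
        linarith
      · have e : a = t + 1 := by omega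
        rw [← e]
        simp) a le_rfl
    have hpos : 0 < (m : ℝ) ^ sg (wd d m r a n) := by positivity
    have h1 : |(Off d m r (wd d m r a n) : ℝ)| ≤ B * a * (d : ℝ) ^ (a - 1) := by
      rw [mul_comm] at hkey
      exact le_of_mul_le_mul_right hkey hpos
    refine h1.trans (mul_le_mul_of_nonneg_left ?_ (by positivity))
    exact pow_le_pow_right₀ hd1.le (by omega)
  -- the images lie in an interval
  have hda : 0 < (d : ℝ) ^ a := by positivity
  set x' : ℝ := (m : ℝ) ^ s * X / (d : ℝ) ^ a - B * a with hx'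
  have himg : ∀ n ∈ F, (T d m r)^[a] n ∈ Set.Ico ⌈x'⌉ (⌈x'⌉ + ((⌈L⌉₊ + 1 : ℕ) : ℤ)) := by
    intro n hn
    have h1 := wd_spec hd hr a n
    rw [hsame n hn] at h1
    have h2 : (d : ℝ) ^ a * ((T d m r)^[a] n : ℝ) =
        (m : ℝ) ^ s * n - (Off d m r (wd d m r a n) : ℝ) := by exact_mod_cast h1
    have h3 := abs_le.1 (hoff n hn)
    obtain ⟨h4, h5⟩ := hFX n hn
    have h4' : (X : ℝ) ≤ n := by exact_mod_cast h4
    have h5' : (n : ℝ) < X + (d : ℝ) ^ N := by exact_mod_cast h5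
    have hms0 : 0 < (m : ℝ) ^ s := by positivity
    have h6 : x' ≤ ((T d m r)^[a] n : ℝ) := by
      rw [hx', sub_le_iff_le_add, div_le_iff₀ hda]
      nlinarith [mul_le_mul_of_nonneg_left h4' hms0.le]
    have h7 : ((T d m r)^[a] n : ℝ) < x' + L := by
      have h8 : (d : ℝ) ^ a * ((T d m r)^[a] n : ℝ) < (d : ℝ) ^ a * (x' + L) := by
        rw [h2]
        have e1 : (d : ℝ) ^ a * (x' + L) = (m : ℝ) ^ s * X +
            (d : ℝ) ^ N * ((d : ℝ) ^ a * (m : ℝ) ^ (-D)) + B * a * (d : ℝ) ^ a := by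
          rw [hx', hL]
          field_simp
          ring
        rw [e1]
        have h9 := mul_lt_mul_of_pos_left h5' hms0
        have h10 : (d : ℝ) ^ N * (m : ℝ) ^ s ≤ (d : ℝ) ^ N * ((d : ℝ) ^ a * (m : ℝ) ^ (-D)) :=
          mul_le_mul_of_nonneg_left hms (by positivity)
        nlinarith
      exact lt_of_mul_lt_mul_left h8 hda.le
    rw [Set.mem_Ico]
    constructor
    · exact Int.ceil_le.mpr h6
    · have h8 : ((T d m r)^[a] n : ℝ) < ((⌈x'⌉ + ((⌈L⌉₊ + 1 : ℕ) : ℤ) : ℤ) : ℝ) := by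
        push_cast
        have h9 := Int.le_ceil x'
        have h10 := Nat.le_ceil L
        linarith
      exact_mod_cast h8
  -- apply the bound to the image
  have h1 := hgen (((T d m r)^[a]) '' (F : Set ℤ)) (by
    rintro k _ ⟨x, hx, rfl⟩ _ ⟨y, hy, rfl⟩ hxy
    rw [← Function.iterate_add_apply, ← Function.iterate_add_apply] at hxy
    rw [hinj (k + a) hx hy hxy]) ⌈x'⌉ (⌈L⌉₊ + 1) (by omega)
  have h2 : ((T d m r)^[a]) '' (F : Set ℤ) ∩ Set.Ico ⌈x'⌉ (⌈x'⌉ + ((⌈L⌉₊ + 1 : ℕ) : ℤ)) =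
      ((T d m r)^[a]) '' (F : Set ℤ) := by
    apply Set.inter_eq_left.mpr
    rintro _ ⟨x, hx, rfl⟩
    exact himg x hx
  rw [h2, Set.InjOn.ncard_image (hinj a), Set.ncard_coe_finset] at h1
  refine h1.trans ?_
  have h3 : (((⌈L⌉₊ + 1 : ℕ) : ℝ)) ≤ L + 2 := by
    have := Nat.ceil_lt_add_one hL0
    push_cast
    linarith
  calc C' * (((⌈L⌉₊ + 1 : ℕ) : ℝ)) ^ η' ≤ |C'| * (((⌈L⌉₊ + 1 : ℕ) : ℝ)) ^ η' :=
        mul_le_mul_of_nonneg_right (le_abs_self _) (by positivity)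
    _ ≤ |C'| * (L + 2) ^ η' :=
        mul_le_mul_of_nonneg_left (Real.rpow_le_rpow (by positivity) h3 hη'.le) (abs_nonneg _)

/-- Polynomial factors are absorbed. -/
theorem absorb {d : ℕ} (hd : 2 ≤ d) {c : ℝ} (hc : 0 < c) : ∃ K : ℝ, 0 < K ∧ ∀ N : ℕ,
    ((N : ℝ) + 1) ^ 3 ≤ K * (d : ℝ) ^ (c * N) := by
  have hd0 : (0 : ℝ) < d := by positivity
  have hd1 : (1 : ℝ) < d := by exact_mod_cast (by omega : 1 < d)
  have hld : 0 < Real.log d := Real.log_pos hd1
  set b := c * Real.log d with hb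
  have hb0 : 0 < b := mul_pos hc hld
  refine ⟨6 * Real.exp b / b ^ 3, by positivity, fun N => ?_⟩
  have h1 := Real.pow_div_factorial_le_exp (b * ((N : ℝ) + 1)) (by positivity) 3
  have h2 : Real.exp (b * ((N : ℝ) + 1)) = Real.exp b * (d : ℝ) ^ (c * N) := by
    rw [Real.rpow_def_of_pos hd0, ← Real.exp_add]
    congr 1
    rw [hb]; ring
  rw [h2] at h1
  have h3 : ((Nat.factorial 3 : ℕ) : ℝ) = 6 := by norm_num [Nat.factorial]
  rw [h3, div_le_iff₀ (by norm_num), mul_pow] at h1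
  rw [div_mul_eq_mul_div, le_div_iff₀ (by positivity)]
  calc ((N : ℝ) + 1) ^ 3 * b ^ 3 = b ^ 3 * ((N : ℝ) + 1) ^ 3 := by ring
    _ ≤ Real.exp b * (d : ℝ) ^ (c * N) * 6 := h1
    _ = 6 * Real.exp b * (d : ℝ) ^ (c * N) := by ring

end TransBeyond

open TransBeyond in
/-- BE-I2 (uses `Helper8.SparseTransversals.main`: points whose word falls below the tube at a first time `a ≤ (1+ε)N` are mapped
injectively by `T^a` into an interval of length `d^N m^(-δ N) + 2 B a`). -/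
theorem transversals_beyond {d m : ℕ} (hd : 2 ≤ d) (hdm : d < m) (hco : Nat.Coprime m d)
    (hm : (m : ℝ) ≤ (d : ℝ) ^ ((d : ℝ) / ((d : ℝ) - 1))) {η₁ ε δ : ℝ} (hη0 : 0 < η₁)
    (hη1 : η₁ < eta d m) (hε0 : 0 < ε) (hε1 : ε ≤ 1) (hδ : 0 < δ) :
    ∃ η₂ : ℝ, 0 < η₂ ∧ η₂ < eta d m ∧ ∀ r : ℤ → ℤ, Admissible d m r → Core d m r η₁ ε δ →
      ∃ C : ℝ, 0 < C ∧ ∀ S : Set ℤ, (∀ k, Set.InjOn ((T d m r)^[k]) S) → ∀ (X : ℤ) (Y : ℕ), 1 ≤ Y →
          ((S ∩ Set.Ico X (X + Y)).ncard : ℝ) ≤ C * (Y : ℝ) ^ η₂ := by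
  classical
  have hd0 : (0 : ℝ) < d := by positivity
  have hd1 : (1 : ℝ) < d := by exact_mod_cast (by omega : 1 < d)
  have hm0 : (0 : ℝ) < m := by exact_mod_cast (by omega : 0 < m)
  have hm1 : (1 : ℝ) < m := by exact_mod_cast (by omega : 1 < m)
  have hlm : 0 < Real.log m := Real.log_pos hm1
  have hld : 0 < Real.log d := Real.log_pos hd1
  set p := Real.log d / Real.log m with hp
  have hp0 : 0 < p := div_pos hld hlm
  have hη : 0 < eta d m := eta_pos hd hdm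
  have hη1' : eta d m < 1 := eta_lt_one hd hdm hco hm
  set η := eta d m with hηdef
  -- the exponents
  set θ : ℝ := max 0 (1 - δ / p) with hθ
  have hθ0 : 0 ≤ θ := le_max_left _ _
  have hθ1 : θ < 1 := by
    rw [hθ, max_lt_iff]
    exact ⟨one_pos, by have := div_pos hδ hp0; linarith⟩
  set η' : ℝ := η * (2 / (1 + θ)) with hη'
  have h2θ : 1 < 2 / (1 + θ) := by rw [lt_div_iff₀ (by linarith)]; linarith
  have hη'1 : η < η' := by
    rw [hη']; nlinarith
  have hη'0 : 0 < η' := hη.trans hη'1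
  have hη'2 : η' ≤ 2 := by
    have h1 : 2 / (1 + θ) ≤ 2 := by
      rw [div_le_iff₀ (by linarith)]; linarith
    rw [hη']; nlinarith
  have hθη : θ * η' < η := by
    have h1 : θ * (2 / (1 + θ)) < 1 := by
      rw [mul_div_assoc', div_lt_one (by linarith)]; linarith
    calc θ * η' = η * (θ * (2 / (1 + θ))) := by rw [hη']; ring
      _ < η * 1 := mul_lt_mul_of_pos_left h1 hη
      _ = η := mul_one _
  have hmax : max η₁ (θ * η') < η := max_lt hη1 hθη
  have hmax0 : 0 < max η₁ (θ * η') := lt_of_lt_of_le hη0 (le_max_left _ _)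
  set η₂ : ℝ := (max η₁ (θ * η') + η) / 2 with hη₂
  have hη₂1 : max η₁ (θ * η') < η₂ := by rw [hη₂]; linarith
  refine ⟨η₂, by linarith, by rw [hη₂]; linarith, fun r hr hcore => ?_⟩
  obtain ⟨C₁, hC₁0, hcore⟩ := hcore
  obtain ⟨C', -, -, hgen, -⟩ :=
    (Pool.Agent.Helper8.SparseTransversals.result d m hd hdm hco hm).2 η' hη'1 r hr
  -- a bound for the `r j`
  obtain ⟨B, hB⟩ : ∃ B : ℕ, ∀ j : ℤ, 0 < j → j < (d : ℤ) → |r j| ≤ B := by
    refine ⟨∑ j ∈ Finset.range d, (r j).natAbs, fun j hj1 hj2 => ?_⟩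
    obtain ⟨j', rfl⟩ := Int.eq_ofNat_of_zero_le hj1.le
    have h1 : (r (j' : ℤ)).natAbs ≤ ∑ j ∈ Finset.range d, (r j).natAbs :=
      Finset.single_le_sum (f := fun j : ℕ => (r (j : ℤ)).natAbs) (fun _ _ => Nat.zero_le _)
        (Finset.mem_range.2 (by exact_mod_cast hj2))
    rw [Int.abs_eq_natAbs]
    exact_mod_cast h1
  obtain ⟨K, hK0, hK⟩ := absorb hd (c := η₂ - θ * η') (by
    have := le_max_right η₁ (θ * η'); linarith)
  -- the bound on intervals of length `d ^ N`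
  set C₂ : ℝ := C₁ + 2 * |C'| * (4 * (B : ℝ) + 3) ^ 2 * K with hC₂
  have hC₂0 : 0 < C₂ := by positivity
  have hmain : ∀ (N : ℕ) (X : ℤ) (F : Finset ℤ), (∀ n ∈ F, X ≤ n ∧ n < X + (d : ℤ) ^ N) →
      (∀ k, Set.InjOn ((T d m r)^[k]) (F : Set ℤ)) → (F.card : ℝ) ≤ C₂ * (d : ℝ) ^ (η₂ * N) := by
    intro N X F hFX hinj
    set Ft := F.filter (fun n => ∀ a : ℕ, (a : ℝ) ≤ (1 + ε) * N →
      p * a - δ * N ≤ (sg (wd d m r a n) : ℝ)) with hFt
    set Fa : ℕ → Finset ℤ := fun a => F.filter (fun n =>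
      (sg (wd d m r a n) : ℝ) < p * a - δ * N ∧
        ∀ t < a, p * t - δ * N ≤ (sg (wd d m r t n) : ℝ)) with hFa
    have hcover : F ⊆ Ft ∪ (Finset.range (2 * N + 1)).biUnion Fa := by
      intro n hn
      rw [Finset.mem_union, Finset.mem_biUnion]
      by_cases h : ∀ a : ℕ, (a : ℝ) ≤ (1 + ε) * N → p * a - δ * N ≤ (sg (wd d m r a n) : ℝ)
      · left
        rw [hFt, Finset.mem_filter]
        exact ⟨hn, h⟩
      · right
        push Not at h
        have hex : ∃ a : ℕ, (sg (wd d m r a n) : ℝ) < p * a - δ * N := by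
          obtain ⟨a, -, ha⟩ := h
          exact ⟨a, ha⟩
        obtain ⟨a, ha1, ha2⟩ := h
        refine ⟨Nat.find hex, ?_, ?_⟩
        · have h1 := Nat.find_min' hex ha2
          have h2 : (a : ℝ) ≤ ((2 * N : ℕ) : ℝ) := by
            push_cast
            have : (0 : ℝ) ≤ N := Nat.cast_nonneg N
            nlinarith
          have h3 : a ≤ 2 * N := by exact_mod_cast h2
          rw [Finset.mem_range]
          omega
        · rw [hFa, Finset.mem_filter]
          refine ⟨hn, Nat.find_spec hex, fun t ht => ?_⟩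
          have := Nat.find_min hex ht
          push Not at this
          exact this
    have hFt1 : (Ft.card : ℝ) ≤ C₁ * (d : ℝ) ^ (η₁ * N) := by
      refine hcore N X Ft (fun n hn => ?_)
      rw [hFt, Finset.mem_filter] at hn
      exact ⟨(hFX n hn.1).1, (hFX n hn.1).2, hn.2⟩
    have hdθ : 1 ≤ (d : ℝ) ^ (θ * N) := Real.one_le_rpow hd1.le (by positivity)
    have hdm1 : (d : ℝ) ^ N * (m : ℝ) ^ (-(δ * N)) ≤ (d : ℝ) ^ (θ * N) := by
      have e1 : (m : ℝ) ^ (-(δ * N)) = (d : ℝ) ^ (-(δ / p * N)) := by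
        rw [Real.rpow_def_of_pos hm0, Real.rpow_def_of_pos hd0]
        congr 1
        rw [hp]
        field_simp
      rw [e1, ← Real.rpow_natCast, ← Real.rpow_add hd0]
      apply Real.rpow_le_rpow_of_exponent_le hd1.le
      have h1 : (1 - δ / p) * N ≤ θ * N :=
        mul_le_mul_of_nonneg_right (le_max_right _ _) (Nat.cast_nonneg N)
      linarith
    have hFa1 : ∀ a ∈ Finset.range (2 * N + 1), ((Fa a).card : ℝ) ≤
        |C'| * ((4 * (B : ℝ) + 3) * (N + 1)) ^ 2 * (d : ℝ) ^ (θ * η' * N) := by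
      intro a ha
      rw [Finset.mem_range] at ha
      have h1 := card_first hd hdm hr hB hη'0 hgen (D := δ * N) (by positivity) N X (Fa a)
        (fun n hn => hFX n (Finset.mem_filter.1 hn).1)
        (fun k => (hinj k).mono (by
          intro n hn
          exact (Finset.mem_filter.1 (Finset.mem_coe.1 hn)).1)) a
        (fun n hn => (Finset.mem_filter.1 hn).2.1) (fun n hn => (Finset.mem_filter.1 hn).2.2)
      have ha2 : (a : ℝ) ≤ 2 * N := by
        have : a ≤ 2 * N := by omega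
        exact_mod_cast this
      have hB0 : (0 : ℝ) ≤ B := Nat.cast_nonneg B
      have hN0 : (0 : ℝ) ≤ N := Nat.cast_nonneg N
      have h2 : (d : ℝ) ^ N * (m : ℝ) ^ (-(δ * N)) + 2 * B * a + 2 ≤
          ((4 * (B : ℝ) + 3) * (N + 1)) * (d : ℝ) ^ (θ * N) := by
        have h3 : 2 * (B : ℝ) * a ≤ 4 * B * N := by nlinarith
        have h4 : 0 ≤ 4 * (B : ℝ) * N + 4 * B + 3 * N + 2 := by positivity
        nlinarith [mul_le_mul_of_nonneg_left hdθ h4]
      have h5 : 1 ≤ (4 * (B : ℝ) + 3) * (N + 1) := by nlinarith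
      have h0 : 0 ≤ (d : ℝ) ^ N * (m : ℝ) ^ (-(δ * N)) + 2 * B * a + 2 := by positivity
      have h6 : ((d : ℝ) ^ N * (m : ℝ) ^ (-(δ * N)) + 2 * B * a + 2) ^ η' ≤
          ((4 * (B : ℝ) + 3) * (N + 1)) ^ 2 * (d : ℝ) ^ (θ * η' * N) := by
        calc ((d : ℝ) ^ N * (m : ℝ) ^ (-(δ * N)) + 2 * B * a + 2) ^ η'
            ≤ (((4 * (B : ℝ) + 3) * (N + 1)) * (d : ℝ) ^ (θ * N)) ^ η' :=
              Real.rpow_le_rpow h0 h2 hη'0.le
          _ = ((4 * (B : ℝ) + 3) * (N + 1)) ^ η' * (d : ℝ) ^ (θ * η' * N) := by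
              rw [Real.mul_rpow (by linarith) (by positivity), ← Real.rpow_mul hd0.le]
              congr 2
              ring
          _ ≤ ((4 * (B : ℝ) + 3) * (N + 1)) ^ (2 : ℝ) * (d : ℝ) ^ (θ * η' * N) :=
              mul_le_mul_of_nonneg_right (Real.rpow_le_rpow_of_exponent_le h5 hη'2) (by positivity)
          _ = _ := by rw [Real.rpow_two]
      calc ((Fa a).card : ℝ) ≤ _ := h1
        _ ≤ |C'| * (((4 * (B : ℝ) + 3) * (N + 1)) ^ 2 * (d : ℝ) ^ (θ * η' * N)) :=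
            mul_le_mul_of_nonneg_left h6 (abs_nonneg _)
        _ = _ := by ring
    have hsum : (F.card : ℝ) ≤ Ft.card + ∑ a ∈ Finset.range (2 * N + 1), ((Fa a).card : ℝ) := by
      have h1 := (Finset.card_le_card hcover).trans (Finset.card_union_le _ _)
      have h2 : ((Finset.range (2 * N + 1)).biUnion Fa).card ≤
          ∑ a ∈ Finset.range (2 * N + 1), (Fa a).card := Finset.card_biUnion_le
      exact_mod_cast h1.trans (Nat.add_le_add_left h2 _)
    have hN0 : (0 : ℝ) ≤ N := Nat.cast_nonneg N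
    have hη₁₂ : (d : ℝ) ^ (η₁ * N) ≤ (d : ℝ) ^ (η₂ * N) := by
      apply Real.rpow_le_rpow_of_exponent_le hd1.le
      have := le_max_left η₁ (θ * η')
      exact mul_le_mul_of_nonneg_right (by linarith) hN0
    have hsplit : (d : ℝ) ^ ((η₂ - θ * η') * N) * (d : ℝ) ^ (θ * η' * N) = (d : ℝ) ^ (η₂ * N) := by
      rw [← Real.rpow_add hd0]
      congr 1
      ring
    calc (F.card : ℝ) ≤ Ft.card + ∑ a ∈ Finset.range (2 * N + 1), ((Fa a).card : ℝ) := hsum
      _ ≤ C₁ * (d : ℝ) ^ (η₁ * N) + ∑ a ∈ Finset.range (2 * N + 1),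
          |C'| * ((4 * (B : ℝ) + 3) * (N + 1)) ^ 2 * (d : ℝ) ^ (θ * η' * N) :=
          add_le_add hFt1 (Finset.sum_le_sum hFa1)
      _ = C₁ * (d : ℝ) ^ (η₁ * N) + (2 * N + 1) *
          (|C'| * ((4 * (B : ℝ) + 3) * (N + 1)) ^ 2 * (d : ℝ) ^ (θ * η' * N)) := by
          rw [Finset.sum_const, Finset.card_range, nsmul_eq_mul]; push_cast; ring
      _ ≤ C₁ * (d : ℝ) ^ (η₂ * N) + (2 * (N + 1)) *
          (|C'| * ((4 * (B : ℝ) + 3) * (N + 1)) ^ 2 * (d : ℝ) ^ (θ * η' * N)) := by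
          refine add_le_add (mul_le_mul_of_nonneg_left hη₁₂ hC₁0.le) ?_
          refine mul_le_mul_of_nonneg_right (by linarith) (by positivity)
      _ = C₁ * (d : ℝ) ^ (η₂ * N) + (2 * |C'| * (4 * (B : ℝ) + 3) ^ 2) *
          (((N : ℝ) + 1) ^ 3 * (d : ℝ) ^ (θ * η' * N)) := by ring
      _ ≤ C₁ * (d : ℝ) ^ (η₂ * N) + (2 * |C'| * (4 * (B : ℝ) + 3) ^ 2) *
          ((K * (d : ℝ) ^ ((η₂ - θ * η') * N)) * (d : ℝ) ^ (θ * η' * N)) := by
          refine add_le_add le_rfl (mul_le_mul_of_nonneg_left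
            (mul_le_mul_of_nonneg_right (hK N) (by positivity)) (by positivity))
      _ = C₂ * (d : ℝ) ^ (η₂ * N) := by
          rw [mul_assoc K, hsplit, hC₂]; ring
  -- intervals of arbitrary length
  have hη₂0 : 0 < η₂ := by linarith
  refine ⟨C₂ * (d : ℝ) ^ η₂, by positivity, fun S hS X Y hY => ?_⟩
  set N := Nat.log d Y + 1 with hN
  have hY1 : Y < d ^ N := Nat.lt_pow_succ_log_self (by omega) Y
  have hY2 : d ^ N ≤ d * Y := by
    rw [hN, pow_succ, mul_comm]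
    exact Nat.mul_le_mul_left d (Nat.pow_log_le_self d (by omega))
  have hfin : (S ∩ Set.Ico X (X + Y)).Finite := (Set.finite_Ico X (X + Y)).subset
    Set.inter_subset_right
  have h1 := hmain N X hfin.toFinset (by
    intro n hn
    rw [Set.Finite.mem_toFinset] at hn
    have h2 := hn.2
    rw [Set.mem_Ico] at h2
    have h3 : (Y : ℤ) < (d : ℤ) ^ N := by exact_mod_cast hY1
    exact ⟨h2.1, by linarith⟩) (fun k => (hS k).mono (by
      intro n hn
      rw [Finset.mem_coe, Set.Finite.mem_toFinset] at hn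
      exact hn.1))
  rw [← Set.ncard_eq_toFinset_card _ hfin] at h1
  refine h1.trans ?_
  have h2 : (d : ℝ) ^ (η₂ * N) ≤ (d : ℝ) ^ η₂ * (Y : ℝ) ^ η₂ := by
    rw [← Real.mul_rpow hd0.le (by positivity), mul_comm η₂, Real.rpow_mul hd0.le,
      Real.rpow_natCast]
    apply Real.rpow_le_rpow (by positivity) _ hη₂0.le
    exact_mod_cast hY2
  calc C₂ * (d : ℝ) ^ (η₂ * N) ≤ C₂ * ((d : ℝ) ^ η₂ * (Y : ℝ) ^ η₂) :=
        mul_le_mul_of_nonneg_left h2 hC₂0.le
    _ = C₂ * (d : ℝ) ^ η₂ * (Y : ℝ) ^ η₂ := by ring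

end Pool.Agent.Helper28.BE
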