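import Pool.Agent.Helper28.BE.Basic

/-!
# Transfer of white chunks from frequencies to residues (block BE-E2)
-/

set_option autoImplicit false

namespace Pool.Agent.Helper28.BE

open Pool.Agent.Helper68.Moeller Pool.Agent.Helper52.Tao

theorem transfer_black {d m b Δ M : ℕ} (hm : 2 ≤ m) (hM : 0 < M) {μ g₀ : ℤ}
    (hμ : (M : ℤ) ∣ m * μ - 1) {ε : ℝ} (h : ℤ) (S e j : ℕ)
    (hT : (d : ℝ) ^ (b * j) ≤ ε * (m : ℝ) ^ (Δ + 1 + S)) (z : ℤ)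
    (hz : |((g₀ * h * μ ^ (S + 1) * (d : ℤ) ^ (b * j) : ℤ) : ℝ) / M - z| < ε) :
    ∃ z' : ℤ, |((⌊(m : ℝ) ^ (Δ + (S + 1 + e)) *
      Int.fract (((g₀ * h * μ ^ (S + 1 + e) : ℤ) : ℝ) / M)⌋ : ℤ) : ℝ) * (d : ℝ) ^ (b * j) /
        (m : ℝ) ^ (Δ + 1 + S) - z'| < 2 * ε := by
  have hm0 : (0 : ℝ) < m := by
    have : 0 < m := by omega
    exact_mod_cast this
  have hM0 : (0 : ℝ) < M := by exact_mod_cast hM
  have hμe : (M : ℤ) ∣ ((m : ℤ) * μ) ^ e - 1 := by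
    have h1 := sub_dvd_pow_sub_pow ((m : ℤ) * μ) 1 e
    rw [one_pow] at h1
    exact hμ.trans h1
  obtain ⟨c, hc⟩ := hμe
  set α : ℝ := ((g₀ * h * μ ^ (S + 1 + e) : ℤ) : ℝ) / M with hα
  set ρ : ℤ := ⌊(m : ℝ) ^ (Δ + (S + 1 + e)) * Int.fract α⌋ with hρ
  have hr1 : (ρ : ℝ) ≤ (m : ℝ) ^ (Δ + (S + 1 + e)) * Int.fract α := Int.floor_le _
  have hr2 : (m : ℝ) ^ (Δ + (S + 1 + e)) * Int.fract α < ρ + 1 := Int.lt_floor_add_one _
  have hD0 : (0 : ℝ) < (m : ℝ) ^ (Δ + 1 + S) := by positivity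
  have hdj : (0 : ℝ) ≤ (d : ℝ) ^ (b * j) := by positivity
  -- the first estimate
  have h1 : |(ρ : ℝ) * (d : ℝ) ^ (b * j) / (m : ℝ) ^ (Δ + 1 + S) -
      (m : ℝ) ^ e * (d : ℝ) ^ (b * j) * Int.fract α| ≤ ε := by
    have h2 : (m : ℝ) ^ e * (d : ℝ) ^ (b * j) * Int.fract α =
        ((m : ℝ) ^ (Δ + (S + 1 + e)) * Int.fract α) * (d : ℝ) ^ (b * j) /
          (m : ℝ) ^ (Δ + 1 + S) := by
      have h3 : (m : ℝ) ^ (Δ + (S + 1 + e)) = (m : ℝ) ^ (Δ + 1 + S) * (m : ℝ) ^ e := by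
        rw [← pow_add]; congr 1; ring
      rw [h3]
      field_simp
    rw [h2, ← sub_div, ← sub_mul, abs_div, abs_mul, abs_of_pos hD0, abs_of_nonneg hdj,
      div_le_iff₀ hD0]
    have h4 : |(ρ : ℝ) - (m : ℝ) ^ (Δ + (S + 1 + e)) * Int.fract α| ≤ 1 := by
      rw [abs_le]; constructor <;> linarith
    calc |(ρ : ℝ) - (m : ℝ) ^ (Δ + (S + 1 + e)) * Int.fract α| * (d : ℝ) ^ (b * j)
        ≤ 1 * (d : ℝ) ^ (b * j) := mul_le_mul_of_nonneg_right h4 hdj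
      _ ≤ _ := by rw [one_mul]; exact hT
  -- the second one
  have h5 : (m : ℝ) ^ e * (d : ℝ) ^ (b * j) * Int.fract α =
      ((g₀ * h * μ ^ (S + 1) * (d : ℤ) ^ (b * j) : ℤ) : ℝ) / M +
        ((g₀ * h * μ ^ (S + 1) * (d : ℤ) ^ (b * j) * c -
          (m : ℤ) ^ e * (d : ℤ) ^ (b * j) * ⌊α⌋ : ℤ) : ℝ) := by
    have h6 : Int.fract α = α - ⌊α⌋ := rfl
    have h7 : (((m : ℤ) * μ) ^ e : ℤ) = 1 + M * c := by linarith
    have h8 : ((m : ℝ) * (μ : ℝ)) ^ e = 1 + M * c := by exact_mod_cast h7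
    have h9 : (m : ℝ) ^ e * α = ((g₀ * h * μ ^ (S + 1) : ℤ) : ℝ) * (1 + M * c) / M := by
      rw [← h8, hα]
      push_cast
      rw [mul_pow, pow_add (μ : ℝ) (S + 1) e]
      ring
    have h10 : (m : ℝ) ^ e * (d : ℝ) ^ (b * j) * Int.fract α =
        ((m : ℝ) ^ e * α) * (d : ℝ) ^ (b * j) - (m : ℝ) ^ e * (d : ℝ) ^ (b * j) * ⌊α⌋ := by
      rw [h6]; ring
    rw [h10, h9]
    push_cast
    field_simp
    ring
  refine ⟨z + (g₀ * h * μ ^ (S + 1) * (d : ℤ) ^ (b * j) * c -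
          (m : ℤ) ^ e * (d : ℤ) ^ (b * j) * ⌊α⌋), ?_⟩
  have h11 : (ρ : ℝ) * (d : ℝ) ^ (b * j) / (m : ℝ) ^ (Δ + 1 + S) -
      ((z + (g₀ * h * μ ^ (S + 1) * (d : ℤ) ^ (b * j) * c -
          (m : ℤ) ^ e * (d : ℤ) ^ (b * j) * ⌊α⌋) : ℤ) : ℝ) =
      ((ρ : ℝ) * (d : ℝ) ^ (b * j) / (m : ℝ) ^ (Δ + 1 + S) -
        (m : ℝ) ^ e * (d : ℝ) ^ (b * j) * Int.fract α) +
      (((g₀ * h * μ ^ (S + 1) * (d : ℤ) ^ (b * j) : ℤ) : ℝ) / M - z) := by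
    rw [h5, Int.cast_add]
    ring
  rw [h11]
  calc _ ≤ _ := abs_add_le _ _
    _ < ε + ε := add_lt_add_of_le_of_lt h1 hz
    _ = 2 * ε := by ring

/-- BE-E2 -/
theorem wr_le_wh {d m b Δ M : ℕ} (hm : 2 ≤ m) (hM : 0 < M) {μ g₀ : ℤ}
    (hμ : (M : ℤ) ∣ m * μ - 1) {ε : ℝ} (hε : 0 < ε) (G : List ℕ)
    (hT : ∀ G' : List ℕ, G' <:+ G → (d : ℝ) ^ (b * G'.length) ≤ ε * (m : ℝ) ^ (Δ + 1 + G'.sum))
    (h : ℤ) :
    wr d m b Δ ε ⌊(m : ℝ) ^ (Δ + G.sum) *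
      Int.fract (((g₀ * h * μ ^ G.sum : ℤ) : ℝ) / M)⌋ G ≤ wh d b M ε μ g₀ h G := by
  classical
  have key : ∀ G' : List ℕ, G' <:+ G → wr d m b Δ ε ⌊(m : ℝ) ^ (Δ + G.sum) *
      Int.fract (((g₀ * h * μ ^ G.sum : ℤ) : ℝ) / M)⌋ G' ≤ wh d b M ε μ g₀ h G' := by
    intro G'
    induction G' with
    | nil => intro _; exact le_rfl
    | cons g G' ih =>
      intro hsuf
      have hsuf' : G' <:+ G := (List.suffix_cons g G').trans hsuf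
      have hind : (if Proper b g ∧ ∀ z : ℤ,
          2 * ε ≤ |((⌊(m : ℝ) ^ (Δ + G.sum) *
            Int.fract (((g₀ * h * μ ^ G.sum : ℤ) : ℝ) / M)⌋ : ℤ) : ℝ) *
            (d : ℝ) ^ (b * G'.length) / (m : ℝ) ^ (Δ + 1 + G'.sum) - z| then 1 else 0) ≤
          (if Proper b g ∧ ∀ z : ℤ,
            ε ≤ |((g₀ * h * μ ^ (G'.sum + 1) * (d : ℤ) ^ (b * G'.length) : ℤ) : ℝ) / M - z|
            then 1 else 0) := by
        by_cases h1 : Proper b g ∧ ∀ z : ℤ,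
            ε ≤ |((g₀ * h * μ ^ (G'.sum + 1) * (d : ℤ) ^ (b * G'.length) : ℤ) : ℝ) / M - z|
        · rw [if_pos h1]
          split_ifs <;> omega
        · rw [if_neg h1, if_neg]
          rintro ⟨h2, h3⟩
          apply h1
          refine ⟨h2, ?_⟩
          by_contra hcon
          push Not at hcon
          obtain ⟨z, hz⟩ := hcon
          have hle : G'.sum + 1 ≤ G.sum := by
            obtain ⟨u, hu⟩ := hsuf
            rw [← hu, List.sum_append, List.sum_cons]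
            have := h2.1
            omega
          obtain ⟨e, he⟩ := Nat.exists_eq_add_of_le hle
          obtain ⟨z', hz'⟩ := transfer_black hm hM hμ h G'.sum e G'.length (hT G' hsuf') z hz
          rw [← he] at hz'
          exact absurd (h3 z') (not_le.mpr hz')
      have h4 := ih hsuf'
      unfold wr wh
      exact add_le_add hind h4
  exact key G List.suffix_rfl

end Pool.Agent.Helper28.BE
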