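import Pool.Agent.Helper28.BE.Basic

/-!
Facts on the words `wd` of integers.
-/

set_option autoImplicit false

namespace Pool.Agent.Helper28.BE

open Pool.Agent.Helper68.Moeller Pool.Agent.Helper52.Tao

variable {d m : ℕ} {r : ℤ → ℤ}

theorem wd_add (d m : ℕ) (r : ℤ → ℤ) (s t : ℕ) (n : ℤ) :
    wd d m r (s + t) n = wd d m r s ((T d m r)^[t] n) ++ wd d m r t n := by
  induction s with
  | zero => rw [Nat.zero_add, wd, List.nil_append]
  | succ s ih =>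
    rw [Nat.add_right_comm, wd, wd, List.cons_append, ih, Function.iterate_add_apply]

/-- the words determine the residue -/
theorem dvd_of_wd_eq (hd : 2 ≤ d) (hco : Nat.Coprime m d) (hr : Admissible d m r) {t : ℕ} {n n' : ℤ}
    (h : wd d m r t n = wd d m r t n') : (d : ℤ) ^ t ∣ n - n' := by
  have h1 := wd_spec hd hr t n
  have h2 := wd_spec hd hr t n'
  rw [← h] at h2
  have h3 : (d : ℤ) ^ t ∣ (m : ℤ) ^ sg (wd d m r t n) * (n - n') :=
    ⟨(T d m r)^[t] n - (T d m r)^[t] n', by rw [mul_sub, mul_sub, h1, h2]; ring⟩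
  have hcop : IsCoprime ((d : ℤ) ^ t) ((m : ℤ) ^ sg (wd d m r t n)) :=
    IsCoprime.pow ((Nat.isCoprime_iff_coprime.mpr hco).symm)
  exact hcop.dvd_of_dvd_mul_left h3

theorem eq_of_dvd_of_lt {D : ℤ} {X n n' : ℤ} (h : D ∣ n - n') (h1 : X ≤ n) (h2 : n < X + D)
    (h3 : X ≤ n') (h4 : n' < X + D) : n = n' := by
  have h5 : |n - n'| < D := by rw [abs_lt]; constructor <;> linarith
  have := Int.eq_zero_of_abs_lt_dvd h h5
  linarith

/-- `M ∣ m μ - 1` implies `M ∣ m^k μ^k - 1`. -/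
theorem inv_pow {M m' μ : ℤ} (hμ : M ∣ m' * μ - 1) (k : ℕ) : M ∣ m' ^ k * μ ^ k - 1 := by
  rw [← mul_pow]
  have := sub_dvd_pow_sub_pow (m' * μ) 1 k
  rw [one_pow] at this
  exact hμ.trans this

/-- Two points with the same counts and the same future have close phases. -/
theorem close_of_wd_eq (hd : 2 ≤ d) (hco : Nat.Coprime m d) (hr : Admissible d m r) {N i k Q : ℕ}
    (hQ1 : 1 ≤ Q) (hQ : 8 * Q ≤ d ^ i) {μ : ℤ} (hμ : ((d ^ (N + i) : ℕ) : ℤ) ∣ m * μ - 1) {n n' : ℤ}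
    (hn : |n - n'| < (d : ℤ) ^ N)
    (hk : sg (wd d m r N n) = k) (hk' : sg (wd d m r N n') = k)
    (hw : wd d m r i ((T d m r)^[N] n) = wd d m r i ((T d m r)^[N] n')) :
    ∃ z : ℤ, |((μ ^ k * Off d m r (wd d m r N n) : ℤ) : ℝ) / ((d ^ (N + i) : ℕ) : ℝ) -
      ((μ ^ k * Off d m r (wd d m r N n') : ℤ) : ℝ) / ((d ^ (N + i) : ℕ) : ℝ) - z| ≤
        1 / (8 * (Q : ℝ)) := by
  have h1 := wd_spec hd hr N n
  have h2 := wd_spec hd hr N n'
  rw [hk] at h1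
  rw [hk'] at h2
  set O := Off d m r (wd d m r N n)
  set O' := Off d m r (wd d m r N n')
  obtain ⟨c, hc⟩ := dvd_of_wd_eq hd hco hr hw
  obtain ⟨e, he⟩ := inv_pow hμ k
  push_cast at he
  -- μ^k (O - O') = (n - n') + M * z
  have h3 : μ ^ k * (O - O') = (n - n') + (d : ℤ) ^ (N + i) * (e * (n - n') - μ ^ k * c) := by
    have h4 : O - O' = (m : ℤ) ^ k * (n - n') - (d : ℤ) ^ N * ((d : ℤ) ^ i * c) := by
      rw [← hc]; linear_combination h1 - h2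
    rw [h4, mul_sub]
    have h5 : μ ^ k * ((m : ℤ) ^ k * (n - n')) = ((m : ℤ) ^ k * μ ^ k - 1) * (n - n') + (n - n') := by
      ring
    rw [h5, he, pow_add]
    ring
  refine ⟨e * (n - n') - μ ^ k * c, ?_⟩
  have hd0 : (0 : ℝ) < d := by exact_mod_cast (by omega : 0 < d)
  have hM : (0 : ℝ) < ((d ^ (N + i) : ℕ) : ℝ) := by push_cast; positivity
  have h6 : ((μ ^ k * O : ℤ) : ℝ) / ((d ^ (N + i) : ℕ) : ℝ) - ((μ ^ k * O' : ℤ) : ℝ) / ((d ^ (N + i) : ℕ) : ℝ) -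
      ((e * (n - n') - μ ^ k * c : ℤ) : ℝ) = ((n - n' : ℤ) : ℝ) / ((d ^ (N + i) : ℕ) : ℝ) := by
    have h7 : (((μ ^ k * (O - O') : ℤ)) : ℝ) =
        (((n - n') + (d : ℤ) ^ (N + i) * (e * (n - n') - μ ^ k * c) : ℤ) : ℝ) := by rw [h3]
    field_simp
    push_cast at h7 ⊢
    linear_combination h7
  rw [h6, abs_div, abs_of_pos hM]
  have h8 : |((n - n' : ℤ) : ℝ)| ≤ (d : ℝ) ^ N := by
    have : (|n - n'| : ℤ) ≤ (d : ℤ) ^ N := hn.le
    have h9 : ((|n - n'| : ℤ) : ℝ) ≤ (((d : ℤ) ^ N : ℤ) : ℝ) := by exact_mod_cast this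
    rw [Int.cast_abs] at h9
    push_cast at h9 ⊢
    exact h9
  have hQ' : (8 * (Q : ℝ)) ≤ (d : ℝ) ^ i := by exact_mod_cast hQ
  have hQ0 : (0 : ℝ) < Q := by exact_mod_cast hQ1
  rw [div_le_div_iff₀ hM (by positivity), one_mul]
  calc |((n - n' : ℤ) : ℝ)| * (8 * (Q : ℝ)) ≤ (d : ℝ) ^ N * (d : ℝ) ^ i :=
        mul_le_mul h8 hQ' (by positivity) (by positivity)
    _ = ((d ^ (N + i) : ℕ) : ℝ) := by push_cast; rw [pow_add]

end Pool.Agent.Helper28.BE
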